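import Pool.Agent.Lib_MP_e9ccd1_s.ACrInt

/-!
# MP_e9ccd1_an, planar arcs: frequencies perpendicular to the arc, average over position and length (piece ACRW)
-/

set_option autoImplicit false

open MeasureTheory Set Filter Topology
open scoped RealInnerProductSpace
open Pool.Agent.CurveSpec (ex BM norm_ex ex_zero ex_add conj_ex continuous_ex)

namespace Pool.Agent.LoopSpec

/-- (ACRINT) Fubini: `Gw` is continuous (`Gw_cont`) and `l^(-2)` is continuous on `[1/X, L]`. -/
theorem Ww_fubini {ψ : ℝ → ℝ} (hψ : Continuous ψ) {X L t1 t2 : ℝ} (hX : 0 < X) (hXL : 1 / X ≤ L)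
    (h12 : t1 ≤ t2) :
    ∫ t in t1..t2, Ww ψ X L t = ∫ l in (1 / X)..L, (∫ t in t1..t2, Gw ψ t l) / l ^ 2 := by
  have h0X : 0 < 1 / X := by positivity
  -- a globally continuous function which agrees with `Gw / l²` on the domain
  let F : ℝ → ℝ → ℝ := fun t l => Gw ψ t l / (max l (1 / X)) ^ 2
  have hFc : Continuous (Function.uncurry F) := by
    have h1 : Continuous fun p : ℝ × ℝ => (max p.2 (1 / X)) ^ 2 :=
      (continuous_snd.max continuous_const).pow 2
    exact (Gw_cont hψ).div h1 fun p => pow_ne_zero _ (lt_of_lt_of_le h0X (le_max_right _ _)).ne'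
  have hFe : ∀ t, ∀ l ∈ uIcc (1 / X) L, F t l = Gw ψ t l / l ^ 2 := by
    intro t l hl
    rw [uIcc_of_le hXL] at hl
    simp only [F]
    rw [max_eq_left hl.1]
  have hint : IntegrableOn (Function.uncurry F) (uIoc t1 t2 ×ˢ uIoc (1 / X) L) := by
    have h2 : IntegrableOn (Function.uncurry F) (Icc t1 t2 ×ˢ Icc (1 / X) L) :=
      hFc.continuousOn.integrableOn_compact (isCompact_Icc.prod isCompact_Icc)
    rw [uIoc_of_le h12, uIoc_of_le hXL]
    exact h2.mono_set (Set.prod_mono Ioc_subset_Icc_self Ioc_subset_Icc_self)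
  have e1 : ∫ t in t1..t2, Ww ψ X L t = ∫ t in t1..t2, ∫ l in (1 / X)..L, F t l := by
    apply intervalIntegral.integral_congr
    intro t _
    show Ww ψ X L t = ∫ l in (1 / X)..L, F t l
    unfold Ww
    apply intervalIntegral.integral_congr
    intro l hl
    exact (hFe t l hl).symm
  rw [e1, intervalIntegral_intervalIntegral_swap hint]
  apply intervalIntegral.integral_congr
  intro l hl
  show ∫ t in t1..t2, F t l = (∫ t in t1..t2, Gw ψ t l) / l ^ 2
  rw [← intervalIntegral.integral_div]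
  apply intervalIntegral.integral_congr
  intro t _
  exact hFe t l hl

/-- (ACRINT) Proof: `Ww_fubini` and `cr_int`, `∫_{1/X}^L dl / l = log (X L)`. -/
theorem cr_Ww (c : ℝ) (hc : 0 < c) :
    ∃ C > 0, ∀ (a b K r s0 : ℝ) (ψ ψ1 ψ2 : ℝ → ℝ), 0 < r → Ph a b K r ψ ψ1 ψ2 → s0 ∈ Icc a b →
      ψ1 s0 = 0 → ((∀ t ∈ Icc a b, c * r ≤ ψ2 t) ∨ (∀ t ∈ Icc a b, ψ2 t ≤ -(c * r))) →
      ∀ (t1 t2 X L : ℝ), a ≤ t1 → t1 ≤ t2 → 0 < X → 1 / X ≤ L → t2 + L ≤ b →
      ∫ t in t1..t2, Ww ψ X L t ≤ C * Real.log (X * L) / r := by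
  obtain ⟨C, hC, hCr⟩ := cr_int c hc
  refine ⟨C, hC, ?_⟩
  intro a b K r s0 ψ ψ1 ψ2 hr h hs h0 hsg t1 t2 X L ha h12 hX hXL hb
  have h0X : 0 < 1 / X := by positivity
  have hL : 0 < L := lt_of_lt_of_le h0X hXL
  rw [Ww_fubini h.cont hX hXL h12]
  have hGc : Continuous fun l : ℝ => ∫ t in t1..t2, Gw ψ t l := by
    have h1 : Continuous (Function.uncurry fun l t : ℝ => Gw ψ t l) :=
      (Gw_cont h.cont).comp (continuous_snd.prodMk continuous_fst)
    exact intervalIntegral.continuous_parametric_intervalIntegral_of_continuous' h1 t1 t2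
  have hi1 : IntervalIntegrable (fun l : ℝ => (∫ t in t1..t2, Gw ψ t l) / l ^ 2) volume (1 / X)
      L := by
    apply ContinuousOn.intervalIntegrable
    rw [uIcc_of_le hXL]
    exact hGc.continuousOn.div (continuousOn_pow 2) fun l hl =>
      pow_ne_zero _ (lt_of_lt_of_le h0X hl.1).ne'
  have hi2 : IntervalIntegrable (fun l : ℝ => C / r * l⁻¹) volume (1 / X) L := by
    apply ContinuousOn.intervalIntegrable
    rw [uIcc_of_le hXL]
    exact continuousOn_const.mul (continuousOn_id.inv₀ fun l hl =>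
      (lt_of_lt_of_le h0X hl.1).ne')
  have h2 : ∫ l in (1 / X)..L, (∫ t in t1..t2, Gw ψ t l) / l ^ 2 ≤
      ∫ l in (1 / X)..L, C / r * l⁻¹ := by
    apply intervalIntegral.integral_mono_on hXL hi1 hi2
    intro l hl
    have hl0 : 0 < l := lt_of_lt_of_le h0X hl.1
    have h3 := hCr a b K r s0 ψ ψ1 ψ2 hr h hs h0 hsg t1 t2 l ha h12 hl0 (by linarith [hl.2])
    rw [div_le_iff₀ (by positivity)]
    refine h3.trans (le_of_eq ?_)
    field_simp
  refine h2.trans (le_of_eq ?_)
  rw [intervalIntegral.integral_const_mul, integral_inv_of_pos h0X hL]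
  have h4 : L / (1 / X) = X * L := by field_simp
  rw [h4]
  ring

end Pool.Agent.LoopSpec
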