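import Pool.Agent.Lib_MP_e9ccd1_s.Base

/-!
# MP_e9ccd1_an, space curves: lower bound at a nondegenerate stationary point (piece LOWER)
-/

set_option autoImplicit false

open MeasureTheory Set Filter Topology
open scoped RealInnerProductSpace
open Pool.Agent.CurveSpec (ex BM norm_ex ex_zero ex_add conj_ex continuous_ex)

namespace Pool.Agent.LoopSpec

namespace LowerAux

/-- bounds for increments -/
theorem incr_ge {f f1 : ℝ → ℝ} {b k : ℝ} (h : ∀ t ∈ Icc 0 b, HasDerivAt f (f1 t) t)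
    (h0 : f 0 = 0) (hk : ∀ t ∈ Icc 0 b, k ≤ f1 t) {t : ℝ} (ht : t ∈ Icc 0 b) : k * t ≤ f t := by
  have h3 : (0:ℝ) ∈ Icc 0 b := ⟨le_rfl, ht.1.trans ht.2⟩
  have := (convex_Icc 0 b).mul_sub_le_image_sub_of_le_deriv
    (fun u hu => (h u hu).continuousAt.continuousWithinAt)
    (fun u hu => (h u (interior_subset hu)).differentiableAt.differentiableWithinAt)
    (fun u hu => by
      rw [(h u (interior_subset hu)).deriv]
      exact hk u (interior_subset hu)) 0 h3 t ht ht.1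
  rw [h0] at this
  linarith

theorem incr_le {f f1 : ℝ → ℝ} {b k : ℝ} (h : ∀ t ∈ Icc 0 b, HasDerivAt f (f1 t) t)
    (h0 : f 0 = 0) (hk : ∀ t ∈ Icc 0 b, f1 t ≤ k) {t : ℝ} (ht : t ∈ Icc 0 b) : f t ≤ k * t := by
  have := incr_ge (f := fun t => -f t) (f1 := fun t => -f1 t) (k := -k) (fun t ht => (h t ht).neg)
    (by simp [h0]) (fun t ht => by linarith [hk t ht]) ht
  linarith

/-- quadratic bounds -/
theorem quad_ge {f f1 : ℝ → ℝ} {b k : ℝ} (h : ∀ t ∈ Icc 0 b, HasDerivAt f (f1 t) t)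
    (h0 : f 0 = 0) (hk : ∀ t ∈ Icc 0 b, k * t ≤ f1 t) {t : ℝ} (ht : t ∈ Icc 0 b) :
    k * t ^ 2 / 2 ≤ f t := by
  have := incr_ge (f := fun t => f t - k * t ^ 2 / 2) (f1 := fun t => f1 t - k * t) (k := 0)
    (fun t ht => by
      have h3 : HasDerivAt (fun t : ℝ => k * t ^ 2 / 2) (k * t) t := by
        have := ((hasDerivAt_pow 2 t).const_mul k).div_const 2
        refine this.congr_deriv ?_
        norm_num
        ring
      exact (h t ht).sub h3)
    (by simp [h0]) (fun t ht => by linarith [hk t ht]) ht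
  linarith

theorem quad_le {f f1 : ℝ → ℝ} {b k : ℝ} (h : ∀ t ∈ Icc 0 b, HasDerivAt f (f1 t) t)
    (h0 : f 0 = 0) (hk : ∀ t ∈ Icc 0 b, f1 t ≤ k * t) {t : ℝ} (ht : t ∈ Icc 0 b) :
    f t ≤ k * t ^ 2 / 2 := by
  have := quad_ge (f := fun t => -f t) (f1 := fun t => -f1 t) (k := -k) (fun t ht => (h t ht).neg)
    (by simp [h0]) (fun t ht => by linarith [hk t ht]) ht
  linarith

end LowerAux

/-- (LOWER) One-sided bound for the imaginary part. Proof: `F u = (1 - cos (2π ψ u))/(2π ψ1 u)`, `F 0 = 0`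
(value of `0/0` in Lean) is continuous on `[0, b]` (`|F u| ≤ π ψ(u)^2/ψ1(u) → 0`) and
`F' = sin (2π ψ) - (1 - cos (2π ψ)) ψ2/(2π ψ1^2)` on `(0, b]`. So
`∫_0^b sin (2π ψ) = F b + ∫_0^b (1 - cos (2π ψ)) ψ2/(2π ψ1^2) ≥ ∫_{α/√ρ}^{2α/√ρ} (same)`, with
`α = 1/(2√M)` (all terms are nonnegative, `ψ ≥ 0`, `ψ1 ≥ 0`); there `m ρ u²/2 ≤ ψ u ≤ M ρ u²/2 ≤ 1/2`,
`1 - cos (2π ψ) = 2 sin² (π ψ) ≥ 8 ψ²`, `m ρ u ≤ ψ1 u ≤ M ρ u`, so the integrand is at least
`const * (1/(ρ u²))` and the integral at least `c/√ρ`, `c = c(m, M)`. -/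
theorem lower_half (m M : ℝ) (hm : 0 < m) (hmM : m ≤ M) :
    ∃ c > 0, ∀ ρ > 0, ∀ (ψ ψ1 ψ2 : ℝ → ℝ) (b : ℝ), 1 / Real.sqrt (M * ρ) ≤ b →
      (∀ t ∈ Icc 0 b, HasDerivAt ψ (ψ1 t) t) → (∀ t ∈ Icc 0 b, HasDerivAt ψ1 (ψ2 t) t) →
      ContinuousOn ψ2 (Icc 0 b) → ψ 0 = 0 → ψ1 0 = 0 →
      (∀ t ∈ Icc 0 b, m * ρ ≤ ψ2 t ∧ ψ2 t ≤ M * ρ) →
      c / Real.sqrt ρ ≤ ∫ t in (0:ℝ)..b, Real.sin (2 * Real.pi * ψ t) := by
  have hM : 0 < M := hm.trans_le hmM
  have hpi3 := Real.pi_gt_three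
  have hpi := Real.pi_pos
  have hsM : 0 < Real.sqrt M := Real.sqrt_pos.mpr hM
  refine ⟨m ^ 3 / (8 * Real.pi * M ^ 3 * Real.sqrt M), by positivity, ?_⟩
  intro ρ hρ ψ ψ1 ψ2 b hb h1 h2 c2 hψ0 hψ10 hbd
  have hMρ : 0 < M * ρ := by positivity
  have hmρ : 0 < m * ρ := by positivity
  have hs : 0 < Real.sqrt (M * ρ) := Real.sqrt_pos.mpr hMρ
  have hss : Real.sqrt (M * ρ) ^ 2 = M * ρ := Real.sq_sqrt hMρ.le
  set β : ℝ := 1 / (2 * Real.sqrt (M * ρ)) with hβ
  have hβ0 : 0 < β := by positivity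
  have h2β : 2 * β ≤ b := by
    refine le_trans (le_of_eq ?_) hb
    rw [hβ]; field_simp
  have hβ2 : M * ρ * β ^ 2 = 1 / 4 := by
    rw [hβ, div_pow, mul_pow, hss]
    field_simp
    norm_num
  have hb0 : 0 < b := by linarith
  -- bounds
  have l1 : ∀ t ∈ Icc 0 b, m * ρ * t ≤ ψ1 t := fun t ht =>
    LowerAux.incr_ge h2 hψ10 (fun u hu => (hbd u hu).1) ht
  have u1 : ∀ t ∈ Icc 0 b, ψ1 t ≤ M * ρ * t := fun t ht =>
    LowerAux.incr_le h2 hψ10 (fun u hu => (hbd u hu).2) ht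
  have l0 : ∀ t ∈ Icc 0 b, m * ρ * t ^ 2 / 2 ≤ ψ t := fun t ht =>
    LowerAux.quad_ge h1 hψ0 l1 ht
  have u0 : ∀ t ∈ Icc 0 b, ψ t ≤ M * ρ * t ^ 2 / 2 := fun t ht =>
    LowerAux.quad_le h1 hψ0 u1 ht
  have cψ : ContinuousOn ψ (Icc 0 b) := fun t ht => (h1 t ht).continuousAt.continuousWithinAt
  have cψ1 : ContinuousOn ψ1 (Icc 0 b) := fun t ht => (h2 t ht).continuousAt.continuousWithinAt
  have csin : ContinuousOn (fun t => Real.sin (2 * Real.pi * ψ t)) (Icc 0 b) :=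
    Real.continuous_sin.comp_continuousOn (continuousOn_const.mul cψ)
  have isin : ∀ u v, 0 ≤ u → u ≤ v → v ≤ b →
      IntervalIntegrable (fun t => Real.sin (2 * Real.pi * ψ t)) volume u v := by
    intro u v hu huv hv
    apply ContinuousOn.intervalIntegrable
    rw [uIcc_of_le huv]
    exact csin.mono (Icc_subset_Icc hu hv)
  let F : ℝ → ℝ := fun u => (1 - Real.cos (2 * Real.pi * ψ u)) / (2 * Real.pi * ψ1 u)
  let W : ℝ → ℝ := fun u => (1 - Real.cos (2 * Real.pi * ψ u)) * ψ2 u / (2 * Real.pi * ψ1 u ^ 2)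
  have hψ1pos : ∀ t ∈ Icc 0 b, 0 < t → 0 < ψ1 t := fun t ht h0 =>
    lt_of_lt_of_le (by positivity) (l1 t ht)
  have hWnn : ∀ t ∈ Icc 0 b, 0 ≤ W t := by
    intro t ht
    have h3 := Real.cos_le_one (2 * Real.pi * ψ t)
    have h4 := (hbd t ht).1
    have h5 : 0 ≤ ψ2 t := by linarith
    have h6 : 0 ≤ 1 - Real.cos (2 * Real.pi * ψ t) := by linarith
    simp only [W]
    positivity
  have hd : ∀ t ∈ Icc 0 b, 0 < t →
      HasDerivAt F (Real.sin (2 * Real.pi * ψ t) - W t) t := by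
    intro t ht h0
    have hne := (hψ1pos t ht h0).ne'
    have d1 : HasDerivAt (fun u => 2 * Real.pi * ψ u) (2 * Real.pi * ψ1 t) t :=
      (h1 t ht).const_mul _
    have d2 := (d1.cos).const_sub 1
    have d3 : HasDerivAt (fun u => 2 * Real.pi * ψ1 u) (2 * Real.pi * ψ2 t) t :=
      (h2 t ht).const_mul _
    have d4 := d2.div d3 (by positivity)
    refine d4.congr_deriv ?_
    simp only [W]
    field_simp
  have hβb : β ≤ b := by linarith
  -- the main lower bound, on `[β, 2 β]`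
  have cW : ∀ u v, 0 < u → u ≤ v → v ≤ b → IntervalIntegrable W volume u v := by
    intro u v hu huv hv
    apply ContinuousOn.intervalIntegrable
    rw [uIcc_of_le huv]
    have hsub : Icc u v ⊆ Icc 0 b := Icc_subset_Icc hu.le hv
    simp only [W]
    refine ContinuousOn.div ?_ ?_ ?_
    · exact (continuousOn_const.sub (Real.continuous_cos.comp_continuousOn
        (continuousOn_const.mul (cψ.mono hsub)))).mul (c2.mono hsub)
    · exact continuousOn_const.mul ((cψ1.mono hsub).pow 2)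
    · intro t ht
      have := hψ1pos t (hsub ht) (lt_of_lt_of_le hu ht.1)
      positivity
  have hWlow : ∀ t ∈ Icc β (2 * β), m ^ 3 * ρ * β ^ 2 / (Real.pi * M ^ 2) ≤ W t := by
    intro t ht
    have ht0 : 0 < t := lt_of_lt_of_le hβ0 ht.1
    have htI : t ∈ Icc 0 b := ⟨ht0.le, ht.2.trans h2β⟩
    have hψu : ψ t ≤ 1 / 2 := by
      refine (u0 t htI).trans ?_
      have : t ^ 2 ≤ (2 * β) ^ 2 := by
        have := ht.2
        gcongr
      have h4 : M * ρ * t ^ 2 ≤ M * ρ * (2 * β) ^ 2 := by gcongr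
      have h5 : M * ρ * (2 * β) ^ 2 = 1 := by linarith [hβ2, (by ring : M * ρ * (2 * β) ^ 2 = 4 * (M * ρ * β ^ 2))]
      linarith
    have hψl := l0 t htI
    have hψ0' : 0 ≤ ψ t := le_trans (by positivity) hψl
    have hcos : 8 * ψ t ^ 2 ≤ 1 - Real.cos (2 * Real.pi * ψ t) := by
      have e1 : 2 * Real.pi * ψ t = 2 * (Real.pi * ψ t) := by ring
      rw [e1, Real.cos_two_mul, Real.cos_sq']
      have hsin := Real.mul_le_sin (x := Real.pi * ψ t) (by positivity) (by nlinarith)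
      have e2 : 2 / Real.pi * (Real.pi * ψ t) = 2 * ψ t := by field_simp
      rw [e2] at hsin
      nlinarith
    have h6 := hψ1pos t htI ht0
    have h7 := u1 t htI
    have h8 := (hbd t htI).1
    have h9 : 0 ≤ ψ2 t := by linarith
    simp only [W]
    calc m ^ 3 * ρ * β ^ 2 / (Real.pi * M ^ 2) ≤ m ^ 3 * ρ * t ^ 2 / (Real.pi * M ^ 2) := by
          have := ht.1
          gcongr
      _ = (8 * (m * ρ * t ^ 2 / 2) ^ 2) * (m * ρ) / (2 * Real.pi * (M * ρ * t) ^ 2) := by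
          field_simp
          norm_num
      _ ≤ (8 * ψ t ^ 2) * ψ2 t / (2 * Real.pi * ψ1 t ^ 2) := by gcongr
      _ ≤ (1 - Real.cos (2 * Real.pi * ψ t)) * ψ2 t / (2 * Real.pi * ψ1 t ^ 2) := by gcongr
  set A : ℝ := m ^ 3 * ρ * β ^ 3 / (Real.pi * M ^ 2) with hA
  have hWint : A ≤ ∫ t in β..(2 * β), W t := by
    have h3 : ∫ t in β..(2 * β), (m ^ 3 * ρ * β ^ 2 / (Real.pi * M ^ 2)) ≤
        ∫ t in β..(2 * β), W t := by
      apply intervalIntegral.integral_mono_on (by linarith) intervalIntegrable_const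
        (cW β (2 * β) hβ0 (by linarith) h2β) hWlow
    rw [intervalIntegral.integral_const] at h3
    refine le_trans (le_of_eq ?_) h3
    rw [hA, smul_eq_mul]
    ring
  have hAeq : m ^ 3 / (8 * Real.pi * M ^ 3 * Real.sqrt M) / Real.sqrt ρ = A := by
    have hsρ : 0 < Real.sqrt ρ := Real.sqrt_pos.mpr hρ
    have e1 : β ^ 3 = (1 / (8 * M * ρ)) * (1 / (Real.sqrt M * Real.sqrt ρ)) := by
      have : β ^ 3 = β ^ 2 * β := by ring
      rw [this]
      have e2 : β ^ 2 = 1 / (4 * M * ρ) := by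
        rw [eq_div_iff (by positivity)]
        linarith [hβ2, (by ring : β ^ 2 * (4 * M * ρ) = 4 * (M * ρ * β ^ 2))]
      rw [e2, hβ, Real.sqrt_mul hM.le]
      field_simp
      norm_num
    rw [hA, e1]
    field_simp
  rw [hAeq]
  -- the limit
  have hkey : ∀ ε ∈ Ioo 0 β, A ≤ (∫ t in (0:ℝ)..b, Real.sin (2 * Real.pi * ψ t)) +
      (Real.pi * M ^ 2 * ρ / (4 * m)) * ε ^ 3 := by
    rintro ε ⟨hε0, hεβ⟩
    have hεI : ε ∈ Icc 0 b := ⟨hε0.le, by linarith⟩
    have hsplit : ∫ t in (0:ℝ)..b, Real.sin (2 * Real.pi * ψ t) =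
        (∫ t in (0:ℝ)..ε, Real.sin (2 * Real.pi * ψ t)) +
          ∫ t in ε..b, Real.sin (2 * Real.pi * ψ t) := by
      rw [intervalIntegral.integral_add_adjacent_intervals
        (isin 0 ε le_rfl hε0.le (by linarith)) (isin ε b hε0.le (by linarith) le_rfl)]
    have hfirst : 0 ≤ ∫ t in (0:ℝ)..ε, Real.sin (2 * Real.pi * ψ t) := by
      apply intervalIntegral.integral_nonneg hε0.le
      intro t ht
      have htI : t ∈ Icc 0 b := ⟨ht.1, ht.2.trans hεI.2⟩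
      have h3 := l0 t htI
      have h4 := u0 t htI
      have h5 : t ^ 2 ≤ β ^ 2 := by
        have h6 := ht.1
        have : t ≤ β := by linarith [ht.2]
        gcongr
      have h6 : M * ρ * t ^ 2 ≤ M * ρ * β ^ 2 := by gcongr
      have h7 : 0 ≤ ψ t := le_trans (by positivity) h3
      apply Real.sin_nonneg_of_nonneg_of_le_pi (by positivity)
      nlinarith
    have hFTC : ∫ t in ε..b, (Real.sin (2 * Real.pi * ψ t) - W t) = F b - F ε := by
      apply intervalIntegral.integral_eq_sub_of_hasDerivAt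
      · intro t ht
        rw [uIcc_of_le (by linarith)] at ht
        exact hd t ⟨by linarith [ht.1], ht.2⟩ (by linarith [ht.1])
      · exact (isin ε b hε0.le (by linarith) le_rfl).sub (cW ε b hε0 (by linarith) le_rfl)
    rw [intervalIntegral.integral_sub (isin ε b hε0.le (by linarith) le_rfl)
      (cW ε b hε0 (by linarith) le_rfl)] at hFTC
    have hFb : 0 ≤ F b := by
      have h3 := hψ1pos b ⟨hb0.le, le_rfl⟩ hb0
      have h4 := Real.cos_le_one (2 * Real.pi * ψ b)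
      have h5 : 0 ≤ 1 - Real.cos (2 * Real.pi * ψ b) := by linarith
      simp only [F]
      positivity
    have hFε : F ε ≤ (Real.pi * M ^ 2 * ρ / (4 * m)) * ε ^ 3 := by
      have h3 := l1 ε hεI
      have h4 := u0 ε hεI
      have h4' := l0 ε hεI
      have h4'' : 0 ≤ ψ ε := le_trans (by positivity) h4'
      have h5 := Real.one_sub_sq_div_two_le_cos (x := 2 * Real.pi * ψ ε)
      have h6 : 1 - Real.cos (2 * Real.pi * ψ ε) ≤ 2 * Real.pi ^ 2 * ψ ε ^ 2 := by nlinarith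
      have h7 := hψ1pos ε hεI hε0
      simp only [F]
      calc (1 - Real.cos (2 * Real.pi * ψ ε)) / (2 * Real.pi * ψ1 ε)
          ≤ (2 * Real.pi ^ 2 * ψ ε ^ 2) / (2 * Real.pi * ψ1 ε) := by gcongr
        _ ≤ (2 * Real.pi ^ 2 * (M * ρ * ε ^ 2 / 2) ^ 2) / (2 * Real.pi * (m * ρ * ε)) := by gcongr
        _ = (Real.pi * M ^ 2 * ρ / (4 * m)) * ε ^ 3 := by
          field_simp
          norm_num
    have hW1 : ∫ t in ε..b, W t = (∫ t in ε..β, W t) + (∫ t in β..(2 * β), W t) +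
        ∫ t in (2 * β)..b, W t := by
      rw [intervalIntegral.integral_add_adjacent_intervals (cW ε β hε0 hεβ.le hβb)
          (cW β (2 * β) hβ0 (by linarith) h2β),
        intervalIntegral.integral_add_adjacent_intervals (cW ε (2 * β) hε0 (by linarith) h2β)
          (cW (2 * β) b (by linarith) h2β le_rfl)]
    have hW2 : 0 ≤ ∫ t in ε..β, W t := by
      apply intervalIntegral.integral_nonneg hεβ.le
      intro t ht
      exact hWnn t ⟨by linarith [ht.1], ht.2.trans hβb⟩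
    have hW3 : 0 ≤ ∫ t in (2 * β)..b, W t := by
      apply intervalIntegral.integral_nonneg h2β
      intro t ht
      exact hWnn t ⟨by linarith [ht.1], ht.2⟩
    rw [hsplit]
    linarith
  have htend : Tendsto (fun ε : ℝ => (∫ t in (0:ℝ)..b, Real.sin (2 * Real.pi * ψ t)) +
      (Real.pi * M ^ 2 * ρ / (4 * m)) * ε ^ 3) (𝓝[>] 0)
      (𝓝 ((∫ t in (0:ℝ)..b, Real.sin (2 * Real.pi * ψ t)) +
      (Real.pi * M ^ 2 * ρ / (4 * m)) * 0 ^ 3)) := by
    refine Tendsto.mono_left ?_ nhdsWithin_le_nhds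
    exact (by fun_prop : Continuous fun ε : ℝ =>
      (∫ t in (0:ℝ)..b, Real.sin (2 * Real.pi * ψ t)) +
      (Real.pi * M ^ 2 * ρ / (4 * m)) * ε ^ 3).tendsto 0
  have := ge_of_tendsto htend (by
    filter_upwards [Ioo_mem_nhdsGT hβ0] with ε hε using hkey ε hε)
  simpa using this

namespace LowerAux

/-- two-sided version, positive second derivative: the imaginary part -/
theorem two_sided {m M c : ℝ} (hm : 0 < m) (hmM : m ≤ M) (hc0 : 0 < c)
    (hc : ∀ ρ > 0, ∀ (ψ ψ1 ψ2 : ℝ → ℝ) (b : ℝ), 1 / Real.sqrt (M * ρ) ≤ b →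
      (∀ t ∈ Icc 0 b, HasDerivAt ψ (ψ1 t) t) → (∀ t ∈ Icc 0 b, HasDerivAt ψ1 (ψ2 t) t) →
      ContinuousOn ψ2 (Icc 0 b) → ψ 0 = 0 → ψ1 0 = 0 →
      (∀ t ∈ Icc 0 b, m * ρ ≤ ψ2 t ∧ ψ2 t ≤ M * ρ) →
      c / Real.sqrt ρ ≤ ∫ t in (0:ℝ)..b, Real.sin (2 * Real.pi * ψ t))
    {a ρ : ℝ} (ha : 0 < a) (hρ : 1 / (M * a ^ 2) ≤ ρ) {ψ ψ1 ψ2 : ℝ → ℝ} {x s y : ℝ}
    (hxs : x + a ≤ s) (hsy : s + a ≤ y)
    (h1 : ∀ t ∈ Icc x y, HasDerivAt ψ (ψ1 t) t) (h2 : ∀ t ∈ Icc x y, HasDerivAt ψ1 (ψ2 t) t)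
    (c2 : ContinuousOn ψ2 (Icc x y)) (hs : ψ1 s = 0)
    (hb : ∀ t ∈ Icc x y, m * ρ ≤ ψ2 t ∧ ψ2 t ≤ M * ρ) :
    c / Real.sqrt ρ ≤ ‖∫ t in x..y, ex (ψ t)‖ := by
  have hM : 0 < M := hm.trans_le hmM
  have hρ0 : 0 < ρ := lt_of_lt_of_le (by positivity) hρ
  have hsq : 1 / Real.sqrt (M * ρ) ≤ a := by
    rw [div_le_iff₀ (Real.sqrt_pos.mpr (by positivity))]
    have h3 : 1 ≤ a ^ 2 * (M * ρ) := by
      rw [div_le_iff₀ (by positivity)] at hρ
      linarith
    have h4 : Real.sqrt 1 ≤ Real.sqrt (a ^ 2 * (M * ρ)) := Real.sqrt_le_sqrt h3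
    rwa [Real.sqrt_one, Real.sqrt_mul (by positivity), Real.sqrt_sq ha.le] at h4
  have right := hc ρ hρ0 (fun u => ψ (s + u) - ψ s) (fun u => ψ1 (s + u)) (fun u => ψ2 (s + u))
    (y - s) (by linarith)
    (fun t ht => by
      have : s + t ∈ Icc x y := ⟨by linarith [ht.1], by linarith [ht.2]⟩
      exact ((h1 _ this).comp_const_add s t).sub_const _)
    (fun t ht => by
      have : s + t ∈ Icc x y := ⟨by linarith [ht.1], by linarith [ht.2]⟩
      exact (h2 _ this).comp_const_add s t)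
    (c2.comp (by fun_prop) (fun t ht => ⟨by linarith [ht.1], by linarith [ht.2]⟩))
    (by simp) (by simpa using hs)
    (fun t ht => hb _ ⟨by linarith [ht.1], by linarith [ht.2]⟩)
  have left := hc ρ hρ0 (fun u => ψ (s - u) - ψ s) (fun u => -ψ1 (s - u)) (fun u => ψ2 (s - u))
    (s - x) (by linarith)
    (fun t ht => by
      have : s - t ∈ Icc x y := ⟨by linarith [ht.2], by linarith [ht.1]⟩
      exact ((h1 _ this).comp_const_sub s t).sub_const _)
    (fun t ht => by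
      have : s - t ∈ Icc x y := ⟨by linarith [ht.2], by linarith [ht.1]⟩
      refine ((h2 _ this).comp_const_sub s t).neg.congr_deriv ?_
      ring)
    (c2.comp (by fun_prop) (fun t ht => ⟨by linarith [ht.2], by linarith [ht.1]⟩))
    (by simp) (by simpa using hs)
    (fun t ht => hb _ ⟨by linarith [ht.2], by linarith [ht.1]⟩)
  have eR : ∫ u in (0:ℝ)..(y - s), Real.sin (2 * Real.pi * (ψ (s + u) - ψ s)) =
      ∫ t in s..y, Real.sin (2 * Real.pi * (ψ t - ψ s)) := by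
    rw [intervalIntegral.integral_comp_add_left
      (fun t => Real.sin (2 * Real.pi * (ψ t - ψ s))) s]
    simp
  have eL : ∫ u in (0:ℝ)..(s - x), Real.sin (2 * Real.pi * (ψ (s - u) - ψ s)) =
      ∫ t in x..s, Real.sin (2 * Real.pi * (ψ t - ψ s)) := by
    rw [intervalIntegral.integral_comp_sub_left
      (fun t => Real.sin (2 * Real.pi * (ψ t - ψ s))) s]
    simp
  have hxy : x ≤ y := by linarith
  have cψ : ContinuousOn ψ (Icc x y) := fun t ht => (h1 t ht).continuousAt.continuousWithinAt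
  have csin : ContinuousOn (fun t => Real.sin (2 * Real.pi * (ψ t - ψ s))) (Icc x y) :=
    Real.continuous_sin.comp_continuousOn (continuousOn_const.mul (cψ.sub continuousOn_const))
  have isin : ∀ u v, x ≤ u → u ≤ v → v ≤ y →
      IntervalIntegrable (fun t => Real.sin (2 * Real.pi * (ψ t - ψ s))) volume u v := by
    intro u v hu huv hv
    apply ContinuousOn.intervalIntegrable
    rw [uIcc_of_le huv]
    exact csin.mono (Icc_subset_Icc hu hv)
  have hsum : (∫ t in x..s, Real.sin (2 * Real.pi * (ψ t - ψ s))) +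
      ∫ t in s..y, Real.sin (2 * Real.pi * (ψ t - ψ s)) =
      ∫ t in x..y, Real.sin (2 * Real.pi * (ψ t - ψ s)) :=
    intervalIntegral.integral_add_adjacent_intervals (isin x s le_rfl (by linarith) (by linarith))
      (isin s y (by linarith) (by linarith) le_rfl)
  have hex : ContinuousOn (fun t => ex (ψ t - ψ s)) (Icc x y) :=
    continuous_ex.comp_continuousOn (cψ.sub continuousOn_const)
  have hiex : IntervalIntegrable (fun t => ex (ψ t - ψ s)) volume x y := by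
    apply ContinuousOn.intervalIntegrable
    rwa [uIcc_of_le hxy]
  have him : (∫ t in x..y, ex (ψ t - ψ s)).im =
      ∫ t in x..y, Real.sin (2 * Real.pi * (ψ t - ψ s)) := by
    have h3 := Complex.imCLM.intervalIntegral_comp_comm hiex
    simp only [Complex.imCLM_apply] at h3
    rw [← h3]
    apply intervalIntegral.integral_congr
    intro t _
    exact ex_im _
  have hfac : ∫ t in x..y, ex (ψ t - ψ s) = (∫ t in x..y, ex (ψ t)) * ex (-ψ s) := by
    rw [← intervalIntegral.integral_mul_const]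
    apply intervalIntegral.integral_congr
    intro t _
    exact (ex_neg_mul_ex _ _).symm
  have hn : ‖∫ t in x..y, ex (ψ t)‖ = ‖∫ t in x..y, ex (ψ t - ψ s)‖ := by
    rw [hfac, norm_mul, norm_ex, mul_one]
  rw [hn]
  refine le_trans ?_ (Complex.abs_im_le_norm _)
  rw [him]
  refine le_trans ?_ (le_abs_self _)
  rw [← hsum, ← eR, ← eL]
  have hpos : 0 ≤ c / Real.sqrt ρ := by positivity
  have := left
  have := right
  linarith

end LowerAux

/-- (LOWER) Two-sided version. Proof: apply `lower_half` on both sides of `s` (to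
`u ↦ ψ (s ± u) - ψ s`; if `ψ2 < 0` to the negatives); `|∫ ex ψ| = |∫ ex (ψ - ψ s)| ≥ |Im|` and the two
sides have imaginary parts of the same sign. `a` only enters through `ρ ≥ ρ0`. -/
theorem lower_quad (m M a : ℝ) (hm : 0 < m) (hmM : m ≤ M) (ha : 0 < a) :
    ∃ c > 0, ∃ ρ0 > 0, ∀ ρ ≥ ρ0, ∀ (ψ ψ1 ψ2 : ℝ → ℝ) (x s y : ℝ), x + a ≤ s → s + a ≤ y →
      (∀ t ∈ Icc x y, HasDerivAt ψ (ψ1 t) t) → (∀ t ∈ Icc x y, HasDerivAt ψ1 (ψ2 t) t) →
      ContinuousOn ψ2 (Icc x y) → ψ1 s = 0 →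
      ((∀ t ∈ Icc x y, m * ρ ≤ ψ2 t ∧ ψ2 t ≤ M * ρ) ∨
        (∀ t ∈ Icc x y, m * ρ ≤ -ψ2 t ∧ -ψ2 t ≤ M * ρ)) →
      c / Real.sqrt ρ ≤ ‖∫ t in x..y, ex (ψ t)‖ := by
  have hM : 0 < M := hm.trans_le hmM
  obtain ⟨c, hc0, hc⟩ := lower_half m M hm hmM
  refine ⟨c, hc0, 1 / (M * a ^ 2), by positivity, ?_⟩
  intro ρ hρ ψ ψ1 ψ2 x s y hxs hsy h1 h2 c2 hs hb
  rcases hb with hb | hb
  · exact LowerAux.two_sided hm hmM hc0 hc ha hρ hxs hsy h1 h2 c2 hs hb
  · have key := LowerAux.two_sided (ψ := fun t => -ψ t) (ψ1 := fun t => -ψ1 t)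
      (ψ2 := fun t => -ψ2 t) hm hmM hc0 hc ha hρ hxs hsy (fun t ht => (h1 t ht).neg)
      (fun t ht => (h2 t ht).neg) c2.neg (by simp [hs]) hb
    have hxy : x ≤ y := by linarith
    have hconj : ∫ t in x..y, ex (-ψ t) = (starRingEnd ℂ) (∫ t in x..y, ex (ψ t)) := by
      rw [intervalIntegral.integral_of_le hxy, intervalIntegral.integral_of_le hxy,
        ← integral_conj]
      congr 1
      ext t
      rw [conj_ex]
    rw [hconj, Complex.norm_conj] at key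
    exact key

end Pool.Agent.LoopSpec
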