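import Pool.Agent.Lib_MP_e9ccd1_s.APhase
import Pool.Agent.Lib_MP_e9ccd1_s.Lower

/-!
# MP_e9ccd1_an, planar arcs: frequencies perpendicular to the arc, convergence (piece ASUMB)
-/

set_option autoImplicit false

open MeasureTheory Set Filter Topology
open scoped RealInnerProductSpace
open Pool.Agent.CurveSpec (ex BM norm_ex ex_zero ex_add conj_ex continuous_ex)

namespace Pool.Agent.LoopSpec

variable {ι : Type*} {r : ι → ℝ} {ψ ψ1 ψ2 : ι → ℝ → ℝ} {a b K A : ℝ}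

/-- (ASUM) Frequencies which are perpendicular to the arc in the middle part. Proof: `lower_quad` (with
`m = c`, `M = max K c`, `a = h`, `x = a`, `y = b`) gives `‖∫_a^b ex (ψ i)‖² ≥ c'² / r i` for `r i ≥ ρ0`, and
`∑ ‖∫_a^b ex (ψ i)‖² = A (b - a)`. -/
theorem a_cross {c h : ℝ} (hab : a < b) (hc : 0 < c) (hh : 0 < h)
    (hP : ∀ i, Ph a b K (r i) (ψ i) (ψ1 i) (ψ2 i))
    (hF : HasSum (fun i => Gw (ψ i) a (b - a)) (A * (b - a))) :
    ∃ C > 0, ∃ ρ0 > 0, ∀ S : Finset ι, (∀ i ∈ S, ρ0 ≤ r i ∧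
      (∃ s ∈ Icc (a + h) (b - h), ψ1 i s = 0) ∧
      ((∀ t ∈ Icc a b, c * r i ≤ ψ2 i t) ∨ (∀ t ∈ Icc a b, ψ2 i t ≤ -(c * r i)))) →
      ∑ i ∈ S, 1 / r i ≤ C := by
  obtain ⟨c', hc', ρ0, hρ0, hlow⟩ := lower_quad c (max K c) h hc (le_max_right _ _) hh
  have hA : 0 ≤ A * (b - a) := hF.nonneg fun i => Gw_nonneg _ _ _
  refine ⟨(A * (b - a)) / c' ^ 2 + 1, by positivity, ρ0, hρ0, fun S hS => ?_⟩
  have hterm : ∀ i ∈ S, c' ^ 2 * (1 / r i) ≤ Gw (ψ i) a (b - a) := by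
    intro i hi
    obtain ⟨hr, ⟨s, hs, hs0⟩, hcases⟩ := hS i hi
    have hrpos : 0 < r i := hρ0.trans_le hr
    have hKc : K * r i ≤ max K c * r i := mul_le_mul_of_nonneg_right (le_max_left _ _) hrpos.le
    have hb := hlow (r i) hr (ψ i) (ψ1 i) (ψ2 i) a s b hs.1 (by linarith [hs.2]) (hP i).h1
      (hP i).h2 (hP i).c2 hs0 (by
        rcases hcases with h1 | h1
        · left
          intro t ht
          exact ⟨h1 t ht, (le_abs_self _).trans (((hP i).b2 t ht).trans hKc)⟩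
        · right
          intro t ht
          exact ⟨by linarith [h1 t ht], (neg_le_abs _).trans (((hP i).b2 t ht).trans hKc)⟩)
    unfold Gw
    rw [add_sub_cancel]
    have h2 : (c' / Real.sqrt (r i)) ^ 2 ≤ ‖∫ s in a..b, ex (ψ i s)‖ ^ 2 :=
      pow_le_pow_left₀ (by positivity) hb 2
    have h3 : (c' / Real.sqrt (r i)) ^ 2 = c' ^ 2 * (1 / r i) := by
      rw [div_pow, Real.sq_sqrt hrpos.le]
      ring
    rwa [h3] at h2
  have hsum : c' ^ 2 * ∑ i ∈ S, 1 / r i ≤ A * (b - a) := by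
    rw [Finset.mul_sum]
    exact (Finset.sum_le_sum hterm).trans
      (sum_le_hasSum S (fun i _ => Gw_nonneg _ _ _) hF)
  have h4 : ∑ i ∈ S, 1 / r i ≤ (A * (b - a)) / c' ^ 2 := by
    rw [le_div_iff₀ (by positivity), mul_comm]
    exact hsum
  linarith

/-- (ASUM) Tails of a convergent series. Proof: let `T` be the supremum of the sums over finite `S ⊆ P`, `S*` nearly
extremal, `ρ = 1 + max r` over `S*`. -/
theorem a_tail {P : ι → Prop} {C : ℝ} (hr : ∀ i, P i → 0 < r i)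
    (h : ∀ S : Finset ι, (∀ i ∈ S, P i) → ∑ i ∈ S, 1 / r i ≤ C) {η : ℝ} (hη : 0 < η) :
    ∃ ρ > 0, ∀ S : Finset ι, (∀ i ∈ S, P i ∧ ρ ≤ r i) → ∑ i ∈ S, 1 / r i ≤ η := by
  classical
  set Z : Set ℝ := {x | ∃ S : Finset ι, (∀ i ∈ S, P i) ∧ ∑ i ∈ S, 1 / r i = x} with hZ
  have hne : Z.Nonempty := ⟨0, ∅, by simp, by simp⟩
  have hbd : BddAbove Z := ⟨C, by
    rintro x ⟨S, hS, rfl⟩
    exact h S hS⟩
  obtain ⟨x, ⟨S0, hS0, rfl⟩, hx⟩ := exists_lt_of_lt_csSup hne (sub_lt_self (sSup Z) hη)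
  obtain ⟨ρ, hρ0, hρ⟩ : ∃ ρ > 0, ∀ i ∈ S0, r i < ρ := by
    refine ⟨1 + ∑ i ∈ S0, |r i|, by positivity, fun i hi => ?_⟩
    have h1 : |r i| ≤ ∑ i ∈ S0, |r i| :=
      Finset.single_le_sum (f := fun i => |r i|) (fun j _ => abs_nonneg _) hi
    linarith [le_abs_self (r i)]
  refine ⟨ρ, hρ0, fun S hS => ?_⟩
  have hdisj : Disjoint S0 S := by
    rw [Finset.disjoint_left]
    intro i hi hi'
    exact absurd (hρ i hi) (not_lt.mpr (hS i hi').2)
  have hmem : ∑ i ∈ S0 ∪ S, 1 / r i ≤ sSup Z := by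
    apply le_csSup hbd
    refine ⟨S0 ∪ S, fun i hi => ?_, rfl⟩
    rcases Finset.mem_union.mp hi with h1 | h1
    · exact hS0 i h1
    · exact (hS i h1).1
  rw [Finset.sum_union hdisj] at hmem
  linarith

end Pool.Agent.LoopSpec
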