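import Pool.Agent.Lib_MP_e9ccd1_s.APhase

/-!
# MP_e9ccd1_an, planar arcs: integrating the frame identity (piece ATON)
-/

set_option autoImplicit false

open MeasureTheory Set Filter Topology
open scoped RealInnerProductSpace
open Pool.Agent.CurveSpec (ex BM norm_ex ex_zero ex_add conj_ex continuous_ex)

namespace Pool.Agent.LoopSpec

variable {ι : Type*} {ψ : ι → ℝ → ℝ} {a b A : ℝ}

namespace ATon

lemma integrand_cont {ψ : ℝ → ℝ} (hψ : Continuous ψ) {X L : ℝ} (hX : 0 < X) (t : ℝ) :
    ContinuousOn (fun l => Gw ψ t l / l ^ 2) (Icc (1 / X) L) := by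
  have h1 : Continuous fun l : ℝ => Gw ψ t l := (Gw_cont hψ).comp (Continuous.prodMk_right t)
  refine h1.continuousOn.div (by fun_prop) fun l hl => ?_
  have : 0 < 1 / X := by positivity
  have : 0 < l := lt_of_lt_of_le this hl.1
  positivity

lemma integrand_int {ψ : ℝ → ℝ} (hψ : Continuous ψ) {X L : ℝ} (hX : 0 < X) (hXL : 1 / X ≤ L)
    (t : ℝ) : IntervalIntegrable (fun l => Gw ψ t l / l ^ 2) volume (1 / X) L := by
  apply ContinuousOn.intervalIntegrable
  rw [uIcc_of_le hXL]
  exact integrand_cont hψ hX t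

lemma inv_int {X L : ℝ} (hX : 0 < X) (hXL : 1 / X ≤ L) (A : ℝ) :
    IntervalIntegrable (fun l : ℝ => A / l) volume (1 / X) L := by
  apply ContinuousOn.intervalIntegrable
  rw [uIcc_of_le hXL]
  refine continuousOn_const.div continuousOn_id fun l hl => ?_
  have : 0 < 1 / X := by positivity
  exact (lt_of_lt_of_le this hl.1).ne'

lemma int_inv {X L : ℝ} (hX : 0 < X) (hXL : 1 / X ≤ L) (A : ℝ) :
    ∫ l in (1 / X)..L, A / l = A * Real.log (X * L) := by
  have h0 : 0 < 1 / X := by positivity
  simp only [div_eq_mul_inv A]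
  rw [intervalIntegral.integral_const_mul, integral_inv_of_pos h0 (lt_of_lt_of_le h0 hXL)]
  congr 2
  field_simp

end ATon

/-- (ATON) Proof: `∑_{i ∈ S} Gw (ψ i) t l ≤ A l` and `∫_{1/X}^L A / l dl = A log (X L)`. -/
theorem a_upper (hA : 0 < A) (hc : ∀ i, Continuous (ψ i))
    (hF : ∀ t l, a ≤ t → 0 ≤ l → t + l ≤ b → HasSum (fun i => Gw (ψ i) t l) (A * l))
    {X L t : ℝ} (hX : 0 < X) (hXL : 1 / X ≤ L) (ht : a ≤ t) (hb : t + L ≤ b) (S : Finset ι) :
    ∑ i ∈ S, Ww (ψ i) X L t ≤ A * Real.log (X * L) := by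
  have h0 : 0 < 1 / X := by positivity
  unfold Ww
  rw [← intervalIntegral.integral_finsetSum fun i _ => ATon.integrand_int (hc i) hX hXL t,
    ← ATon.int_inv hX hXL A]
  refine intervalIntegral.integral_mono_on hXL ?_ (ATon.inv_int hX hXL A) ?_
  · have h1 := IntervalIntegrable.sum S fun i _ => ATon.integrand_int (hc i) hX hXL t
    have h2 : (fun l => ∑ i ∈ S, Gw (ψ i) t l / l ^ 2) =
        ∑ i ∈ S, fun l => Gw (ψ i) t l / l ^ 2 := by
      funext l
      rw [Finset.sum_apply]
    rw [h2]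
    exact h1
  · intro l hl
    have hl0 : 0 < l := lt_of_lt_of_le h0 hl.1
    have h1 := hF t l ht hl0.le (by linarith [hl.2])
    have h2 : ∑ i ∈ S, Gw (ψ i) t l ≤ A * l :=
      sum_le_hasSum S (fun i _ => Gw_nonneg _ _ _) h1
    rw [← Finset.sum_div, div_le_div_iff₀ (by positivity) hl0]
    nlinarith

/-- (ATON) Proof: `intervalIntegral.hasSum_integral_of_dominated_convergence` twice (bound = the functions
themselves, which are nonnegative), first in `l` (the sum of the integrands is `A / l`), then in `t` (the sum is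
constant). -/
theorem a_hasSum [Countable ι] (hA : 0 < A) (hc : ∀ i, Continuous (ψ i))
    (hF : ∀ t l, a ≤ t → 0 ≤ l → t + l ≤ b → HasSum (fun i => Gw (ψ i) t l) (A * l))
    {X L t1 t2 : ℝ} (hX : 0 < X) (hXL : 1 / X ≤ L) (h12 : t1 ≤ t2) (ht : a ≤ t1)
    (hb : t2 + L ≤ b) :
    HasSum (fun i => ∫ t in t1..t2, Ww (ψ i) X L t) ((t2 - t1) * (A * Real.log (X * L))) := by
  have h0 : 0 < 1 / X := by positivity
  have step : ∀ t ∈ Icc t1 t2, HasSum (fun i => Ww (ψ i) X L t) (A * Real.log (X * L)) := by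
    intro t htt
    rw [← ATon.int_inv hX hXL A]
    have hs : ∀ l ∈ Ioc (1 / X) L, HasSum (fun i => Gw (ψ i) t l / l ^ 2) (A / l) := by
      intro l hl
      have hl0 : 0 < l := h0.trans hl.1
      have h1 := (hF t l (ht.trans htt.1) hl0.le (by linarith [hl.2, htt.2])).div_const (l ^ 2)
      have h2 : A * l / l ^ 2 = A / l := by
        rw [pow_two, mul_div_mul_right _ _ hl0.ne']
      rwa [h2] at h1
    refine intervalIntegral.hasSum_integral_of_dominated_convergence
      (fun i l => Gw (ψ i) t l / l ^ 2) ?_ ?_ ?_ ?_ ?_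
    · intro i
      rw [uIoc_of_le hXL]
      exact ((ATon.integrand_cont (hc i) hX t).mono Ioc_subset_Icc_self).aestronglyMeasurable
        measurableSet_Ioc
    · intro i
      refine Eventually.of_forall fun l _ => ?_
      rw [Real.norm_of_nonneg (div_nonneg (Gw_nonneg _ _ _) (sq_nonneg _))]
    · refine Eventually.of_forall fun l hl => ?_
      rw [uIoc_of_le hXL] at hl
      exact (hs l hl).summable
    · refine (ATon.inv_int hX hXL A).congr ?_
      intro l hl
      rw [uIoc_of_le hXL] at hl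
      exact (hs l hl).tsum_eq.symm
    · refine Eventually.of_forall fun l hl => ?_
      rw [uIoc_of_le hXL] at hl
      exact hs l hl
  have hconst : (t2 - t1) * (A * Real.log (X * L)) = ∫ _t in t1..t2, A * Real.log (X * L) := by
    rw [intervalIntegral.integral_const, smul_eq_mul]
  rw [hconst]
  refine intervalIntegral.hasSum_integral_of_dominated_convergence
    (fun i t => Ww (ψ i) X L t) ?_ ?_ ?_ ?_ ?_
  · intro i
    have h1 : StronglyMeasurable (fun p : ℝ × ℝ => Gw (ψ i) p.1 p.2 / p.2 ^ 2) :=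
      ((Gw_cont (hc i)).measurable.div (measurable_snd.pow_const 2)).stronglyMeasurable
    have h2 := h1.integral_prod_right' (ν := volume.restrict (Ioc (1 / X) L))
    have h3 : Ww (ψ i) X L =
        fun t => ∫ l, (fun p : ℝ × ℝ => Gw (ψ i) p.1 p.2 / p.2 ^ 2) (t, l)
          ∂(volume.restrict (Ioc (1 / X) L)) := by
      funext t
      unfold Ww
      rw [intervalIntegral.integral_of_le hXL]
    rw [h3]
    exact h2.aestronglyMeasurable
  · intro i
    refine Eventually.of_forall fun t _ => ?_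
    rw [Real.norm_of_nonneg (Ww_nonneg _ hXL t)]
  · refine Eventually.of_forall fun t htt => ?_
    rw [uIoc_of_le h12] at htt
    exact (step t ⟨htt.1.le, htt.2⟩).summable
  · refine (intervalIntegrable_const (c := A * Real.log (X * L))).congr ?_
    intro t htt
    rw [uIoc_of_le h12] at htt
    exact (step t ⟨htt.1.le, htt.2⟩).tsum_eq.symm
  · refine Eventually.of_forall fun t htt => ?_
    rw [uIoc_of_le h12] at htt
    exact step t ⟨htt.1.le, htt.2⟩

end Pool.Agent.LoopSpec
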