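import Pool.Agent.Lib_MP_e9ccd1_s.ANon
import Pool.Agent.Lib_MP_e9ccd1_s.ACrW
import Pool.Agent.Lib_MP_e9ccd1_s.ASum
import Pool.Agent.Lib_MP_e9ccd1_s.ATon

/-!
# MP_e9ccd1_an, planar arcs: the contradiction for abstract phases (helper52)
-/

set_option autoImplicit false

open MeasureTheory Set Filter Topology
open scoped RealInnerProductSpace
open Pool.Agent.CurveSpec (ex BM norm_ex ex_zero ex_add conj_ex continuous_ex)

namespace Pool.Agent.LoopSpec

namespace ACore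

lemma mono {a b a' b' K r : ℝ} {ψ ψ1 ψ2 : ℝ → ℝ} (h : Ph a b K r ψ ψ1 ψ2) (ha : a ≤ a')
    (hb : b' ≤ b) : Ph a' b' K r ψ ψ1 ψ2 where
  cont := h.cont
  h1 t ht := h.h1 t ⟨ha.trans ht.1, ht.2.trans hb⟩
  h2 t ht := h.h2 t ⟨ha.trans ht.1, ht.2.trans hb⟩
  c2 := h.c2.mono (Icc_subset_Icc ha hb)
  b1 t ht := h.b1 t ⟨ha.trans ht.1, ht.2.trans hb⟩
  b2 t ht := h.b2 t ⟨ha.trans ht.1, ht.2.trans hb⟩

lemma Ww_int {ψ : ℝ → ℝ} (hψ : Continuous ψ) {X L : ℝ} (hX : 0 < X) (hXL : 1 / X ≤ L) (t : ℝ) :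
    IntervalIntegrable (fun l => Gw ψ t l / l ^ 2) volume (1 / X) L := by
  apply ContinuousOn.intervalIntegrable
  rw [uIcc_of_le hXL]
  have h1 : Continuous fun l : ℝ => Gw ψ t l := (Gw_cont hψ).comp (Continuous.prodMk_right t)
  refine h1.continuousOn.div (by fun_prop) fun l hl => ?_
  have : 0 < 1 / X := by positivity
  have : 0 < l := lt_of_lt_of_le this hl.1
  positivity

lemma Ww_small {ψ : ℝ → ℝ} (hψ : Continuous ψ) {X L : ℝ} (hX : 0 < X) (hXL : 1 / X ≤ L) (t : ℝ) :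
    Ww ψ X L t ≤ L := by
  have h0 : 0 < 1 / X := by positivity
  have h1 : Ww ψ X L t ≤ ∫ _l in (1 / X)..L, (1 : ℝ) := by
    refine intervalIntegral.integral_mono_on hXL (Ww_int hψ hX hXL t) intervalIntegrable_const ?_
    intro l hl
    have hl0 : 0 < l := lt_of_lt_of_le h0 hl.1
    rw [div_le_one (by positivity)]
    exact Gw_le ψ t hl0.le
  rw [intervalIntegral.integral_const, smul_eq_mul, mul_one] at h1
  linarith

lemma V_le {ψ : ℝ → ℝ} {X L t1 t2 B : ℝ} (hXL : 1 / X ≤ L) (h12 : t1 ≤ t2)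
    (hB : ∀ t ∈ Icc t1 t2, Ww ψ X L t ≤ B) : ∫ t in t1..t2, Ww ψ X L t ≤ (t2 - t1) * B := by
  have h1 : ‖∫ t in t1..t2, Ww ψ X L t‖ ≤ B * |t2 - t1| := by
    apply intervalIntegral.norm_integral_le_of_norm_le_const
    intro t ht
    rw [uIoc_of_le h12] at ht
    rw [Real.norm_of_nonneg (Ww_nonneg ψ hXL t)]
    exact hB t ⟨ht.1.le, ht.2⟩
  rw [abs_of_nonneg (by linarith)] at h1
  have h2 := (Real.le_norm_self (∫ t in t1..t2, Ww ψ X L t)).trans h1
  linarith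

/-- choice of `ε` -/
lemma exists_eps {β c : ℝ} (hc : 0 < c) (hβ : β < 1) :
    ∃ ε > 0, ε < c ∧ β * (c + ε) * (1 + ε) / (c - ε) + ε < 1 := by
  have h1 : ContinuousAt (fun ε : ℝ => β * (c + ε) * (1 + ε) / (c - ε) + ε) 0 := by
    refine ContinuousAt.add (ContinuousAt.div (by fun_prop) (by fun_prop) ?_) continuousAt_id
    simp [hc.ne']
  have h2 : (fun ε : ℝ => β * (c + ε) * (1 + ε) / (c - ε) + ε) 0 < 1 := by
    simp [hc.ne', hβ]
  have h3 := h1.eventually (gt_mem_nhds h2)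
  have h4 : ∀ᶠ ε in 𝓝 (0:ℝ), ε < c := gt_mem_nhds hc
  obtain ⟨δ, hδ, h5⟩ := Metric.eventually_nhds_iff.1 (h3.and h4)
  refine ⟨δ / 2, by linarith, ?_⟩
  have h6 := h5 (y := δ / 2) (by rw [Real.dist_eq, sub_zero, abs_of_pos] <;> linarith)
  exact ⟨h6.2, h6.1⟩

end ACore

open ACore in
theorem phaseCore {ι : Type*} [Countable ι] {r : ι → ℝ} {ψ ψ1 ψ2 : ι → ℝ → ℝ}
    {a b h K c A β tm t0 tp : ℝ} (hA : 0 < A) (hh : 0 < h) (hK : 0 ≤ K) (hc : 0 < c)
    (hβ0 : 0 ≤ β) (hβ : β < 1) (htm : tm ∈ Ico (a + 2 * h) (b - 2 * h))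
    (ht0 : t0 ∈ Ico (a + 2 * h) (b - 2 * h)) (htp : tp ∈ Ico (a + 2 * h) (b - 2 * h))
    (hP : ∀ i, Ph a b K (r i) (ψ i) (ψ1 i) (ψ2 i))
    (hF : ∀ t l, a ≤ t → 0 ≤ l → t + l ≤ b → HasSum (fun i => Gw (ψ i) t l) (A * l))
    (hcl : ∀ i, ((∀ t ∈ Icc (a + 2 * h) (b - 2 * h), c * r i ≤ |ψ1 i t|) ∧
        1 / |ψ1 i t0| ≤ β / 2 * (1 / |ψ1 i tm| + 1 / |ψ1 i tp|)) ∨
      ((∃ s ∈ Icc (a + h) (b - h), ψ1 i s = 0) ∧
        ((∀ t ∈ Icc a b, c * r i ≤ ψ2 i t) ∨ (∀ t ∈ Icc a b, ψ2 i t ≤ -(c * r i))))) :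
    False := by
  classical
  set a2 := a + 2 * h with ha2
  set b2 := b - 2 * h with hb2
  have hab2 : a2 < b2 := lt_of_le_of_lt htm.1 htm.2
  have hab : a < b := by linarith
  have hP2 : ∀ i, Ph a2 b2 K (r i) (ψ i) (ψ1 i) (ψ2 i) := fun i =>
    mono (hP i) (by linarith) (by linarith)
  have hcont : ∀ i, Continuous (ψ i) := fun i => (hP i).cont
  -- constants
  obtain ⟨ε, hε, hεc, hθ⟩ := exists_eps c0_pos hβ
  obtain ⟨L, hL, hLm, hLp, hL0, hL1⟩ : ∃ L > 0, tm + L ≤ b2 ∧ tp + L ≤ b2 ∧ t0 + 2 * L ≤ b2 ∧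
      L ≤ 1 := by
    refine ⟨min (min (b2 - tm) (b2 - tp)) (min ((b2 - t0) / 2) 1), ?_, ?_, ?_, ?_, ?_⟩
    · have h1 := htm.2
      have h2 := htp.2
      have h3 := ht0.2
      refine lt_min (lt_min (by linarith) (by linarith)) (lt_min (by linarith) one_pos)
    · have : min (min (b2 - tm) (b2 - tp)) (min ((b2 - t0) / 2) 1) ≤ b2 - tm :=
        (min_le_left _ _).trans (min_le_left _ _)
      linarith
    · have : min (min (b2 - tm) (b2 - tp)) (min ((b2 - t0) / 2) 1) ≤ b2 - tp :=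
        (min_le_left _ _).trans (min_le_right _ _)
      linarith
    · have : min (min (b2 - tm) (b2 - tp)) (min ((b2 - t0) / 2) 1) ≤ (b2 - t0) / 2 :=
        (min_le_right _ _).trans (min_le_left _ _)
      linarith
    · exact (min_le_right _ _).trans (min_le_right _ _)
  obtain ⟨η, hη, hηL, hηK⟩ : ∃ η > 0, η ≤ L ∧ K * η * (1 + ε) ≤ c * ε := by
    refine ⟨min L (c * ε / ((K + 1) * (1 + ε))), lt_min hL (by positivity), min_le_left _ _, ?_⟩
    have h1 : min L (c * ε / ((K + 1) * (1 + ε))) ≤ c * ε / ((K + 1) * (1 + ε)) := min_le_right _ _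
    have h2 : min L (c * ε / ((K + 1) * (1 + ε))) * ((K + 1) * (1 + ε)) ≤ c * ε := by
      rwa [le_div_iff₀ (by positivity)] at h1
    have h3 : 0 ≤ min L (c * ε / ((K + 1) * (1 + ε))) * (1 + ε) :=
      mul_nonneg (le_min hL.le (by positivity)) (by positivity)
    nlinarith
  obtain ⟨ρ1, hρ1, hup⟩ := Ww_up a2 b2 K c ε hab2.le hK hc hε
  obtain ⟨ρ2, hρ2, M, hM, hlow⟩ := Ww_low a2 b2 K c ε L hab2.le hK hc hε hL
  obtain ⟨C1, hC1, hcount⟩ := a_count hab hA hP hF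
  obtain ⟨C2, hC2, hcr⟩ := cr_Ww c hc
  obtain ⟨C3, hC3, ρ3, hρ3, hcross⟩ := a_cross (c := c) (h := h) hab hc hh hP
    (hF a (b - a) le_rfl (by linarith) (by linarith))
  let Cr : ι → Prop := fun i => (∃ s ∈ Icc (a + h) (b - h), ψ1 i s = 0) ∧
        ((∀ t ∈ Icc a b, c * r i ≤ ψ2 i t) ∨ (∀ t ∈ Icc a b, ψ2 i t ≤ -(c * r i)))
  obtain ⟨ρ4, hρ4, htail⟩ := a_tail (r := r) (P := fun i => ρ3 ≤ r i ∧ Cr i) (C := C3)
    (fun i hi => lt_of_lt_of_le hρ3 hi.1)
    (fun S hS => hcross S (fun i hi => ⟨(hS i hi).1, (hS i hi).2.1, (hS i hi).2.2⟩))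
    (η := ε * A * η / C2) (by positivity)
  obtain ⟨ρ0, h01, h02, h03, h04, h05⟩ : ∃ ρ0 : ℝ, ρ1 ≤ ρ0 ∧ ρ2 ≤ ρ0 ∧ ρ3 ≤ ρ0 ∧ ρ4 ≤ ρ0 ∧
      1 ≤ ρ0 :=
    ⟨max (max ρ1 ρ2) (max (max ρ3 ρ4) 1), (le_max_left _ _).trans (le_max_left _ _),
      (le_max_right _ _).trans (le_max_left _ _),
      ((le_max_left _ _).trans (le_max_left _ _)).trans (le_max_right _ _),
      ((le_max_right _ _).trans (le_max_left _ _)).trans (le_max_right _ _),
      (le_max_right _ _).trans (le_max_right _ _)⟩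
  set θ := β * (c0 + ε) * (1 + ε) / (c0 - ε) with hθd
  set D := ((2 + (b2 - a2) * K / c) / c) ^ 2 with hD
  have hD0 : 0 ≤ D := sq_nonneg _
  set Q := 1 + C1 * ρ0 * L + 4 * D * C1 * M with hQ
  -- choice of X
  obtain ⟨X, hX, hXL, hXM, hXlog⟩ : ∃ X > 0, 1 / X ≤ L ∧ M * ρ0 ≤ X ∧
      Q < A * Real.log (X * L) * (1 - ε - θ) := by
    have h1 : Tendsto (fun X : ℝ => X * L) atTop atTop := tendsto_id.atTop_mul_const hL
    have h2 : Tendsto (fun X : ℝ => A * Real.log (X * L) * (1 - ε - θ)) atTop atTop := by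
      have := Real.tendsto_log_atTop.comp h1
      exact (this.const_mul_atTop hA).atTop_mul_const (by linarith)
    obtain ⟨X, h3, h4, h5, h6⟩ := ((h2.eventually_gt_atTop Q).and
      ((h1.eventually_ge_atTop 1).and
        ((eventually_gt_atTop 0).and (eventually_ge_atTop (M * ρ0))))).exists
    refine ⟨X, h5, ?_, h6, h3⟩
    rw [div_le_iff₀ h5, mul_comm]
    exact h4
  have hlog : 0 ≤ Real.log (X * L) := by
    apply Real.log_nonneg
    rw [div_le_iff₀ hX, mul_comm] at hXL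
    exact hXL
  set T := A * Real.log (X * L) with hT
  have hT0 : 0 ≤ T := by positivity
  have hsum := a_hasSum (ψ := ψ) hA hcont hF (X := X) (L := L) (t1 := t0) (t2 := t0 + η) hX hXL
    (by linarith) (by have := ht0.1; linarith) (by linarith)
  rw [← hT, add_sub_cancel_left] at hsum
  obtain ⟨S, hS⟩ : ∃ S : Finset ι, η * T - η < ∑ i ∈ S, ∫ t in t0..(t0 + η), Ww (ψ i) X L t := by
    have h1 : ∀ᶠ S in atTop, η * T - η < ∑ i ∈ S, ∫ t in t0..(t0 + η), Ww (ψ i) X L t :=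
      hsum.eventually (lt_mem_nhds (by linarith))
    exact h1.exists
  -- the four classes
  set V : ι → ℝ := fun i => ∫ t in t0..(t0 + η), Ww (ψ i) X L t with hV
  have hVnn : ∀ i, 0 ≤ V i := fun i =>
    intervalIntegral.integral_nonneg (by linarith) fun t _ => Ww_nonneg _ hXL t
  let S1 := S.filter fun i => r i < ρ0
  let S2 := S.filter fun i => ρ0 ≤ r i ∧ Cr i
  let S3 := S.filter fun i => ρ0 ≤ r i ∧ ¬ Cr i ∧ M * r i ≤ X
  let S4 := S.filter fun i => ρ0 ≤ r i ∧ ¬ Cr i ∧ X < M * r i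
  have hsplit : ∑ i ∈ S, V i ≤ ∑ i ∈ S1, V i + ∑ i ∈ S2, V i + ∑ i ∈ S3, V i + ∑ i ∈ S4, V i := by
    simp only [S1, S2, S3, S4, Finset.sum_filter, ← Finset.sum_add_distrib]
    apply Finset.sum_le_sum
    intro i _
    have h0 := hVnn i
    by_cases h1 : r i < ρ0
    · have h2 : ¬ ρ0 ≤ r i := not_le.2 h1
      simp [h1, h2]
    · have h1' : ρ0 ≤ r i := not_lt.1 h1
      by_cases h2 : Cr i
      · simp [h1, h1', h2]
      · by_cases h3 : M * r i ≤ X
        · have h4 : ¬ X < M * r i := not_lt.2 h3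
          simp [h1, h1', h2, h3, h4]
        · have h4 : X < M * r i := not_le.1 h3
          simp [h1, h1', h2, h3, h4]
  have hb1 : ∑ i ∈ S1, V i ≤ η * (C1 * ρ0 * L) := by
    have h1 : ∀ i ∈ S1, V i ≤ η * L := by
      intro i _
      have := V_le (ψ := ψ i) hXL (by linarith : t0 ≤ t0 + η)
        (fun t _ => Ww_small (hcont i) hX hXL t)
      rwa [add_sub_cancel_left] at this
    have h2 := Finset.sum_le_card_nsmul S1 V _ h1
    rw [nsmul_eq_mul] at h2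
    have h3 := hcount ρ0 h05 S1 (fun i hi => (Finset.mem_filter.1 hi).2.le)
    calc ∑ i ∈ S1, V i ≤ (S1.card : ℝ) * (η * L) := h2
      _ ≤ (C1 * ρ0) * (η * L) := mul_le_mul_of_nonneg_right h3 (by positivity)
      _ = _ := by ring
  have hb2' : ∑ i ∈ S2, V i ≤ ε * η * T := by
    have h1 : ∀ i ∈ S2, V i ≤ C2 * Real.log (X * L) * (1 / r i) := by
      intro i hi
      have hi' := (Finset.mem_filter.1 hi).2
      obtain ⟨s, hs, hs0⟩ := hi'.2.1
      have hri : 0 < r i := by linarith [hi'.1]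
      have := hcr a b K (r i) s (ψ i) (ψ1 i) (ψ2 i) hri (hP i)
        ⟨by linarith [hs.1], by linarith [hs.2]⟩ hs0 hi'.2.2 t0 (t0 + η) X L
        (by have := ht0.1; linarith) (by linarith) hX hXL (by linarith)
      rw [mul_one_div]
      exact this
    have h2 := htail S2 (fun i hi => by
      have hi' := (Finset.mem_filter.1 hi).2
      exact ⟨⟨h03.trans hi'.1, hi'.2⟩, h04.trans hi'.1⟩)
    calc ∑ i ∈ S2, V i ≤ ∑ i ∈ S2, C2 * Real.log (X * L) * (1 / r i) := Finset.sum_le_sum h1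
      _ = C2 * Real.log (X * L) * ∑ i ∈ S2, 1 / r i := by rw [Finset.mul_sum]
      _ ≤ C2 * Real.log (X * L) * (ε * A * η / C2) :=
        mul_le_mul_of_nonneg_left h2 (by positivity)
      _ = _ := by rw [hT]; field_simp
  have hncr : ∀ i, ¬ Cr i → (∀ t ∈ Icc a2 b2, c * r i ≤ |ψ1 i t|) ∧
      1 / |ψ1 i t0| ≤ β / 2 * (1 / |ψ1 i tm| + 1 / |ψ1 i tp|) := by
    intro i hi
    rcases hcl i with h1 | h1
    · exact h1
    · exact (hi h1).elim
  have hb3 : ∑ i ∈ S3, V i ≤ η * (θ * T) := by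
    have hce : 0 < c0 - ε := by linarith
    have hce' : 0 < c0 + ε := by linarith [c0_pos]
    have h1 : ∀ i ∈ S3, V i ≤ η * ((c0 + ε) * (1 + ε) * (β / 2) / (c0 - ε)) *
        (Ww (ψ i) X L tm + Ww (ψ i) X L tp) := by
      intro i hi
      have hi' := (Finset.mem_filter.1 hi).2
      obtain ⟨hl, hconv⟩ := hncr i hi'.2.1
      have hri : 0 < r i := by linarith [hi'.1]
      have hpos : ∀ t ∈ Icc a2 b2, 0 < |ψ1 i t| := fun t ht =>
        lt_of_lt_of_le (by positivity) (hl t ht)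
      have hm := hlow (r i) X tm (ψ i) (ψ1 i) (ψ2 i) (h02.trans hi'.1) hi'.2.2 (hP2 i) hl htm.1
        hLm hXL
      have hp := hlow (r i) X tp (ψ i) (ψ1 i) (ψ2 i) (h02.trans hi'.1) hi'.2.2 (hP2 i) hl htp.1
        hLp hXL
      have h2 : V i ≤ η * ((c0 + ε) * (1 + ε) * (1 / |ψ1 i t0|)) := by
        have := V_le (ψ := ψ i) (B := (c0 + ε) * (1 + ε) * (1 / |ψ1 i t0|)) hXL
          (by linarith : t0 ≤ t0 + η) (by
          intro t ht
          have htI : t ∈ Icc a2 b2 := ⟨ht0.1.trans ht.1, by linarith [ht.2]⟩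
          have h3 := hup (r i) L X t (ψ i) (ψ1 i) (ψ2 i) (h01.trans hi'.1) (hP2 i) hl htI.1
            (by linarith [ht.2]) hX hXL
          refine h3.trans ?_
          have h4 : |ψ1 i t - ψ1 i t0| ≤ K * r i * (t - t0) := by
            have h5 : ∀ x ∈ Icc t0 t, HasDerivWithinAt (ψ1 i) (ψ2 i x) (Icc t0 t) x := by
              intro x hx
              exact ((hP2 i).h2 x ⟨ht0.1.trans hx.1, hx.2.trans htI.2⟩).hasDerivWithinAt
            have h6 : ∀ x ∈ Ico t0 t, ‖ψ2 i x‖ ≤ K * r i := by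
              intro x hx
              rw [Real.norm_eq_abs]
              exact (hP2 i).b2 x ⟨ht0.1.trans hx.1, hx.2.le.trans htI.2⟩
            have := norm_image_sub_le_of_norm_deriv_le_segment' h5 h6 t
              (right_mem_Icc.2 ht.1)
            rwa [Real.norm_eq_abs] at this
          have h7 : t - t0 ≤ η := by linarith [ht.2]
          have h0pos := hpos t0 ⟨ht0.1, ht0.2.le⟩
          have htpos := hpos t htI
          have h8 : |ψ1 i t0| ≤ (1 + ε) * |ψ1 i t| := by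
            have h9 : |ψ1 i t0| - |ψ1 i t| ≤ |ψ1 i t - ψ1 i t0| := by
              rw [abs_sub_comm]; exact abs_sub_abs_le_abs_sub _ _
            have h10 : K * r i * (t - t0) ≤ K * r i * η :=
              mul_le_mul_of_nonneg_left h7 (by positivity)
            have h11 : (1 + ε) * (K * r i * η) ≤ ε * (c * r i) := by nlinarith
            have h12 := hl t0 ⟨ht0.1, ht0.2.le⟩
            have h13 : ε * (c * r i) ≤ ε * |ψ1 i t0| := mul_le_mul_of_nonneg_left h12 hε.le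
            have h14 : (1 + ε) * (|ψ1 i t0| - |ψ1 i t|) ≤ (1 + ε) * (K * r i * η) :=
              mul_le_mul_of_nonneg_left (by linarith) (by linarith)
            linarith
          rw [mul_one_div, div_le_div_iff₀ htpos h0pos]
          nlinarith)
        rwa [add_sub_cancel_left] at this
      have hmpos := hpos tm ⟨htm.1, htm.2.le⟩
      have hppos := hpos tp ⟨htp.1, htp.2.le⟩
      have h3 : 1 / |ψ1 i tm| ≤ Ww (ψ i) X L tm / (c0 - ε) := by
        rw [le_div_iff₀ hce]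
        calc 1 / |ψ1 i tm| * (c0 - ε) = (c0 - ε) / |ψ1 i tm| := by ring
          _ ≤ _ := hm
      have h4 : 1 / |ψ1 i tp| ≤ Ww (ψ i) X L tp / (c0 - ε) := by
        rw [le_div_iff₀ hce]
        calc 1 / |ψ1 i tp| * (c0 - ε) = (c0 - ε) / |ψ1 i tp| := by ring
          _ ≤ _ := hp
      refine h2.trans ?_
      have h5 : 1 / |ψ1 i t0| ≤
          β / 2 * (Ww (ψ i) X L tm / (c0 - ε) + Ww (ψ i) X L tp / (c0 - ε)) :=
        hconv.trans (mul_le_mul_of_nonneg_left (by linarith) (by linarith))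
      have h6 := mul_le_mul_of_nonneg_left h5
        (by positivity : 0 ≤ η * ((c0 + ε) * (1 + ε)))
      calc η * ((c0 + ε) * (1 + ε) * (1 / |ψ1 i t0|))
          = η * ((c0 + ε) * (1 + ε)) * (1 / |ψ1 i t0|) := by ring
        _ ≤ _ := h6
        _ = _ := by ring
    have hm := a_upper (ψ := ψ) hA hcont hF hX hXL (by linarith [htm.1] : a ≤ tm)
      (by linarith) S3
    have hp := a_upper (ψ := ψ) hA hcont hF hX hXL (by linarith [htp.1] : a ≤ tp)
      (by linarith) S3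
    calc ∑ i ∈ S3, V i ≤ ∑ i ∈ S3, η * ((c0 + ε) * (1 + ε) * (β / 2) / (c0 - ε)) *
        (Ww (ψ i) X L tm + Ww (ψ i) X L tp) := Finset.sum_le_sum h1
      _ = η * ((c0 + ε) * (1 + ε) * (β / 2) / (c0 - ε)) *
        (∑ i ∈ S3, Ww (ψ i) X L tm + ∑ i ∈ S3, Ww (ψ i) X L tp) := by
        rw [← Finset.mul_sum, Finset.sum_add_distrib]
      _ ≤ η * ((c0 + ε) * (1 + ε) * (β / 2) / (c0 - ε)) * (T + T) :=
        mul_le_mul_of_nonneg_left (add_le_add hm hp) (by positivity)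
      _ = η * (θ * T) := by rw [hθd]; ring
  have hb4 : ∑ i ∈ S4, V i ≤ η * (4 * D * C1 * M) := by
    have hM0 : 0 < M := by linarith
    have hY : 1 ≤ X / M := by
      rw [le_div_iff₀ hM0, one_mul]
      nlinarith
    have h1 : ∀ i ∈ S4, V i ≤ η * D * X * (1 / r i ^ 2) := by
      intro i hi
      have hi' := (Finset.mem_filter.1 hi).2
      obtain ⟨hl, _⟩ := hncr i hi'.2.1
      have hri : 0 < r i := by linarith [hi'.1]
      have := V_le (ψ := ψ i) (B := D * X / r i ^ 2) hXL (by linarith : t0 ≤ t0 + η) (by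
        intro t ht
        exact Ww_far hK hc hri (hP2 i) hl (ht0.1.trans ht.1) (by linarith [ht.2]) hX hXL)
      rw [add_sub_cancel_left] at this
      refine this.trans (le_of_eq ?_)
      ring
    have h2 := a_invsq hC1 hcount hY S4 (fun i hi => by
      have hi' := (Finset.mem_filter.1 hi).2
      rw [div_le_iff₀ hM0, mul_comm]
      exact hi'.2.2.le)
    calc ∑ i ∈ S4, V i ≤ ∑ i ∈ S4, η * D * X * (1 / r i ^ 2) := Finset.sum_le_sum h1
      _ = η * D * X * ∑ i ∈ S4, 1 / r i ^ 2 := by rw [Finset.mul_sum]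
      _ ≤ η * D * X * (4 * C1 / (X / M)) := mul_le_mul_of_nonneg_left h2 (by positivity)
      _ = _ := by field_simp
  have hfin : η * T - η < η * (C1 * ρ0 * L) + ε * η * T + η * (θ * T) +
      η * (4 * D * C1 * M) := by linarith
  have h1 : η * (T * (1 - ε - θ)) < η * Q := by
    rw [hQ]; nlinarith
  have h2 := lt_of_mul_lt_mul_left h1 hη.le
  linarith

end Pool.Agent.LoopSpec
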