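import Pool.Agent.Lib_MP_e9ccd1_s.Base

/-!
# MP_e9ccd1_an, space curves: oscillatory integrals (pieces OSCA, OSCB)
-/

set_option autoImplicit false

open MeasureTheory Set Filter Topology
open scoped RealInnerProductSpace
open Pool.Agent.CurveSpec (ex BM norm_ex ex_zero ex_add conj_ex continuous_ex)

namespace Pool.Agent.LoopSpec

namespace OscB

/-- one side: the derivative is at least `r` in absolute value, the second derivative is nonnegative -/
theorem side {ψ ψ1 ψ2 : ℝ → ℝ} {x y r : ℝ} (hxy : x ≤ y) (hr : 0 < r)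
    (h1 : ∀ t ∈ Icc x y, HasDerivAt ψ (ψ1 t) t) (h2 : ∀ t ∈ Icc x y, HasDerivAt ψ1 (ψ2 t) t)
    (c2 : ContinuousOn ψ2 (Icc x y)) (hpos : ∀ t ∈ Icc x y, 0 ≤ ψ2 t)
    (hlow : ∀ t ∈ Icc x y, r ≤ |ψ1 t|) :
    ‖∫ t in x..y, ex (ψ t)‖ ≤ 1 / r := by
  have hxI : x ∈ Icc x y := left_mem_Icc.mpr hxy
  have hyI : y ∈ Icc x y := right_mem_Icc.mpr hxy
  set k : ℂ := 2 * Real.pi * Complex.I with hk
  have hkn : ‖k‖ = 2 * Real.pi := by
    rw [hk]
    simp [abs_of_pos Real.pi_pos]
  have hpi3 := Real.pi_gt_three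
  have hk0 : k ≠ 0 := by
    intro h
    rw [h, norm_zero] at hkn
    linarith
  have hne : ∀ t ∈ Icc x y, ψ1 t ≠ 0 := by
    intro t ht h
    have := hlow t ht
    rw [h, abs_zero] at this
    linarith
  have hneC : ∀ t ∈ Icc x y, (ψ1 t : ℂ) ≠ 0 := fun t ht => by
    exact_mod_cast hne t ht
  have c1 : ContinuousOn ψ1 (Icc x y) := fun t ht => (h2 t ht).continuousAt.continuousWithinAt
  have hψ : ContinuousOn ψ (Icc x y) := fun t ht => (h1 t ht).continuousAt.continuousWithinAt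
  have hex : ContinuousOn (fun t => ex (ψ t)) (Icc x y) := continuous_ex.comp_continuousOn hψ
  have hψ1C : ContinuousOn (fun t => (ψ1 t : ℂ)) (Icc x y) :=
    Complex.continuous_ofReal.comp_continuousOn c1
  have hψ2C : ContinuousOn (fun t => (ψ2 t : ℂ)) (Icc x y) :=
    Complex.continuous_ofReal.comp_continuousOn c2
  let R : ℝ → ℂ := fun t => (ψ2 t / (k * ψ1 t ^ 2)) * ex (ψ t)
  let F : ℝ → ℂ := fun t => ex (ψ t) / (k * ψ1 t)
  have hRc : ContinuousOn R (Icc x y) :=
    (hψ2C.div (continuousOn_const.mul (hψ1C.pow 2))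
      fun t ht => mul_ne_zero hk0 (pow_ne_zero _ (hneC t ht))).mul hex
  have hFd : ∀ t ∈ uIcc x y, HasDerivAt F (ex (ψ t) - R t) t := by
    intro t ht
    rw [uIcc_of_le hxy] at ht
    have d1 := hasDerivAt_ex (h1 t ht)
    have d2 : HasDerivAt (fun s => k * (ψ1 s : ℂ)) (k * ψ2 t) t :=
      ((h2 t ht).ofReal_comp).const_mul k
    have d3 := d1.div d2 (mul_ne_zero hk0 (hneC t ht))
    refine d3.congr_deriv ?_
    have e1 := hneC t ht
    simp only [R]
    rw [← hk]
    field_simp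
  have hRi : IntervalIntegrable R volume x y := by
    apply ContinuousOn.intervalIntegrable
    rwa [uIcc_of_le hxy]
  have hgi : IntervalIntegrable (fun t => ex (ψ t)) volume x y := by
    apply ContinuousOn.intervalIntegrable
    rwa [uIcc_of_le hxy]
  have hFTC := intervalIntegral.integral_eq_sub_of_hasDerivAt hFd (hgi.sub hRi)
  rw [intervalIntegral.integral_sub hgi hRi] at hFTC
  have hmain : ∫ t in x..y, ex (ψ t) = F y - F x + ∫ t in x..y, R t := by
    rw [← hFTC]; ring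
  have hFb : ∀ t ∈ Icc x y, ‖F t‖ ≤ 1 / (2 * Real.pi * r) := by
    intro t ht
    simp only [F]
    rw [norm_div, norm_mul, norm_ex, hkn, Complex.norm_real, Real.norm_eq_abs]
    have := hlow t ht
    gcongr
  have hRint : ‖∫ t in x..y, R t‖ ≤ 2 / (2 * Real.pi * r) := by
    have hb : ∀ t ∈ Icc x y, ‖R t‖ = (1 / (2 * Real.pi)) * (ψ2 t / ψ1 t ^ 2) := by
      intro t ht
      simp only [R]
      rw [norm_mul, norm_ex, norm_div, norm_mul, norm_pow, hkn, Complex.norm_real,
        Complex.norm_real, Real.norm_eq_abs, Real.norm_eq_abs, sq_abs, abs_of_nonneg (hpos t ht)]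
      have := hne t ht
      field_simp
    have hd : ∀ t ∈ uIcc x y, HasDerivAt (fun s => -(ψ1 s)⁻¹) (ψ2 t / ψ1 t ^ 2) t := by
      intro t ht
      rw [uIcc_of_le hxy] at ht
      have := ((h2 t ht).inv (hne t ht)).neg
      refine this.congr_deriv ?_
      ring
    have hc : ContinuousOn (fun t => ψ2 t / ψ1 t ^ 2) (Icc x y) :=
      c2.div (c1.pow 2) fun t ht => pow_ne_zero _ (hne t ht)
    have hi : IntervalIntegrable (fun t => ψ2 t / ψ1 t ^ 2) volume x y := by
      apply ContinuousOn.intervalIntegrable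
      rwa [uIcc_of_le hxy]
    have hI := intervalIntegral.integral_eq_sub_of_hasDerivAt hd hi
    have h3 : ‖∫ t in x..y, R t‖ ≤ ∫ t in x..y, ‖R t‖ :=
      intervalIntegral.norm_integral_le_integral_norm hxy
    have h4 : ∫ t in x..y, ‖R t‖ = (1 / (2 * Real.pi)) * ∫ t in x..y, ψ2 t / ψ1 t ^ 2 := by
      rw [← intervalIntegral.integral_const_mul]
      apply intervalIntegral.integral_congr
      intro t ht
      rw [uIcc_of_le hxy] at ht
      exact hb t ht
    rw [h4, hI] at h3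
    refine h3.trans ?_
    have hinv : ∀ t ∈ Icc x y, |(ψ1 t)⁻¹| ≤ 1 / r := by
      intro t ht
      rw [abs_inv, ← one_div]
      exact one_div_le_one_div_of_le hr (hlow t ht)
    have i1 := (abs_le.mp (hinv x hxI)).2
    have i2 := (abs_le.mp (hinv y hyI)).1
    have : -(ψ1 y)⁻¹ - -(ψ1 x)⁻¹ ≤ 2 / r := by
      have : 2 / r = 1 / r + 1 / r := by ring
      linarith
    calc (1 / (2 * Real.pi)) * (-(ψ1 y)⁻¹ - -(ψ1 x)⁻¹) ≤ (1 / (2 * Real.pi)) * (2 / r) := by
          gcongr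
      _ = 2 / (2 * Real.pi * r) := by
          field_simp
  rw [hmain]
  calc ‖F y - F x + ∫ t in x..y, R t‖ ≤ ‖F y - F x‖ + ‖∫ t in x..y, R t‖ := norm_add_le _ _
    _ ≤ (‖F y‖ + ‖F x‖) + ‖∫ t in x..y, R t‖ := by gcongr; exact norm_sub_le _ _
    _ ≤ (1 / (2 * Real.pi * r) + 1 / (2 * Real.pi * r)) + 2 / (2 * Real.pi * r) := by
        gcongr
        · exact hFb y hyI
        · exact hFb x hxI
    _ = (4 / (2 * Real.pi)) * (1 / r) := by
        field_simp
        norm_num
    _ ≤ 1 * (1 / r) := by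
        gcongr
        rw [div_le_one (by positivity)]
        linarith
    _ = 1 / r := one_mul _

/-- lower bound for increments -/
theorem incr {ψ1 ψ2 : ℝ → ℝ} {a b μ : ℝ} (h2 : ∀ t ∈ Icc a b, HasDerivAt ψ1 (ψ2 t) t)
    (h : ∀ t ∈ Icc a b, μ ≤ ψ2 t) {s t : ℝ} (hs : s ∈ Icc a b) (ht : t ∈ Icc a b) (hst : s ≤ t) :
    μ * (t - s) ≤ ψ1 t - ψ1 s := by
  refine (convex_Icc a b).mul_sub_le_image_sub_of_le_deriv
    (fun u hu => (h2 u hu).continuousAt.continuousWithinAt)
    (fun u hu => (h2 u (interior_subset hu)).differentiableAt.differentiableWithinAt) ?_ s hs t ht hst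
  intro u hu
  rw [(h2 u (interior_subset hu)).deriv]
  exact h u (interior_subset hu)

theorem exists_center {ψ1 ψ2 : ℝ → ℝ} {a b μ : ℝ} (hab : a ≤ b)
    (h2 : ∀ t ∈ Icc a b, HasDerivAt ψ1 (ψ2 t) t)
    (h : ∀ t ∈ Icc a b, μ ≤ ψ2 t) :
    ∃ c ∈ Icc a b, ∀ t ∈ Icc a b, μ * |t - c| ≤ |ψ1 t| := by
  have haI : a ∈ Icc a b := left_mem_Icc.mpr hab
  have hbI : b ∈ Icc a b := right_mem_Icc.mpr hab
  have c1 : ContinuousOn ψ1 (Icc a b) := fun t ht => (h2 t ht).continuousAt.continuousWithinAt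
  by_cases ha : 0 ≤ ψ1 a
  · refine ⟨a, haI, fun t ht => ?_⟩
    have := incr h2 h haI ht ht.1
    rw [abs_of_nonneg (by linarith [ht.1])]
    exact (by linarith : μ * (t - a) ≤ ψ1 t).trans (le_abs_self _)
  by_cases hb : ψ1 b ≤ 0
  · refine ⟨b, hbI, fun t ht => ?_⟩
    have := incr h2 h ht hbI ht.2
    rw [abs_sub_comm, abs_of_nonneg (by linarith [ht.2])]
    exact (by linarith : μ * (b - t) ≤ -ψ1 t).trans (neg_le_abs _)
  push Not at ha hb
  obtain ⟨c, hc, hc0⟩ := intermediate_value_Icc hab c1 ⟨ha.le, hb.le⟩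
  refine ⟨c, hc, fun t ht => ?_⟩
  rcases le_total c t with hct | hct
  · have := incr h2 h hc ht hct
    rw [abs_of_nonneg (by linarith)]
    exact (by linarith : μ * (t - c) ≤ ψ1 t).trans (le_abs_self _)
  · have := incr h2 h ht hc hct
    rw [abs_sub_comm, abs_of_nonneg (by linarith)]
    exact (by linarith : μ * (c - t) ≤ -ψ1 t).trans (neg_le_abs _)

theorem vdc2_pos {ψ ψ1 ψ2 : ℝ → ℝ} {a b μ : ℝ} (hab : a ≤ b) (hμ : 0 < μ)
    (h1 : ∀ t ∈ Icc a b, HasDerivAt ψ (ψ1 t) t) (h2 : ∀ t ∈ Icc a b, HasDerivAt ψ1 (ψ2 t) t)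
    (c2 : ContinuousOn ψ2 (Icc a b))
    (h : ∀ t ∈ Icc a b, μ ≤ ψ2 t) :
    ‖∫ t in a..b, ex (ψ t)‖ ≤ 4 / Real.sqrt μ := by
  obtain ⟨c, hc, hcl⟩ := exists_center hab h2 h
  have hs : 0 < Real.sqrt μ := Real.sqrt_pos.mpr hμ
  have hss : Real.sqrt μ * Real.sqrt μ = μ := Real.mul_self_sqrt hμ.le
  set δ : ℝ := 1 / Real.sqrt μ with hδ
  have hδ0 : 0 < δ := by positivity
  have hμδ : μ * δ = Real.sqrt μ := by
    rw [hδ, mul_one_div, div_eq_iff hs.ne', hss]
  set p := max a (c - δ) with hp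
  set q := min b (c + δ) with hq
  have hap : a ≤ p := le_max_left _ _
  have hpc : p ≤ c := max_le hc.1 (by linarith)
  have hcq : c ≤ q := le_min hc.2 (by linarith)
  have hqb : q ≤ b := min_le_left _ _
  have hψ : ContinuousOn ψ (Icc a b) := fun t ht => (h1 t ht).continuousAt.continuousWithinAt
  have hex : ContinuousOn (fun t => ex (ψ t)) (Icc a b) := continuous_ex.comp_continuousOn hψ
  have hii : ∀ u v, a ≤ u → u ≤ v → v ≤ b →
      IntervalIntegrable (fun t => ex (ψ t)) volume u v := by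
    intro u v hu huv hv
    apply ContinuousOn.intervalIntegrable
    rw [uIcc_of_le huv]
    exact hex.mono (Icc_subset_Icc hu hv)
  have e1 : ‖∫ t in a..p, ex (ψ t)‖ ≤ 1 / Real.sqrt μ := by
    rcases le_total a (c - δ) with hac | hac
    · have hpe : p = c - δ := max_eq_right hac
      have hsub : Icc a p ⊆ Icc a b := Icc_subset_Icc le_rfl (hpc.trans hc.2)
      refine side hap hs (fun t ht => h1 t (hsub ht)) (fun t ht => h2 t (hsub ht))
        (c2.mono hsub) (fun t ht => hμ.le.trans (h t (hsub ht))) fun t ht => ?_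
      refine le_trans ?_ (hcl t (hsub ht))
      rw [← hμδ]
      gcongr
      rw [abs_sub_comm]
      exact (by linarith [ht.2] : δ ≤ c - t).trans (le_abs_self _)
    · have hpe : p = a := max_eq_left hac
      rw [hpe, intervalIntegral.integral_same, norm_zero]
      positivity
  have e3 : ‖∫ t in q..b, ex (ψ t)‖ ≤ 1 / Real.sqrt μ := by
    rcases le_total b (c + δ) with hac | hac
    · have hpe : q = b := min_eq_left hac
      rw [hpe, intervalIntegral.integral_same, norm_zero]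
      positivity
    · have hpe : q = c + δ := min_eq_right hac
      have hsub : Icc q b ⊆ Icc a b := Icc_subset_Icc (hc.1.trans hcq) le_rfl
      refine side hqb hs (fun t ht => h1 t (hsub ht)) (fun t ht => h2 t (hsub ht))
        (c2.mono hsub) (fun t ht => hμ.le.trans (h t (hsub ht))) fun t ht => ?_
      refine le_trans ?_ (hcl t (hsub ht))
      rw [← hμδ]
      gcongr
      exact (by linarith [ht.1] : δ ≤ t - c).trans (le_abs_self _)
  have e2 : ‖∫ t in p..q, ex (ψ t)‖ ≤ 2 / Real.sqrt μ := by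
    have := intervalIntegral.norm_integral_le_of_norm_le_const (a := p) (b := q) (C := 1)
      (f := fun t => ex (ψ t)) (fun t _ => by simp)
    refine this.trans ?_
    rw [one_mul, abs_of_nonneg (by linarith)]
    have h5 : c - δ ≤ p := le_max_right _ _
    have h6 : q ≤ c + δ := min_le_right _ _
    have : 2 / Real.sqrt μ = δ + δ := by rw [hδ]; ring
    linarith
  have hsplit : ∫ t in a..b, ex (ψ t) =
      (∫ t in a..p, ex (ψ t)) + (∫ t in p..q, ex (ψ t)) + ∫ t in q..b, ex (ψ t) := by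
    rw [intervalIntegral.integral_add_adjacent_intervals
        (hii a p le_rfl hap (by linarith [hc.2])) (hii p q hap (by linarith) hqb),
      intervalIntegral.integral_add_adjacent_intervals
        (hii a q le_rfl (by linarith) hqb) (hii q b (by linarith) hqb le_rfl)]
  rw [hsplit]
  calc ‖(∫ t in a..p, ex (ψ t)) + (∫ t in p..q, ex (ψ t)) + ∫ t in q..b, ex (ψ t)‖
      ≤ ‖∫ t in a..p, ex (ψ t)‖ + ‖∫ t in p..q, ex (ψ t)‖ + ‖∫ t in q..b, ex (ψ t)‖ :=
        norm_add₃_le
    _ ≤ 1 / Real.sqrt μ + 2 / Real.sqrt μ + 1 / Real.sqrt μ := by gcongr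
    _ = 4 / Real.sqrt μ := by ring

end OscB

/-- (OSCB) Second derivative test. Proof: by conjugation assume `μ ≤ ψ2`. `ψ1` is strictly increasing,
with slope at least `μ`, so `{|ψ1| < √μ}` is an interval of length at most `2/√μ` (trivial bound there);
on the two remaining intervals `|ψ1| ≥ √μ` and integration by parts gives
`‖∫‖ ≤ (1/2π)(1/|ψ1 x| + 1/|ψ1 y| + ∫ ψ2/ψ1^2) ≤ (1/2π) * 2/√μ`. -/
theorem vdc2 {ψ ψ1 ψ2 : ℝ → ℝ} {a b μ : ℝ} (hab : a ≤ b) (hμ : 0 < μ)
    (h1 : ∀ t ∈ Icc a b, HasDerivAt ψ (ψ1 t) t) (h2 : ∀ t ∈ Icc a b, HasDerivAt ψ1 (ψ2 t) t)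
    (c2 : ContinuousOn ψ2 (Icc a b))
    (h : (∀ t ∈ Icc a b, μ ≤ ψ2 t) ∨ (∀ t ∈ Icc a b, ψ2 t ≤ -μ)) :
    ‖∫ t in a..b, ex (ψ t)‖ ≤ 4 / Real.sqrt μ := by
  rcases h with h | h
  · exact OscB.vdc2_pos hab hμ h1 h2 c2 h
  · have key := OscB.vdc2_pos (ψ := fun t => -ψ t) (ψ1 := fun t => -ψ1 t) (ψ2 := fun t => -ψ2 t)
      hab hμ (fun t ht => (h1 t ht).neg) (fun t ht => (h2 t ht).neg) c2.neg
      (fun t ht => by linarith [h t ht])
    have hconj : ∫ t in a..b, ex (-ψ t) = (starRingEnd ℂ) (∫ t in a..b, ex (ψ t)) := by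
      rw [intervalIntegral.integral_of_le hab, intervalIntegral.integral_of_le hab,
        ← integral_conj]
      congr 1
      ext t
      rw [conj_ex]
    rw [hconj, Complex.norm_conj] at key
    exact key

/-- (OSCB) Amplitudes. Proof: `∫ f g = f a ∫_a^b g + ∫_a^b f1 x (∫_x^b g) dx`
(integration by parts with `G x = ∫_x^b g`, `G' = -g`). -/
theorem amp {g f f1 : ℝ → ℂ} {a b K B B1 : ℝ} (hab : a ≤ b) (cg : ContinuousOn g (Icc a b))
    (hK : ∀ x ∈ Icc a b, ‖∫ t in x..b, g t‖ ≤ K)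
    (hf : ∀ t ∈ Icc a b, HasDerivAt f (f1 t) t) (cf : ContinuousOn f1 (Icc a b))
    (bf : ∀ t ∈ Icc a b, ‖f t‖ ≤ B) (bf1 : ∀ t ∈ Icc a b, ‖f1 t‖ ≤ B1) :
    ‖∫ t in a..b, f t * g t‖ ≤ K * (B + (b - a) * B1) := by
  have haI : a ∈ Icc a b := left_mem_Icc.mpr hab
  have hbI : b ∈ Icc a b := right_mem_Icc.mpr hab
  have hB : 0 ≤ B := (norm_nonneg _).trans (bf a haI)
  have hB1 : 0 ≤ B1 := (norm_nonneg _).trans (bf1 a haI)
  have hK0 : 0 ≤ K := (norm_nonneg _).trans (hK a haI)
  let G : ℝ → ℂ := fun x => ∫ t in x..b, g t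
  have hgi : IntervalIntegrable g volume a b := by
    apply ContinuousOn.intervalIntegrable
    rwa [uIcc_of_le hab]
  have hGc : ContinuousOn G (Icc a b) := by
    have := intervalIntegral.continuousOn_primitive_interval_left (μ := volume) (f := g)
      (a := a) (b := b) (by
        have := hgi.1
        rw [uIcc_of_le hab]
        exact cg.integrableOn_Icc)
    rwa [uIcc_of_le hab] at this
  have hfc : ContinuousOn f (Icc a b) := fun t ht => (hf t ht).continuousAt.continuousWithinAt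
  have hGd : ∀ t ∈ Ioo a b, HasDerivAt G (-g t) t := by
    intro t ht
    have hci : ContinuousOn g (Icc t b) := cg.mono (Icc_subset_Icc ht.1.le le_rfl)
    have hti : IntervalIntegrable g volume t b := by
      apply ContinuousOn.intervalIntegrable
      rwa [uIcc_of_le ht.2.le]
    have hcat : ContinuousAt g t := cg.continuousAt (Icc_mem_nhds ht.1 ht.2)
    exact intervalIntegral.integral_hasDerivAt_left hti
      (ContinuousOn.stronglyMeasurableAtFilter isOpen_Ioo (cg.mono Ioo_subset_Icc_self) t ht) hcat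
  have hd : ∀ t ∈ Ioo a b, HasDerivAt (fun x => f x * G x) (f1 t * G t - f t * g t) t := by
    intro t ht
    refine ((hf t (Ioo_subset_Icc_self ht)).mul (hGd t ht)).congr_deriv ?_
    ring
  have i1 : IntervalIntegrable (fun t => f1 t * G t) volume a b := by
    apply ContinuousOn.intervalIntegrable
    rw [uIcc_of_le hab]
    exact cf.mul hGc
  have i2 : IntervalIntegrable (fun t => f t * g t) volume a b := by
    apply ContinuousOn.intervalIntegrable
    rw [uIcc_of_le hab]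
    exact hfc.mul cg
  have hFTC := intervalIntegral.integral_eq_sub_of_hasDerivAt_of_le hab (hfc.mul hGc) hd
    (i1.sub i2)
  rw [intervalIntegral.integral_sub i1 i2] at hFTC
  have hGb : G b = 0 := intervalIntegral.integral_same
  have hmain : ∫ t in a..b, f t * g t = f a * G a + ∫ t in a..b, f1 t * G t := by
    have h5 : (∫ t in a..b, f1 t * G t) - ∫ t in a..b, f t * g t = f b * G b - f a * G a := hFTC
    rw [hGb, mul_zero] at h5
    linear_combination -h5
  have h6 : ‖∫ t in a..b, f1 t * G t‖ ≤ (B1 * K) * |b - a| := by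
    apply intervalIntegral.norm_integral_le_of_norm_le_const
    intro t ht
    rw [uIoc_of_le hab] at ht
    rw [norm_mul]
    exact mul_le_mul (bf1 t (Ioc_subset_Icc_self ht)) (hK t (Ioc_subset_Icc_self ht))
      (norm_nonneg _) hB1
  rw [abs_of_nonneg (by linarith)] at h6
  rw [hmain]
  calc ‖f a * G a + ∫ t in a..b, f1 t * G t‖ ≤ ‖f a * G a‖ + ‖∫ t in a..b, f1 t * G t‖ :=
        norm_add_le _ _
    _ ≤ B * K + (B1 * K) * (b - a) := by
        gcongr
        rw [norm_mul]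
        exact mul_le_mul (bf a haI) (hK a haI) (norm_nonneg _) hB
    _ = K * (B + (b - a) * B1) := by ring

end Pool.Agent.LoopSpec
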