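import Pool.Agent.Lib_MP_e9ccd1_s.APhase
import Pool.Agent.Lib_MP_e9ccd1_s.OscB

/-!
# MP_e9ccd1_an, planar arcs: frequencies perpendicular to the arc at a point `s0` (piece ACR)
-/

set_option autoImplicit false

open MeasureTheory Set Filter Topology
open scoped RealInnerProductSpace
open Pool.Agent.CurveSpec (ex BM norm_ex ex_zero ex_add conj_ex continuous_ex)

namespace Pool.Agent.LoopSpec

/-- (ACR1) First derivative test with monotone `ψ1`. Proof: integration by parts,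
`‖∫_x^y ex ψ‖ ≤ (1/2π)(1/|ψ1 x| + 1/|ψ1 y| + ∫ |ψ2|/ψ1²)`, and the last integral is `|1/ψ1 x - 1/ψ1 y| ≤ 1/m`
(`ψ1` has constant sign on `[x, y]` because it is continuous and does not vanish, and `ψ2` has constant sign).
(This step is also part of the proof of `vdc2`.) -/
theorem vdc1 {ψ ψ1 ψ2 : ℝ → ℝ} {x y m : ℝ} (hxy : x ≤ y) (hm : 0 < m)
    (h1 : ∀ t ∈ Icc x y, HasDerivAt ψ (ψ1 t) t) (h2 : ∀ t ∈ Icc x y, HasDerivAt ψ1 (ψ2 t) t)
    (c2 : ContinuousOn ψ2 (Icc x y)) (hlow : ∀ t ∈ Icc x y, m ≤ |ψ1 t|)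
    (h : (∀ t ∈ Icc x y, 0 ≤ ψ2 t) ∨ (∀ t ∈ Icc x y, ψ2 t ≤ 0)) :
    ‖∫ t in x..y, ex (ψ t)‖ ≤ 1 / m := by
  rcases h with h | h
  · exact OscB.side hxy hm h1 h2 c2 h hlow
  · have key := OscB.side (ψ := fun t => -ψ t) (ψ1 := fun t => -ψ1 t) (ψ2 := fun t => -ψ2 t)
      hxy hm (fun t ht => (h1 t ht).neg) (fun t ht => (h2 t ht).neg) c2.neg
      (fun t ht => by linarith [h t ht]) (fun t ht => by rw [abs_neg]; exact hlow t ht)
    have hconj : ∫ t in x..y, ex (-ψ t) = (starRingEnd ℂ) (∫ t in x..y, ex (ψ t)) := by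
      rw [intervalIntegral.integral_of_le hxy, intervalIntegral.integral_of_le hxy,
        ← integral_conj]
      congr 1
      ext t
      rw [conj_ex]
    rw [hconj, Complex.norm_conj] at key
    exact key

/-- (ACR1) Windows at distance at least `d` from the zero `s0` of `ψ1`. Proof: `|ψ1 s| ≥ c r |s - s0| ≥ c r d`. -/
theorem cr_far {a b K c r s0 : ℝ} {ψ ψ1 ψ2 : ℝ → ℝ} (hc : 0 < c) (hr : 0 < r)
    (h : Ph a b K r ψ ψ1 ψ2) (hs : s0 ∈ Icc a b) (h0 : ψ1 s0 = 0)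
    (hsg : (∀ t ∈ Icc a b, c * r ≤ ψ2 t) ∨ (∀ t ∈ Icc a b, ψ2 t ≤ -(c * r)))
    {t l d : ℝ} (ht : a ≤ t) (hl : 0 ≤ l) (hb : t + l ≤ b) (hd : 0 < d)
    (hfar : s0 + d ≤ t ∨ t + l + d ≤ s0) :
    Gw ψ t l ≤ 1 / (c * r * d) ^ 2 := by
  have hcr : 0 < c * r := mul_pos hc hr
  have hsub : Icc t (t + l) ⊆ Icc a b := Icc_subset_Icc ht hb
  -- the slope is at least `c r d` on the window
  have key : ∀ s ∈ Icc t (t + l), c * r * d ≤ |ψ1 s| := by
    intro s hs1
    have hsI := hsub hs1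
    rcases hfar with hf | hf
    · have hs2 : d ≤ s - s0 := by linarith [hs1.1]
      have hle : s0 ≤ s := by linarith
      have h3 : c * r * d ≤ c * r * (s - s0) := by gcongr
      rcases hsg with hg | hg
      · have h4 := OscB.incr h.h2 hg hs hsI hle
        rw [h0, sub_zero] at h4
        exact (h3.trans h4).trans (le_abs_self _)
      · have h4 := OscB.incr (ψ1 := fun u => -ψ1 u) (ψ2 := fun u => -ψ2 u)
          (fun u hu => (h.h2 u hu).neg) (fun u hu => by linarith [hg u hu] : ∀ u ∈ Icc a b,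
            c * r ≤ -ψ2 u) hs hsI hle
        simp only [h0, neg_zero, sub_zero] at h4
        exact (h3.trans h4).trans (neg_le_abs _)
    · have hs2 : d ≤ s0 - s := by linarith [hs1.2]
      have hle : s ≤ s0 := by linarith
      have h3 : c * r * d ≤ c * r * (s0 - s) := by gcongr
      rcases hsg with hg | hg
      · have h4 := OscB.incr h.h2 hg hsI hs hle
        rw [h0, zero_sub] at h4
        exact (h3.trans h4).trans (neg_le_abs _)
      · have h4 := OscB.incr (ψ1 := fun u => -ψ1 u) (ψ2 := fun u => -ψ2 u)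
          (fun u hu => (h.h2 u hu).neg) (fun u hu => by linarith [hg u hu] : ∀ u ∈ Icc a b,
            c * r ≤ -ψ2 u) hsI hs hle
        simp only [h0, neg_zero, zero_sub, neg_neg] at h4
        exact (h3.trans h4).trans (le_abs_self _)
  have h5 := vdc1 (x := t) (y := t + l) (m := c * r * d) (by linarith) (by positivity)
    (fun s hs1 => h.h1 s (hsub hs1)) (fun s hs1 => h.h2 s (hsub hs1)) (h.c2.mono hsub) key
    (by
      rcases hsg with hg | hg
      · exact Or.inl fun s hs1 => hcr.le.trans (hg s (hsub hs1))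
      · exact Or.inr fun s hs1 => by linarith [hg s (hsub hs1)])
  have h6 := pow_le_pow_left₀ (norm_nonneg _) h5 2
  rw [one_div_pow] at h6
  exact h6

/-- (ACR1) `vdc2` -/
theorem cr_all {a b K c r : ℝ} {ψ ψ1 ψ2 : ℝ → ℝ} (hc : 0 < c) (hr : 0 < r)
    (h : Ph a b K r ψ ψ1 ψ2)
    (hsg : (∀ t ∈ Icc a b, c * r ≤ ψ2 t) ∨ (∀ t ∈ Icc a b, ψ2 t ≤ -(c * r)))
    {t l : ℝ} (ht : a ≤ t) (hl : 0 ≤ l) (hb : t + l ≤ b) :
    Gw ψ t l ≤ 16 / (c * r) := by
  have hcr : 0 < c * r := mul_pos hc hr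
  have hsub : Icc t (t + l) ⊆ Icc a b := Icc_subset_Icc ht hb
  have h5 := vdc2 (a := t) (b := t + l) (μ := c * r) (by linarith) hcr
    (fun s hs1 => h.h1 s (hsub hs1)) (fun s hs1 => h.h2 s (hsub hs1)) (h.c2.mono hsub)
    (by
      rcases hsg with hg | hg
      · exact Or.inl fun s hs1 => hg s (hsub hs1)
      · exact Or.inr fun s hs1 => hg s (hsub hs1))
  have h6 := pow_le_pow_left₀ (norm_nonneg _) h5 2
  rw [div_pow, Real.sq_sqrt hcr.le] at h6
  have h7 : (4:ℝ) ^ 2 = 16 := by norm_num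
  rw [h7] at h6
  exact h6

end Pool.Agent.LoopSpec
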