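import Pool.Agent.Lib_MP_e9ccd1_s.ACr

/-!
# MP_e9ccd1_an, planar arcs: frequencies perpendicular to the arc, average over the position (piece ACRINT)
-/

set_option autoImplicit false

open MeasureTheory Set Filter Topology
open scoped RealInnerProductSpace
open Pool.Agent.CurveSpec (ex BM norm_ex ex_zero ex_add conj_ex continuous_ex)

namespace Pool.Agent.LoopSpec

namespace ACrInt

/-- the integral of the Cauchy kernel -/
theorem cauchy_int {P δ s0 t1 t2 : ℝ} (hP : 0 ≤ P) (hδ : 0 < δ) :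
    ∫ t in t1..t2, P / (1 + ((t - s0) / δ) ^ 2) ≤ P * δ * Real.pi := by
  have hd : ∀ t ∈ uIcc t1 t2, HasDerivAt (fun t => P * δ * Real.arctan ((t - s0) / δ))
      (P / (1 + ((t - s0) / δ) ^ 2)) t := by
    intro t _
    have h1 : HasDerivAt (fun t : ℝ => (t - s0) / δ) (1 / δ) t :=
      ((hasDerivAt_id t).sub_const s0).div_const δ
    have h2 := (h1.arctan).const_mul (P * δ)
    refine h2.congr_deriv ?_
    have h3 : (1 + ((t - s0) / δ) ^ 2) ≠ 0 := by positivity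
    field_simp
  have hc : Continuous fun t : ℝ => P / (1 + ((t - s0) / δ) ^ 2) := by
    apply Continuous.div continuous_const (by fun_prop)
    intro t
    positivity
  rw [intervalIntegral.integral_eq_sub_of_hasDerivAt hd (hc.intervalIntegrable _ _)]
  have h4 := Real.arctan_lt_pi_div_two ((t2 - s0) / δ)
  have h5 := Real.neg_pi_div_two_lt_arctan ((t1 - s0) / δ)
  have h6 : 0 ≤ P * δ := mul_nonneg hP hδ.le
  rw [← mul_sub]
  exact mul_le_mul_of_nonneg_left (by linarith) h6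

/-- the pointwise bound implies the integral bound -/
theorem int_le {ψ : ℝ → ℝ} (hψ : Continuous ψ) {P δ s0 t1 t2 l : ℝ} (h12 : t1 ≤ t2) (hP : 0 ≤ P)
    (hδ : 0 < δ) (h : ∀ t ∈ Icc t1 t2, Gw ψ t l ≤ P / (1 + ((t - s0) / δ) ^ 2)) :
    ∫ t in t1..t2, Gw ψ t l ≤ P * δ * Real.pi := by
  refine le_trans ?_ (cauchy_int (s0 := s0) (t1 := t1) (t2 := t2) hP hδ)
  have hc : Continuous fun t : ℝ => P / (1 + ((t - s0) / δ) ^ 2) := by
    apply Continuous.div continuous_const (by fun_prop)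
    intro t
    positivity
  have hG : Continuous fun t : ℝ => Gw ψ t l :=
    (Gw_cont hψ).comp (continuous_id.prodMk continuous_const)
  exact intervalIntegral.integral_mono_on h12 (hG.intervalIntegrable _ _)
    (hc.intervalIntegrable _ _) h

/-- the distance from `s0` to the window -/
theorem dist_split {t l s0 δ : ℝ} (hl : 0 < l) (hδ : l ≤ δ) :
    ∃ d : ℝ, 0 ≤ d ∧ (d = 0 ∨ (s0 + d ≤ t ∨ t + l + d ≤ s0)) ∧
      1 + ((t - s0) / δ) ^ 2 ≤ 3 + 2 * (d / δ) ^ 2 := by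
  have hδ0 : 0 < δ := lt_of_lt_of_le hl hδ
  have key : ∀ d : ℝ, 0 ≤ d → |t - s0| ≤ d + l →
      1 + ((t - s0) / δ) ^ 2 ≤ 3 + 2 * (d / δ) ^ 2 := by
    intro d hd h
    have h1 : |t - s0| ≤ d + δ := by linarith
    have h2 : (t - s0) ^ 2 ≤ (d + δ) ^ 2 := by
      rw [← sq_abs]
      exact pow_le_pow_left₀ (abs_nonneg _) h1 2
    have h3 : (t - s0) ^ 2 ≤ 2 * d ^ 2 + 2 * δ ^ 2 := by nlinarith [sq_nonneg (d - δ)]
    rw [div_pow, div_pow]
    have h4 : (t - s0) ^ 2 / δ ^ 2 ≤ (2 * d ^ 2 + 2 * δ ^ 2) / δ ^ 2 := by gcongr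
    have h5 : (2 * d ^ 2 + 2 * δ ^ 2) / δ ^ 2 = 2 * (d ^ 2 / δ ^ 2) + 2 := by field_simp
    linarith
  rcases lt_or_ge s0 t with h | h
  · refine ⟨t - s0, by linarith, Or.inr (Or.inl (by linarith)), key _ (by linarith) ?_⟩
    rw [abs_of_pos (by linarith)]
    linarith
  · rcases lt_or_ge (t + l) s0 with h1 | h1
    · refine ⟨s0 - t - l, by linarith, Or.inr (Or.inr (by linarith)), key _ (by linarith) ?_⟩
      rw [abs_sub_comm, abs_of_nonneg (by linarith)]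
      linarith
    · refine ⟨0, le_rfl, Or.inl rfl, key _ le_rfl ?_⟩
      rw [abs_sub_comm, abs_of_nonneg (by linarith)]
      linarith

end ACrInt

/-- (ACRINT) Proof. Let `δ = l` if `1 ≤ r l²` and `δ = 1 / (r l)` otherwise (so `δ ≥ l`), and `x = t - s0`. By
`cr_far`, `cr_all`, `Gw_le` one has for ALL `t` the pointwise bound `Gw ψ t l ≤ P / (1 + (x/δ)²)` with
`P δ ≤ C l / r`: let `d` be the distance from `s0` to `[t, t+l]`, then `|x| ≤ d + l ≤ d + δ` and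
`1 + (x/δ)² ≤ 3 + 2 (d/δ)²`. If `1 ≤ r l²`: `Gw ≤ min (16/(c r)) (l²/(c² r d²))` (as `1/r ≤ l²`), so `P = (48/c + 2/c²)/r`.
Otherwise `Gw ≤ min (l²) (l² δ²/(c² d²))` (as `1/r = l δ`), so `P = (3 + 2/c²) l²`. Finally
`∫ dx / (1 + (x/δ)²) ≤ π δ` (`arctan`). So `C = π (48/c + 3 + 2/c²)`. -/
theorem cr_int (c : ℝ) (hc : 0 < c) :
    ∃ C > 0, ∀ (a b K r s0 : ℝ) (ψ ψ1 ψ2 : ℝ → ℝ), 0 < r → Ph a b K r ψ ψ1 ψ2 → s0 ∈ Icc a b →
      ψ1 s0 = 0 → ((∀ t ∈ Icc a b, c * r ≤ ψ2 t) ∨ (∀ t ∈ Icc a b, ψ2 t ≤ -(c * r))) →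
      ∀ (t1 t2 l : ℝ), a ≤ t1 → t1 ≤ t2 → 0 < l → t2 + l ≤ b →
      ∫ t in t1..t2, Gw ψ t l ≤ C * l / r := by
  refine ⟨Real.pi * (48 / c + 3 + 2 / c ^ 2), by positivity, ?_⟩
  intro a b K r s0 ψ ψ1 ψ2 hr h hs h0 hsg t1 t2 l ha h12 hl hb
  have hcr : 0 < c * r := mul_pos hc hr
  -- the general pointwise bound
  have key : ∀ δ P : ℝ, l ≤ δ → 0 ≤ P → (∀ t ∈ Icc t1 t2, 3 * Gw ψ t l + 2 / (c * r * δ) ^ 2 ≤ P) →
      ∫ t in t1..t2, Gw ψ t l ≤ P * δ * Real.pi := by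
    intro δ P hδ hP hPb
    have hδ0 : 0 < δ := lt_of_lt_of_le hl hδ
    refine ACrInt.int_le h.cont (s0 := s0) h12 hP hδ0 fun t ht => ?_
    obtain ⟨d, hd, hd1, hd2⟩ := ACrInt.dist_split (t := t) (s0 := s0) hl hδ
    have hG := Gw_nonneg ψ t l
    have hpos : 0 < 1 + ((t - s0) / δ) ^ 2 := by positivity
    rw [le_div_iff₀ hpos]
    have e1 : Gw ψ t l * (1 + ((t - s0) / δ) ^ 2) ≤ Gw ψ t l * (3 + 2 * (d / δ) ^ 2) := by gcongr
    refine e1.trans (le_trans ?_ (hPb t ht))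
    have e2 : Gw ψ t l * (d / δ) ^ 2 ≤ 1 / (c * r * δ) ^ 2 := by
      rcases hd.eq_or_lt with h1 | h1
      · rw [← h1, zero_div]
        have : (0:ℝ) ^ 2 = 0 := by norm_num
        rw [this, mul_zero]
        positivity
      · have hfar := cr_far hc hr h hs h0 hsg (t := t) (l := l) (d := d) (ha.trans ht.1) hl.le
          (by linarith [ht.2]) h1 (hd1.resolve_left h1.ne')
        have e3 : Gw ψ t l * (d / δ) ^ 2 ≤ 1 / (c * r * d) ^ 2 * (d / δ) ^ 2 := by gcongr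
        refine e3.trans (le_of_eq ?_)
        field_simp
    have e4 : 2 / (c * r * δ) ^ 2 = 2 * (1 / (c * r * δ) ^ 2) := by ring
    rw [e4]
    nlinarith
  rcases le_or_gt 1 (r * l ^ 2) with h1 | h1
  · have hP : (0:ℝ) ≤ (48 / c + 2 / c ^ 2) / r := by positivity
    refine (key l ((48 / c + 2 / c ^ 2) / r) le_rfl hP fun t ht => ?_).trans ?_
    · have e1 := cr_all hc hr h hsg (t := t) (l := l) (ha.trans ht.1) hl.le (by linarith [ht.2])
      have e2 : 2 / (c * r * l) ^ 2 ≤ 2 / c ^ 2 / r := by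
        have e3 : (c * r * l) ^ 2 = c ^ 2 * (r * (r * l ^ 2)) := by ring
        rw [e3, div_div]
        apply div_le_div_of_nonneg_left (by norm_num) (by positivity)
        have e4 : r * 1 ≤ r * (r * l ^ 2) := by gcongr
        nlinarith [sq_nonneg c]
      have e5 : (48 / c + 2 / c ^ 2) / r = 3 * (16 / (c * r)) + 2 / c ^ 2 / r := by
        field_simp
        ring
      rw [e5]
      linarith
    · have e6 : (48 / c + 2 / c ^ 2) / r * l * Real.pi =
          Real.pi * (48 / c + 2 / c ^ 2) * l / r := by ring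
      rw [e6]
      have e7 : 0 < Real.pi := Real.pi_pos
      gcongr
      linarith
  · have hδ : l ≤ 1 / (r * l) := by
      rw [le_div_iff₀ (by positivity)]
      nlinarith
    have hP : (0:ℝ) ≤ (3 + 2 / c ^ 2) * l ^ 2 := by positivity
    refine (key (1 / (r * l)) ((3 + 2 / c ^ 2) * l ^ 2) hδ hP fun t ht => ?_).trans ?_
    · have e1 := Gw_le ψ t hl.le
      have e2 : 2 / (c * r * (1 / (r * l))) ^ 2 = 2 / c ^ 2 * l ^ 2 := by
        field_simp
      rw [e2]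
      linarith
    · have e6 : (3 + 2 / c ^ 2) * l ^ 2 * (1 / (r * l)) * Real.pi =
          Real.pi * (3 + 2 / c ^ 2) * l / r := by
        field_simp
      rw [e6]
      have e7 : 0 < Real.pi := Real.pi_pos
      have e8 : 0 < 48 / c := by positivity
      gcongr
      linarith

end Pool.Agent.LoopSpec
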