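import Pool.Agent.Lib_MP_e9ccd1_s.Base

/-!
# MP_e9ccd1_an, planar arcs: plane geometry (piece AGEOA)
-/

set_option autoImplicit false

open MeasureTheory Set Filter Topology
open scoped RealInnerProductSpace

namespace Pool.Agent.LoopSpec

/-- (AGEOA) Orthonormal vectors of the plane are a basis. -/
theorem plane_norm {u v : E2} (hu : ‖u‖ = 1) (hv : ‖v‖ = 1) (huv : ⟪u, v⟫ = 0) (x : E2) :
    ‖x‖ ^ 2 = ⟪x, u⟫ ^ 2 + ⟪x, v⟫ ^ 2 := by
  have hn : ∀ w : E2, ‖w‖ ^ 2 = w 0 ^ 2 + w 1 ^ 2 := by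
    intro w
    rw [EuclideanSpace.real_norm_sq_eq, Fin.sum_univ_two]
  have hi : ∀ w z : E2, ⟪w, z⟫ = w 0 * z 0 + w 1 * z 1 := by
    intro w z
    rw [PiLp.inner_apply, Fin.sum_univ_two]
    simp [mul_comm]
  have h1 : u 0 ^ 2 + u 1 ^ 2 = 1 := by rw [← hn, hu]; norm_num
  have h2 : v 0 ^ 2 + v 1 ^ 2 = 1 := by rw [← hn, hv]; norm_num
  have h3 : u 0 * v 0 + u 1 * v 1 = 0 := by rw [← hi, huv]
  rw [hn, hi, hi]
  generalize u 0 = a at *
  generalize u 1 = b at *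
  generalize v 0 = c at *
  generalize v 1 = d at *
  generalize x 0 = p at *
  generalize x 1 = q at *
  have hD : (a * d - b * c) ^ 2 = 1 := by
    have : (a * d - b * c) ^ 2 = (a ^ 2 + b ^ 2) * (c ^ 2 + d ^ 2) - (a * c + b * d) ^ 2 := by ring
    rw [this, h1, h2, h3]; norm_num
  have hd : d = a * (a * d - b * c) := by linear_combination (-d) * h1 + b * h3
  have hc : c = -b * (a * d - b * c) := by linear_combination (-c) * h1 + a * h3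
  generalize a * d - b * c = D at *
  subst hd hc
  linear_combination (-(p ^ 2) - q ^ 2) * h1 - (a * q - b * p) ^ 2 * hD

/-- (AGEOA) Proof: `u + v ⊥ v - u` (unit vectors), both are nonzero, so `x ⊥ v - u` is a multiple of `u + v`
(in the plane), `x = t (u + v)` with `t ‖u + v‖² = ⟪x, u + v⟫ > 0` and `|t| ‖u + v‖ = 1`. -/
theorem plane_bisector {u v x : E2} (hu : ‖u‖ = 1) (hv : ‖v‖ = 1) (hx : ‖x‖ = 1) (hne : u ≠ v)
    (horth : ⟪x, v - u⟫ = 0) (hpos : 0 < ⟪x, u + v⟫) : ‖u + v‖ • x = u + v := by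
  have hw0 : u + v ≠ 0 := by
    intro h
    rw [h, inner_zero_right] at hpos
    exact lt_irrefl _ hpos
  have hz0 : v - u ≠ 0 := sub_ne_zero.2 hne.symm
  have hw : 0 < ‖u + v‖ := norm_pos_iff.2 hw0
  have hz : 0 < ‖v - u‖ := norm_pos_iff.2 hz0
  have hwz : ⟪v - u, u + v⟫ = 0 := by
    rw [inner_sub_left, inner_add_right, inner_add_right, real_inner_self_eq_norm_sq,
      real_inner_self_eq_norm_sq, hu, hv, real_inner_comm]
    ring
  have hn1 : ‖(‖v - u‖)⁻¹ • (v - u)‖ = 1 := by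
    rw [norm_smul, norm_inv, norm_norm, inv_mul_cancel₀ hz.ne']
  have hn2 : ‖(‖u + v‖)⁻¹ • (u + v)‖ = 1 := by
    rw [norm_smul, norm_inv, norm_norm, inv_mul_cancel₀ hw.ne']
  have hor : ⟪(‖v - u‖)⁻¹ • (v - u), (‖u + v‖)⁻¹ • (u + v)⟫ = 0 := by
    rw [real_inner_smul_left, real_inner_smul_right, hwz]
    ring
  have h1 := plane_norm hn1 hn2 hor x
  rw [real_inner_smul_right, real_inner_smul_right, horth, hx] at h1
  have h2 : ((‖u + v‖)⁻¹ * ⟪x, u + v⟫) ^ 2 = 1 := by linarith [h1]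
  have h3 : (‖u + v‖)⁻¹ * ⟪x, u + v⟫ = 1 := by
    have h4 : 0 < (‖u + v‖)⁻¹ * ⟪x, u + v⟫ := by positivity
    nlinarith
  have h5 : ⟪x, u + v⟫ = ‖u + v‖ := by
    field_simp at h3
    linarith
  have h6 : ‖‖u + v‖ • x - (u + v)‖ ^ 2 = 0 := by
    rw [norm_sub_sq_real, norm_smul, real_inner_smul_left, norm_norm, hx, h5]
    ring
  have h7 : ‖u + v‖ • x - (u + v) = 0 := by
    rw [← norm_eq_zero]
    exact pow_eq_zero_iff (two_ne_zero) |>.1 h6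
  exact sub_eq_zero.1 h7

/-- (AGEOA) Parallelogram law -/
theorem norm_add_lt {u v : E2} (hu : ‖u‖ = 1) (hv : ‖v‖ = 1) (hne : u ≠ v) : ‖u + v‖ < 2 := by
  have h1 := parallelogram_law_with_norm ℝ u v
  have h2 : 0 < ‖u - v‖ := norm_pos_iff.2 (sub_ne_zero.2 hne)
  rw [hu, hv] at h1
  have h3 := norm_nonneg (u + v)
  nlinarith

/-- (AGEOA) Proof: `‖u+v‖ |⟪l, x⟫| = |⟪l, u⟫ + ⟪l, v⟫| = p + q` with `p = |⟪l, u⟫|`, `q = |⟪l, v⟫|`, and
`4 / (p + q) ≤ 1 / p + 1 / q`. -/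
theorem plane_convex {u v x l : E2} (hx : ‖u + v‖ • x = u + v) (hne : u + v ≠ 0)
    (hl : 0 < ⟪l, u⟫ * ⟪l, v⟫) :
    1 / |⟪l, x⟫| ≤ (‖u + v‖ / 2) / 2 * (1 / |⟪l, u⟫| + 1 / |⟪l, v⟫|) := by
  have hw : 0 < ‖u + v‖ := norm_pos_iff.2 hne
  have h1 : ‖u + v‖ * ⟪l, x⟫ = ⟪l, u⟫ + ⟪l, v⟫ := by
    rw [← real_inner_smul_right, hx, inner_add_right]
  have hu0 : ⟪l, u⟫ ≠ 0 := left_ne_zero_of_mul hl.ne'
  have hv0 : ⟪l, v⟫ ≠ 0 := right_ne_zero_of_mul hl.ne'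
  have hp : 0 < |⟪l, u⟫| := abs_pos.2 hu0
  have hq : 0 < |⟪l, v⟫| := abs_pos.2 hv0
  have h2 : ‖u + v‖ * |⟪l, x⟫| = |⟪l, u⟫| + |⟪l, v⟫| := by
    have h3 : ‖u + v‖ * |⟪l, x⟫| = |‖u + v‖ * ⟪l, x⟫| := by rw [abs_mul, abs_of_pos hw]
    rw [h3, h1]
    rcases lt_or_gt_of_ne hu0 with h | h
    · have h' : ⟪l, v⟫ < 0 := by
        by_contra h3
        push Not at h3
        nlinarith [mul_nonneg (neg_nonneg.2 h.le) h3]
      rw [abs_of_neg h, abs_of_neg h', abs_of_neg (by linarith)]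
      ring
    · have h' : 0 < ⟪l, v⟫ := by
        by_contra h3
        push Not at h3
        nlinarith [mul_nonneg h.le (neg_nonneg.2 h3)]
      rw [abs_of_pos h, abs_of_pos h', abs_of_pos (by linarith)]
  have h3 : |⟪l, x⟫| = (|⟪l, u⟫| + |⟪l, v⟫|) / ‖u + v‖ := by
    rw [eq_div_iff hw.ne', ← h2]
    ring
  rw [h3, one_div_div]
  generalize |⟪l, u⟫| = p at *
  generalize |⟪l, v⟫| = q at *
  generalize ‖u + v‖ = W at *
  have h4 : W / 2 / 2 * (1 / p + 1 / q) - W / (p + q) = W * (p - q) ^ 2 / (4 * p * q * (p + q)) := by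
    field_simp
    ring
  have h5 : 0 ≤ W * (p - q) ^ 2 / (4 * p * q * (p + q)) := by positivity
  linarith

end Pool.Agent.LoopSpec
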