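import Pool.Agent.Lib_MP_e9ccd1_s.AGeoA

/-!
# MP_e9ccd1_an, planar arcs: the two classes of frequencies (piece AGEOB)

Proof of `arc_geo`. `⟪γ1, γ2⟫ = 0` on `(a, b)` (derivative of `‖γ1‖² = 1`). Let `m = (a + b) / 2`,
`e1 = γ1 m`, `κ = ‖γ2 m‖ > 0`, `e2 = κ⁻¹ γ2 m`: orthonormal. Choose `h > 0` such that on
`[m - 4h, m + 4h] ⊂ (a, b)`: `‖γ2 t - γ2 m‖ ≤ κ / 8`, `‖γ1 t - γ1 m‖ ≤ 1 / 8`. Put `a' = m - 4 h`, `b' = m + 4 h`,
`K = 2 κ`, `tm = m - h`, `tp = m + h`, `u = γ1 tm`, `v = γ1 tp`, `c = min (1/4) (κ h / 4)` (and `c ≤ κ / 4`, take the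
minimum of the three).
`⟪v - u, e2⟫ > 0` (mean value theorem, `⟪γ2 t, e2⟫ ≥ 7 κ / 8`), so `u ≠ v`, `β = ‖u + v‖ / 2 < 1`. By the intermediate
value theorem for `s ↦ ⟪γ1 s, v - u⟫` (negative at `tm`, positive at `tp`: `⟪u, v - u⟫ = ⟪u, v⟫ - 1 < 0`) there is `t0`
with `⟪γ1 t0, v - u⟫ = 0`, and `⟪γ1 t0, u + v⟫ > 0` since all three are within `1/8` of `e1`: `plane_bisector`.
Classes: let `l ≠ 0`. If `|⟪l, e1⟫| ≥ ‖l‖ / 2` then `|⟪l, γ1 t⟫| ≥ 3 ‖l‖ / 8` on `[a', b']`, first class (with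
`plane_convex`, the sign of `⟪l, γ1⟫` is constant). Otherwise `|⟪l, e2⟫| ≥ ‖l‖ / 2` (`plane_norm`), so `⟪l, γ2⟫` has
constant sign and `|⟪l, γ2⟫| ≥ (κ/2 - κ/8) ‖l‖` on `[a', b']`. If `⟪l, γ1⟫` has a zero in
`[a' + h, b' - h]`: second class. If not, `⟪l, γ1⟫` has constant sign there and is monotone with slope at least
`κ ‖l‖ / 4` in absolute value, so `|⟪l, γ1 t⟫| ≥ κ h ‖l‖ / 4` on `[a' + 2h, b' - 2h]`: first class.
-/

set_option autoImplicit false

open MeasureTheory Set Filter Topology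
open scoped RealInnerProductSpace

namespace Pool.Agent.LoopSpec

private lemma AGeoB.slope_ge {f f' : ℝ → ℝ} {p q C : ℝ} (hpq : p ≤ q)
    (hd : ∀ t ∈ Icc p q, HasDerivAt f (f' t) t) (hC : ∀ t ∈ Icc p q, C ≤ f' t) :
    C * (q - p) ≤ f q - f p := by
  rcases hpq.eq_or_lt with rfl | hlt
  · simp
  · obtain ⟨c, hc, he⟩ := exists_hasDerivAt_eq_slope f f' hlt
      (fun x hx => (hd x hx).continuousAt.continuousWithinAt)
      (fun x hx => hd x (Ioo_subset_Icc_self hx))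
    have h1 := hC c (Ioo_subset_Icc_self hc)
    rw [he, le_div_iff₀ (by linarith)] at h1
    exact h1

private lemma AGeoB.mono_case {f f' : ℝ → ℝ} {p q h C : ℝ} (hh : 0 < h) (hC0 : 0 < C)
    (hpq : p + h ≤ q - h)
    (hd : ∀ t ∈ Icc p q, HasDerivAt f (f' t) t) (hC : ∀ t ∈ Icc p q, C ≤ f' t)
    (hno : ∀ s ∈ Icc p q, f s ≠ 0) :
    (∀ t ∈ Icc (p + h) (q - h), C * h ≤ f t) ∨ (∀ t ∈ Icc (p + h) (q - h), f t ≤ -(C * h)) := by
  have hcont : ContinuousOn f (Icc p q) := fun x hx => (hd x hx).continuousAt.continuousWithinAt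
  have hle : p ≤ q := by linarith
  rcases lt_trichotomy (f p) 0 with hp | hp | hp
  · right
    have hq : f q < 0 := by
      by_contra hq
      push Not at hq
      obtain ⟨s, hs, hs0⟩ := intermediate_value_Icc hle hcont (show (0 : ℝ) ∈ Icc (f p) (f q) from
        ⟨hp.le, hq⟩)
      exact hno s hs hs0
    intro t ht
    have h1 := AGeoB.slope_ge (f := f) (f' := f') (p := t) (q := q) (C := C) (by linarith [ht.2])
      (fun x hx => hd x ⟨by linarith [hx.1, ht.1], hx.2⟩)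
      (fun x hx => hC x ⟨by linarith [hx.1, ht.1], hx.2⟩)
    have h2 : C * h ≤ C * (q - t) := by
      apply mul_le_mul_of_nonneg_left _ hC0.le
      linarith [ht.2]
    linarith
  · exact absurd hp (hno p ⟨le_rfl, hle⟩)
  · left
    intro t ht
    have h1 := AGeoB.slope_ge (f := f) (f' := f') (p := p) (q := t) (C := C) (by linarith [ht.1])
      (fun x hx => hd x ⟨hx.1, by linarith [hx.2, ht.2]⟩)
      (fun x hx => hC x ⟨hx.1, by linarith [hx.2, ht.2]⟩)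
    have h2 : C * h ≤ C * (t - p) := by
      apply mul_le_mul_of_nonneg_left _ hC0.le
      linarith [ht.1]
    linarith

private lemma AGeoB.inner_near {l x e : E2} {r : ℝ} (h : ‖x - e‖ ≤ r) :
    |⟪l, x⟫ - ⟪l, e⟫| ≤ ‖l‖ * r := by
  rw [← inner_sub_right]
  exact (abs_real_inner_le_norm _ _).trans (mul_le_mul_of_nonneg_left h (norm_nonneg _))

/-- (AGEOB) -/
theorem arc_geo {γ1 γ2 : ℝ → E2} {a b : ℝ} (hab : a < b)
    (h2 : ∀ t ∈ Icc a b, HasDerivAt γ1 (γ2 t) t) (c2 : ContinuousOn γ2 (Icc a b))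
    (hu : ∀ t ∈ Icc a b, ‖γ1 t‖ = 1) (hk : ∀ t ∈ Icc a b, γ2 t ≠ 0) :
    ∃ a' b' h K c β tm t0 tp : ℝ, a < a' ∧ b' < b ∧ 0 < h ∧ 0 ≤ K ∧ 0 < c ∧ 0 ≤ β ∧ β < 1 ∧
      tm ∈ Ico (a' + 2 * h) (b' - 2 * h) ∧ t0 ∈ Ico (a' + 2 * h) (b' - 2 * h) ∧
      tp ∈ Ico (a' + 2 * h) (b' - 2 * h) ∧ (∀ t ∈ Icc a' b', ‖γ2 t‖ ≤ K) ∧
      ∀ l : E2, ((∀ t ∈ Icc (a' + 2 * h) (b' - 2 * h), c * ‖l‖ ≤ |⟪l, γ1 t⟫|) ∧
          1 / |⟪l, γ1 t0⟫| ≤ β / 2 * (1 / |⟪l, γ1 tm⟫| + 1 / |⟪l, γ1 tp⟫|)) ∨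
        ((∃ s ∈ Icc (a' + h) (b' - h), ⟪l, γ1 s⟫ = 0) ∧
          ((∀ t ∈ Icc a' b', c * ‖l‖ ≤ ⟪l, γ2 t⟫) ∨ (∀ t ∈ Icc a' b', ⟪l, γ2 t⟫ ≤ -(c * ‖l‖)))) := by
  obtain ⟨m, hm⟩ : ∃ m : ℝ, m = (a + b) / 2 := ⟨_, rfl⟩
  have ham : a < m := by rw [hm]; linarith
  have hmb : m < b := by rw [hm]; linarith
  have hmI : m ∈ Icc a b := ⟨ham.le, hmb.le⟩
  obtain ⟨κ, hκ⟩ : ∃ κ : ℝ, κ = ‖γ2 m‖ := ⟨_, rfl⟩
  have hκ0 : 0 < κ := by rw [hκ]; exact norm_pos_iff.mpr (hk m hmI)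
  -- the continuity radii
  have hc1 : ContinuousAt γ1 m := (h2 m hmI).continuousAt
  have hc2 : ContinuousAt γ2 m := c2.continuousAt (Icc_mem_nhds ham hmb)
  obtain ⟨η1, hη1, H1⟩ := Metric.continuousAt_iff.mp hc1 (1 / 8) (by norm_num)
  obtain ⟨η2, hη2, H2⟩ := Metric.continuousAt_iff.mp hc2 (κ / 8) (by positivity)
  obtain ⟨h, hh0, hha, hhb, hh1, hh2⟩ : ∃ h : ℝ, 0 < h ∧ 4 * h < m - a ∧ 4 * h < b - m ∧
      4 * h < η1 ∧ 4 * h < η2 := by
    have hpos : 0 < min (min (m - a) (b - m)) (min η1 η2) := by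
      apply lt_min
      · exact lt_min (by linarith) (by linarith)
      · exact lt_min hη1 hη2
    refine ⟨min (min (m - a) (b - m)) (min η1 η2) / 5, by positivity, ?_, ?_, ?_, ?_⟩
    · have := (min_le_left (min (m - a) (b - m)) (min η1 η2)).trans (min_le_left _ _)
      linarith
    · have := (min_le_left (min (m - a) (b - m)) (min η1 η2)).trans (min_le_right _ _)
      linarith
    · have := (min_le_right (min (m - a) (b - m)) (min η1 η2)).trans (min_le_left _ _)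
      linarith
    · have := (min_le_right (min (m - a) (b - m)) (min η1 η2)).trans (min_le_right _ _)
      linarith
  have hsub : ∀ t ∈ Icc (m - 4 * h) (m + 4 * h), t ∈ Icc a b := fun t ht =>
    ⟨by linarith [ht.1], by linarith [ht.2]⟩
  have habs : ∀ t ∈ Icc (m - 4 * h) (m + 4 * h), |t - m| ≤ 4 * h := fun t ht => by
    rw [abs_le]
    exact ⟨by linarith [ht.1], by linarith [ht.2]⟩
  have N1 : ∀ t ∈ Icc (m - 4 * h) (m + 4 * h), ‖γ1 t - γ1 m‖ ≤ 1 / 8 := fun t ht => by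
    have := H1 (x := t) (by rw [Real.dist_eq]; exact (habs t ht).trans_lt hh1)
    rw [dist_eq_norm] at this
    exact this.le
  have N2 : ∀ t ∈ Icc (m - 4 * h) (m + 4 * h), ‖γ2 t - γ2 m‖ ≤ κ / 8 := fun t ht => by
    have := H2 (x := t) (by rw [Real.dist_eq]; exact (habs t ht).trans_lt hh2)
    rw [dist_eq_norm] at this
    exact this.le
  -- orthogonality at `m`
  have horth : ⟪γ1 m, γ2 m⟫ = 0 := by
    have d1 : HasDerivAt (fun t => ⟪γ1 t, γ1 t⟫) (⟪γ1 m, γ2 m⟫ + ⟪γ2 m, γ1 m⟫) m :=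
      (h2 m hmI).inner ℝ (h2 m hmI)
    have d2 : HasDerivAt (fun t => ⟪γ1 t, γ1 t⟫) 0 m := by
      have e : (fun t => ⟪γ1 t, γ1 t⟫) =ᶠ[𝓝 m] fun _ => (1 : ℝ) := by
        filter_upwards [Icc_mem_nhds ham hmb] with t ht
        rw [real_inner_self_eq_norm_sq, hu t ht]
        norm_num
      exact (hasDerivAt_const m (1 : ℝ)).congr_of_eventuallyEq e
    have := d1.unique d2
    rw [real_inner_comm (γ1 m) (γ2 m)] at this
    linarith [real_inner_comm (γ1 m) (γ2 m)]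
  -- the frame
  have he1 : ‖γ1 m‖ = 1 := hu m hmI
  obtain ⟨e2, he2⟩ : ∃ e2 : E2, e2 = κ⁻¹ • γ2 m := ⟨_, rfl⟩
  have he2n : ‖e2‖ = 1 := by
    rw [he2, norm_smul, norm_inv, Real.norm_eq_abs, abs_of_pos hκ0, ← hκ]
    exact inv_mul_cancel₀ hκ0.ne'
  have he12 : ⟪γ1 m, e2⟫ = 0 := by rw [he2, inner_smul_right, horth, mul_zero]
  have hg2 : γ2 m = κ • e2 := by rw [he2, smul_smul, mul_inv_cancel₀ hκ0.ne', one_smul]
  obtain ⟨u, hudef⟩ : ∃ u : E2, u = γ1 (m - h) := ⟨_, rfl⟩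
  obtain ⟨v, hvdef⟩ : ∃ v : E2, v = γ1 (m + h) := ⟨_, rfl⟩
  have hI1 : m - h ∈ Icc (m - 4 * h) (m + 4 * h) := ⟨by linarith, by linarith⟩
  have hI2 : m + h ∈ Icc (m - 4 * h) (m + 4 * h) := ⟨by linarith, by linarith⟩
  have hun : ‖u‖ = 1 := by rw [hudef]; exact hu _ (hsub _ hI1)
  have hvn : ‖v‖ = 1 := by rw [hvdef]; exact hu _ (hsub _ hI2)
  -- derivatives of the coordinates
  have hD : ∀ l : E2, ∀ t ∈ Icc (m - 4 * h) (m + 4 * h),
      HasDerivAt (fun t => ⟪l, γ1 t⟫) ⟪l, γ2 t⟫ t := by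
    intro l t ht
    have := (hasDerivAt_const t l).inner ℝ (h2 t (hsub t ht))
    simpa using this
  -- estimates
  have E1 : ∀ l : E2, ∀ t ∈ Icc (m - 4 * h) (m + 4 * h), |⟪l, γ1 t⟫ - ⟪l, γ1 m⟫| ≤ ‖l‖ / 8 := by
    intro l t ht
    have := AGeoB.inner_near (l := l) (N1 t ht)
    linarith
  have E2' : ∀ l : E2, ∀ t ∈ Icc (m - 4 * h) (m + 4 * h),
      |⟪l, γ2 t⟫ - κ * ⟪l, e2⟫| ≤ κ * ‖l‖ / 8 := by
    intro l t ht
    have := AGeoB.inner_near (l := l) (N2 t ht)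
    rw [hg2, inner_smul_right] at this
    linarith
  have hne : u ≠ v := by
    intro huv
    have h1 := AGeoB.slope_ge (f := fun t => ⟪e2, γ1 t⟫) (f' := fun t => ⟪e2, γ2 t⟫)
      (p := m - h) (q := m + h) (C := κ / 2) (by linarith)
      (fun t ht => hD e2 t ⟨by linarith [ht.1], by linarith [ht.2]⟩)
      (fun t ht => by
        have h3 := E2' e2 t ⟨by linarith [ht.1], by linarith [ht.2]⟩
        rw [real_inner_self_eq_norm_sq, he2n, abs_le] at h3
        have := h3.1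
        show κ / 2 ≤ ⟪e2, γ2 t⟫
        linarith)
    have h1' : κ / 2 * (m + h - (m - h)) ≤ ⟪e2, γ1 (m + h)⟫ - ⟪e2, γ1 (m - h)⟫ := h1
    rw [← hudef, ← hvdef, huv, sub_self] at h1'
    have : 0 < κ / 2 * (m + h - (m - h)) := by
      apply mul_pos (by positivity)
      linarith
    linarith
  have hβ1 : ‖u + v‖ < 2 := norm_add_lt hun hvn hne
  -- inner products of near vectors
  have hin : ∀ s ∈ Icc (m - 4 * h) (m + 4 * h), ∀ t ∈ Icc (m - 4 * h) (m + 4 * h),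
      0 < ⟪γ1 s, γ1 t⟫ := by
    intro s hs t ht
    have h3 := E1 (γ1 s) t ht
    have h4 := E1 (γ1 m) s hs
    rw [hu s (hsub s hs), abs_le] at h3
    rw [he1, real_inner_self_eq_norm_sq, he1, abs_le] at h4
    have h5 := real_inner_comm (γ1 s) (γ1 m)
    linarith [h3.1, h4.1]
  obtain ⟨t0, ht0, ht00⟩ : ∃ t0 ∈ Icc (m - h) (m + h), ⟪γ1 t0, v - u⟫ = 0 := by
    have hcont : ContinuousOn (fun s => ⟪γ1 s, v - u⟫) (Icc (m - h) (m + h)) := by
      intro s hs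
      apply ContinuousAt.continuousWithinAt
      exact (h2 s (hsub s ⟨by linarith [hs.1], by linarith [hs.2]⟩)).continuousAt.inner
        continuousAt_const
    have huv1 : ⟪u, v⟫ ≤ 1 := by
      have := real_inner_le_norm u v
      rw [hun, hvn] at this
      linarith
    obtain ⟨s, hs, hs0⟩ := intermediate_value_Icc (show m - h ≤ m + h by linarith) hcont
      (show (0 : ℝ) ∈ Icc ⟪γ1 (m - h), v - u⟫ ⟪γ1 (m + h), v - u⟫ by
        rw [← hudef, ← hvdef, inner_sub_right, inner_sub_right, real_inner_self_eq_norm_sq,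
          real_inner_self_eq_norm_sq, hun, hvn, real_inner_comm u v]
        constructor
        · linarith [real_inner_comm u v]
        · linarith [real_inner_comm u v])
    exact ⟨s, hs, hs0⟩
  have ht0I : t0 ∈ Icc (m - 4 * h) (m + 4 * h) := ⟨by linarith [ht0.1], by linarith [ht0.2]⟩
  have hbis : ‖u + v‖ • γ1 t0 = u + v := by
    apply plane_bisector hun hvn (hu t0 (hsub t0 ht0I)) hne ht00
    rw [inner_add_right, hudef, hvdef]
    exact add_pos (hin t0 ht0I _ hI1) (hin t0 ht0I _ hI2)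
  have huv0 : u + v ≠ 0 := by
    intro h0
    have h3 : 0 < ⟪γ1 t0, u + v⟫ := by
      rw [inner_add_right, hudef, hvdef]
      exact add_pos (hin t0 ht0I _ hI1) (hin t0 ht0I _ hI2)
    rw [h0, inner_zero_right] at h3
    exact lt_irrefl _ h3
  obtain ⟨c, hc0, hc14, hcκ, hcκh⟩ : ∃ c : ℝ, 0 < c ∧ c ≤ 1 / 4 ∧ c ≤ κ / 4 ∧ c ≤ κ * h / 4 := by
    refine ⟨min (1 / 4) (min (κ / 4) (κ * h / 4)), ?_, min_le_left _ _,
      (min_le_right _ _).trans (min_le_left _ _), (min_le_right _ _).trans (min_le_right _ _)⟩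
    apply lt_min (by norm_num)
    exact lt_min (by positivity) (by positivity)
  refine ⟨m - 4 * h, m + 4 * h, h, 2 * κ, c, ‖u + v‖ / 2, m - h, t0, m + h, by linarith,
    by linarith, hh0, by positivity, hc0, by positivity, by linarith, ⟨by linarith, by linarith⟩,
    ⟨by linarith [ht0.1], by linarith [ht0.2]⟩, ⟨by linarith, by linarith⟩, ?_, ?_⟩
  · intro t ht
    have h3 := N2 t ht
    have h4 : ‖γ2 t‖ ≤ ‖γ2 t - γ2 m‖ + ‖γ2 m‖ := by
      have := norm_add_le (γ2 t - γ2 m) (γ2 m)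
      rwa [sub_add_cancel] at this
    rw [← hκ] at h4
    linarith
  intro l
  -- the first class
  have key : ∀ d : ℝ, c * ‖l‖ ≤ d → 0 < d →
      ((∀ t ∈ Icc (m - 2 * h) (m + 2 * h), d ≤ ⟪l, γ1 t⟫) ∨
        (∀ t ∈ Icc (m - 2 * h) (m + 2 * h), ⟪l, γ1 t⟫ ≤ -d)) →
      ((∀ t ∈ Icc (m - 4 * h + 2 * h) (m + 4 * h - 2 * h), c * ‖l‖ ≤ |⟪l, γ1 t⟫|) ∧
          1 / |⟪l, γ1 t0⟫| ≤ ‖u + v‖ / 2 / 2 * (1 / |⟪l, γ1 (m - h)⟫| + 1 / |⟪l, γ1 (m + h)⟫|)) := by
    intro d hd hd0 hcase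
    constructor
    · intro t ht
      have ht' : t ∈ Icc (m - 2 * h) (m + 2 * h) := ⟨by linarith [ht.1], by linarith [ht.2]⟩
      rcases hcase with hc | hc
      · exact (hd.trans (hc t ht')).trans (le_abs_self _)
      · have := hc t ht'
        have h5 := neg_abs_le (⟪l, γ1 t⟫)
        have h6 := neg_le_abs (⟪l, γ1 t⟫)
        linarith
    · rw [← hudef, ← hvdef]
      apply plane_convex hbis huv0
      rw [hudef, hvdef]
      have i1 : m - h ∈ Icc (m - 2 * h) (m + 2 * h) := ⟨by linarith, by linarith⟩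
      have i2 : m + h ∈ Icc (m - 2 * h) (m + 2 * h) := ⟨by linarith, by linarith⟩
      rcases hcase with hc | hc
      · exact mul_pos (hd0.trans_le (hc _ i1)) (hd0.trans_le (hc _ i2))
      · exact mul_pos_of_neg_of_neg (by linarith [hc _ i1]) (by linarith [hc _ i2])
  rcases eq_or_ne l 0 with rfl | hl
  · left
    simp
  have hL : 0 < ‖l‖ := norm_pos_iff.mpr hl
  rcases le_or_gt (‖l‖ / 2) |⟪l, γ1 m⟫| with hA | hB
  · left
    apply key (‖l‖ / 4) (by linarith [mul_le_mul_of_nonneg_right hc14 hL.le]) (by positivity)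
    rcases le_abs.mp hA with h3 | h3
    · left
      intro t ht
      have h4 := E1 l t ⟨by linarith [ht.1], by linarith [ht.2]⟩
      rw [abs_le] at h4
      linarith [h4.1]
    · right
      intro t ht
      have h4 := E1 l t ⟨by linarith [ht.1], by linarith [ht.2]⟩
      rw [abs_le] at h4
      linarith [h4.2]
  · have hpn := plane_norm he1 he2n he12 l
    have hsq : ⟪l, γ1 m⟫ ^ 2 ≤ (‖l‖ / 2) ^ 2 := by
      rw [← sq_abs]
      exact pow_le_pow_left₀ (abs_nonneg _) hB.le 2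
    have h3 : (‖l‖ / 2) ^ 2 ≤ |⟪l, e2⟫| ^ 2 := by
      rw [sq_abs]
      nlinarith
    have h4 : ‖l‖ / 2 ≤ |⟪l, e2⟫| :=
      (pow_le_pow_iff_left₀ (by positivity) (abs_nonneg _) two_ne_zero).mp h3
    by_cases hz : ∃ s ∈ Icc (m - 4 * h + h) (m + 4 * h - h), ⟪l, γ1 s⟫ = 0
    · right
      refine ⟨hz, ?_⟩
      rcases le_abs.mp h4 with h5 | h5
      · left
        intro t ht
        have h6 := E2' l t ht
        rw [abs_le] at h6
        linarith [h6.1, mul_le_mul_of_nonneg_left h5 hκ0.le, mul_le_mul_of_nonneg_right hcκ hL.le,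
          mul_pos hκ0 hL]
      · right
        intro t ht
        have h6 := E2' l t ht
        rw [abs_le] at h6
        linarith [h6.2, mul_le_mul_of_nonneg_left h5 hκ0.le, mul_le_mul_of_nonneg_right hcκ hL.le,
          mul_pos hκ0 hL]
    · left
      push Not at hz
      have hκL : 0 < κ * ‖l‖ / 4 := by positivity
      apply key (κ * ‖l‖ / 4 * h) (by linarith [mul_le_mul_of_nonneg_right hcκh hL.le])
        (by positivity)
      rcases le_abs.mp h4 with h5 | h5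
      · have hm := AGeoB.mono_case (f := fun t => ⟪l, γ1 t⟫) (f' := fun t => ⟪l, γ2 t⟫)
          (p := m - 3 * h) (q := m + 3 * h) (h := h) (C := κ * ‖l‖ / 4) hh0 hκL (by linarith)
          (fun t ht => hD l t ⟨by linarith [ht.1], by linarith [ht.2]⟩)
          (fun t ht => by
            have h6 := E2' l t ⟨by linarith [ht.1], by linarith [ht.2]⟩
            rw [abs_le] at h6
            show κ * ‖l‖ / 4 ≤ ⟪l, γ2 t⟫
            linarith [h6.1, mul_le_mul_of_nonneg_left h5 hκ0.le, mul_pos hκ0 hL])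
          (fun s hs => hz s ⟨by linarith [hs.1], by linarith [hs.2]⟩)
        rcases hm with hm | hm
        · left
          intro t ht
          exact hm t ⟨by linarith [ht.1], by linarith [ht.2]⟩
        · right
          intro t ht
          exact hm t ⟨by linarith [ht.1], by linarith [ht.2]⟩
      · have hm := AGeoB.mono_case (f := fun t => -⟪l, γ1 t⟫) (f' := fun t => -⟪l, γ2 t⟫)
          (p := m - 3 * h) (q := m + 3 * h) (h := h) (C := κ * ‖l‖ / 4) hh0 hκL (by linarith)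
          (fun t ht => (hD l t ⟨by linarith [ht.1], by linarith [ht.2]⟩).neg)
          (fun t ht => by
            have h6 := E2' l t ⟨by linarith [ht.1], by linarith [ht.2]⟩
            rw [abs_le] at h6
            show κ * ‖l‖ / 4 ≤ -⟪l, γ2 t⟫
            linarith [h6.2, mul_le_mul_of_nonneg_left h5 hκ0.le, mul_pos hκ0 hL])
          (fun s hs => neg_ne_zero.mpr (hz s ⟨by linarith [hs.1], by linarith [hs.2]⟩))
        rcases hm with hm | hm
        · right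
          intro t ht
          have h7 : κ * ‖l‖ / 4 * h ≤ -⟪l, γ1 t⟫ :=
            hm t ⟨by linarith [ht.1], by linarith [ht.2]⟩
          linarith
        · left
          intro t ht
          have h7 : -⟪l, γ1 t⟫ ≤ -(κ * ‖l‖ / 4 * h) :=
            hm t ⟨by linarith [ht.1], by linarith [ht.2]⟩
          linarith

end Pool.Agent.LoopSpec
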