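import Pool.Agent.Lib_MP_e9ccd1_s.APhase

/-!
# MP_e9ccd1_an, planar arcs: the kernel `kf` (piece AKER)

`kf u = ‖∫_0^1 ex (u s) ds‖²`, for `u ≠ 0` this is `sin² (π u) / (π u)²` (`∫_0^1 ex (u s) ds = (ex u - 1)/(2 π i u)`,
`‖ex u - 1‖ ≤ 2`).
-/

set_option autoImplicit false

open MeasureTheory Set Filter Topology
open scoped RealInnerProductSpace
open Pool.Agent.CurveSpec (ex BM norm_ex ex_zero ex_add conj_ex continuous_ex)

namespace Pool.Agent.LoopSpec

/-- (AKER) -/
theorem kf_le_one (u : ℝ) : kf u ≤ 1 := by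
  unfold kf
  have h : ‖∫ s in (0:ℝ)..1, ex (u * s)‖ ≤ 1 * |1 - 0| :=
    intervalIntegral.norm_integral_le_of_norm_le_const fun x _ => (norm_ex _).le
  rw [sub_zero, abs_one, one_mul] at h
  have := pow_le_pow_left₀ (norm_nonneg _) h 2
  simpa using this

/-- (AKER) `‖∫_0^1 ex (u s)‖ ≤ 2 / (2 π |u|)` -/
theorem kf_le {u : ℝ} (hu : u ≠ 0) : kf u ≤ 1 / u ^ 2 := by
  unfold kf
  have hc : ((2 * Real.pi * u : ℝ) : ℂ) * Complex.I ≠ 0 := by
    refine mul_ne_zero ?_ Complex.I_ne_zero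
    have : 2 * Real.pi * u ≠ 0 := by positivity
    exact_mod_cast this
  have e1 : ∫ s in (0:ℝ)..1, ex (u * s) =
      (ex u - 1) / (((2 * Real.pi * u : ℝ) : ℂ) * Complex.I) := by
    have h := integral_exp_mul_complex (a := 0) (b := 1) hc
    have e2 : ∀ s : ℝ, ex (u * s) =
        Complex.exp (((2 * Real.pi * u : ℝ) : ℂ) * Complex.I * s) := by
      intro s
      unfold ex
      congr 1
      push_cast
      ring
    simp only [e2]
    rw [h]
    congr 1
    have e3 : ex u = Complex.exp (((2 * Real.pi * u : ℝ) : ℂ) * Complex.I * ((1:ℝ) : ℂ)) := by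
      rw [← e2 1, mul_one]
    rw [e3]
    simp
  have h2 : ‖ex u - 1‖ ≤ 2 := by
    calc ‖ex u - 1‖ ≤ ‖ex u‖ + ‖(1:ℂ)‖ := norm_sub_le _ _
      _ = 2 := by rw [norm_ex, norm_one]; norm_num
  have h3 : ‖(((2 * Real.pi * u : ℝ) : ℂ) * Complex.I)‖ = 2 * Real.pi * |u| := by
    rw [norm_mul, Complex.norm_I, mul_one, Complex.norm_real, Real.norm_eq_abs, abs_mul,
      abs_of_pos (by positivity : (0:ℝ) < 2 * Real.pi)]
  rw [e1, norm_div, h3]
  have hu' : 0 < |u| := abs_pos.2 hu
  have hpi := Real.pi_gt_three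
  have h4 : ‖ex u - 1‖ / (2 * Real.pi * |u|) ≤ 1 / |u| := by
    rw [div_le_div_iff₀ (by positivity) hu']
    nlinarith
  calc (‖ex u - 1‖ / (2 * Real.pi * |u|)) ^ 2 ≤ (1 / |u|) ^ 2 :=
        pow_le_pow_left₀ (by positivity) h4 2
    _ = 1 / u ^ 2 := by rw [div_pow, one_pow, sq_abs]

/-- (AKER) by complex conjugation -/
theorem kf_neg (u : ℝ) : kf (-u) = kf u := by
  unfold kf
  have e1 : ∫ s in (0:ℝ)..1, ex (-u * s) = ex (-u) * ∫ s in (0:ℝ)..1, ex (u * s) := by
    have h := intervalIntegral.integral_comp_sub_left (a := 0) (b := 1) (fun s => ex (-u * s)) 1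
    simp only [sub_self, sub_zero] at h
    rw [← h, ← intervalIntegral.integral_const_mul]
    congr 1
    ext s
    rw [← ex_add]
    congr 1
    ring
  rw [e1, norm_mul, norm_ex, one_mul]

theorem kf_abs (u : ℝ) : kf |u| = kf u := by
  rcases abs_choice u with h | h
  · rw [h]
  · rw [h, kf_neg]

/-- (AKER) parametric interval integral of a jointly continuous function -/
theorem kf_cont : Continuous kf := by
  unfold kf
  have h : Continuous fun u : ℝ => ∫ s in (0:ℝ)..1, ex (u * s) :=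
    intervalIntegral.continuous_parametric_intervalIntegral_of_continuous'
      (f := fun u s => ex (u * s)) (by unfold Function.uncurry; fun_prop) 0 1
  exact h.norm.pow 2

/-- (AKER) bounded by `1` on `(0, 1]` and by `u^(-2)` on `(1, ∞)` -/
theorem kf_integrable : IntegrableOn kf (Ioi (0:ℝ)) := by
  rw [← Ioc_union_Ioi_eq_Ioi (zero_le_one (α := ℝ)), integrableOn_union]
  refine ⟨(kf_cont.integrableOn_Icc (a := 0) (b := 1)).mono_set Ioc_subset_Icc_self, ?_⟩
  refine Integrable.mono' (g := fun u : ℝ => u ^ (-2 : ℝ))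
    (integrableOn_Ioi_rpow_of_lt (by norm_num) zero_lt_one)
    kf_cont.aestronglyMeasurable.restrict ?_
  refine (ae_restrict_iff' measurableSet_Ioi).2 (Eventually.of_forall fun u hu => ?_)
  have hu0 : (0:ℝ) < u := lt_trans zero_lt_one hu
  rw [Real.norm_of_nonneg (kf_nonneg u), Real.rpow_neg hu0.le]
  have := kf_le hu0.ne'
  rw [one_div] at this
  exact_mod_cast this

private lemma AKer_up {x y : ℝ} (hx : 0 ≤ x) (hxy : x ≤ y) : ∫ u in x..y, kf u ≤ c0 := by
  rw [intervalIntegral.integral_of_le hxy]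
  unfold c0
  refine setIntegral_mono_set kf_integrable
    (Eventually.of_forall fun u => kf_nonneg u) ?_
  exact Eventually.of_forall fun u hu => lt_of_le_of_lt hx hu.1

/-- (AKER) `kf` is continuous, nonnegative and `kf 0 = 1` -/
theorem c0_pos : 0 < c0 := by
  have h0 : kf 0 = 1 := by unfold kf; simp
  have h1 : ∀ᶠ u in 𝓝 (0:ℝ), 1 / 2 < kf u :=
    kf_cont.continuousAt.eventually (lt_mem_nhds (by rw [h0]; norm_num))
  obtain ⟨δ, hδ, h2⟩ := Metric.eventually_nhds_iff.1 h1
  have h3 : ∫ _ in (0:ℝ)..(δ / 2), (1 / 2 : ℝ) ≤ ∫ u in (0:ℝ)..(δ / 2), kf u := by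
    apply intervalIntegral.integral_mono_on (by positivity) intervalIntegrable_const
      (kf_cont.intervalIntegrable _ _)
    intro u hu
    apply le_of_lt
    apply h2
    rw [Real.dist_eq, sub_zero, abs_of_nonneg hu.1]
    linarith [hu.2]
  rw [intervalIntegral.integral_const, smul_eq_mul] at h3
  have h4 := AKer_up (x := 0) (y := δ / 2) le_rfl (by positivity)
  nlinarith

/-- (AKER) -/
theorem kf_up {x y : ℝ} (hx : 0 ≤ x) (hxy : x ≤ y) : ∫ u in x..y, kf u ≤ c0 :=
  AKer_up hx hxy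

/-- (AKER) `∫_0^x kf ≤ x`, `∫_y^∞ kf ≤ 1 / y` -/
theorem kf_low {x y : ℝ} (hx : 0 ≤ x) (hy : 0 < y) : c0 - x - 1 / y ≤ ∫ u in x..y, kf u := by
  have hy' : IntegrableOn kf (Ioi y) := kf_integrable.mono_set (Ioi_subset_Ioi hy.le)
  have h1 : (∫ u in (0:ℝ)..y, kf u) + ∫ u in Ioi y, kf u = c0 :=
    intervalIntegral.integral_interval_add_Ioi kf_integrable hy'
  have h2 : (∫ u in (0:ℝ)..x, kf u) + ∫ u in x..y, kf u = ∫ u in (0:ℝ)..y, kf u :=
    intervalIntegral.integral_add_adjacent_intervals (kf_cont.intervalIntegrable _ _)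
      (kf_cont.intervalIntegrable _ _)
  have h3 : ∫ u in (0:ℝ)..x, kf u ≤ x := by
    have h : ∫ u in (0:ℝ)..x, kf u ≤ ∫ _ in (0:ℝ)..x, (1:ℝ) :=
      intervalIntegral.integral_mono_on hx (kf_cont.intervalIntegrable _ _)
        intervalIntegrable_const fun u _ => kf_le_one u
    rw [intervalIntegral.integral_const, smul_eq_mul, mul_one, sub_zero] at h
    exact h
  have h4 : ∫ u in Ioi y, kf u ≤ 1 / y := by
    have hi : IntegrableOn (fun u : ℝ => u ^ (-2 : ℝ)) (Ioi y) :=
      integrableOn_Ioi_rpow_of_lt (by norm_num) hy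
    have h : ∫ u in Ioi y, kf u ≤ ∫ u in Ioi y, u ^ (-2 : ℝ) := by
      refine setIntegral_mono_on hy' hi measurableSet_Ioi fun u hu => ?_
      have hu0 : (0:ℝ) < u := lt_trans hy hu
      have := kf_le hu0.ne'
      rw [Real.rpow_neg hu0.le]
      rw [one_div] at this
      exact_mod_cast this
    rw [integral_Ioi_rpow_of_lt (by norm_num) hy] at h
    have e : -y ^ ((-2 : ℝ) + 1) / (-2 + 1) = 1 / y := by
      have : (-2 : ℝ) + 1 = -1 := by norm_num
      rw [this, Real.rpow_neg_one]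
      field_simp
    rw [e] at h
    exact h
  linarith

/-- (AKER) windows with a linear phase; substitution `s = t + l u` -/
theorem kf_lin (w e t : ℝ) {l : ℝ} (hl : 0 ≤ l) :
    ‖∫ s in t..(t + l), ex (e + w * (s - t))‖ ^ 2 = l ^ 2 * kf (w * l) := by
  have h1 : ∫ s in t..(t + l), ex (e + w * (s - t)) = ∫ x in (0:ℝ)..l, ex (e + w * x) := by
    have h := intervalIntegral.integral_comp_sub_right (a := t) (b := t + l)
      (fun x => ex (e + w * x)) t
    simpa using h
  have h2 : ∫ x in (0:ℝ)..l, ex (e + w * x) = (l : ℂ) * (ex e * ∫ x in (0:ℝ)..1, ex (w * l * x)) := by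
    have h := intervalIntegral.smul_integral_comp_mul_left (a := 0) (b := 1)
      (fun x => ex (e + w * x)) l
    rw [mul_zero, mul_one] at h
    have h3 : ∫ x in (0:ℝ)..1, ex (e + w * (l * x)) = ex e * ∫ x in (0:ℝ)..1, ex (w * l * x) := by
      rw [← intervalIntegral.integral_const_mul]
      congr 1
      ext x
      rw [← ex_add]
      congr 1
      ring
    rw [← h, Complex.real_smul, h3]
  unfold kf
  rw [h1, h2, norm_mul, norm_mul, norm_ex, one_mul, Complex.norm_real, Real.norm_of_nonneg hl,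
    mul_pow]

/-- (AKER) substitution `u = |w| l` -/
theorem kf_scale {w x y : ℝ} (hw : w ≠ 0) :
    ∫ l in x..y, kf (w * l) = (∫ u in (|w| * x)..(|w| * y), kf u) / |w| := by
  have h1 : ∀ l : ℝ, kf (w * l) = kf (|w| * l) := by
    intro l
    rcases abs_choice w with h | h
    · rw [h]
    · rw [h, neg_mul, kf_neg]
  simp only [h1]
  rw [intervalIntegral.integral_comp_mul_left (fun u => kf u) (abs_ne_zero.2 hw), smul_eq_mul]
  rw [div_eq_inv_mul]

end Pool.Agent.LoopSpec
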