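import Pool.Agent.Lib_MP_e9ccd1_s.AKer

/-!
# MP_e9ccd1_an, planar arcs: linearisation of the phase in a window (piece ALIN)
-/

set_option autoImplicit false

open MeasureTheory Set Filter Topology
open scoped RealInnerProductSpace
open Pool.Agent.CurveSpec (ex BM norm_ex ex_zero ex_add conj_ex continuous_ex)

namespace Pool.Agent.LoopSpec

namespace ALin

lemma ex_sub_le (x y : ℝ) : ‖ex x - ex y‖ ≤ 7 * |x - y| := by
  have h1 : ex x - ex y = ex y * (ex (x - y) - 1) := by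
    rw [mul_sub, mul_one, ← ex_add]
    congr 2
    ring
  rw [h1, norm_mul, norm_ex, one_mul]
  have h2 : ex (x - y) = Complex.exp (Complex.I * ((2 * Real.pi * (x - y) : ℝ) : ℂ)) := by
    unfold ex
    rw [mul_comm]
  rw [h2]
  refine Real.norm_exp_I_mul_ofReal_sub_one_le.trans ?_
  rw [Real.norm_eq_abs, abs_mul, abs_of_pos (by positivity : (0 : ℝ) < 2 * Real.pi)]
  have h3 := Real.pi_lt_d2
  have h4 : 2 * Real.pi ≤ 7 := by linarith
  exact mul_le_mul_of_nonneg_right h4 (abs_nonneg _)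

lemma phase_lin {a b K r : ℝ} {ψ ψ1 ψ2 : ℝ → ℝ} (hK : 0 ≤ K) (hr : 0 ≤ r)
    (h : Ph a b K r ψ ψ1 ψ2) {t l : ℝ} (ht : a ≤ t) (hb : t + l ≤ b) {s : ℝ}
    (hs : s ∈ Icc t (t + l)) : |ψ s - (ψ t + ψ1 t * (s - t))| ≤ K * r * l ^ 2 := by
  have hl : 0 ≤ l := by linarith [hs.1, hs.2]
  have hsub : ∀ x ∈ Icc t (t + l), x ∈ Icc a b := fun x hx => ⟨ht.trans hx.1, hx.2.trans hb⟩
  have htm : t ∈ Icc t (t + l) := ⟨le_rfl, by linarith⟩
  have hKr : 0 ≤ K * r := mul_nonneg hK hr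
  have h1 : ∀ x ∈ Icc t (t + l), ‖ψ1 x - ψ1 t‖ ≤ K * r * ‖x - t‖ := by
    intro x hx
    exact (convex_Icc t (t + l)).norm_image_sub_le_of_norm_hasDerivWithin_le
      (fun y hy => (h.h2 y (hsub y hy)).hasDerivWithinAt)
      (fun y hy => by rw [Real.norm_eq_abs]; exact h.b2 y (hsub y hy)) htm hx
  have h2 : ∀ x ∈ Icc t (t + l), HasDerivWithinAt (fun x => ψ x - ψ1 t * (x - t)) (ψ1 x - ψ1 t)
      (Icc t (t + l)) x := by
    intro x hx
    have h3 : HasDerivAt (fun x => ψ1 t * (x - t)) (ψ1 t * 1) x :=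
      ((hasDerivAt_id x).sub_const t).const_mul (ψ1 t)
    rw [mul_one] at h3
    exact ((h.h1 x (hsub x hx)).sub h3).hasDerivWithinAt
  have h4 := (convex_Icc t (t + l)).norm_image_sub_le_of_norm_hasDerivWithin_le h2
    (C := K * r * l) (fun x hx => (h1 x hx).trans (by
      refine mul_le_mul_of_nonneg_left ?_ hKr
      rw [Real.norm_eq_abs, abs_of_nonneg (by linarith [hx.1])]
      linarith [hx.2])) htm hs
  have h5 : ψ s - (ψ t + ψ1 t * (s - t)) = (ψ s - ψ1 t * (s - t)) - (ψ t - ψ1 t * (t - t)) := by ring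
  rw [h5, ← Real.norm_eq_abs]
  refine h4.trans ?_
  have h6 : ‖s - t‖ ≤ l := by
    rw [Real.norm_eq_abs, abs_of_nonneg (by linarith [hs.1])]
    linarith [hs.2]
  calc K * r * l * ‖s - t‖ ≤ K * r * l * l := mul_le_mul_of_nonneg_left h6 (mul_nonneg hKr hl)
    _ = K * r * l ^ 2 := by ring

end ALin

/-- (ALIN) Proof. `|ψ1 x - ψ1 t| ≤ K r (x - t)`, so `|ψ s - ψ t - ψ1 t (s - t)| ≤ K r l²` on the window (mean value
theorem); `‖ex x - ex y‖ ≤ 2 π |x - y| ≤ 7 |x - y|`; so the two integrals differ by at most `7 K r l³`, they are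
both at most `l` in absolute value, and `|‖x‖² - ‖y‖²| ≤ ‖x - y‖ (‖x‖ + ‖y‖)`. Use `kf_lin`. -/
theorem Gw_lin {a b K r : ℝ} {ψ ψ1 ψ2 : ℝ → ℝ} (hK : 0 ≤ K) (hr : 0 ≤ r)
    (h : Ph a b K r ψ ψ1 ψ2) {t l : ℝ} (ht : a ≤ t) (hl : 0 ≤ l) (hb : t + l ≤ b) :
    |Gw ψ t l - l ^ 2 * kf (ψ1 t * l)| ≤ 16 * K * r * l ^ 4 := by
  rw [← kf_lin (ψ1 t) (ψ t) t hl]
  unfold Gw
  set x : ℂ := ∫ s in t..(t + l), ex (ψ s) with hx
  set y : ℂ := ∫ s in t..(t + l), ex (ψ t + ψ1 t * (s - t)) with hy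
  have hKr : 0 ≤ K * r := mul_nonneg hK hr
  have hxl : ‖x‖ ≤ l := by
    have h1 : ‖x‖ ≤ 1 * |t + l - t| :=
      intervalIntegral.norm_integral_le_of_norm_le_const fun s _ => (norm_ex _).le
    rwa [add_sub_cancel_left, abs_of_nonneg hl, one_mul] at h1
  have hyl : ‖y‖ ≤ l := by
    have h1 : ‖y‖ ≤ 1 * |t + l - t| :=
      intervalIntegral.norm_integral_le_of_norm_le_const fun s _ => (norm_ex _).le
    rwa [add_sub_cancel_left, abs_of_nonneg hl, one_mul] at h1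
  have hxy : ‖x - y‖ ≤ 7 * (K * r * l ^ 2) * l := by
    have hi1 : IntervalIntegrable (fun s => ex (ψ s)) volume t (t + l) :=
      (continuous_ex.comp h.cont).intervalIntegrable _ _
    have hi2 : IntervalIntegrable (fun s => ex (ψ t + ψ1 t * (s - t))) volume t (t + l) :=
      (continuous_ex.comp (by fun_prop : Continuous fun s : ℝ => ψ t + ψ1 t * (s - t))).intervalIntegrable _ _
    rw [hx, hy, ← intervalIntegral.integral_sub hi1 hi2]
    have h1 : ‖∫ s in t..(t + l), (ex (ψ s) - ex (ψ t + ψ1 t * (s - t)))‖ ≤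
        7 * (K * r * l ^ 2) * |t + l - t| := by
      refine intervalIntegral.norm_integral_le_of_norm_le_const fun s hs => ?_
      rw [uIoc_of_le (by linarith)] at hs
      refine (ALin.ex_sub_le _ _).trans ?_
      exact mul_le_mul_of_nonneg_left (ALin.phase_lin hK hr h ht hb ⟨hs.1.le, hs.2⟩) (by norm_num)
    rwa [add_sub_cancel_left, abs_of_nonneg hl] at h1
  have h1 : |‖x‖ ^ 2 - ‖y‖ ^ 2| = |‖x‖ - ‖y‖| * (‖x‖ + ‖y‖) := by
    rw [sq_sub_sq, abs_mul, mul_comm, abs_of_nonneg (by positivity : 0 ≤ ‖x‖ + ‖y‖)]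
  rw [h1]
  calc |‖x‖ - ‖y‖| * (‖x‖ + ‖y‖) ≤ (7 * (K * r * l ^ 2) * l) * (l + l) := by
        refine mul_le_mul ((abs_norm_sub_norm_le x y).trans hxy) (add_le_add hxl hyl) (by positivity) ?_
        positivity
    _ = 14 * (K * r * l ^ 4) := by ring
    _ ≤ 16 * (K * r * l ^ 4) := by
        refine mul_le_mul_of_nonneg_right (by norm_num) (by positivity)
    _ = 16 * K * r * l ^ 4 := by ring

end Pool.Agent.LoopSpec
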