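import Pool.Agent.Lib_MP_e9ccd1_s.ANonB

/-!
# MP_e9ccd1_an, planar arcs: frequencies not perpendicular to the arc, lower bound (piece ANONC)
-/

set_option autoImplicit false

open MeasureTheory Set Filter Topology
open scoped RealInnerProductSpace
open Pool.Agent.CurveSpec (ex BM norm_ex ex_zero ex_add conj_ex continuous_ex)

namespace Pool.Agent.LoopSpec

namespace ANonC

/-- short windows -/
lemma near_low {a b K c r p : ℝ} {ψ ψ1 ψ2 : ℝ → ℝ} (hK : 0 ≤ K) (hc : 0 < c) (hr : 0 < r)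
    (h : Ph a b K r ψ ψ1 ψ2) (hlow : ∀ t ∈ Icc a b, c * r ≤ |ψ1 t|) {t x : ℝ} (ht : a ≤ t)
    (hb : t + p ≤ b) (hx : 0 < x) (hxp : x ≤ p) :
    (c0 - |ψ1 t| * x - 1 / (|ψ1 t| * p)) / |ψ1 t| - 16 * K * r * p ^ 3 ≤
      ∫ l in x..p, Gw ψ t l / l ^ 2 := by
  have hp : 0 < p := lt_of_lt_of_le hx hxp
  have htI : t ∈ Icc a b := ⟨ht, by linarith⟩
  have hw : 0 < |ψ1 t| := lt_of_lt_of_le (by positivity) (hlow t htI)
  have hw0 : ψ1 t ≠ 0 := abs_pos.1 hw
  have hi : IntervalIntegrable (fun l => kf (ψ1 t * l)) volume x p :=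
    (kf_cont.comp (continuous_const.mul continuous_id)).intervalIntegrable _ _
  have h1 : ∫ l in x..p, (kf (ψ1 t * l) - 16 * K * r * p ^ 2) ≤
      ∫ l in x..p, Gw ψ t l / l ^ 2 := by
    refine intervalIntegral.integral_mono_on hxp (hi.sub intervalIntegrable_const)
      (ANonB.int_of h.cont hx hxp t) ?_
    intro l hl
    have hl0 : 0 < l := lt_of_lt_of_le hx hl.1
    have h2 := (abs_le.1 (Gw_lin hK hr.le h ht hl0.le (by linarith [hl.2] : t + l ≤ b))).1
    rw [le_div_iff₀ (by positivity)]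
    have h3 : l ^ 2 ≤ p ^ 2 := pow_le_pow_left₀ hl0.le hl.2 2
    have h4 : 16 * K * r * l ^ 4 ≤ 16 * K * r * p ^ 2 * l ^ 2 := by
      calc 16 * K * r * l ^ 4 = 16 * K * r * (l ^ 2 * l ^ 2) := by ring
        _ ≤ 16 * K * r * (p ^ 2 * l ^ 2) :=
          mul_le_mul_of_nonneg_left (mul_le_mul_of_nonneg_right h3 (by positivity)) (by positivity)
        _ = _ := by ring
    linarith
  refine le_trans ?_ h1
  rw [intervalIntegral.integral_sub hi intervalIntegrable_const, intervalIntegral.integral_const,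
    kf_scale hw0, smul_eq_mul]
  have h5 := div_le_div_of_nonneg_right (kf_low (x := |ψ1 t| * x) (y := |ψ1 t| * p)
    (by positivity) (by positivity)) hw.le
  have h6 : (p - x) * (16 * K * r * p ^ 2) ≤ p * (16 * K * r * p ^ 2) :=
    mul_le_mul_of_nonneg_right (by linarith) (by positivity)
  have h7 : p * (16 * K * r * p ^ 2) = 16 * K * r * p ^ 3 := by ring
  linarith

end ANonC

/-- (ANON) Lower bound. Proof: as before, but drop `l > k1 / r`: for `k1 / r ≤ L` (i.e. `ρ0 ≥ k1 / L`) and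
`1 / X ≤ k1 / r`, `Ww ≥ ∫_{1/X}^{k1/r} (kf (w l) - 16 K r l²) dl`, and the first part is at least
`(c0 - |w| / X - r / (k1 |w|)) / |w| ≥ (c0 - 1 / M - 1 / (k1 c)) / |w|` by `kf_low`, since `M |w| ≤ M r ≤ X`. -/
theorem Ww_low (a b K c ε L : ℝ) (hab : a ≤ b) (hK : 0 ≤ K) (hc : 0 < c) (hε : 0 < ε)
    (hL : 0 < L) :
    ∃ ρ0 > 0, ∃ M ≥ 1, ∀ (r X t : ℝ) (ψ ψ1 ψ2 : ℝ → ℝ), ρ0 ≤ r → M * r ≤ X →
      Ph a b K r ψ ψ1 ψ2 → (∀ t ∈ Icc a b, c * r ≤ |ψ1 t|) → a ≤ t → t + L ≤ b → 1 / X ≤ L →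
      (c0 - ε) / |ψ1 t| ≤ Ww ψ X L t := by
  obtain ⟨k1, hk1, hk1c⟩ : ∃ k1 ≥ (1:ℝ), 1 / (k1 * c) ≤ ε / 3 := by
    refine ⟨max 1 (3 / (c * ε)), le_max_left _ _, ?_⟩
    have h1 : 3 / (c * ε) ≤ max 1 (3 / (c * ε)) := le_max_right _ _
    have h2 : 0 < max 1 (3 / (c * ε)) := lt_of_lt_of_le one_pos (le_max_left _ _)
    rw [div_le_iff₀ (by positivity)] at h1
    rw [div_le_iff₀ (by positivity)]
    nlinarith
  have hk10 : 0 < k1 := by linarith
  refine ⟨max (max 1 (k1 / L)) (48 * K * k1 ^ 3 / ε),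
    lt_of_lt_of_le one_pos ((le_max_left _ _).trans (le_max_left _ _)), max 1 (3 / ε),
    le_max_left _ _, ?_⟩
  intro r X t ψ ψ1 ψ2 hr0 hMX h hlow ht hb hXL
  have hr1 : 1 ≤ r := ((le_max_left _ _).trans (le_max_left _ _)).trans hr0
  have hr : 0 < r := by linarith
  have hr2 : 48 * K * k1 ^ 3 ≤ r * ε := by
    have := (le_max_right _ _).trans hr0
    rwa [div_le_iff₀ hε] at this
  have hr3 : k1 ≤ r * L := by
    have := ((le_max_right _ _).trans (le_max_left _ _)).trans hr0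
    rwa [div_le_iff₀ hL] at this
  have hM1 : r ≤ X := by
    have h1 : 1 * r ≤ max 1 (3 / ε) * r := mul_le_mul_of_nonneg_right (le_max_left _ _) hr.le
    linarith
  have hX : 0 < X := by linarith
  have hM2 : 3 / ε * r ≤ X :=
    (mul_le_mul_of_nonneg_right (le_max_right _ _) hr.le).trans hMX
  have hx0 : 0 < 1 / X := by positivity
  have htI : t ∈ Icc a b := ⟨ht, by linarith⟩
  have hw : 0 < |ψ1 t| := lt_of_lt_of_le (by positivity) (hlow t htI)
  have hwr : |ψ1 t| ≤ r := h.b1 t htI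
  have hwc : c * r ≤ |ψ1 t| := hlow t htI
  set p := k1 / r with hp
  have hp0 : 0 < p := by positivity
  have hpL : p ≤ L := by
    rw [hp, div_le_iff₀ hr]
    linarith
  have hxp : 1 / X ≤ p := by
    rw [hp, div_le_div_iff₀ hX hr]
    nlinarith
  have h1 := ANonC.near_low hK hc hr h hlow ht (by linarith : t + p ≤ b) hx0 hxp
  have h2 : ∫ l in (1 / X)..p, Gw ψ t l / l ^ 2 ≤ Ww ψ X L t := by
    unfold Ww
    rw [← intervalIntegral.integral_add_adjacent_intervals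
      (ANonB.int_of h.cont hx0 hxp t) (ANonB.int_of h.cont hp0 hpL t)]
    have : 0 ≤ ∫ l in p..L, Gw ψ t l / l ^ 2 :=
      intervalIntegral.integral_nonneg hpL fun _ _ => div_nonneg (Gw_nonneg _ _ _) (sq_nonneg _)
    linarith
  refine le_trans ?_ (h1.trans h2)
  have e1 : 16 * K * r * p ^ 3 ≤ ε / 3 / |ψ1 t| := by
    have e0 : 16 * K * r * p ^ 3 ≤ ε / 3 / r := by
      rw [hp, le_div_iff₀ hr]
      have : 16 * K * r * (k1 / r) ^ 3 * r = 16 * K * k1 ^ 3 / r := by field_simp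
      rw [this, div_le_iff₀ hr]
      linarith
    exact e0.trans (div_le_div_of_nonneg_left (by positivity) hw hwr)
  have e2 : |ψ1 t| * (1 / X) ≤ ε / 3 := by
    rw [mul_one_div, div_le_iff₀ hX]
    have : r ≤ X * (ε / 3) := by
      have h5 : 3 / ε * r * (ε / 3) ≤ X * (ε / 3) :=
        mul_le_mul_of_nonneg_right hM2 (by positivity)
      have h6 : 3 / ε * r * (ε / 3) = r := by field_simp
      linarith
    linarith
  have e3 : 1 / (|ψ1 t| * p) ≤ ε / 3 := by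
    refine le_trans ?_ hk1c
    apply one_div_le_one_div_of_le (by positivity)
    rw [hp]
    calc k1 * c = c * r * (k1 / r) := by field_simp
      _ ≤ |ψ1 t| * (k1 / r) := mul_le_mul_of_nonneg_right hwc (by positivity)
  have e4 : (c0 - ε) / |ψ1 t| = (c0 - ε / 3 - ε / 3) / |ψ1 t| - ε / 3 / |ψ1 t| := by
    field_simp
    ring
  rw [e4]
  have e5 : (c0 - ε / 3 - ε / 3) / |ψ1 t| ≤
      (c0 - |ψ1 t| * (1 / X) - 1 / (|ψ1 t| * p)) / |ψ1 t| :=
    div_le_div_of_nonneg_right (by linarith) hw.le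
  linarith

end Pool.Agent.LoopSpec
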