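import Pool.Agent.Lib_MP_e9ccd1_s.Base

/-!
# MP_e9ccd1_an, space curves: oscillatory integrals (pieces OSCA, OSCB)
-/

set_option autoImplicit false

open MeasureTheory Set Filter Topology
open scoped RealInnerProductSpace
open Pool.Agent.CurveSpec (ex BM norm_ex ex_zero ex_add conj_ex continuous_ex)

namespace Pool.Agent.LoopSpec

namespace OscA

/-- integrability of a bounded function which is continuous off finitely many points -/
theorem intInt {G : ℝ → ℂ} {V : Finset ℝ} {a b K : ℝ} (hab : a ≤ b)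
    (hc : ContinuousOn G (Ioo a b \ V)) (hb : ∀ t ∈ Ioo a b, ‖G t‖ ≤ K) :
    IntervalIntegrable G volume a b := by
  rw [intervalIntegrable_iff_integrableOn_Ioc_of_le hab]
  have hV : volume ((V : Finset ℝ) : Set ℝ) = 0 := V.finite_toSet.measure_zero volume
  have h1 : (Ioo a b \ (V : Set ℝ) : Set ℝ) =ᵐ[volume] Ioc a b :=
    (sdiff_null_ae_eq_self hV).trans Ioo_ae_eq_Ioc
  have hm : MeasurableSet (Ioo a b \ (V : Set ℝ)) :=
    measurableSet_Ioo.diff V.finite_toSet.measurableSet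
  have h2 : IntegrableOn G (Ioo a b \ (V : Set ℝ)) volume := by
    have : IsFiniteMeasure (volume.restrict (Ioo a b \ (V : Set ℝ))) := by
      rw [isFiniteMeasure_restrict]
      refine (lt_of_le_of_lt (measure_mono Set.sdiff_subset) ?_).ne
      rw [Real.volume_Ioo]
      exact ENNReal.ofReal_lt_top
    exact Integrable.of_bound (hc.aestronglyMeasurable hm) K
      ((ae_restrict_iff' hm).mpr (Eventually.of_forall fun t ht => hb t ht.1))
  exact h2.congr_set_ae h1.symm

end OscA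

/-- (OSCA) Nonstationary phase, with finitely many exceptional points for `ψ1`.
Proof: `F = f * ex ψ / (2 π i ψ1)` is continuous on `[a, b]`, differentiable off `V` with derivative
`f * ex ψ + (f1 / (2 π i ψ1) - f * ψ2 / (2 π i ψ1^2)) * ex ψ`; use
`MeasureTheory.integral_eq_of_hasDerivAt_off_countable` (or `intervalIntegral` version).
`‖∫‖ ≤ (1/2π) (2B/m + (b-a)(B1/m + B M/m^2))`. Integrability of `ψ2` on `Ioo a b`: bounded, and
continuous on the open set `Ioo a b \ V` of full measure. -/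
theorem nonstat {ψ ψ1 ψ2 : ℝ → ℝ} {f f1 : ℝ → ℂ} {V : Finset ℝ} {a b m M B B1 : ℝ} (hab : a ≤ b)
    (hm : 0 < m) (hM : 0 ≤ M)
    (h1 : ∀ t ∈ Icc a b, HasDerivAt ψ (ψ1 t) t) (c1 : ContinuousOn ψ1 (Icc a b))
    (h2 : ∀ t ∈ Ioo a b, t ∉ V → HasDerivAt ψ1 (ψ2 t) t) (c2 : ContinuousOn ψ2 (Ioo a b \ V))
    (b2 : ∀ t ∈ Ioo a b, |ψ2 t| ≤ M) (hlow : ∀ t ∈ Icc a b, m ≤ |ψ1 t|)
    (hf : ∀ t ∈ Icc a b, HasDerivAt f (f1 t) t) (cf : ContinuousOn f1 (Icc a b))
    (bf : ∀ t ∈ Icc a b, ‖f t‖ ≤ B) (bf1 : ∀ t ∈ Icc a b, ‖f1 t‖ ≤ B1) :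
    ‖∫ t in a..b, f t * ex (ψ t)‖ ≤ (2 * B + (b - a) * (B1 + B * M / m)) / m := by
  have haI : a ∈ Icc a b := left_mem_Icc.mpr hab
  have hbI : b ∈ Icc a b := right_mem_Icc.mpr hab
  have hB : 0 ≤ B := (norm_nonneg _).trans (bf a haI)
  have hB1 : 0 ≤ B1 := (norm_nonneg _).trans (bf1 a haI)
  set k : ℂ := 2 * Real.pi * Complex.I with hk
  have hkn : ‖k‖ = 2 * Real.pi := by
    rw [hk]
    simp [abs_of_pos Real.pi_pos]
  have hpi : 1 ≤ 2 * Real.pi := by linarith [Real.pi_gt_three]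
  have hk0 : k ≠ 0 := by
    intro h
    rw [h, norm_zero] at hkn
    linarith
  have hne : ∀ t ∈ Icc a b, ψ1 t ≠ 0 := by
    intro t ht h
    have := hlow t ht
    rw [h, abs_zero] at this
    linarith
  have hneC : ∀ t ∈ Icc a b, (ψ1 t : ℂ) ≠ 0 := fun t ht => by
    exact_mod_cast hne t ht
  have hψ : ContinuousOn ψ (Icc a b) := fun t ht => (h1 t ht).continuousAt.continuousWithinAt
  have hfc : ContinuousOn f (Icc a b) := fun t ht => (hf t ht).continuousAt.continuousWithinAt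
  have hex : ContinuousOn (fun t => ex (ψ t)) (Icc a b) := continuous_ex.comp_continuousOn hψ
  have hψ1C : ContinuousOn (fun t => (ψ1 t : ℂ)) (Icc a b) :=
    Complex.continuous_ofReal.comp_continuousOn c1
  let R : ℝ → ℂ := fun t => (f1 t / (k * ψ1 t) - f t * ψ2 t / (k * ψ1 t ^ 2)) * ex (ψ t)
  let G : ℝ → ℂ := fun t => f t * ex (ψ t) + R t
  let F : ℝ → ℂ := fun t => f t * ex (ψ t) / (k * ψ1 t)
  have hFc : ContinuousOn F (Icc a b) :=
    (hfc.mul hex).div (continuousOn_const.mul hψ1C) fun t ht => mul_ne_zero hk0 (hneC t ht)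
  have hFd : ∀ t ∈ Ioo a b \ (V : Set ℝ), HasDerivAt F (G t) t := by
    rintro t ⟨ht, htV⟩
    have htI := Ioo_subset_Icc_self ht
    have d1 := hasDerivAt_ex (h1 t htI)
    have d2 : HasDerivAt (fun s => k * (ψ1 s : ℂ)) (k * ψ2 t) t :=
      ((h2 t ht htV).ofReal_comp).const_mul k
    have d3 := ((hf t htI).mul d1).div d2 (mul_ne_zero hk0 (hneC t htI))
    refine d3.congr_deriv ?_
    have e1 := hneC t htI
    simp only [G, R, Pi.mul_apply]
    rw [← hk]
    field_simp
    ring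
  have hRb : ∀ t ∈ Ioo a b, ‖R t‖ ≤ (B1 / m + B * M / m ^ 2) := by
    intro t ht
    have htI := Ioo_subset_Icc_self ht
    simp only [R]
    rw [norm_mul, norm_ex, mul_one]
    refine (norm_sub_le _ _).trans ?_
    have hl := hlow t htI
    have hl0 : 0 < |ψ1 t| := lt_of_lt_of_le hm hl
    apply add_le_add
    · rw [norm_div, norm_mul, hkn, Complex.norm_real, Real.norm_eq_abs]
      apply div_le_div₀ hB1 (bf1 t htI) hm
      nlinarith
    · rw [norm_div, norm_mul, norm_mul, norm_pow, hkn, Complex.norm_real, Complex.norm_real,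
        Real.norm_eq_abs, Real.norm_eq_abs]
      apply div_le_div₀ (mul_nonneg hB hM)
      · exact mul_le_mul (bf t htI) (b2 t ht) (abs_nonneg _) hB
      · positivity
      · have : m ^ 2 ≤ |ψ1 t| ^ 2 := by gcongr
        nlinarith [sq_nonneg (|ψ1 t|)]
  have hRc : ContinuousOn R (Ioo a b \ (V : Set ℝ)) := by
    have hs : Ioo a b \ (V : Set ℝ) ⊆ Icc a b := fun t ht => Ioo_subset_Icc_self ht.1
    have hψ2C : ContinuousOn (fun t => (ψ2 t : ℂ)) (Ioo a b \ (V : Set ℝ)) :=
      Complex.continuous_ofReal.comp_continuousOn c2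
    apply ContinuousOn.mul _ (hex.mono hs)
    apply ContinuousOn.sub
    · exact (cf.mono hs).div (continuousOn_const.mul (hψ1C.mono hs))
        fun t ht => mul_ne_zero hk0 (hneC t (hs ht))
    · exact ((hfc.mono hs).mul hψ2C).div (continuousOn_const.mul ((hψ1C.mono hs).pow 2))
        fun t ht => mul_ne_zero hk0 (pow_ne_zero _ (hneC t (hs ht)))
  have hRi : IntervalIntegrable R volume a b := OscA.intInt hab hRc hRb
  have hgi : IntervalIntegrable (fun t => f t * ex (ψ t)) volume a b := by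
    apply ContinuousOn.intervalIntegrable
    rw [uIcc_of_le hab]
    exact hfc.mul hex
  have hGi : IntervalIntegrable G volume a b := hgi.add hRi
  have hFTC := integral_eq_of_hasDerivAt_off_countable_of_le F G hab
    (V.finite_toSet.countable) hFc hFd hGi
  have hsum : ∫ t in a..b, G t = (∫ t in a..b, f t * ex (ψ t)) + ∫ t in a..b, R t :=
    intervalIntegral.integral_add hgi hRi
  have hmain : ∫ t in a..b, f t * ex (ψ t) = F b - F a - ∫ t in a..b, R t := by
    rw [← hFTC, hsum]; ring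
  have hFb : ∀ t ∈ Icc a b, ‖F t‖ ≤ B / m := by
    intro t ht
    simp only [F]
    rw [norm_div, norm_mul, norm_mul, norm_ex, mul_one, hkn, Complex.norm_real,
      Real.norm_eq_abs]
    apply div_le_div₀ hB (bf t ht) hm
    have := hlow t ht
    nlinarith
  have hRint : ‖∫ t in a..b, R t‖ ≤ (B1 / m + B * M / m ^ 2) * |b - a| := by
    apply intervalIntegral.norm_integral_le_of_norm_le_const_ae
    have hbne : ∀ᵐ t : ℝ, t ≠ b := Measure.ae_ne volume b
    filter_upwards [hbne] with t htb ht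
    rw [uIoc_of_le hab] at ht
    exact hRb t ⟨ht.1, lt_of_le_of_ne ht.2 htb⟩
  rw [hmain]
  have e1 := hFb a haI
  have e2 := hFb b hbI
  rw [abs_of_nonneg (by linarith)] at hRint
  calc ‖F b - F a - ∫ t in a..b, R t‖ ≤ ‖F b - F a‖ + ‖∫ t in a..b, R t‖ := norm_sub_le _ _
    _ ≤ (‖F b‖ + ‖F a‖) + ‖∫ t in a..b, R t‖ := by gcongr; exact norm_sub_le _ _
    _ ≤ (B / m + B / m) + (B1 / m + B * M / m ^ 2) * (b - a) := by gcongr
    _ = (2 * B + (b - a) * (B1 + B * M / m)) / m := by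
      field_simp
      ring

end Pool.Agent.LoopSpec
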