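import Pool.Agent.Lib_MP_e9ccd1_s.ALin
import Pool.Agent.Lib_MP_e9ccd1_s.OscA

/-!
# MP_e9ccd1_an, planar arcs: frequencies not perpendicular to the arc, simple bounds (piece ANONA)

Hypothesis: `c r ≤ |ψ1|` on `[a, b]`.
-/

set_option autoImplicit false

open MeasureTheory Set Filter Topology
open scoped RealInnerProductSpace
open Pool.Agent.CurveSpec (ex BM norm_ex ex_zero ex_add conj_ex continuous_ex)

namespace Pool.Agent.LoopSpec

/-- (ANON) Proof: `nonstat` with `f = 1`, `B = 1`, `B1 = 0`, `m = c r`, `M = K r`. -/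
theorem non_le {a b K c r : ℝ} {ψ ψ1 ψ2 : ℝ → ℝ} (hK : 0 ≤ K) (hc : 0 < c) (hr : 0 < r)
    (h : Ph a b K r ψ ψ1 ψ2) (hlow : ∀ t ∈ Icc a b, c * r ≤ |ψ1 t|) {t l : ℝ} (ht : a ≤ t)
    (hl : 0 ≤ l) (hb : t + l ≤ b) :
    Gw ψ t l ≤ ((2 + (b - a) * K / c) / c) ^ 2 / r ^ 2 := by
  have hcr : 0 < c * r := mul_pos hc hr
  have hsub : Icc t (t + l) ⊆ Icc a b := Icc_subset_Icc ht hb
  have c1 : ContinuousOn ψ1 (Icc t (t + l)) := fun s hs =>
    (h.h2 s (hsub hs)).continuousAt.continuousWithinAt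
  have key := nonstat (ψ := ψ) (ψ1 := ψ1) (ψ2 := ψ2) (f := fun _ => 1) (f1 := fun _ => 0) (V := ∅)
    (a := t) (b := t + l) (m := c * r) (M := K * r) (B := 1) (B1 := 0) (by linarith) hcr
    (mul_nonneg hK hr.le) (fun s hs => h.h1 s (hsub hs)) c1
    (fun s hs _ => h.h2 s (hsub (Ioo_subset_Icc_self hs)))
    (h.c2.mono fun s hs => hsub (Ioo_subset_Icc_self hs.1))
    (fun s hs => h.b2 s (hsub (Ioo_subset_Icc_self hs))) (fun s hs => hlow s (hsub hs))
    (fun s _ => hasDerivAt_const s (1:ℂ)) continuousOn_const (fun s _ => by simp)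
    (fun s _ => by simp)
  simp only [one_mul, mul_one] at key
  have h1 : ‖∫ s in t..(t + l), ex (ψ s)‖ ≤ ((2 + (b - a) * K / c) / c) / r := by
    refine key.trans ?_
    have e1 : ((2 + (b - a) * K / c) / c) / r = (2 + (b - a) * (0 + K * r / (c * r))) / (c * r) := by
      field_simp
      ring
    rw [e1]
    have e2 : 0 ≤ 0 + K * r / (c * r) := by positivity
    have e3 : t + l - t ≤ b - a := by linarith
    gcongr
  have h2 := pow_le_pow_left₀ (norm_nonneg _) h1 2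
  rw [div_pow _ r] at h2
  exact h2

/-- (ANON) Proof: `∫_{1/X}^L l^(-2) dl ≤ X` and `non_le`. -/
theorem Ww_far {a b K c r L X : ℝ} {ψ ψ1 ψ2 : ℝ → ℝ} (hK : 0 ≤ K) (hc : 0 < c) (hr : 0 < r)
    (h : Ph a b K r ψ ψ1 ψ2) (hlow : ∀ t ∈ Icc a b, c * r ≤ |ψ1 t|) {t : ℝ} (ht : a ≤ t)
    (hb : t + L ≤ b) (hX : 0 < X) (hXL : 1 / X ≤ L) :
    Ww ψ X L t ≤ ((2 + (b - a) * K / c) / c) ^ 2 * X / r ^ 2 := by
  have h0X : 0 < 1 / X := by positivity
  have hL : 0 < L := lt_of_lt_of_le h0X hXL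
  set D : ℝ := ((2 + (b - a) * K / c) / c) ^ 2 / r ^ 2 with hD
  have hD0 : 0 ≤ D := by positivity
  have hGc : Continuous fun l : ℝ => Gw ψ t l :=
    (Gw_cont h.cont).comp (continuous_const.prodMk continuous_id)
  have hne : ∀ l ∈ Icc (1 / X) L, l ≠ 0 := fun l hl => (lt_of_lt_of_le h0X hl.1).ne'
  have hi1 : IntervalIntegrable (fun l : ℝ => Gw ψ t l / l ^ 2) volume (1 / X) L := by
    apply ContinuousOn.intervalIntegrable
    rw [uIcc_of_le hXL]
    exact hGc.continuousOn.div (continuousOn_pow 2) fun l hl => pow_ne_zero _ (hne l hl)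
  have hi3 : IntervalIntegrable (fun l : ℝ => 1 / l ^ 2) volume (1 / X) L := by
    apply ContinuousOn.intervalIntegrable
    rw [uIcc_of_le hXL]
    exact continuousOn_const.div (continuousOn_pow 2) fun l hl => pow_ne_zero _ (hne l hl)
  have hi2 : IntervalIntegrable (fun l : ℝ => D * (1 / l ^ 2)) volume (1 / X) L := hi3.const_mul D
  have h2 : Ww ψ X L t ≤ ∫ l in (1 / X)..L, D * (1 / l ^ 2) := by
    unfold Ww
    apply intervalIntegral.integral_mono_on hXL hi1 hi2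
    intro l hl
    have hl0 : 0 < l := lt_of_lt_of_le h0X hl.1
    have h3 := non_le hK hc hr h hlow (t := t) (l := l) ht hl0.le (by linarith [hl.2])
    rw [mul_one_div]
    gcongr
  have h5 : ∫ l in (1 / X)..L, 1 / l ^ 2 = X - 1 / L := by
    have hd : ∀ l ∈ uIcc (1 / X) L, HasDerivAt (fun l : ℝ => -l⁻¹) (1 / l ^ 2) l := by
      intro l hl
      rw [uIcc_of_le hXL] at hl
      refine ((hasDerivAt_inv (hne l hl)).neg).congr_deriv ?_
      ring
    rw [intervalIntegral.integral_eq_sub_of_hasDerivAt hd hi3]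
    rw [one_div, inv_inv]
    ring
  rw [intervalIntegral.integral_const_mul, h5] at h2
  refine h2.trans ?_
  have h6 : 0 < 1 / L := by positivity
  have h7 : ((2 + (b - a) * K / c) / c) ^ 2 * X / r ^ 2 = D * X := by
    rw [hD]
    ring
  rw [h7]
  gcongr
  linarith

end Pool.Agent.LoopSpec
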