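import Pool.Agent.Lib_MP_e9ccd1_s.ANonA

/-!
# MP_e9ccd1_an, planar arcs: frequencies not perpendicular to the arc, upper bound (piece ANONB)
-/

set_option autoImplicit false

open MeasureTheory Set Filter Topology
open scoped RealInnerProductSpace
open Pool.Agent.CurveSpec (ex BM norm_ex ex_zero ex_add conj_ex continuous_ex)

namespace Pool.Agent.LoopSpec

namespace ANonB

lemma int_of {ψ : ℝ → ℝ} (hψ : Continuous ψ) {x y : ℝ} (hx : 0 < x) (hxy : x ≤ y) (t : ℝ) :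
    IntervalIntegrable (fun l => Gw ψ t l / l ^ 2) volume x y := by
  apply ContinuousOn.intervalIntegrable
  rw [uIcc_of_le hxy]
  have h1 : Continuous fun l : ℝ => Gw ψ t l := (Gw_cont hψ).comp (Continuous.prodMk_right t)
  refine h1.continuousOn.div (by fun_prop) fun l hl => ?_
  have : 0 < l := lt_of_lt_of_le hx hl.1
  positivity

lemma invsq_int {x y : ℝ} (hx : 0 < x) (hxy : x ≤ y) (c : ℝ) :
    IntervalIntegrable (fun l : ℝ => c / l ^ 2) volume x y := by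
  apply ContinuousOn.intervalIntegrable
  rw [uIcc_of_le hxy]
  refine continuousOn_const.div (by fun_prop) fun l hl => ?_
  have : 0 < l := lt_of_lt_of_le hx hl.1
  positivity

lemma int_invsq {x y : ℝ} (hx : 0 < x) (hxy : x ≤ y) (c : ℝ) :
    ∫ l in x..y, c / l ^ 2 = c / x - c / y := by
  have h1 : ∀ l ∈ uIcc x y, HasDerivAt (fun l : ℝ => -(c / l)) (c / l ^ 2) l := by
    intro l hl
    rw [uIcc_of_le hxy] at hl
    have hl0 : 0 < l := lt_of_lt_of_le hx hl.1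
    have h2 := ((hasDerivAt_inv hl0.ne').const_mul c).neg
    have h3 : (fun l : ℝ => -(c / l)) = -fun l => c * l⁻¹ := by
      funext l
      simp [div_eq_mul_inv]
    have h4 : -(c * -(l ^ 2)⁻¹) = c / l ^ 2 := by ring
    rw [h3, ← h4]
    exact h2
  rw [intervalIntegral.integral_eq_sub_of_hasDerivAt h1 (invsq_int hx hxy c)]
  ring

/-- short windows -/
lemma near {a b K c r p : ℝ} {ψ ψ1 ψ2 : ℝ → ℝ} (hK : 0 ≤ K) (hc : 0 < c) (hr : 0 < r)
    (h : Ph a b K r ψ ψ1 ψ2) (hlow : ∀ t ∈ Icc a b, c * r ≤ |ψ1 t|) {t x y : ℝ} (ht : a ≤ t)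
    (hb : t + y ≤ b) (hx : 0 < x) (hxy : x ≤ y) (hyp : y ≤ p) :
    ∫ l in x..y, Gw ψ t l / l ^ 2 ≤ c0 / |ψ1 t| + 16 * K * r * p ^ 3 := by
  have htI : t ∈ Icc a b := ⟨ht, by linarith⟩
  have hw : 0 < |ψ1 t| := lt_of_lt_of_le (by positivity) (hlow t htI)
  have hw0 : ψ1 t ≠ 0 := abs_pos.1 hw
  have hi : IntervalIntegrable (fun l => kf (ψ1 t * l)) volume x y :=
    (kf_cont.comp (continuous_const.mul continuous_id)).intervalIntegrable _ _
  have h1 : ∫ l in x..y, Gw ψ t l / l ^ 2 ≤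
      ∫ l in x..y, (kf (ψ1 t * l) + 16 * K * r * p ^ 2) := by
    refine intervalIntegral.integral_mono_on hxy (int_of h.cont hx hxy t)
      (hi.add intervalIntegrable_const) ?_
    intro l hl
    have hl0 : 0 < l := lt_of_lt_of_le hx hl.1
    have h2 := (abs_le.1 (Gw_lin hK hr.le h ht hl0.le (by linarith [hl.2] : t + l ≤ b))).2
    rw [div_le_iff₀ (by positivity)]
    have h3 : l ^ 2 ≤ p ^ 2 := pow_le_pow_left₀ hl0.le (hl.2.trans hyp) 2
    have h4 : 16 * K * r * l ^ 4 ≤ 16 * K * r * p ^ 2 * l ^ 2 := by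
      calc 16 * K * r * l ^ 4 = 16 * K * r * (l ^ 2 * l ^ 2) := by ring
        _ ≤ 16 * K * r * (p ^ 2 * l ^ 2) :=
          mul_le_mul_of_nonneg_left (mul_le_mul_of_nonneg_right h3 (by positivity)) (by positivity)
        _ = _ := by ring
    linarith
  refine h1.trans ?_
  rw [intervalIntegral.integral_add hi intervalIntegrable_const, intervalIntegral.integral_const,
    kf_scale hw0, smul_eq_mul]
  have h5 : (∫ u in (|ψ1 t| * x)..(|ψ1 t| * y), kf u) / |ψ1 t| ≤ c0 / |ψ1 t| :=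
    div_le_div_of_nonneg_right (kf_up (by positivity) (mul_le_mul_of_nonneg_left hxy hw.le)) hw.le
  have h6 : (y - x) * (16 * K * r * p ^ 2) ≤ p * (16 * K * r * p ^ 2) :=
    mul_le_mul_of_nonneg_right (by linarith) (by positivity)
  have h7 : p * (16 * K * r * p ^ 2) = 16 * K * r * p ^ 3 := by ring
  linarith

/-- long windows -/
lemma far {a b K c r p : ℝ} {ψ ψ1 ψ2 : ℝ → ℝ} (hK : 0 ≤ K) (hc : 0 < c) (hr : 0 < r)
    (h : Ph a b K r ψ ψ1 ψ2) (hlow : ∀ t ∈ Icc a b, c * r ≤ |ψ1 t|) {t x y : ℝ} (ht : a ≤ t)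
    (hb : t + y ≤ b) (hp : 0 < p) (hpx : p ≤ x) (hxy : x ≤ y) :
    ∫ l in x..y, Gw ψ t l / l ^ 2 ≤ ((2 + (b - a) * K / c) / c) ^ 2 / r ^ 2 / p := by
  have hx : 0 < x := lt_of_lt_of_le hp hpx
  set D := ((2 + (b - a) * K / c) / c) ^ 2 / r ^ 2 with hD
  have hD0 : 0 ≤ D := by positivity
  have h1 : ∫ l in x..y, Gw ψ t l / l ^ 2 ≤ ∫ l in x..y, D / l ^ 2 := by
    refine intervalIntegral.integral_mono_on hxy (int_of h.cont hx hxy t)
      (invsq_int hx hxy D) ?_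
    intro l hl
    have hl0 : 0 < l := lt_of_lt_of_le hx hl.1
    exact div_le_div_of_nonneg_right
      (non_le hK hc hr h hlow ht hl0.le (by linarith [hl.2])) (by positivity)
  rw [int_invsq hx hxy] at h1
  have h2 : D / x ≤ D / p := div_le_div_of_nonneg_left hD0 hp hpx
  have h3 : 0 ≤ D / y := div_nonneg hD0 (hx.le.trans hxy)
  linarith

end ANonB

/-- (ANON) Upper bound. Proof: let `w = ψ1 t`, `c r ≤ |w| ≤ r`, `D = ((2 + (b-a) K / c)/c)²`. Choose `k1 ≥ 1` with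
`D / k1 ≤ ε / 2`, then `ρ0` with `16 K k1³ / ρ0 ≤ ε / 2`. Split the integral at `min (k1 / r) L` (and if
`1 / X > k1 / r` only the second part is present). For `l ≤ k1 / r`, `Gw / l² ≤ kf (w l) + 16 K r l²` (ALIN), the
integral of the first is at most `c0 / |w|` (`kf_scale`, `kf_up`), of the second at most `16 K r (k1/r)³ ≤ (ε/2)/r`.
For `l ≥ k1 / r`, `Gw / l² ≤ D / (r² l²)`, integral at most `D / (k1 r)`. Finally `1 / r ≤ 1 / |w|`. -/
theorem Ww_up (a b K c ε : ℝ) (hab : a ≤ b) (hK : 0 ≤ K) (hc : 0 < c) (hε : 0 < ε) :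
    ∃ ρ0 > 0, ∀ (r L X t : ℝ) (ψ ψ1 ψ2 : ℝ → ℝ), ρ0 ≤ r → Ph a b K r ψ ψ1 ψ2 →
      (∀ t ∈ Icc a b, c * r ≤ |ψ1 t|) → a ≤ t → t + L ≤ b → 0 < X → 1 / X ≤ L →
      Ww ψ X L t ≤ (c0 + ε) / |ψ1 t| := by
  set D := ((2 + (b - a) * K / c) / c) ^ 2 with hD
  have hD0 : 0 ≤ D := by positivity
  obtain ⟨k1, hk1, hk1D⟩ : ∃ k1 ≥ (1:ℝ), D / k1 ≤ ε / 2 := by
    refine ⟨max 1 (2 * D / ε), le_max_left _ _, ?_⟩
    have h1 : 2 * D / ε ≤ max 1 (2 * D / ε) := le_max_right _ _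
    have h2 : 0 < max 1 (2 * D / ε) := lt_of_lt_of_le one_pos (le_max_left _ _)
    rw [div_le_iff₀ hε] at h1
    rw [div_le_iff₀ h2]
    linarith
  have hk10 : 0 < k1 := by linarith
  refine ⟨max 1 (32 * K * k1 ^ 3 / ε), lt_of_lt_of_le one_pos (le_max_left _ _), ?_⟩
  intro r L X t ψ ψ1 ψ2 hr0 h hlow ht hb hX hXL
  have hr1 : 1 ≤ r := (le_max_left _ _).trans hr0
  have hr : 0 < r := by linarith
  have hr2 : 32 * K * k1 ^ 3 ≤ r * ε := by
    have := (le_max_right _ _).trans hr0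
    rwa [div_le_iff₀ hε] at this
  have hx0 : 0 < 1 / X := by positivity
  have hL0 : 0 < L := lt_of_lt_of_le hx0 hXL
  have htI : t ∈ Icc a b := ⟨ht, by linarith⟩
  have hw : 0 < |ψ1 t| := lt_of_lt_of_le (by positivity) (hlow t htI)
  have hwr : |ψ1 t| ≤ r := h.b1 t htI
  set p := k1 / r with hp
  have hp0 : 0 < p := by positivity
  set m := max (1 / X) (min p L) with hm
  have hm1 : 1 / X ≤ m := le_max_left _ _
  have hm2 : m ≤ L := max_le hXL (min_le_right _ _)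
  have hm0 : 0 < m := lt_of_lt_of_le hx0 hm1
  have e1 : 16 * K * r * p ^ 3 ≤ ε / 2 / r := by
    rw [hp, le_div_iff₀ hr]
    have : 16 * K * r * (k1 / r) ^ 3 * r = 16 * K * k1 ^ 3 / r := by field_simp
    rw [this, div_le_iff₀ hr]
    linarith
  have e2 : D / r ^ 2 / p ≤ ε / 2 / r := by
    have : D / r ^ 2 / p = D / k1 / r := by rw [hp]; field_simp
    rw [this]
    exact div_le_div_of_nonneg_right hk1D hr.le
  have hc0 : 0 ≤ c0 / |ψ1 t| := div_nonneg c0_pos.le hw.le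
  have e3 : 0 ≤ 16 * K * r * p ^ 3 := by positivity
  have e4 : 0 ≤ D / r ^ 2 / p := by positivity
  have h1 : ∫ l in (1 / X)..m, Gw ψ t l / l ^ 2 ≤ c0 / |ψ1 t| + 16 * K * r * p ^ 3 := by
    rcases eq_or_lt_of_le hm1 with h5 | h5
    · rw [← h5, intervalIntegral.integral_same]
      linarith
    · have h6 : m ≤ p := by
        rcases le_max_iff.1 (le_of_eq hm : m ≤ _) with h7 | h7
        · linarith
        · exact h7.trans (min_le_left _ _)
      exact ANonB.near hK hc hr h hlow ht (by linarith) hx0 hm1 h6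
  have h2 : ∫ l in m..L, Gw ψ t l / l ^ 2 ≤ D / r ^ 2 / p := by
    rcases eq_or_lt_of_le hm2 with h5 | h5
    · rw [h5, intervalIntegral.integral_same]
      exact e4
    · have h6 : p ≤ m := by
        have h7 : min p L ≤ m := le_max_right _ _
        rcases min_le_iff.1 h7 with h8 | h8
        · exact h8
        · linarith
      exact ANonB.far hK hc hr h hlow ht hb hp0 h6 hm2
  have h3 : Ww ψ X L t ≤ c0 / |ψ1 t| + ε / r := by
    unfold Ww
    rw [← intervalIntegral.integral_add_adjacent_intervals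
      (ANonB.int_of h.cont hx0 hm1 t) (ANonB.int_of h.cont hm0 hm2 t)]
    have : ε / r = ε / 2 / r + ε / 2 / r := by ring
    linarith
  refine h3.trans ?_
  rw [add_div]
  have h4 : ε / r ≤ ε / |ψ1 t| := div_le_div_of_nonneg_left hε.le hw hwr
  linarith

end Pool.Agent.LoopSpec
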