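import Pool.Agent.Lib_MP_e9ccd1_s.Base

/-!
# MP_e9ccd1_an, planar arcs (Theorem A): phases and windows

The phases are `ψ = -⟪λ, γ⟫`. `Gw ψ t l` is the energy of the window `[t, t + l]`, `Ww ψ X L t` its average over
the lengths `l ∈ [1/X, L]` with weight `l^(-2)`. For a linear phase of slope `w` one has
`Gw = l^2 kf (w l)`, so that `Ww` is about `c0 / |w|`, `c0 = ∫_0^∞ kf`.

Idea of Theorem A: the frame identity says `∑ Gw = A l`, so `∑ Ww = A log (X L)` at EVERY `t`. The main part of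
`∑ Ww` is `c0 ∑ 1/|⟪λ, γ1 t⟫|` over the `λ` which are not perpendicular to the arc, but `1/|⟪λ, u⟫|` is strictly
convex as a function of the direction `u`.
-/

set_option autoImplicit false

open MeasureTheory Set Filter Topology
open scoped RealInnerProductSpace
open Pool.Agent.CurveSpec (ex BM norm_ex ex_zero ex_add conj_ex continuous_ex)

namespace Pool.Agent.LoopSpec

/-- the energy of a window -/
noncomputable def Gw (ψ : ℝ → ℝ) (t l : ℝ) : ℝ := ‖∫ s in t..(t + l), ex (ψ s)‖ ^ 2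

/-- the energy averaged over the length of the window -/
noncomputable def Ww (ψ : ℝ → ℝ) (X L t : ℝ) : ℝ := ∫ l in (1 / X)..L, Gw ψ t l / l ^ 2

/-- the energy of a unit window with a linear phase of slope `u` -/
noncomputable def kf (u : ℝ) : ℝ := ‖∫ s in (0:ℝ)..1, ex (u * s)‖ ^ 2

/-- the constant `c0` -/
noncomputable def c0 : ℝ := ∫ u in Ioi (0:ℝ), kf u

/-- a phase of size `r` on `[a, b]` -/
structure Ph (a b K r : ℝ) (ψ ψ1 ψ2 : ℝ → ℝ) : Prop where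
  cont : Continuous ψ
  h1 : ∀ t ∈ Icc a b, HasDerivAt ψ (ψ1 t) t
  h2 : ∀ t ∈ Icc a b, HasDerivAt ψ1 (ψ2 t) t
  c2 : ContinuousOn ψ2 (Icc a b)
  b1 : ∀ t ∈ Icc a b, |ψ1 t| ≤ r
  b2 : ∀ t ∈ Icc a b, |ψ2 t| ≤ K * r

lemma Gw_nonneg (ψ : ℝ → ℝ) (t l : ℝ) : 0 ≤ Gw ψ t l := by unfold Gw; positivity

lemma kf_nonneg (u : ℝ) : 0 ≤ kf u := by unfold kf; positivity

/-- a window has energy at most `l²` -/
lemma Gw_le (ψ : ℝ → ℝ) (t : ℝ) {l : ℝ} (hl : 0 ≤ l) : Gw ψ t l ≤ l ^ 2 := by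
  unfold Gw
  have h : ‖∫ s in t..(t + l), ex (ψ s)‖ ≤ 1 * |t + l - t| :=
    intervalIntegral.norm_integral_le_of_norm_le_const fun x _ => (norm_ex (ψ x)).le
  rw [add_sub_cancel_left, abs_of_nonneg hl, one_mul] at h
  exact pow_le_pow_left₀ (norm_nonneg _) h 2

/-- `Gw` through a primitive -/
lemma Gw_eq {ψ : ℝ → ℝ} (hψ : Continuous ψ) (t l : ℝ) :
    Gw ψ t l = ‖(∫ s in (0:ℝ)..(t + l), ex (ψ s)) - ∫ s in (0:ℝ)..t, ex (ψ s)‖ ^ 2 := by
  unfold Gw
  have hi : ∀ x y : ℝ, IntervalIntegrable (fun s => ex (ψ s)) volume x y := fun x y =>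
    (continuous_ex.comp hψ).intervalIntegrable x y
  rw [intervalIntegral.integral_interval_sub_left (hi _ _) (hi _ _)]

/-- `Gw` is jointly continuous -/
lemma Gw_cont {ψ : ℝ → ℝ} (hψ : Continuous ψ) : Continuous fun p : ℝ × ℝ => Gw ψ p.1 p.2 := by
  have h0 : Continuous fun x : ℝ => ∫ s in (0:ℝ)..x, ex (ψ s) :=
    intervalIntegral.continuous_primitive (fun x y =>
      (continuous_ex.comp hψ).intervalIntegrable x y) 0
  simp only [Gw_eq hψ]
  have h1 : Continuous fun p : ℝ × ℝ => ∫ s in (0:ℝ)..(p.1 + p.2), ex (ψ s) :=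
    h0.comp (continuous_fst.add continuous_snd)
  have h2 : Continuous fun p : ℝ × ℝ => ∫ s in (0:ℝ)..p.1, ex (ψ s) := h0.comp continuous_fst
  exact ((h1.sub h2).norm).pow 2

lemma Ww_nonneg (ψ : ℝ → ℝ) {X L : ℝ} (h : 1 / X ≤ L) (t : ℝ) : 0 ≤ Ww ψ X L t :=
  intervalIntegral.integral_nonneg h fun _ _ => div_nonneg (Gw_nonneg _ _ _) (sq_nonneg _)

end Pool.Agent.LoopSpec
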