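import Pool.Agent.Lib_MP_e9ccd1_s.Base

/-!
# MP_e9ccd1_an, space curves: counting frequencies (pieces COUNTA, COUNTB, COUNTC)
-/

set_option autoImplicit false

open MeasureTheory Set Filter Topology
open scoped RealInnerProductSpace
open Pool.Agent.CurveSpec (ex BM norm_ex ex_zero ex_add conj_ex continuous_ex)

namespace Pool.Agent.LoopSpec

variable {E : Type*} [NormedAddCommGroup E] [InnerProductSpace ℝ E]
variable {ι : Type*} {L C : ℝ} {γ γ1 γ2 γ3 : ℝ → E} {V : Finset ℝ} {lam : ι → E}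

/-- (COUNTA) If the phase varies by at most `1/8` then there is no cancellation. -/
theorem no_cancel {a ℓ : ℝ} (hℓ : 0 ≤ ℓ) {ψ : ℝ → ℝ} (hψ : Continuous ψ)
    (h : ∀ t ∈ Icc a (a + ℓ), |ψ t - ψ a| ≤ 1 / 8) :
    ℓ / 2 ≤ ‖∫ t in a..(a + ℓ), ex (ψ t)‖ := by
  have hle : a ≤ a + ℓ := by linarith
  have e1 : ∫ t in a..(a + ℓ), ex (ψ t - ψ a) = ex (-ψ a) * ∫ t in a..(a + ℓ), ex (ψ t) := by
    rw [← intervalIntegral.integral_const_mul]
    congr 1
    ext t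
    rw [← ex_add]
    congr 1
    ring
  have e2 : ‖∫ t in a..(a + ℓ), ex (ψ t)‖ = ‖∫ t in a..(a + ℓ), ex (ψ t - ψ a)‖ := by
    rw [e1, norm_mul, norm_ex, one_mul]
  have hc : Continuous fun t => ex (ψ t - ψ a) :=
    continuous_ex.comp (hψ.sub continuous_const)
  have e3 : (∫ t in a..(a + ℓ), ex (ψ t - ψ a)).re =
      ∫ t in a..(a + ℓ), (ex (ψ t - ψ a)).re :=
    (intervalIntegral.intervalIntegral_re (𝕜 := ℂ) (hc.intervalIntegrable a (a + ℓ))).symm
  rw [e2]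
  refine le_trans ?_ (Complex.re_le_norm _)
  rw [e3]
  have e4 : ℓ / 2 = ∫ _ in a..(a + ℓ), (1 / 2 : ℝ) := by
    rw [intervalIntegral.integral_const, add_sub_cancel_left, smul_eq_mul]
    ring
  rw [e4]
  apply intervalIntegral.integral_mono_on hle
  · exact intervalIntegrable_const
  · exact (Complex.continuous_re.comp hc).intervalIntegrable _ _
  · intro t ht
    rw [ex_re]
    have h1 := abs_le.1 (h t ht)
    have hpi := Real.pi_pos
    have h2 : |2 * Real.pi * (ψ t - ψ a)| ≤ Real.pi / 3 := by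
      rw [abs_le]
      constructor
      · nlinarith [h1.1]
      · nlinarith [h1.2]
    have h3 : Real.cos (Real.pi / 3) ≤ Real.cos |2 * Real.pi * (ψ t - ψ a)| :=
      Real.cos_le_cos_of_nonneg_of_le_pi (abs_nonneg _) (by linarith) h2
    rw [Real.cos_abs, Real.cos_pi_div_three] at h3
    exact h3

/-- a unit speed curve is Lipschitz -/
theorem CountA_lip (hL : Loop L γ γ1 γ2 γ3 V C) (s t : ℝ) : ‖γ t - γ s‖ ≤ |t - s| := by
  have h := convex_univ.norm_image_sub_le_of_norm_hasDerivWithin_le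
    (f := γ) (f' := γ1) (C := 1) (fun x _ => (hL.h1 x).hasDerivWithinAt)
    (fun x _ => (hL.unit x).le) (mem_univ s) (mem_univ t)
  rwa [one_mul, Real.norm_eq_abs] at h

/-- (COUNTA) Proof: window `[0, ℓ]`, `ℓ = min (1/(8R)) L`: for `‖lam i‖ ≤ R` the phase varies by at most
`R ℓ ≤ 1/8` (`γ` is 1-Lipschitz), so `(ℓ/2)² card S ≤ L ℓ` by `ONB.par_one` (finite partial sum). -/
theorem count_le (hL : Loop L γ γ1 γ2 γ3 V C) (hF : ONB L γ lam) :
    ∃ K > 0, ∀ R ≥ (1:ℝ), ∀ S : Finset ι, (∀ i ∈ S, ‖lam i‖ ≤ R) → (S.card : ℝ) ≤ K * R := by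
  have hLp := hL.Lpos
  set m := min (1 / 8) L with hm
  have hm0 : 0 < m := lt_min (by norm_num) hLp
  refine ⟨4 * L / m, by positivity, ?_⟩
  intro R hR S hS
  have hR0 : 0 < R := by linarith
  set ℓ := m / R with hℓ
  have hℓ0 : 0 < ℓ := by positivity
  have hℓL : ℓ ≤ L := by
    rw [hℓ, div_le_iff₀ hR0]
    have h1 : m ≤ L := min_le_right _ _
    nlinarith
  have hRℓ : R * ℓ ≤ 1 / 8 := by
    rw [hℓ, mul_div_cancel₀ _ hR0.ne']
    exact min_le_left _ _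
  have h1 := hF.par_one (a := 0) (b := ℓ) le_rfl hℓ0.le hℓL
  have h2 : ∀ i ∈ S, (ℓ / 2) ^ 2 ≤ ‖∫ t in (0:ℝ)..ℓ, ex (-⟪lam i, γ t⟫)‖ ^ 2 := by
    intro i hi
    have h3 : ℓ / 2 ≤ ‖∫ t in (0:ℝ)..(0 + ℓ), ex (-⟪lam i, γ t⟫)‖ := by
      apply no_cancel hℓ0.le (continuous_const.inner hL.contγ).neg
      intro t ht
      rw [zero_add] at ht
      have e : -⟪lam i, γ t⟫ - -⟪lam i, γ 0⟫ = -⟪lam i, γ t - γ 0⟫ := by
        rw [inner_sub_right]
        ring
      show |-⟪lam i, γ t⟫ - -⟪lam i, γ 0⟫| ≤ 1 / 8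
      rw [e, abs_neg]
      calc |⟪lam i, γ t - γ 0⟫| ≤ ‖lam i‖ * ‖γ t - γ 0‖ := abs_real_inner_le_norm _ _
        _ ≤ R * |t - 0| := by
          have := CountA_lip hL 0 t
          have := hS i hi
          gcongr
        _ = R * t := by rw [sub_zero, abs_of_nonneg ht.1]
        _ ≤ R * ℓ := by
          have := ht.2
          gcongr
        _ ≤ 1 / 8 := hRℓ
    rw [zero_add] at h3
    gcongr
  have h3 : ∑ i ∈ S, (ℓ / 2) ^ 2 ≤ L * (ℓ - 0) :=
    (Finset.sum_le_sum h2).trans (sum_le_hasSum S (fun i _ => by positivity) h1)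
  rw [Finset.sum_const, nsmul_eq_mul, sub_zero] at h3
  have h4 : (S.card : ℝ) * ℓ ≤ 4 * L := by
    have h5 : ((S.card : ℝ) * ℓ) * ℓ ≤ (4 * L) * ℓ := by nlinarith
    exact le_of_mul_le_mul_right h5 hℓ0
  rw [hℓ] at h4
  rw [div_mul_eq_mul_div, le_div_iff₀ hm0]
  rw [mul_div_assoc', div_le_iff₀ hR0] at h4
  exact h4

/-- (COUNTA) -/
theorem fin_ball (hL : Loop L γ γ1 γ2 γ3 V C) (hF : ONB L γ lam) (R : ℝ) :
    {i | ‖lam i‖ ≤ R}.Finite := by
  obtain ⟨K, hK, h⟩ := count_le hL hF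
  by_contra hinf
  have hinf' : {i | ‖lam i‖ ≤ R}.Infinite := hinf
  obtain ⟨S, hS, hc⟩ := hinf'.exists_subset_card_eq (⌈K * max R 1⌉₊ + 1)
  have h1 := h (max R 1) (le_max_right _ _) S (fun i hi => (hS hi : ‖lam i‖ ≤ R).trans (le_max_left _ _))
  rw [hc] at h1
  have h2 := Nat.le_ceil (K * max R 1)
  push_cast at h1
  linarith

/-- (COUNTA) Proof: group dyadically: `∑_{i ∈ S, 2^j ≤ ‖lam i‖ < 2^(j+1)} 1/‖lam i‖² ≤ K 2^(j+1) / 4^j`. -/
theorem inv_sq_summable (hL : Loop L γ γ1 γ2 γ3 V C) (hF : ONB L γ lam) :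
    Summable (fun i => Set.indicator {i | 1 ≤ ‖lam i‖} (fun i => 1 / ‖lam i‖ ^ 2) i) := by
  classical
  obtain ⟨K, hK, h⟩ := count_le hL hF
  apply summable_of_sum_le (c := 4 * K)
  · intro i
    exact Set.indicator_nonneg (fun _ _ => by positivity) i
  · intro S
    rw [← Finset.sum_filter_add_sum_filter_not S (fun i => 1 ≤ ‖lam i‖)]
    have e0 : ∑ i ∈ S.filter (fun i => ¬ 1 ≤ ‖lam i‖),
        Set.indicator {i | 1 ≤ ‖lam i‖} (fun i => 1 / ‖lam i‖ ^ 2) i = 0 := by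
      apply Finset.sum_eq_zero
      intro i hi
      apply Set.indicator_of_notMem
      exact (Finset.mem_filter.1 hi).2
    rw [e0, add_zero]
    set S' := S.filter (fun i => 1 ≤ ‖lam i‖) with hS'
    have hmem : ∀ i ∈ S', 1 ≤ ‖lam i‖ := fun i hi => (Finset.mem_filter.1 hi).2
    have e1 : ∑ i ∈ S', Set.indicator {i | 1 ≤ ‖lam i‖} (fun i => 1 / ‖lam i‖ ^ 2) i =
        ∑ i ∈ S', 1 / ‖lam i‖ ^ 2 := by
      refine Finset.sum_congr rfl fun i hi => ?_
      have hi' : i ∈ {i | 1 ≤ ‖lam i‖} := hmem i hi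
      rw [Set.indicator_of_mem hi']
    rw [e1]
    set j : ι → ℕ := fun i => Nat.log 2 ⌊‖lam i‖⌋₊ with hj
    have hj1 : ∀ i ∈ S', (2 : ℝ) ^ j i ≤ ‖lam i‖ ∧ ‖lam i‖ ≤ 2 ^ (j i + 1) := by
      intro i hi
      have h1 := hmem i hi
      have h2 : ⌊‖lam i‖⌋₊ ≠ 0 := by
        have := Nat.le_floor (n := 1) (by exact_mod_cast h1 : ((1 : ℕ) : ℝ) ≤ ‖lam i‖)
        omega
      have h3 := Nat.pow_log_le_self 2 h2
      have h4 := Nat.lt_pow_succ_log_self (b := 2) (by norm_num) ⌊‖lam i‖⌋₊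
      constructor
      · have : ((2 ^ j i : ℕ) : ℝ) ≤ (⌊‖lam i‖⌋₊ : ℝ) := by exact_mod_cast h3
        push_cast at this
        exact this.trans (Nat.floor_le (norm_nonneg _))
      · have h5 : ((⌊‖lam i‖⌋₊ + 1 : ℕ) : ℝ) ≤ ((2 ^ (j i + 1) : ℕ) : ℝ) := by exact_mod_cast h4
        push_cast at h5
        exact (Nat.lt_floor_add_one _).le.trans h5
    rw [← Finset.sum_fiberwise_of_maps_to (t := S'.image j)
      (fun i hi => Finset.mem_image_of_mem j hi)]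
    have h2 : ∀ n ∈ S'.image j, ∑ i ∈ S'.filter (fun i => j i = n), 1 / ‖lam i‖ ^ 2 ≤
        2 * K * (1 / 2) ^ n := by
      intro n _
      have h3 : ∀ i ∈ S'.filter (fun i => j i = n), 1 / ‖lam i‖ ^ 2 ≤ 1 / 4 ^ n := by
        intro i hi
        obtain ⟨hi1, hi2⟩ := Finset.mem_filter.1 hi
        have h4 := (hj1 i hi1).1
        rw [hi2] at h4
        have h5 : (4 : ℝ) ^ n ≤ ‖lam i‖ ^ 2 := by
          have : (4 : ℝ) ^ n = (2 ^ n) ^ 2 := by
            rw [← pow_mul, mul_comm, pow_mul]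
            norm_num
          rw [this]
          gcongr
        gcongr
      have h4 : ((S'.filter (fun i => j i = n)).card : ℝ) ≤ K * 2 ^ (n + 1) := by
        apply h
        · exact one_le_pow₀ (by norm_num)
        · intro i hi
          obtain ⟨hi1, hi2⟩ := Finset.mem_filter.1 hi
          have h4 := (hj1 i hi1).2
          rwa [hi2] at h4
      calc ∑ i ∈ S'.filter (fun i => j i = n), 1 / ‖lam i‖ ^ 2
          ≤ ∑ i ∈ S'.filter (fun i => j i = n), (1 / 4 ^ n : ℝ) := Finset.sum_le_sum h3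
        _ = ((S'.filter (fun i => j i = n)).card : ℝ) * (1 / 4 ^ n) := by
          rw [Finset.sum_const, nsmul_eq_mul]
        _ ≤ (K * 2 ^ (n + 1)) * (1 / 4 ^ n) := by gcongr
        _ = 2 * K * (1 / 2) ^ n := by
          have : (4 : ℝ) ^ n = 2 ^ n * 2 ^ n := by
            rw [← mul_pow]
            norm_num
          rw [this, pow_succ, one_div_pow]
          field_simp
    calc _ ≤ ∑ n ∈ S'.image j, 2 * K * (1 / 2 : ℝ) ^ n := Finset.sum_le_sum h2
      _ = 2 * K * ∑ n ∈ S'.image j, (1 / 2 : ℝ) ^ n := by rw [Finset.mul_sum]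
      _ ≤ 2 * K * ∑' n : ℕ, (1 / 2 : ℝ) ^ n := by
        have := summable_geometric_two.sum_le_tsum (S'.image j) (fun _ _ => by positivity)
        gcongr
      _ = 4 * K := by
        rw [tsum_geometric_two]
        ring

end Pool.Agent.LoopSpec
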