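import Pool.Agent.Lib_MP_e9ccd1_s.APhase
import Pool.Agent.Lib_MP_e9ccd1_s.CountA

/-!
# MP_e9ccd1_an, planar arcs: counting (piece ASUMA)

`hF` is the frame identity for windows: `∑ Gw (ψ i) t l = A l`.
-/

set_option autoImplicit false

open MeasureTheory Set Filter Topology
open scoped RealInnerProductSpace
open Pool.Agent.CurveSpec (ex BM norm_ex ex_zero ex_add conj_ex continuous_ex)

namespace Pool.Agent.LoopSpec

variable {ι : Type*} {r : ι → ℝ} {ψ ψ1 ψ2 : ι → ℝ → ℝ} {a b K A : ℝ}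

/-- (ASUM) Counting. Proof: window `[a, a + l]`, `l = min (1/(8 R)) (b - a)`; the phase varies by at most
`r i l ≤ 1/8`, so `Gw ≥ l²/4` (`no_cancel`) and `card S * l²/4 ≤ A l`, `card S ≤ 4 A / l ≤ 4 A (8 R + 1/(b-a))`. -/
theorem a_count (hab : a < b) (hA : 0 < A) (hP : ∀ i, Ph a b K (r i) (ψ i) (ψ1 i) (ψ2 i))
    (hF : ∀ t l, a ≤ t → 0 ≤ l → t + l ≤ b → HasSum (fun i => Gw (ψ i) t l) (A * l)) :
    ∃ C > 0, ∀ R ≥ (1:ℝ), ∀ S : Finset ι, (∀ i ∈ S, r i ≤ R) → (S.card : ℝ) ≤ C * R := by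
  set m := min (1 / 8) (b - a) with hm
  have hm0 : 0 < m := lt_min (by norm_num) (by linarith)
  refine ⟨4 * A / m, by positivity, ?_⟩
  intro R hR S hS
  have hR0 : 0 < R := by linarith
  set l := m / R with hl
  have hl0 : 0 < l := by positivity
  have hlb : l ≤ b - a := by
    rw [hl, div_le_iff₀ hR0]
    have h1 : m ≤ b - a := min_le_right _ _
    nlinarith
  have hRl : R * l ≤ 1 / 8 := by
    rw [hl, mul_div_cancel₀ _ hR0.ne']
    exact min_le_left _ _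
  have h1 := hF a l le_rfl hl0.le (by linarith)
  have h2 : ∀ i ∈ S, (l / 2) ^ 2 ≤ Gw (ψ i) a l := by
    intro i hi
    have h3 : l / 2 ≤ ‖∫ t in a..(a + l), ex (ψ i t)‖ := by
      apply no_cancel hl0.le (hP i).cont
      intro t ht
      have h4 := (convex_Icc a (a + l)).norm_image_sub_le_of_norm_hasDerivWithin_le
        (f := ψ i) (f' := ψ1 i) (C := R)
        (fun x hx => ((hP i).h1 x ⟨hx.1, by linarith [hx.2]⟩).hasDerivWithinAt)
        (fun x hx => ((hP i).b1 x ⟨hx.1, by linarith [hx.2]⟩).trans (hS i hi))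
        (left_mem_Icc.2 (by linarith)) ht
      rw [Real.norm_eq_abs, Real.norm_eq_abs, abs_of_nonneg (sub_nonneg.2 ht.1)] at h4
      have h5 : t - a ≤ l := by linarith [ht.2]
      nlinarith
    unfold Gw
    exact pow_le_pow_left₀ (by positivity) h3 2
  have h3 : ∑ i ∈ S, (l / 2) ^ 2 ≤ A * l :=
    (Finset.sum_le_sum h2).trans (sum_le_hasSum S (fun i _ => Gw_nonneg _ _ _) h1)
  rw [Finset.sum_const, nsmul_eq_mul] at h3
  have h4 : (S.card : ℝ) * l ≤ 4 * A := by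
    have h5 : ((S.card : ℝ) * l) * l ≤ (4 * A) * l := by nlinarith
    exact le_of_mul_le_mul_right h5 hl0
  rw [hl] at h4
  rw [div_mul_eq_mul_div, le_div_iff₀ hm0]
  rw [mul_div_assoc', div_le_iff₀ hR0] at h4
  exact h4

/-- (ASUM) Proof: dyadic shells `2^j Y ≤ r i < 2^(j+1) Y`: at most `C 2^(j+1) Y` elements, each contributes at most
`1/(4^j Y²)`; sum of the geometric series `4 C / Y`. -/
theorem a_invsq {C : ℝ} (hC : 0 < C)
    (h : ∀ R ≥ (1:ℝ), ∀ S : Finset ι, (∀ i ∈ S, r i ≤ R) → (S.card : ℝ) ≤ C * R)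
    {Y : ℝ} (hY : 1 ≤ Y) (S : Finset ι) (hS : ∀ i ∈ S, Y ≤ r i) :
    ∑ i ∈ S, 1 / r i ^ 2 ≤ 4 * C / Y := by
  classical
  have hY0 : 0 < Y := by linarith
  set j : ι → ℕ := fun i => Nat.log 2 ⌊r i / Y⌋₊ with hj
  have hj1 : ∀ i ∈ S, (2 : ℝ) ^ j i * Y ≤ r i ∧ r i ≤ 2 ^ (j i + 1) * Y := by
    intro i hi
    have h1 : 1 ≤ r i / Y := by
      rw [le_div_iff₀ hY0, one_mul]
      exact hS i hi
    have h2 : ⌊r i / Y⌋₊ ≠ 0 := by
      have := Nat.le_floor (n := 1) (by exact_mod_cast h1 : ((1 : ℕ) : ℝ) ≤ r i / Y)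
      omega
    have h3 := Nat.pow_log_le_self 2 h2
    have h4 := Nat.lt_pow_succ_log_self (b := 2) (by norm_num) ⌊r i / Y⌋₊
    constructor
    · rw [← le_div_iff₀ hY0]
      have : ((2 ^ j i : ℕ) : ℝ) ≤ (⌊r i / Y⌋₊ : ℝ) := by exact_mod_cast h3
      push_cast at this
      exact this.trans (Nat.floor_le (by linarith))
    · rw [← div_le_iff₀ hY0]
      have h5 : ((⌊r i / Y⌋₊ + 1 : ℕ) : ℝ) ≤ ((2 ^ (j i + 1) : ℕ) : ℝ) := by exact_mod_cast h4
      push_cast at h5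
      exact (Nat.lt_floor_add_one _).le.trans h5
  rw [← Finset.sum_fiberwise_of_maps_to (t := S.image j)
    (fun i hi => Finset.mem_image_of_mem j hi)]
  have h2 : ∀ n ∈ S.image j, ∑ i ∈ S.filter (fun i => j i = n), 1 / r i ^ 2 ≤
      2 * C / Y * (1 / 2) ^ n := by
    intro n _
    have h3 : ∀ i ∈ S.filter (fun i => j i = n), 1 / r i ^ 2 ≤ 1 / (4 ^ n * Y ^ 2) := by
      intro i hi
      obtain ⟨hi1, hi2⟩ := Finset.mem_filter.1 hi
      have h4 := (hj1 i hi1).1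
      rw [hi2] at h4
      have h5 : (4 : ℝ) ^ n * Y ^ 2 ≤ r i ^ 2 := by
        have : (4 : ℝ) ^ n * Y ^ 2 = (2 ^ n * Y) ^ 2 := by
          rw [mul_pow, ← pow_mul, mul_comm n 2, pow_mul]
          norm_num
        rw [this]
        exact pow_le_pow_left₀ (by positivity) h4 2
      exact one_div_le_one_div_of_le (by positivity) h5
    have h4 : ((S.filter (fun i => j i = n)).card : ℝ) ≤ C * (2 ^ (n + 1) * Y) := by
      apply h
      · have : (1:ℝ) ≤ 2 ^ (n + 1) := one_le_pow₀ (by norm_num)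
        nlinarith
      · intro i hi
        obtain ⟨hi1, hi2⟩ := Finset.mem_filter.1 hi
        have h4 := (hj1 i hi1).2
        rwa [hi2] at h4
    calc ∑ i ∈ S.filter (fun i => j i = n), 1 / r i ^ 2
        ≤ ∑ i ∈ S.filter (fun i => j i = n), (1 / (4 ^ n * Y ^ 2) : ℝ) := Finset.sum_le_sum h3
      _ = ((S.filter (fun i => j i = n)).card : ℝ) * (1 / (4 ^ n * Y ^ 2)) := by
        rw [Finset.sum_const, nsmul_eq_mul]
      _ ≤ (C * (2 ^ (n + 1) * Y)) * (1 / (4 ^ n * Y ^ 2)) := by gcongr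
      _ = 2 * C / Y * (1 / 2) ^ n := by
        have : (4 : ℝ) ^ n = 2 ^ n * 2 ^ n := by
          rw [← mul_pow]
          norm_num
        rw [this, pow_succ, one_div_pow]
        field_simp
  calc _ ≤ ∑ n ∈ S.image j, 2 * C / Y * (1 / 2 : ℝ) ^ n := Finset.sum_le_sum h2
    _ = 2 * C / Y * ∑ n ∈ S.image j, (1 / 2 : ℝ) ^ n := by rw [Finset.mul_sum]
    _ ≤ 2 * C / Y * ∑' n : ℕ, (1 / 2 : ℝ) ^ n := by
      have := summable_geometric_two.sum_le_tsum (S.image j) (fun _ _ => by positivity)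
      gcongr
    _ = 4 * C / Y := by
      rw [tsum_geometric_two]
      ring

end Pool.Agent.LoopSpec
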