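import Pool.Agent.Lib_MP_e9ccd1_s.ArcCore
import Pool.Agent.Lib_MP_e9ccd1_an.Transfer

/-!
# MP_e9ccd1_an, planar arcs: the final theorem (Theorem A)
-/

set_option autoImplicit false

open MeasureTheory Set Filter Topology
open scoped RealInnerProductSpace
open Pool.Agent.CurveSpec

namespace Pool.Agent.LoopSpec

namespace ATransfer

lemma expo_eq {E : Type*} [NormedAddCommGroup E] [InnerProductSpace ℝ E] (l x : E) :
    expo l x = ex ⟪l, x⟫ := by
  unfold expo ex
  congr 1
  push_cast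
  ring

/-- the frame identity on the parameter interval -/
theorem tight_param {E : Type*} [NormedAddCommGroup E] [InnerProductSpace ℝ E]
    [FiniteDimensional ℝ E] [MeasurableSpace E] [BorelSpace E] {L : ℝ} {γ : ℝ → E}
    (h : ClosedCurve L γ) (hs : TightFrameSpectral (arcMeasure L γ)) :
    ∃ Λ : Set E, Λ.Countable ∧ ∃ A > 0, ∀ f : ℝ → ℂ, BM f → HasSum
      (fun l : Λ => ‖∫ t in (0:ℝ)..L, f t * ex (-⟪(l : E), γ t⟫)‖ ^ 2)
        (A * ∫ t in (0:ℝ)..L, ‖f t‖ ^ 2) := by
  obtain ⟨Λ, hΛ, A, hA, hfr⟩ := hs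
  have hLpos := h.pos
  refine ⟨Λ, hΛ, A * L, mul_pos hA hLpos, fun f hf => ?_⟩
  obtain ⟨F, hFm, ⟨C, hC⟩, N, hN, hFf⟩ := exists_lift h hf
  have : IsFiniteMeasure (arcMeasure L γ) := by
    unfold arcMeasure
    have : IsFiniteMeasure (Measure.map γ (volume.restrict (Set.Icc 0 L))) :=
      Measure.isFiniteMeasure_map _ _
    exact Measure.smul_finite _ (ENNReal.inv_ne_top.2 (by simpa using hLpos))
  have hLp : MemLp F 2 (arcMeasure L γ) :=
    MemLp.of_bound hFm.aestronglyMeasurable C (Eventually.of_forall hC)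
  have h1 := hfr F hLp
  have hae : ∀ᵐ t, t ∈ Set.Ioc 0 L → t ∉ N := by
    have : ∀ᵐ t : ℝ, t ∉ N := by
      rw [ae_iff]; simp only [not_not]
      exact hN.measure_zero _
    filter_upwards [this] with t ht _ using ht
  have h2 : ∫ x, ‖F x‖ ^ 2 ∂(arcMeasure L γ) = L⁻¹ * ∫ t in (0:ℝ)..L, ‖f t‖ ^ 2 := by
    rw [integral_arcMeasure h (hFm.norm.pow_const 2).stronglyMeasurable, smul_eq_mul]
    congr 1
    apply intervalIntegral.integral_congr_ae
    rw [Set.uIoc_of_le hLpos.le]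
    filter_upwards [hae] with t ht htI
    rw [hFf t (Set.Ioc_subset_Icc_self htI) (ht htI)]
  have h3 : ∀ l : Λ, ‖∫ x, F x * expo (-(l : E)) x ∂(arcMeasure L γ)‖ ^ 2 =
      (L⁻¹) ^ 2 * ‖∫ t in (0:ℝ)..L, f t * ex (-⟪(l : E), γ t⟫)‖ ^ 2 := by
    intro l
    have hexpo : Measurable (fun x : E => expo (-(l : E)) x) := by
      unfold expo
      exact (by fun_prop : Continuous fun x : E =>
        Complex.exp (2 * Real.pi * Complex.I * ((inner ℝ (-(l : E)) x : ℝ) : ℂ))).measurable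
    have hprod : StronglyMeasurable (fun x : E => F x * expo (-(l : E)) x) :=
      (hFm.mul hexpo).stronglyMeasurable
    rw [integral_arcMeasure h hprod]
    have h4 : ∫ t in (0:ℝ)..L, F (γ t) * expo (-(l : E)) (γ t) =
        ∫ t in (0:ℝ)..L, f t * ex (-⟪(l : E), γ t⟫) := by
      apply intervalIntegral.integral_congr_ae
      rw [Set.uIoc_of_le hLpos.le]
      filter_upwards [hae] with t ht htI
      have htI' := Set.Ioc_subset_Icc_self htI
      rw [hFf t htI' (ht htI), expo_eq, inner_neg_left]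
    rw [h4, norm_smul, Real.norm_of_nonneg (by positivity), mul_pow]
  simp only [h3] at h1
  rw [h2] at h1
  have h6 := h1.mul_left (L ^ 2)
  have e1 : ∀ l : Λ, L ^ 2 * ((L⁻¹) ^ 2 * ‖∫ t in (0:ℝ)..L, f t * ex (-⟪(l : E), γ t⟫)‖ ^ 2) =
      ‖∫ t in (0:ℝ)..L, f t * ex (-⟪(l : E), γ t⟫)‖ ^ 2 := by
    intro l; field_simp
  have e2 : L ^ 2 * (A * (L⁻¹ * ∫ t in (0:ℝ)..L, ‖f t‖ ^ 2)) =
      A * L * ∫ t in (0:ℝ)..L, ‖f t‖ ^ 2 := by field_simp
  rw [e2] at h6
  simpa only [e1] using h6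

/-- a linear map to the plane, isometric on a subspace of dimension at most two -/
theorem exists_map {E : Type*} [NormedAddCommGroup E] [InnerProductSpace ℝ E]
    [FiniteDimensional ℝ E] (W : Submodule ℝ E) (hW : Module.finrank ℝ W ≤ 2) :
    ∃ T : E →L[ℝ] E2, ∀ x y : E, y ∈ W → ⟪T x, T y⟫ = ⟪x, y⟫ := by
  let b := stdOrthonormalBasis ℝ W
  let f : W →ₗ[ℝ] E2 := b.toBasis.constr ℝ (fun i => EuclideanSpace.single (Fin.castLE hW i) (1 : ℝ))
  have hv : Orthonormal ℝ b.toBasis := by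
    rw [b.coe_toBasis]
    exact b.orthonormal
  have hf : Orthonormal ℝ (f ∘ b.toBasis) := by
    have h1 : (f ∘ b.toBasis) =
        (fun j : Fin 2 => (EuclideanSpace.single j (1 : ℝ) : E2)) ∘ (Fin.castLE hW) := by
      funext i
      simp only [f, Function.comp_apply, Module.Basis.constr_basis]
    rw [h1]
    have h2 : Orthonormal ℝ (fun j : Fin 2 => (EuclideanSpace.single j (1 : ℝ) : E2)) :=
      EuclideanSpace.orthonormal_single
    exact h2.comp _ (Fin.castLE_injective hW)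
  let J : W →ₗᵢ[ℝ] E2 := f.isometryOfOrthonormal hv hf
  refine ⟨J.toContinuousLinearMap.comp W.orthogonalProjectionOnto, fun x y hy => ?_⟩
  change ⟪J (W.orthogonalProjectionOnto x), J (W.orthogonalProjectionOnto y)⟫ = ⟪x, y⟫
  rw [J.inner_map_map]
  have h1 : W.orthogonalProjectionOnto y = ⟨y, hy⟩ :=
    Submodule.orthogonalProjectionOnto_mem_subspace_eq_self (K := W) ⟨y, hy⟩
  rw [h1]
  exact Submodule.inner_orthogonalProjectionOnto_eq_of_mem_right (K := W) ⟨y, hy⟩ x

/-- the arc is not straight, so the second derivative does not vanish identically -/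
theorem exists_curved {E : Type*} [NormedAddCommGroup E] [InnerProductSpace ℝ E]
    {γ : ℝ → E} {a b : ℝ} (hab : a < b) (hc : ContinuousOn γ (Icc a b))
    (h1 : ∀ t ∈ Ioo a b, DifferentiableAt ℝ γ t)
    (h2 : ∀ t ∈ Ioo a b, DifferentiableAt ℝ (deriv γ) t)
    (hns : ¬ Collinear ℝ (γ '' Icc a b)) : ∃ t ∈ Ioo a b, deriv (deriv γ) t ≠ 0 := by
  by_contra hcon
  push Not at hcon
  apply hns
  set m := (a + b) / 2 with hm
  have hmI : m ∈ Ioo a b := ⟨by linarith, by linarith⟩
  have e1 : ∀ t ∈ Ioo a b, deriv γ t = deriv γ m := fun t ht =>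
    isOpen_Ioo.is_const_of_deriv_eq_zero isPreconnected_Ioo
      (fun s hs => (h2 s hs).differentiableWithinAt) hcon ht hmI
  have hd : ∀ t ∈ Ioo a b, HasDerivAt (fun s => γ s - s • deriv γ m) 0 t := by
    intro t ht
    have h3 := (h1 t ht).hasDerivAt.sub ((hasDerivAt_id t).smul_const (deriv γ m))
    rw [one_smul, e1 t ht, sub_self] at h3
    exact h3
  have e2 : ∀ t ∈ Ioo a b, γ t - t • deriv γ m = γ m - m • deriv γ m := fun t ht =>
    isOpen_Ioo.is_const_of_deriv_eq_zero isPreconnected_Ioo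
      (f := fun s => γ s - s • deriv γ m)
      (fun s hs => (hd s hs).differentiableAt.differentiableWithinAt)
      (fun s hs => (hd s hs).deriv) ht hmI
  have e3 : EqOn (fun t => γ t - t • deriv γ m) (fun _ => γ m - m • deriv γ m) (Icc a b) := by
    refine EqOn.of_subset_closure e2 ?_ continuousOn_const Ioo_subset_Icc_self ?_
    · exact hc.sub (continuousOn_id.smul continuousOn_const)
    · rw [closure_Ioo hab.ne]
  rw [collinear_iff_exists_forall_eq_smul_vadd]
  refine ⟨γ m - m • deriv γ m, deriv γ m, ?_⟩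
  rintro _ ⟨t, ht, rfl⟩
  refine ⟨t, ?_⟩
  have := e3 ht
  simp only at this
  rw [vadd_eq_add, ← this]
  abel

end ATransfer

open ATransfer in
/-- Theorem A: a piecewise `C^1` closed curve which contains a planar `C^2` arc which is not straight carries
no tight frame of exponentials. -/
theorem not_tight_arc {E : Type*} [NormedAddCommGroup E] [InnerProductSpace ℝ E]
    [FiniteDimensional ℝ E] [MeasurableSpace E] [BorelSpace E] {L : ℝ} {γ : ℝ → E}
    (hγ : ClosedCurve L γ) {a b : ℝ} (ha : 0 ≤ a) (hb : b ≤ L)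
    (h2 : ContDiffOn ℝ 2 γ (Icc a b)) (P : AffineSubspace ℝ E)
    (hP : Module.finrank ℝ P.direction ≤ 2) (hγP : ∀ t ∈ Icc a b, γ t ∈ P)
    (hns : ¬ Collinear ℝ (γ '' Icc a b)) : ¬ TightFrameSpectral (arcMeasure L γ) := by
  intro hs
  have hab : a < b := by
    by_contra h
    apply hns
    have h3 : (γ '' Icc a b).Subsingleton := (subsingleton_Icc_of_ge (not_lt.1 h)).image γ
    rcases h3.eq_empty_or_singleton with h4 | ⟨x, h4⟩
    · rw [h4]
      exact collinear_empty ℝ E
    · rw [h4]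
      exact collinear_singleton ℝ x
  obtain ⟨Λ, hΛ, A, hA, hfr⟩ := tight_param hγ hs
  have hLpos := hγ.pos
  obtain ⟨n, τ, hτ0, hτn, hτ⟩ := hγ.pieces
  have hopen : ContDiffOn ℝ 2 γ (Ioo a b) := h2.mono Ioo_subset_Icc_self
  have hd1 : ∀ t ∈ Ioo a b, HasDerivAt γ (deriv γ t) t := fun t ht =>
    ((hopen.differentiableOn (by norm_num)).differentiableAt (isOpen_Ioo.mem_nhds ht)).hasDerivAt
  have hC1 : ContDiffOn ℝ 1 (deriv γ) (Ioo a b) := by
    have h3 : ContDiffOn ℝ ((1 : WithTop ℕ∞) + 1) γ (Ioo a b) := by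
      have : ((1 : WithTop ℕ∞) + 1) = 2 := by norm_num
      rw [this]
      exact hopen
    exact ((contDiffOn_succ_iff_deriv_of_isOpen isOpen_Ioo).1 h3).2.2
  have hd2 : ∀ t ∈ Ioo a b, HasDerivAt (deriv γ) (deriv (deriv γ) t) t := fun t ht =>
    ((hC1.differentiableOn (by norm_num)).differentiableAt (isOpen_Ioo.mem_nhds ht)).hasDerivAt
  have hc2 : ContinuousOn (deriv (deriv γ)) (Ioo a b) := by
    have h3 : ContDiffOn ℝ ((0 : WithTop ℕ∞) + 1) (deriv γ) (Ioo a b) := by
      rw [zero_add]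
      exact hC1
    exact ((contDiffOn_succ_iff_deriv_of_isOpen isOpen_Ioo).1 h3).2.2.continuousOn
  -- unit speed
  have hunit : ∀ t ∈ Ioo a b, ‖deriv γ t‖ = 1 := by
    intro t ht
    obtain ⟨k, hk, htk⟩ : ∃ k < n, t ∈ Icc (τ k) (τ (k + 1)) := by
      by_contra hcon
      push Not at hcon
      have h3 : ∀ k ≤ n, τ k < t := by
        intro k
        induction k with
        | zero => intro _; rw [hτ0]; linarith [ht.1]
        | succ k ih =>
          intro hk
          have h4 := ih (by omega)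
          have h5 := hcon k (by omega)
          by_contra h6
          exact h5 ⟨h4.le, not_lt.1 h6⟩
      have := h3 n le_rfl
      rw [hτn] at this
      linarith [ht.2]
    have h3 : HasDerivWithinAt γ (deriv γ t) (Icc (τ k) (τ (k + 1))) t :=
      (hd1 t ht).hasDerivWithinAt
    rw [← h3.derivWithin (uniqueDiffOn_Icc (hτ k hk).1 t htk)]
    exact (hτ k hk).2.2 t htk
  -- the directions
  set W := P.direction with hW
  set p : E := γ ((a + b) / 2) with hp
  have hmid : (a + b) / 2 ∈ Icc a b := ⟨by linarith, by linarith⟩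
  have hsub : ∀ t ∈ Icc a b, γ t - p ∈ W := by
    intro t ht
    have := AffineSubspace.vsub_mem_direction (hγP t ht) (hγP _ hmid)
    simpa using this
  have hproj : ∀ x ∈ W, (W.orthogonalProjectionOnto x : E) = x := by
    intro x hx
    have h1 : W.orthogonalProjectionOnto x = ⟨x, hx⟩ :=
      Submodule.orthogonalProjectionOnto_mem_subspace_eq_self (K := W) ⟨x, hx⟩
    rw [h1]
  set Q : E →L[ℝ] E := W.subtypeL.comp W.orthogonalProjectionOnto with hQ
  have hQW : ∀ x, Q x ∈ W := fun x => (W.orthogonalProjectionOnto x).2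
  have hQx : ∀ x ∈ W, Q x = x := fun x hx => hproj x hx
  have hmem1 : ∀ t ∈ Ioo a b, deriv γ t ∈ W := by
    intro t ht
    have h3 : HasDerivAt (fun s => Q (γ s - p)) (Q (deriv γ t)) t :=
      Q.hasFDerivAt.comp_hasDerivAt t ((hd1 t ht).sub_const p)
    have h4 : (fun s => γ s - p) =ᶠ[𝓝 t] fun s => Q (γ s - p) := by
      filter_upwards [isOpen_Ioo.mem_nhds ht] with s hs
      exact (hQx _ (hsub s (Ioo_subset_Icc_self hs))).symm
    have h5 : HasDerivAt (fun s => γ s - p) (Q (deriv γ t)) t := h3.congr_of_eventuallyEq h4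
    have h6 := ((hd1 t ht).sub_const p).unique h5
    rw [h6]
    exact hQW _
  have hmem2 : ∀ t ∈ Ioo a b, deriv (deriv γ) t ∈ W := by
    intro t ht
    have h3 : HasDerivAt (fun s => Q (deriv γ s)) (Q (deriv (deriv γ) t)) t :=
      Q.hasFDerivAt.comp_hasDerivAt t (hd2 t ht)
    have h4 : deriv γ =ᶠ[𝓝 t] fun s => Q (deriv γ s) := by
      filter_upwards [isOpen_Ioo.mem_nhds ht] with s hs
      exact (hQx _ (hmem1 s hs)).symm
    have h6 := (hd2 t ht).unique (h3.congr_of_eventuallyEq h4)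
    rw [h6]
    exact hQW _
  -- a subarc with nonzero curvature
  obtain ⟨t0, ht0, hcur⟩ := exists_curved hab h2.continuousOn
    (fun t ht => (hd1 t ht).differentiableAt) (fun t ht => (hd2 t ht).differentiableAt) hns
  obtain ⟨a', b', ha', hab', hb', hne⟩ : ∃ a' b', a < a' ∧ a' < b' ∧ b' < b ∧
      ∀ t ∈ Icc a' b', deriv (deriv γ) t ≠ 0 := by
    have h3 : ∀ᶠ t in 𝓝 t0, deriv (deriv γ) t ≠ 0 ∧ t ∈ Ioo a b :=
      ((hc2.continuousAt (isOpen_Ioo.mem_nhds ht0)).eventually_ne hcur).and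
        (isOpen_Ioo.mem_nhds ht0)
    obtain ⟨δ, hδ, h4⟩ := Metric.eventually_nhds_iff.1 h3
    have h5 : ∀ t ∈ Icc (t0 - δ / 2) (t0 + δ / 2), deriv (deriv γ) t ≠ 0 ∧ t ∈ Ioo a b := by
      intro t ht
      apply h4
      rw [Real.dist_eq, abs_lt]
      constructor <;> linarith [ht.1, ht.2]
    refine ⟨t0 - δ / 2, t0 + δ / 2, ?_, by linarith, ?_, fun t ht => (h5 t ht).1⟩
    · exact (h5 (t0 - δ / 2) ⟨le_rfl, by linarith⟩).2.1
    · exact (h5 (t0 + δ / 2) ⟨by linarith, le_rfl⟩).2.2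
  have hI : ∀ t ∈ Icc a' b', t ∈ Ioo a b := fun t ht =>
    ⟨ha'.trans_le ht.1, ht.2.trans_lt hb'⟩
  -- to the plane
  obtain ⟨T, hT⟩ := exists_map W hP
  have hTn : ∀ x ∈ W, ‖T x‖ = ‖x‖ := by
    intro x hx
    have h3 := hT x x hx
    rw [real_inner_self_eq_norm_sq, real_inner_self_eq_norm_sq] at h3
    exact (sq_eq_sq₀ (norm_nonneg _) (norm_nonneg _)).1 h3
  have : Countable Λ := hΛ.to_subtype
  refine arcCore (ι := Λ) (lam := fun l => T (l : E)) (γ := fun t => T (γ t))
    (γ1 := fun t => T (deriv γ t)) (γ2 := fun t => T (deriv (deriv γ) t)) (a := a') (b := b')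
    (A := A) hab' hA ?_ ?_ ?_ ?_ ?_ ?_
  · intro t ht
    exact T.hasFDerivAt.comp_hasDerivAt t (hd1 t (hI t ht))
  · intro t ht
    exact T.hasFDerivAt.comp_hasDerivAt t (hd2 t (hI t ht))
  · exact T.continuous.comp_continuousOn (hc2.mono hI)
  · intro t ht
    rw [hTn _ (hmem1 t (hI t ht))]
    exact hunit t (hI t ht)
  · intro t ht h3
    have h4 := hTn _ (hmem2 t (hI t ht))
    rw [h3, norm_zero] at h4
    exact hne t ht (norm_eq_zero.1 h4.symm)
  · intro f hf
    have hind : BM ((Set.Ioc a' b').indicator f) := by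
      obtain ⟨C, hC⟩ := hf.bdd
      exact ⟨hf.meas.indicator measurableSet_Ioc, C,
        fun t => (norm_indicator_le_norm_self _ _).trans (hC t)⟩
    have key : ∀ {F : Type} [NormedAddCommGroup F] [NormedSpace ℝ F] (G : ℝ → F),
        ∫ t in (0:ℝ)..L, (Set.Ioc a' b').indicator G t = ∫ t in a'..b', G t := by
      intro F _ _ G
      rw [intervalIntegral.integral_of_le hLpos.le,
        intervalIntegral.integral_of_le hab'.le, setIntegral_indicator measurableSet_Ioc,
        Set.inter_eq_self_of_subset_right (Set.Ioc_subset_Ioc (by linarith) (by linarith))]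
    have h1 := hfr _ hind
    have e1 : ∀ l : Λ, ‖∫ t in (0:ℝ)..L, (Set.Ioc a' b').indicator f t *
        ex (-⟪(l : E), γ t⟫)‖ ^ 2 = ‖∫ t in a'..b', f t * ex (-⟪T (l : E), T (γ t)⟫)‖ ^ 2 := by
      intro l
      have e3 : ∫ t in (0:ℝ)..L, (Set.Ioc a' b').indicator f t * ex (-⟪(l : E), γ t⟫) =
          ∫ t in a'..b', f t * ex (-⟪(l : E), γ t⟫) := by
        rw [← key]
        congr 1
        ext t
        by_cases ht : t ∈ Set.Ioc a' b' <;> simp [ht]
      have e4 : ∫ t in a'..b', f t * ex (-⟪(l : E), γ t⟫) =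
          ex (⟪T (l : E), T p⟫ - ⟪(l : E), p⟫) *
            ∫ t in a'..b', f t * ex (-⟪T (l : E), T (γ t)⟫) := by
        rw [← intervalIntegral.integral_const_mul]
        apply intervalIntegral.integral_congr
        intro t ht
        rw [uIcc_of_le hab'.le] at ht
        have h3 := hT (l : E) (γ t - p) (hsub t (Ioo_subset_Icc_self (hI t ht)))
        rw [map_sub, inner_sub_right, inner_sub_right] at h3
        simp only
        have h4 : -⟪(l : E), γ t⟫ = (⟪T (l : E), T p⟫ - ⟪(l : E), p⟫) +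
            (-⟪T (l : E), T (γ t)⟫) := by linarith
        rw [h4, ex_add]
        ring
      rw [e3, e4, norm_mul, norm_ex, one_mul]
    have e2 : ∫ t in (0:ℝ)..L, ‖(Set.Ioc a' b').indicator f t‖ ^ 2 = ∫ t in a'..b', ‖f t‖ ^ 2 := by
      rw [← key]
      congr 1
      ext t
      by_cases ht : t ∈ Set.Ioc a' b' <;> simp [ht]
    simp only [e1] at h1
    rw [e2] at h1
    exact h1

end Pool.Agent.LoopSpec
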