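import Pool.Agent.Lib_MP_e9ccd1_s.Cross

/-!
# MP_e9ccd1_an, space curves: local structure of `{(t, s) | ⟪cr (γ1 t) (γ2 t), γ1 s⟫ = 0}` (pieces LOCA, LOCB)

Notation `w t = cr (γ1 t) (γ2 t)`; on `Ioo α β` it is differentiable with derivative `cr (γ1 t) (γ3 t)`
(`cr (γ2 t) (γ2 t) = 0`), continuous there. `⟪cr (γ1 t) (γ3 t), γ2 t⟫ = -⟪w t, γ3 t⟫ ≠ 0`,
`⟪cr (γ1 t) (γ3 t), γ1 t⟫ = 0`. In particular `w t ≠ 0`, `γ2 t ≠ 0`.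
-/

set_option autoImplicit false

open MeasureTheory Set Filter Topology
open scoped RealInnerProductSpace

namespace Pool.Agent.LoopSpec

variable {L C : ℝ} {γ γ1 γ2 γ3 : ℝ → E3} {V : Finset ℝ}

/-- the hypotheses on the arc `(α, β)`: smooth, with nonzero torsion -/
structure Arc (L : ℝ) (γ1 γ2 γ3 : ℝ → E3) (V : Finset ℝ) (α β : ℝ) : Prop where
  sub : ∀ t ∈ Ioo α β, t ∈ Ioo 0 L
  notV : ∀ t ∈ Ioo α β, t ∉ V
  det : ∀ t ∈ Ioo α β, ⟪cr (γ1 t) (γ2 t), γ3 t⟫ ≠ 0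

end Pool.Agent.LoopSpec
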