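import Pool.Agent.Lib_MP_e9ccd1_s.ACore
import Pool.Agent.Lib_MP_e9ccd1_s.AGeoB

/-!
# MP_e9ccd1_an: no tight frame of exponentials on a planar curved arc (Theorem A, core)
-/

set_option autoImplicit false

open MeasureTheory Set Filter Topology
open scoped RealInnerProductSpace
open Pool.Agent.CurveSpec (ex BM norm_ex ex_zero ex_add conj_ex continuous_ex)

namespace Pool.Agent.LoopSpec

namespace ArcCore

/-- the frame identity for windows -/
lemma windows {ι : Type*} {lam : ι → E2} {γ : ℝ → E2} {a b A : ℝ}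
    (hF : ∀ f : ℝ → ℂ, BM f → HasSum
      (fun i => ‖∫ t in a..b, f t * ex (-⟪lam i, γ t⟫)‖ ^ 2) (A * ∫ t in a..b, ‖f t‖ ^ 2))
    {t l : ℝ} (ht : a ≤ t) (hl : 0 ≤ l) (hb : t + l ≤ b) :
    HasSum (fun i => ‖∫ s in t..(t + l), ex (-⟪lam i, γ s⟫)‖ ^ 2) (A * l) := by
  have hind : BM ((Set.Ioc t (t + l)).indicator (fun _ => (1 : ℂ))) :=
    ⟨measurable_const.indicator measurableSet_Ioc, 1,
      fun s => (norm_indicator_le_norm_self _ _).trans (by simp)⟩
  have key : ∀ {F : Type} [NormedAddCommGroup F] [NormedSpace ℝ F] (G : ℝ → F),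
      ∫ s in a..b, (Set.Ioc t (t + l)).indicator G s = ∫ s in t..(t + l), G s := by
    intro F _ _ G
    rw [intervalIntegral.integral_of_le (by linarith),
      intervalIntegral.integral_of_le (by linarith), setIntegral_indicator measurableSet_Ioc,
      Set.inter_eq_self_of_subset_right (Set.Ioc_subset_Ioc ht hb)]
  have h1 := hF _ hind
  have e1 : ∀ i, ∫ s in a..b, (Set.Ioc t (t + l)).indicator (fun _ => (1 : ℂ)) s *
      ex (-⟪lam i, γ s⟫) = ∫ s in t..(t + l), ex (-⟪lam i, γ s⟫) := by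
    intro i
    rw [← key]
    congr 1
    ext s
    by_cases hs : s ∈ Set.Ioc t (t + l) <;> simp [hs]
  have e2 : ∫ s in a..b, ‖(Set.Ioc t (t + l)).indicator (fun _ => (1 : ℂ)) s‖ ^ 2 = l := by
    have : ∫ s in a..b, ‖(Set.Ioc t (t + l)).indicator (fun _ => (1 : ℂ)) s‖ ^ 2 =
        ∫ s in t..(t + l), (1 : ℝ) := by
      rw [← key]
      congr 1
      ext s
      by_cases hs : s ∈ Set.Ioc t (t + l) <;> simp [hs]
    rw [this]
    simp
  simp only [e1] at h1
  rw [e2] at h1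
  exact h1

end ArcCore

/-- Theorem A (core). -/
theorem arcCore {ι : Type*} [Countable ι] {lam : ι → E2} {γ γ1 γ2 : ℝ → E2} {a b A : ℝ}
    (hab : a < b) (hA : 0 < A) (h1 : ∀ t ∈ Icc a b, HasDerivAt γ (γ1 t) t)
    (h2 : ∀ t ∈ Icc a b, HasDerivAt γ1 (γ2 t) t) (c2 : ContinuousOn γ2 (Icc a b))
    (hu : ∀ t ∈ Icc a b, ‖γ1 t‖ = 1) (hk : ∀ t ∈ Icc a b, γ2 t ≠ 0)
    (hF : ∀ f : ℝ → ℂ, BM f → HasSum
      (fun i => ‖∫ t in a..b, f t * ex (-⟪lam i, γ t⟫)‖ ^ 2) (A * ∫ t in a..b, ‖f t‖ ^ 2)) :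
    False := by
  obtain ⟨a', b', h, K, c, β, tm, t0, tp, ha', hb', hh, hK, hc, hβ0, hβ, htm, ht0, htp, hγ2, hcl⟩ :=
    arc_geo hab h2 c2 hu hk
  have hab' : a' < b' := by
    have h3 := lt_of_le_of_lt htm.1 htm.2
    linarith
  -- the extended curve
  have hγc : ContinuousOn γ (Icc a b) := fun t ht => (h1 t ht).continuousAt.continuousWithinAt
  set g : ℝ → E2 := IccExtend hab.le ((Icc a b).domRestrict γ) with hg
  have hgc : Continuous g := (continuousOn_iff_continuous_domRestrict.1 hγc).Icc_extend'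
  have hgeq : ∀ t ∈ Icc a b, g t = γ t := fun t ht => by
    rw [hg, IccExtend_of_mem _ _ ht, domRestrict_apply]
  have hsub : ∀ t ∈ Icc a' b', t ∈ Icc a b := fun t ht =>
    ⟨ha'.le.trans ht.1, ht.2.trans hb'.le⟩
  have hgd : ∀ t ∈ Icc a' b', HasDerivAt g (γ1 t) t := by
    intro t ht
    refine (h1 t (hsub t ht)).congr_of_eventuallyEq ?_
    have : Ioo a b ∈ 𝓝 t := Ioo_mem_nhds (lt_of_lt_of_le ha' ht.1) (lt_of_le_of_lt ht.2 hb')
    filter_upwards [this] with s hs
    exact hgeq s ⟨hs.1.le, hs.2.le⟩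
  refine phaseCore (ι := ι) (r := fun i => ‖lam i‖) (ψ := fun i s => -⟪lam i, g s⟫)
    (ψ1 := fun i s => -⟪lam i, γ1 s⟫) (ψ2 := fun i s => -⟪lam i, γ2 s⟫) (a := a') (b := b')
    (h := h) (K := K) (c := c) (A := A) (β := β) (tm := tm) (t0 := t0) (tp := tp) hA hh hK hc hβ0
    hβ htm ht0 htp ?_ ?_ ?_
  · intro i
    refine ⟨?_, ?_, ?_, ?_, ?_, ?_⟩
    · exact (continuous_const.inner hgc).neg
    · intro t ht
      have h5 : HasDerivAt (fun s => ⟪lam i, g s⟫) ⟪lam i, γ1 t⟫ t := by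
        simpa using (hasDerivAt_const t (lam i)).inner ℝ (hgd t ht)
      exact h5.neg
    · intro t ht
      have h5 : HasDerivAt (fun s => ⟪lam i, γ1 s⟫) ⟪lam i, γ2 t⟫ t := by
        simpa using (hasDerivAt_const t (lam i)).inner ℝ (h2 t (hsub t ht))
      exact h5.neg
    · exact (continuousOn_const.inner (c2.mono hsub)).neg
    · intro t ht
      rw [abs_neg]
      have := abs_real_inner_le_norm (lam i) (γ1 t)
      rwa [hu t (hsub t ht), mul_one] at this
    · intro t ht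
      rw [abs_neg]
      refine (abs_real_inner_le_norm (lam i) (γ2 t)).trans ?_
      rw [mul_comm]
      exact mul_le_mul_of_nonneg_right (hγ2 t ht) (norm_nonneg _)
  · intro t l ht hl hb
    have hw := ArcCore.windows hF (t := t) (l := l) (ha'.le.trans ht) hl (hb.trans hb'.le)
    have e1 : (fun i => Gw (fun s => -⟪lam i, g s⟫) t l) =
        fun i => ‖∫ s in t..(t + l), ex (-⟪lam i, γ s⟫)‖ ^ 2 := by
      funext i
      unfold Gw
      congr 2
      apply intervalIntegral.integral_congr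
      intro s hs
      rw [uIcc_of_le (by linarith)] at hs
      simp only
      rw [hgeq s ⟨ha'.le.trans (ht.trans hs.1), hs.2.trans (hb.trans hb'.le)⟩]
    rw [e1]
    exact hw
  · intro i
    rcases hcl (lam i) with ⟨h3, h4⟩ | ⟨⟨s, hs, hs0⟩, h4⟩
    · left
      simp only [abs_neg]
      exact ⟨h3, h4⟩
    · right
      refine ⟨⟨s, hs, by simp only [hs0, neg_zero]⟩, ?_⟩
      rcases h4 with h4 | h4
      · right
        intro t ht
        have := h4 t ht
        linarith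
      · left
        intro t ht
        have := h4 t ht
        linarith

end Pool.Agent.LoopSpec
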