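import Pool.Agent.Lib_MP_e9ccd1_an.Frame

/-!
# MP_e9ccd1_an, curves in three-space: definitions and basic lemmas

`Loop`: a closed curve `γ : [0, L] → E` (extended to `ℝ` as a `C^1` function), `C^1` with unit speed,
piecewise `C^3` (exceptional finite set `V ∋ 0, L`), bounded derivatives, `γ 0 = γ L`.
`ONB`: the exponentials `ex ⟪lam i, γ t⟫`, suitably normalised, are an orthonormal basis
(orthogonality and Parseval for bounded measurable functions on `[0, L]`).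
`ex x = e^{2 π i x}` and `BM f` (bounded measurable) come from `Lib_MP_e9ccd1_an.Frame`.
-/

set_option autoImplicit false

open MeasureTheory Set Filter Topology
open scoped RealInnerProductSpace
open Pool.Agent.CurveSpec (ex BM norm_ex ex_zero ex_add conj_ex continuous_ex)

namespace Pool.Agent.LoopSpec

/-- the plane -/
abbrev E2 := EuclideanSpace ℝ (Fin 2)
/-- three-space -/
abbrev E3 := EuclideanSpace ℝ (Fin 3)

variable {E : Type*} [NormedAddCommGroup E] [InnerProductSpace ℝ E]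

/-- A closed curve, `C^1` on `[0, L]` (at most one corner, at the base point), piecewise `C^3`. The
functions are defined on the whole line. `γ1, γ2, γ3` are the derivatives, `V` the exceptional
parameters (including `0` and `L`). -/
structure Loop (L : ℝ) (γ γ1 γ2 γ3 : ℝ → E) (V : Finset ℝ) (C : ℝ) : Prop where
  Lpos : 0 < L
  Cpos : 1 ≤ C
  h1 : ∀ t, HasDerivAt γ (γ1 t) t
  lip : ∀ s t, ‖γ1 s - γ1 t‖ ≤ C * |s - t|
  unit : ∀ t, ‖γ1 t‖ = 1
  closed : γ 0 = γ L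
  mem0 : (0 : ℝ) ∈ V
  memL : L ∈ V
  h2 : ∀ t ∈ Ioo 0 L, t ∉ V → HasDerivAt γ1 (γ2 t) t
  h3 : ∀ t ∈ Ioo 0 L, t ∉ V → HasDerivAt γ2 (γ3 t) t
  c3 : ContinuousOn γ3 (Ioo 0 L \ V)
  b2 : ∀ t, ‖γ2 t‖ ≤ C
  b3 : ∀ t, ‖γ3 t‖ ≤ C

/-- The exponentials with frequencies `lam i` are an orthonormal basis of `L²([0, L], dt / L)`
after composition with `γ`. -/
structure ONB {ι : Type*} (L : ℝ) (γ : ℝ → E) (lam : ι → E) : Prop where
  par : ∀ f : ℝ → ℂ, BM f → HasSum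
    (fun i => ‖∫ t in (0:ℝ)..L, f t * ex (-⟪lam i, γ t⟫)‖ ^ 2) (L * ∫ t in (0:ℝ)..L, ‖f t‖ ^ 2)
  orth : ∀ i j, i ≠ j → ∫ t in (0:ℝ)..L, ex ⟪lam i - lam j, γ t⟫ = 0

/-- frequencies going to infinity in the direction `θ` -/
structure Dirs (ζ : ℕ → E) (θ : E) : Prop where
  unit : ‖θ‖ = 1
  inf : Tendsto (fun n => ‖ζ n‖) atTop atTop
  dir : Tendsto (fun n => (‖ζ n‖)⁻¹ • ζ n) atTop (𝓝 θ)

/-- the frequency `l` crosses the arc `[a, b]` transversally: `⟪l, γ1⟫` has a zero at distance at least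
`h` from the end points and `⟪l, γ2⟫` has constant sign and size at least `c ‖l‖` -/
def TypeX (γ1 γ2 : ℝ → E) (a b c h : ℝ) (l : E) : Prop :=
  (∃ s ∈ Icc (a + h) (b - h), ⟪l, γ1 s⟫ = 0) ∧
    ((∀ t ∈ Icc a b, c * ‖l‖ ≤ ⟪l, γ2 t⟫) ∨ (∀ t ∈ Icc a b, ⟪l, γ2 t⟫ ≤ -(c * ‖l‖)))

lemma hasDerivAt_ex {ψ : ℝ → ℝ} {ψ1 t : ℝ} (h : HasDerivAt ψ ψ1 t) :
    HasDerivAt (fun s => ex (ψ s)) (2 * Real.pi * Complex.I * ψ1 * ex (ψ t)) t := by
  have h1 : HasDerivAt (fun s => ((2 * Real.pi * ψ s : ℝ) : ℂ) * Complex.I)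
      ((2 * Real.pi * ψ1 : ℝ) * Complex.I) t :=
    ((h.const_mul (2 * Real.pi)).ofReal_comp).mul_const Complex.I
  have h2 := h1.cexp
  unfold ex
  convert h2 using 1
  push_cast
  ring

lemma ex_neg_mul_ex (x y : ℝ) : ex x * ex (-y) = ex (x - y) := by
  rw [← ex_add, sub_eq_add_neg]

lemma ex_im (x : ℝ) : (ex x).im = Real.sin (2 * Real.pi * x) := by
  unfold ex; rw [Complex.exp_ofReal_mul_I_im]

lemma ex_re (x : ℝ) : (ex x).re = Real.cos (2 * Real.pi * x) := by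
  unfold ex; rw [Complex.exp_ofReal_mul_I_re]

namespace Loop

variable {L C : ℝ} {γ γ1 γ2 γ3 : ℝ → E} {V : Finset ℝ}

lemma contγ (h : Loop L γ γ1 γ2 γ3 V C) : Continuous γ :=
  continuous_iff_continuousAt.2 fun t => (h.h1 t).continuousAt

lemma contγ1 (h : Loop L γ γ1 γ2 γ3 V C) : Continuous γ1 := by
  have : LipschitzWith (Real.toNNReal C) γ1 := by
    refine LipschitzWith.of_dist_le_mul fun s t => ?_
    rw [dist_eq_norm, Real.dist_eq, Real.coe_toNNReal _ (by linarith [h.Cpos])]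
    exact h.lip s t
  exact this.continuous

lemma hasDerivAt_inner (h : Loop L γ γ1 γ2 γ3 V C) (l : E) (t : ℝ) :
    HasDerivAt (fun s => ⟪l, γ s⟫) ⟪l, γ1 t⟫ t := by
  simpa using (hasDerivAt_const t l).inner ℝ (h.h1 t)

lemma hasDerivAt_inner1 (h : Loop L γ γ1 γ2 γ3 V C) (l : E) {t : ℝ} (ht : t ∈ Ioo 0 L)
    (hV : t ∉ V) : HasDerivAt (fun s => ⟪l, γ1 s⟫) ⟪l, γ2 t⟫ t := by
  simpa using (hasDerivAt_const t l).inner ℝ (h.h2 t ht hV)

lemma hasDerivAt_inner2 (h : Loop L γ γ1 γ2 γ3 V C) (l : E) {t : ℝ} (ht : t ∈ Ioo 0 L)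
    (hV : t ∉ V) : HasDerivAt (fun s => ⟪l, γ2 s⟫) ⟪l, γ3 t⟫ t := by
  simpa using (hasDerivAt_const t l).inner ℝ (h.h3 t ht hV)

/-- `⟪l, γ1⟫` vanishes somewhere in `(0, L)` -/
lemma exists_zero (h : Loop L γ γ1 γ2 γ3 V C) (l : E) : ∃ t ∈ Ioo 0 L, ⟪l, γ1 t⟫ = 0 := by
  have hc : ContinuousOn (fun s => ⟪l, γ s⟫) (Icc 0 L) :=
    (continuous_const.inner h.contγ).continuousOn
  obtain ⟨t, ht, h0⟩ := exists_hasDerivAt_eq_zero h.Lpos hc (by simp only [h.closed])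
    (fun x _ => h.hasDerivAt_inner l x)
  exact ⟨t, ht, h0⟩

end Loop

namespace ONB

variable {ι : Type*} {L : ℝ} {γ : ℝ → E} {lam : ι → E}

/-- Parseval on a subinterval -/
lemma par_ab (h : ONB L γ lam) {a b : ℝ} (h0 : 0 ≤ a) (hab : a ≤ b) (hb : b ≤ L)
    {f : ℝ → ℂ} (hf : BM f) :
    HasSum (fun i => ‖∫ t in a..b, f t * ex (-⟪lam i, γ t⟫)‖ ^ 2) (L * ∫ t in a..b, ‖f t‖ ^ 2) := by
  have hind : BM ((Set.Ioc a b).indicator f) := by
    obtain ⟨C, hC⟩ := hf.bdd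
    exact ⟨hf.meas.indicator measurableSet_Ioc, C,
      fun t => (norm_indicator_le_norm_self _ _).trans (hC t)⟩
  have key : ∀ {F : Type} [NormedAddCommGroup F] [NormedSpace ℝ F] (G : ℝ → F),
      ∫ t in (0:ℝ)..L, (Set.Ioc a b).indicator G t = ∫ t in a..b, G t := by
    intro F _ _ G
    rw [intervalIntegral.integral_of_le (h0.trans (hab.trans hb)),
      intervalIntegral.integral_of_le hab, setIntegral_indicator measurableSet_Ioc,
      Set.inter_eq_self_of_subset_right (Set.Ioc_subset_Ioc h0 hb)]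
  have h1 := h.par _ hind
  have e1 : ∀ i, ∫ t in (0:ℝ)..L, (Set.Ioc a b).indicator f t * ex (-⟪lam i, γ t⟫) =
      ∫ t in a..b, f t * ex (-⟪lam i, γ t⟫) := by
    intro i
    rw [← key]
    congr 1
    ext t
    by_cases ht : t ∈ Set.Ioc a b <;> simp [ht]
  have e2 : ∫ t in (0:ℝ)..L, ‖(Set.Ioc a b).indicator f t‖ ^ 2 = ∫ t in a..b, ‖f t‖ ^ 2 := by
    rw [← key]
    congr 1
    ext t
    by_cases ht : t ∈ Set.Ioc a b <;> simp [ht]
  simp only [e1] at h1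
  rw [e2] at h1
  exact h1

/-- the case of constant amplitude one -/
lemma par_one (h : ONB L γ lam) {a b : ℝ} (h0 : 0 ≤ a) (hab : a ≤ b) (hb : b ≤ L) :
    HasSum (fun i => ‖∫ t in a..b, ex (-⟪lam i, γ t⟫)‖ ^ 2) (L * (b - a)) := by
  have h1 := h.par_ab h0 hab hb (BM.const 1)
  simpa using h1

end ONB

end Pool.Agent.LoopSpec
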