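import Pool.Agent.Lib_MP_e9ccd1_s.Cross

/-!
# MP_e9ccd1_an, space curves: zero torsion (pieces PLANEA, PLANEB)
-/

set_option autoImplicit false

open MeasureTheory Set Filter Topology
open scoped RealInnerProductSpace
open Pool.Agent.CurveSpec (ex BM norm_ex ex_zero ex_add conj_ex continuous_ex)

namespace Pool.Agent.LoopSpec

variable {ι : Type*} {L C : ℝ} {γ γ1 γ2 γ3 : ℝ → E3} {V : Finset ℝ} {lam : ι → E3}

/-- (PLANEB) a linear map to the plane which is isometric on `ν^⊥` -/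
theorem exists_isometry {ν : E3} (hν : ‖ν‖ = 1) :
    ∃ T : E3 →L[ℝ] E2, ∀ x y : E3, ⟪ν, y⟫ = 0 → ⟪T x, T y⟫ = ⟪x, y⟫ := by
  have hν0 : ν ≠ 0 := by
    intro h
    rw [h, norm_zero] at hν
    exact zero_ne_one hν
  have hf : Fact (Module.finrank ℝ E3 = 2 + 1) := ⟨by simp⟩
  have hfr : Module.finrank ℝ ((ℝ ∙ ν)ᗮ : Submodule ℝ E3) = 2 :=
    Submodule.finrank_orthogonal_span_singleton hν0
  let K : Submodule ℝ E3 := (ℝ ∙ ν)ᗮ
  let b : OrthonormalBasis (Fin 2) ℝ K := (stdOrthonormalBasis ℝ K).reindex (finCongr hfr)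
  let e : K ≃ₗᵢ[ℝ] E2 := b.repr
  refine ⟨(e.toContinuousLinearEquiv : K →L[ℝ] E2).comp K.orthogonalProjectionOnto,
    fun x y hy => ?_⟩
  have hyK : y ∈ K := by
    rw [Submodule.mem_orthogonal_singleton_iff_inner_right]
    exact hy
  change ⟪e (K.orthogonalProjectionOnto x), e (K.orthogonalProjectionOnto y)⟫ = ⟪x, y⟫
  rw [e.inner_map_map]
  have h1 : (K.orthogonalProjectionOnto y : E3) = y :=
    congrArg Subtype.val (Submodule.orthogonalProjectionOnto_mem_subspace_eq_self (⟨y, hyK⟩ : K))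
  have h2 : ⟪(K.orthogonalProjectionOnto x : E3), y⟫ = ⟪x, y⟫ := by
    have h3 : ⟪x - (K.orthogonalProjectionOnto x : E3), y⟫ = 0 :=
      Submodule.starProjection_inner_eq_zero x y hyK
    rw [inner_sub_left] at h3
    linarith
  rw [Submodule.coe_inner, h1, h2]

/-- (PLANEB) all pieces straight: impossible for a closed curve without corners in `(0, L)`. Proof: `γ1` is continuous,
with derivative `0` off the finite set `V`, so constant; `γ L - γ 0 = L • γ1 0 ≠ 0`. -/
theorem straight_case (hL : Loop L γ γ1 γ2 γ3 V C) (h0 : ∀ t ∈ Ioo 0 L, t ∉ V → γ2 t = 0) :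
    False := by
  have hconst : ∀ t ∈ Icc 0 L, γ1 t = γ1 0 := by
    intro t ht
    have h1 := MeasureTheory.integral_eq_of_hasDerivAt_off_countable_of_le (f := γ1)
      (f' := fun _ => (0 : E3)) ht.1 V.countable_toSet hL.contγ1.continuousOn
      (fun x hx => by
        have hx1 : x ∈ Ioo 0 L := ⟨hx.1.1, hx.1.2.trans_le ht.2⟩
        have hx2 : x ∉ V := fun h => hx.2 h
        have h2 := hL.h2 x hx1 hx2
        rwa [h0 x hx1 hx2] at h2)
      (by simp)
    rw [intervalIntegral.integral_zero] at h1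
    exact (sub_eq_zero.mp h1.symm)
  have h2 : ∫ t in (0:ℝ)..L, γ1 t = γ L - γ 0 :=
    intervalIntegral.integral_eq_sub_of_hasDerivAt (fun t _ => hL.h1 t)
      (hL.contγ1.intervalIntegrable _ _)
  have h3 : ∫ t in (0:ℝ)..L, γ1 t = ∫ t in (0:ℝ)..L, γ1 0 := by
    apply intervalIntegral.integral_congr
    intro t ht
    rw [uIcc_of_le hL.Lpos.le] at ht
    exact hconst t ht
  rw [h3, intervalIntegral.integral_const, hL.closed, sub_self, sub_zero] at h2
  have h4 := congrArg norm h2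
  rw [norm_smul, hL.unit, norm_zero, mul_one, Real.norm_eq_abs, abs_of_pos hL.Lpos] at h4
  exact hL.Lpos.ne' h4

end Pool.Agent.LoopSpec
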