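import Pool.Agent.Lib_MP_e9ccd1_s.PlaneA
import Pool.Agent.Lib_MP_e9ccd1_s.PlaneB
import Pool.Agent.Lib_MP_e9ccd1_s.ArcCore

/-!
# MP_e9ccd1_an, space curves: zero torsion (pieces PLANEA, PLANEB)
-/

set_option autoImplicit false

open MeasureTheory Set Filter Topology
open scoped RealInnerProductSpace
open Pool.Agent.CurveSpec (ex BM norm_ex ex_zero ex_add conj_ex continuous_ex)

namespace Pool.Agent.LoopSpec

variable {ι : Type*} {L C : ℝ} {γ γ1 γ2 γ3 : ℝ → E3} {V : Finset ℝ} {lam : ι → E3}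

/-- (PLANEB) Proof: `exists_normal`, `exists_isometry`; `⟪lam i, γ t⟫ = ⟪T (lam i), T (γ t)⟫ + const i` on `[a, b]`
(`⟪ν, γ t - γ a⟫ = 0` by integration), the constants disappear in the modulus: `arcCore` for `T ∘ γ`,
`T ∘ lam`, `A = L`, with `ONB.par_ab`. -/
theorem plane_case [Countable ι] (hL : Loop L γ γ1 γ2 γ3 V C) (hF : ONB L γ lam)
    (h0 : ∀ t ∈ Ioo 0 L, t ∉ V → ⟪cr (γ1 t) (γ2 t), γ3 t⟫ = 0) {t0 : ℝ} (ht0 : t0 ∈ Ioo 0 L)
    (htV : t0 ∉ V) (hk : γ2 t0 ≠ 0) : False := by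
  obtain ⟨a, b, ν, hab, ha, hb, hν, hall⟩ := exists_normal hL h0 ht0 htV hk
  obtain ⟨T, hT⟩ := exists_isometry hν
  have hIoo : ∀ t ∈ Icc a b, t ∈ Ioo 0 L := fun t ht => ⟨ha.trans_le ht.1, ht.2.trans_lt hb⟩
  have haI : a ∈ Icc a b := ⟨le_rfl, hab.le⟩
  -- `⟪ν, γ2⟫ = 0`
  have hν2 : ∀ t ∈ Icc a b, ⟪ν, γ2 t⟫ = 0 := by
    intro t ht
    have h1 := (hL.hasDerivAt_inner1 ν (hIoo t ht) (hall t ht).1).hasDerivWithinAt (s := Icc a b)
    have h2 : HasDerivWithinAt (fun s => ⟪ν, γ1 s⟫) 0 (Icc a b) t := by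
      refine (hasDerivWithinAt_const t (Icc a b) (0 : ℝ)).congr (fun s hs => ?_) ?_
      · exact (hall s hs).2.2
      · exact (hall t ht).2.2
    exact (uniqueDiffOn_Icc hab t ht).eq_deriv _ h1 h2
  -- `⟪ν, γ t - γ a⟫ = 0`
  have hν0 : ∀ t ∈ Icc a b, ⟪ν, γ t - γ a⟫ = 0 := by
    intro t ht
    have h1 := constant_of_has_deriv_right_zero (f := fun s => ⟪ν, γ s⟫) (a := a) (b := b)
      (continuous_const.inner hL.contγ).continuousOn
      (fun x hx => by
        have h2 := (hL.hasDerivAt_inner ν x).hasDerivWithinAt (s := Ici x)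
        rwa [(hall x (Ico_subset_Icc_self hx)).2.2] at h2) t ht
    rw [inner_sub_right, sub_eq_zero]
    exact h1
  refine arcCore (lam := fun i => T (lam i)) (γ := fun t => T (γ t)) (γ1 := fun t => T (γ1 t))
    (γ2 := fun t => T (γ2 t)) (a := a) (b := b) (A := L) hab hL.Lpos ?_ ?_ ?_ ?_ ?_ ?_
  · intro t _
    exact T.hasFDerivAt.comp_hasDerivAt t (hL.h1 t)
  · intro t ht
    exact T.hasFDerivAt.comp_hasDerivAt t (hL.h2 t (hIoo t ht) (hall t ht).1)
  · apply T.continuous.comp_continuousOn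
    intro t ht
    exact (hL.h3 t (hIoo t ht) (hall t ht).1).continuousAt.continuousWithinAt
  · intro t ht
    have h1 := hT (γ1 t) (γ1 t) (hall t ht).2.2
    rw [real_inner_self_eq_norm_sq, real_inner_self_eq_norm_sq, hL.unit] at h1
    rw [one_pow] at h1
    exact (pow_eq_one_iff_of_nonneg (norm_nonneg _) two_ne_zero).mp h1
  · intro t ht h3
    have h1 := hT (γ2 t) (γ2 t) (hν2 t ht)
    rw [h3, inner_zero_left] at h1
    exact (hall t ht).2.1 (inner_self_eq_zero.mp h1.symm)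
  · intro f hf
    have h1 := hF.par_ab ha.le hab.le hb.le hf
    have h2 : (fun i => ‖∫ t in a..b, f t * ex (-⟪T (lam i), T (γ t)⟫)‖ ^ 2) =
        fun i => ‖∫ t in a..b, f t * ex (-⟪lam i, γ t⟫)‖ ^ 2 := by
      funext i
      have h3 : ∫ t in a..b, f t * ex (-⟪T (lam i), T (γ t)⟫) =
          ∫ t in a..b, (f t * ex (-⟪lam i, γ t⟫)) *
            ex (-(⟪T (lam i), T (γ a)⟫ - ⟪lam i, γ a⟫)) := by
        apply intervalIntegral.integral_congr
        intro t ht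
        rw [uIcc_of_le hab.le] at ht
        dsimp only
        have h4 : ⟪T (lam i), T (γ t)⟫ =
            ⟪lam i, γ t⟫ + (⟪T (lam i), T (γ a)⟫ - ⟪lam i, γ a⟫) := by
          have h5 := hT (lam i) (γ t - γ a) (hν0 t ht)
          rw [map_sub, inner_sub_right, inner_sub_right] at h5
          linarith
        rw [h4, neg_add, ex_add, mul_assoc]
      rw [h3, intervalIntegral.integral_mul_const, norm_mul, norm_ex, mul_one]
    rw [h2]
    exact h1

end Pool.Agent.LoopSpec
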