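import Pool.Agent.Lib_MP_e9ccd1_s.CoreB
import Pool.Agent.Lib_MP_e9ccd1_s.Plane

/-!
# MP_e9ccd1_an, space curves: the core theorem
-/

set_option autoImplicit false

open MeasureTheory Set Filter Topology
open scoped RealInnerProductSpace
open Pool.Agent.CurveSpec (ex BM norm_ex ex_zero ex_add conj_ex continuous_ex)

namespace Pool.Agent.LoopSpec

variable {ι : Type*} {L C : ℝ} {γ γ1 γ2 γ3 : ℝ → E3} {V : Finset ℝ} {lam : ι → E3}

theorem core [Countable ι] (hL : Loop L γ γ1 γ2 γ3 V C) (hF : ONB L γ lam) : False := by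
  have h0 : ∀ t ∈ Ioo 0 L, t ∉ V → ⟪cr (γ1 t) (γ2 t), γ3 t⟫ = 0 :=
    fun t ht htV => coreB hL hF ht htV
  by_cases hk : ∃ t ∈ Ioo 0 L, t ∉ V ∧ γ2 t ≠ 0
  · obtain ⟨t, ht, htV, hk⟩ := hk
    exact plane_case hL hF h0 ht htV hk
  · push Not at hk
    exact straight_case hL hk

end Pool.Agent.LoopSpec
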