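import Pool.Agent.Lib_MP_e9ccd1_s.Base

/-!
# MP_e9ccd1_an, space curves: no relation between evaluations off a null set (piece INDEP)
-/

set_option autoImplicit false

open MeasureTheory Set Filter Topology
open scoped RealInnerProductSpace
open Pool.Agent.CurveSpec (ex BM norm_ex ex_zero ex_add conj_ex continuous_ex)

namespace Pool.Agent.LoopSpec

variable {E : Type*} [NormedAddCommGroup E] [InnerProductSpace ℝ E]
variable {ι : Type*} {L C : ℝ} {γ γ1 γ2 γ3 : ℝ → E} {V : Finset ℝ} {lam : ι → E}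

namespace IndepAux

open scoped ComplexConjugate

lemma bm_sum {κ : Type*} (s : Finset κ) (f : κ → ℝ → ℂ) (h : ∀ i, BM (f i)) :
    BM (fun t => ∑ i ∈ s, f i t) := by
  classical
  induction s using Finset.induction_on with
  | empty => simpa using BM.const 0
  | insert i s hi ih =>
    simp only [Finset.sum_insert hi]
    exact (h i).add ih

lemma bm_e (cγ : Continuous γ) (i : ι) : BM (fun t => ex ⟪lam i, γ t⟫) :=
  BM.ex_comp (continuous_const.inner cγ).measurable

lemma bm_u (cγ : Continuous γ) {g : ℝ → ℂ} (hg : BM g) (d : ι → ℂ) (F : Finset ι) :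
    BM (fun t => g t + ∑ i ∈ F, d i * ex ⟪lam i, γ t⟫) :=
  hg.add (bm_sum F _ fun i => (BM.const (d i)).mul (bm_e cγ i))

lemma int_e (hF : ONB L γ lam) {i j : ι} (hij : j ≠ i) :
    ∫ t in (0:ℝ)..L, ex ⟪lam j, γ t⟫ * ex (-⟪lam i, γ t⟫) = 0 := by
  rw [← hF.orth j i hij]
  congr 1
  ext t
  rw [ex_neg_mul_ex, inner_sub_left]

lemma int_u (cγ : Continuous γ) (hF : ONB L γ lam) {g : ℝ → ℂ} (hg : BM g) (d : ι → ℂ)
    (hd : ∀ i, ∫ t in (0:ℝ)..L, g t * ex (-⟪lam i, γ t⟫) = -(L * d i)) (F : Finset ι) {i : ι}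
    (hi : i ∉ F) :
    ∫ t in (0:ℝ)..L, (g t + ∑ j ∈ F, d j * ex ⟪lam j, γ t⟫) * ex (-⟪lam i, γ t⟫) =
      -(L * d i) := by
  have hb : BM (fun t => ex (-⟪lam i, γ t⟫)) :=
    BM.ex_comp (continuous_const.inner cγ).neg.measurable
  have e1 : ∀ t, (g t + ∑ j ∈ F, d j * ex ⟪lam j, γ t⟫) * ex (-⟪lam i, γ t⟫) =
      g t * ex (-⟪lam i, γ t⟫) + ∑ j ∈ F, d j * (ex ⟪lam j, γ t⟫ * ex (-⟪lam i, γ t⟫)) := by
    intro t
    rw [add_mul, Finset.sum_mul]
    congr 1
    exact Finset.sum_congr rfl fun j _ => by ring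
  simp only [e1]
  have hbb : ∀ j, BM (fun t => d j * (ex ⟪lam j, γ t⟫ * ex (-⟪lam i, γ t⟫))) := fun j =>
    (BM.const (d j)).mul ((bm_e cγ j).mul hb)
  rw [intervalIntegral.integral_add ((hg.mul hb).intervalIntegrable _ _)
    ((bm_sum F _ hbb).intervalIntegrable _ _), hd,
    intervalIntegral.integral_finsetSum fun j _ => (hbb j).intervalIntegrable _ _]
  rw [Finset.sum_eq_zero, add_zero]
  intro j hj
  have hne : j ≠ i := by
    rintro rfl
    exact hi hj
  rw [intervalIntegral.integral_const_mul, int_e hF hne, mul_zero]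

/-- The energy of the remainder. -/
lemma energy (cγ : Continuous γ) (hF : ONB L γ lam) {g : ℝ → ℂ} (hg : BM g) (d : ι → ℂ)
    (hd : ∀ i, ∫ t in (0:ℝ)..L, g t * ex (-⟪lam i, γ t⟫) = -(L * d i)) (F : Finset ι) :
    ∫ t in (0:ℝ)..L, (g t + ∑ i ∈ F, d i * ex ⟪lam i, γ t⟫) *
        conj (g t + ∑ i ∈ F, d i * ex ⟪lam i, γ t⟫) =
      (∫ t in (0:ℝ)..L, g t * conj (g t)) - L * ∑ i ∈ F, d i * conj (d i) := by
  classical
  induction F using Finset.induction_on with
  | empty => simp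
  | insert i F hi ih =>
    have hu := bm_u (lam := lam) cγ hg d F
    have he := bm_e (lam := lam) cγ i
    have h1 := int_u cγ hF hg d hd F hi
    set u : ℝ → ℂ := fun t => g t + ∑ j ∈ F, d j * ex ⟪lam j, γ t⟫ with hu'
    set e : ℝ → ℂ := fun t => ex ⟪lam i, γ t⟫ with he'
    have h1' : ∫ t in (0:ℝ)..L, u t * conj (e t) = -(L * d i) := by
      rw [← h1]
      congr 1
      ext t
      rw [he', conj_ex]
    have h2 : ∫ t in (0:ℝ)..L, e t * conj (u t) = -(L * conj (d i)) := by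
      have h3 : (fun t => e t * conj (u t)) = fun t => conj (u t * conj (e t)) := by
        ext t
        rw [map_mul, Complex.conj_conj, mul_comm]
      rw [h3, intervalIntegral.intervalIntegral_conj (𝕜 := ℂ), h1', map_neg, map_mul,
        Complex.conj_ofReal]
    have h4 : ∀ t, e t * conj (e t) = 1 := by
      intro t
      rw [he', Complex.mul_conj, Complex.normSq_eq_norm_sq, norm_ex]
      simp
    have e1 : ∀ t, (g t + ∑ j ∈ insert i F, d j * ex ⟪lam j, γ t⟫) *
        conj (g t + ∑ j ∈ insert i F, d j * ex ⟪lam j, γ t⟫) =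
        u t * conj (u t) + (conj (d i) * (u t * conj (e t)) + (d i * (e t * conj (u t)) +
          d i * conj (d i))) := by
      intro t
      have e2 : g t + ∑ j ∈ insert i F, d j * ex ⟪lam j, γ t⟫ = u t + d i * e t := by
        rw [Finset.sum_insert hi, hu', he']
        ring
      rw [e2, map_add, map_mul]
      have := h4 t
      linear_combination (d i * conj (d i)) * this
    simp only [e1]
    have i1 : IntervalIntegrable (fun t => u t * conj (u t)) volume 0 L :=
      (hu.mul hu.star).intervalIntegrable _ _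
    have i2 : IntervalIntegrable (fun t => conj (d i) * (u t * conj (e t))) volume 0 L :=
      ((BM.const _).mul (hu.mul he.star)).intervalIntegrable _ _
    have i3 : IntervalIntegrable (fun t => d i * (e t * conj (u t))) volume 0 L :=
      ((BM.const _).mul (he.mul hu.star)).intervalIntegrable _ _
    have i4 : IntervalIntegrable (fun _ => d i * conj (d i)) volume 0 L :=
      (BM.const _).intervalIntegrable _ _
    rw [intervalIntegral.integral_add i1 (i2.add (i3.add i4)),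
      intervalIntegral.integral_add i2 (i3.add i4), intervalIntegral.integral_add i3 i4,
      intervalIntegral.integral_const_mul, intervalIntegral.integral_const_mul, h1', h2,
      intervalIntegral.integral_const, sub_zero, Finset.sum_insert hi]
    rw [ih, Complex.real_smul]
    ring

/-- The same with real numbers. -/
lemma energy' (cγ : Continuous γ) (hF : ONB L γ lam) {g : ℝ → ℂ} (hg : BM g) (d : ι → ℂ)
    (hd : ∀ i, ∫ t in (0:ℝ)..L, g t * ex (-⟪lam i, γ t⟫) = -(L * d i)) (F : Finset ι) :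
    ∫ t in (0:ℝ)..L, ‖g t + ∑ i ∈ F, d i * ex ⟪lam i, γ t⟫‖ ^ 2 =
      (∫ t in (0:ℝ)..L, ‖g t‖ ^ 2) - L * ∑ i ∈ F, ‖d i‖ ^ 2 := by
  have h := energy cγ hF hg d hd F
  have e : ∀ z : ℂ, z * conj z = ((‖z‖ ^ 2 : ℝ) : ℂ) := fun z => by
    rw [Complex.mul_conj, Complex.normSq_eq_norm_sq]
  simp only [e] at h
  rw [intervalIntegral.integral_ofReal, intervalIntegral.integral_ofReal] at h
  exact_mod_cast h

/-- Trigonometric polynomials converging almost everywhere. -/
lemma exists_approx (hLpos : 0 < L) (cγ : Continuous γ) (hF : ONB L γ lam) {g : ℝ → ℂ}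
    (hg : BM g) : ∃ (F : ℕ → Finset ι) (d : ι → ℂ), ∀ᵐ s ∂(volume.restrict (Ioc 0 L)),
      Tendsto (fun n => ∑ i ∈ F n, d i * ex ⟪lam i, γ s⟫) atTop (𝓝 (-g s)) := by
  classical
  set d : ι → ℂ := fun i => -((L : ℂ)⁻¹ * ∫ t in (0:ℝ)..L, g t * ex (-⟪lam i, γ t⟫)) with hd'
  have hL : (L : ℂ) ≠ 0 := by exact_mod_cast hLpos.ne'
  have hd : ∀ i, ∫ t in (0:ℝ)..L, g t * ex (-⟪lam i, γ t⟫) = -(L * d i) := by
    intro i
    rw [hd']
    field_simp
  have hen := energy' cγ hF hg d hd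
  have hpar := hF.par g hg
  have hex : ∀ n : ℕ, ∃ F : Finset ι,
      ∫ t in (0:ℝ)..L, ‖g t + ∑ i ∈ F, d i * ex ⟪lam i, γ t⟫‖ ^ 2 ≤ (1 / 2 : ℝ) ^ n := by
    intro n
    have hpos : 0 < L * (1 / 2 : ℝ) ^ n := by positivity
    have h1 : ∀ᶠ F : Finset ι in atTop,
        L * (∫ t in (0:ℝ)..L, ‖g t‖ ^ 2) - L * (1 / 2 : ℝ) ^ n <
          ∑ i ∈ F, ‖∫ t in (0:ℝ)..L, g t * ex (-⟪lam i, γ t⟫)‖ ^ 2 :=
      hpar.eventually (lt_mem_nhds (by linarith))
    obtain ⟨F, hFF⟩ := h1.exists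
    refine ⟨F, ?_⟩
    rw [hen F]
    have h2 : ∑ i ∈ F, ‖∫ t in (0:ℝ)..L, g t * ex (-⟪lam i, γ t⟫)‖ ^ 2 =
        L * (L * ∑ i ∈ F, ‖d i‖ ^ 2) := by
      rw [Finset.mul_sum, Finset.mul_sum]
      refine Finset.sum_congr rfl fun i _ => ?_
      rw [hd i, norm_neg, norm_mul, Complex.norm_real, Real.norm_of_nonneg hLpos.le]
      ring
    rw [h2] at hFF
    have h3 : L * ((∫ t in (0:ℝ)..L, ‖g t‖ ^ 2) - (1 / 2 : ℝ) ^ n) <
        L * (L * ∑ i ∈ F, ‖d i‖ ^ 2) := by linarith
    have h4 := lt_of_mul_lt_mul_left h3 hLpos.le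
    linarith
  choose F hFn using hex
  refine ⟨F, d, ?_⟩
  set h : ℕ → ℝ → ℝ := fun n s => ‖g s + ∑ i ∈ F n, d i * ex ⟪lam i, γ s⟫‖ ^ 2 with hh
  have hmeas : ∀ n, Measurable (h n) := fun n =>
    ((bm_u (lam := lam) cγ hg d (F n)).meas.norm).pow_const 2
  have hint : ∀ n, ∫⁻ s in Ioc 0 L, ENNReal.ofReal (h n s) ≤ ENNReal.ofReal ((1 / 2 : ℝ) ^ n) := by
    intro n
    have hi : IntegrableOn (h n) (Ioc 0 L) volume := by
      obtain ⟨B, hB⟩ := (bm_u (lam := lam) cγ hg d (F n)).bdd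
      apply Measure.integrableOn_of_bounded (M := B ^ 2) (by simp)
        (hmeas n).aestronglyMeasurable
      refine Eventually.of_forall fun s => ?_
      rw [hh, Real.norm_of_nonneg (by positivity)]
      exact pow_le_pow_left₀ (norm_nonneg _) (hB s) 2
    rw [← ofReal_integral_eq_lintegral_ofReal hi (Eventually.of_forall fun s => by
      rw [hh]; positivity)]
    apply ENNReal.ofReal_le_ofReal
    rw [← intervalIntegral.integral_of_le hLpos.le]
    exact hFn n
  have hsum : ∫⁻ s in Ioc 0 L, ∑' n, ENNReal.ofReal (h n s) ≠ ⊤ := by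
    rw [lintegral_tsum fun n => (hmeas n).ennreal_ofReal.aemeasurable]
    refine ne_top_of_le_ne_top ?_ (ENNReal.tsum_le_tsum hint)
    rw [← ENNReal.ofReal_tsum_of_nonneg (fun n => by positivity) summable_geometric_two]
    exact ENNReal.ofReal_ne_top
  have hae := ae_lt_top (Measurable.ennreal_tsum fun n => (hmeas n).ennreal_ofReal) hsum
  filter_upwards [hae] with s hs
  have h1 := ENNReal.tendsto_atTop_zero_of_tsum_ne_top hs.ne
  have h2 : Tendsto (fun n => h n s) atTop (𝓝 0) := by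
    have h3 := (ENNReal.tendsto_toReal ENNReal.zero_ne_top).comp h1
    rw [ENNReal.toReal_zero] at h3
    refine h3.congr fun n => ?_
    rw [Function.comp_apply, ENNReal.toReal_ofReal]
    rw [hh]
    positivity
  have h3 : Tendsto (fun n => g s + ∑ i ∈ F n, d i * ex ⟪lam i, γ s⟫) atTop (𝓝 0) := by
    rw [tendsto_zero_iff_norm_tendsto_zero]
    have h4 := (Real.continuous_sqrt.tendsto 0).comp h2
    rw [Real.sqrt_zero] at h4
    refine h4.congr fun n => ?_
    rw [Function.comp_apply, hh, Real.sqrt_sq (norm_nonneg _)]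
  have h4 := h3.const_add (-g s)
  rw [add_zero] at h4
  refine h4.congr fun n => ?_
  ring

end IndepAux

/-- (INDEP) Proof: for rationals `p < q` in `(0, L)` let `g` be the indicator of `(p, q]`, `c i = (1/L) ∫_0^L g ex(-⟪lam i, γ⟫)`,
`P F = ∑_{i ∈ F} c i ex ⟪lam i, γ⟫`. By orthogonality `∫_0^L ‖g - P F‖² = ∫_0^L ‖g‖² - L ∑_{i ∈ F} ‖c i‖² → 0` along
finite sets `F` (`ONB.par`). Choose `F n` with `∫ ‖g - P (F n)‖² ≤ 4^{-n}`; then `P (F n) s → g s` for almost every
`s ∈ (0, L)` (monotone convergence of `∑_n ‖g - P (F n)‖²`, or `tendstoInMeasure` and a subsequence). `N` = union of the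
exceptional sets. If `Z, a` is a relation off `N` then `∑ a s P(F n)(s) = 0` for all `n`, so `∑_{s ∈ Z} a s g s = 0`; choose
`p < s0 < q` such that `(p, q]` contains no other point of `Z`: `a s0 = 0`. -/
theorem indep (hLpos : 0 < L) (cγ : Continuous γ) (hF : ONB L γ lam) :
    ∃ N : Set ℝ, volume N = 0 ∧ ∀ (Z : Finset ℝ) (a : ℝ → ℂ), (∀ s ∈ Z, s ∈ Ioo 0 L ∧ s ∉ N) →
      (∀ i, ∑ s ∈ Z, a s * ex ⟪lam i, γ s⟫ = 0) → ∀ s ∈ Z, a s = 0 := by
  classical
  let g : ℚ × ℚ → ℝ → ℂ := fun pq => (Ioc (pq.1 : ℝ) (pq.2 : ℝ)).indicator (fun _ => 1)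
  have hg : ∀ pq, BM (g pq) := by
    intro pq
    refine ⟨measurable_const.indicator measurableSet_Ioc, 1, fun t => ?_⟩
    refine (norm_indicator_le_norm_self _ _).trans ?_
    simp
  have hap := fun pq => IndepAux.exists_approx hLpos cγ hF (hg pq)
  choose F d hFd using hap
  let N : Set ℝ := ⋃ pq : ℚ × ℚ, {s | s ∈ Ioc 0 L ∧
    ¬ Tendsto (fun n => ∑ i ∈ F pq n, d pq i * ex ⟪lam i, γ s⟫) atTop (𝓝 (-g pq s))}
  refine ⟨N, ?_, ?_⟩
  · rw [measure_iUnion_null_iff]
    intro pq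
    have h1 := hFd pq
    rw [ae_restrict_iff' measurableSet_Ioc] at h1
    rw [ae_iff] at h1
    convert h1 using 2
    ext s
    simp only [mem_ofPred_eq, Classical.not_imp]
  · intro Z a hZ hrel s0 hs0
    have hlim : ∀ pq : ℚ × ℚ, ∑ s ∈ Z, a s * g pq s = 0 := by
      intro pq
      have h1 : Tendsto (fun n => ∑ s ∈ Z, a s * ∑ i ∈ F pq n, d pq i * ex ⟪lam i, γ s⟫) atTop
          (𝓝 (∑ s ∈ Z, a s * (-g pq s))) := by
        apply tendsto_finsetSum
        intro s hs
        apply Tendsto.const_mul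
        by_contra hcon
        have hs' := hZ s hs
        exact hs'.2 (mem_iUnion.mpr ⟨pq, ⟨hs'.1.1, hs'.1.2.le⟩, hcon⟩)
      have h2 : ∀ n, ∑ s ∈ Z, a s * ∑ i ∈ F pq n, d pq i * ex ⟪lam i, γ s⟫ = 0 := by
        intro n
        have h3 : ∀ s ∈ Z, a s * ∑ i ∈ F pq n, d pq i * ex ⟪lam i, γ s⟫ =
            ∑ i ∈ F pq n, d pq i * (a s * ex ⟪lam i, γ s⟫) := by
          intro s _
          rw [Finset.mul_sum]
          exact Finset.sum_congr rfl fun i _ => by ring
        rw [Finset.sum_congr rfl h3, Finset.sum_comm]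
        apply Finset.sum_eq_zero
        intro i _
        rw [← Finset.mul_sum, hrel i, mul_zero]
      simp only [h2] at h1
      have h3 := tendsto_nhds_unique h1 tendsto_const_nhds
      have h4 : ∑ s ∈ Z, a s * g pq s = -∑ s ∈ Z, a s * (-g pq s) := by
        rw [← Finset.sum_neg_distrib]
        exact Finset.sum_congr rfl fun s _ => by ring
      rw [h4, h3, neg_zero]
    -- isolate s0
    have hopen : IsOpen ((↑(Z.erase s0) : Set ℝ)ᶜ) := (Z.erase s0).finite_toSet.isClosed.isOpen_compl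
    have hmem : s0 ∈ ((↑(Z.erase s0) : Set ℝ)ᶜ) := by
      intro h
      exact (Finset.mem_erase.mp h).1 rfl
    obtain ⟨ε, hε, hball⟩ := Metric.isOpen_iff.mp hopen s0 hmem
    obtain ⟨p, hp1, hp2⟩ := exists_rat_btwn (show s0 - ε < s0 by linarith)
    obtain ⟨q, hq1, hq2⟩ := exists_rat_btwn (show s0 < s0 + ε by linarith)
    have h5 := hlim (p, q)
    rw [Finset.sum_eq_single s0] at h5
    · have h6 : g (p, q) s0 = 1 := by
        show (Ioc (p : ℝ) (q : ℝ)).indicator (fun _ => (1 : ℂ)) s0 = 1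
        rw [indicator_of_mem]
        exact ⟨hp2, hq1.le⟩
      rwa [h6, mul_one] at h5
    · intro s hs hne
      have h6 : g (p, q) s = 0 := by
        show (Ioc (p : ℝ) (q : ℝ)).indicator (fun _ => (1 : ℂ)) s = 0
        rw [indicator_of_notMem]
        intro hmem'
        have h7 : s ∈ Metric.ball s0 ε := by
          rw [Metric.mem_ball, Real.dist_eq, abs_lt]
          constructor
          · linarith [hmem'.1]
          · linarith [hmem'.2]
        exact hball h7 (Finset.mem_erase.mpr ⟨hne, hs⟩)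
      rw [h6, mul_zero]
    · intro h
      exact absurd hs0 h

end Pool.Agent.LoopSpec
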