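import Pool.Agent.Lib_MP_e9ccd1_s.GlueA

/-!
# MP_e9ccd1_an, space curves: contribution away from the zeros (piece GLUE)
-/

set_option autoImplicit false

open MeasureTheory Set Filter Topology
open scoped RealInnerProductSpace
open Pool.Agent.CurveSpec (ex BM norm_ex ex_zero ex_add conj_ex continuous_ex)

namespace Pool.Agent.LoopSpec

variable {E : Type*} [NormedAddCommGroup E] [InnerProductSpace ℝ E]
variable {L C : ℝ} {γ γ1 γ2 γ3 : ℝ → E} {V : Finset ℝ}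

/-- the induction on the set of zeros -/
private theorem glue_aux (hL : Loop L γ γ1 γ2 γ3 V C) {ζ : ℕ → E} {θ : E} (hζ : Dirs ζ θ)
    {f f1 : ℝ → ℂ} (hf : ∀ t, HasDerivAt f (f1 t) t) (cf : Continuous f1) {η : ℝ}
    (hη : 0 < η) (Z : Finset ℝ) :
    ∀ y : ℝ, 0 ≤ y → y ≤ L → (∀ t ∈ Icc 0 y, ⟪θ, γ1 t⟫ = 0 → t ∈ Z) →
    (∀ s ∈ Z, 0 < s - η ∧ s + η ≤ y) →
    (∀ s ∈ Z, ∀ s' ∈ Z, s ≠ s' → 2 * η < |s - s'|) →
    ∃ K : ℝ, ∀ᶠ n in atTop, ‖(∫ t in (0:ℝ)..y, f t * ex (-⟪ζ n, γ t⟫)) -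
      ∑ s ∈ Z, ∫ t in (s - η)..(s + η), f t * ex (-⟪ζ n, γ t⟫)‖ ≤ K / ‖ζ n‖ := by
  classical
  have hfc : Continuous f := continuous_iff_continuousAt.2 fun t => (hf t).continuousAt
  have hcont : ∀ n, Continuous (fun t => f t * ex (-⟪ζ n, γ t⟫)) := fun n =>
    hfc.mul (continuous_ex.comp (continuous_const.inner hL.contγ).neg)
  induction Z using Finset.induction_on_max with
  | empty =>
    intro y hy0 hyL hZ _ _
    obtain ⟨K, hK⟩ := outside hL hζ hf cf (le_refl 0) hy0 hyL (fun t ht h0 => by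
      simpa using hZ t ht h0)
    refine ⟨K, hK.mono fun n hn => ?_⟩
    simpa using hn
  | insert a Z hmax ih =>
    intro y hy0 hyL hZ hin hsep
    have haZ : a ∉ Z := fun h => lt_irrefl a (hmax a h)
    have haI := hin a (Finset.mem_insert_self a Z)
    obtain ⟨K1, hK1⟩ := ih (a - η) haI.1.le (by linarith)
      (fun t ht h0 => by
        have h1 := hZ t ⟨ht.1, by linarith [ht.2]⟩ h0
        rcases Finset.mem_insert.1 h1 with h2 | h2
        · exfalso; linarith [ht.2]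
        · exact h2)
      (fun s hs => by
        have h1 := hsep a (Finset.mem_insert_self a Z) s (Finset.mem_insert_of_mem hs)
          (ne_of_gt (hmax s hs))
        have h2 : |a - s| = a - s := abs_of_pos (by linarith [hmax s hs])
        rw [h2] at h1
        exact ⟨(hin s (Finset.mem_insert_of_mem hs)).1, by linarith⟩)
      (fun s hs s' hs' => hsep s (Finset.mem_insert_of_mem hs) s' (Finset.mem_insert_of_mem hs'))
    obtain ⟨K2, hK2⟩ := outside hL hζ hf cf (x := a + η) (y := y) (by linarith) haI.2 hyL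
      (fun t ht h0 => by
        have h1 := hZ t ⟨by linarith [ht.1], ht.2⟩ h0
        rcases Finset.mem_insert.1 h1 with h2 | h2
        · linarith [ht.1]
        · linarith [hmax t h2, ht.1])
    refine ⟨K1 + K2, ?_⟩
    filter_upwards [hK1, hK2] with n h1 h2
    have hint : ∀ u v : ℝ, IntervalIntegrable (fun t => f t * ex (-⟪ζ n, γ t⟫)) volume u v :=
      fun u v => (hcont n).intervalIntegrable u v
    have e : (∫ t in (0:ℝ)..y, f t * ex (-⟪ζ n, γ t⟫)) -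
        ∑ s ∈ insert a Z, ∫ t in (s - η)..(s + η), f t * ex (-⟪ζ n, γ t⟫) =
        ((∫ t in (0:ℝ)..(a - η), f t * ex (-⟪ζ n, γ t⟫)) -
          ∑ s ∈ Z, ∫ t in (s - η)..(s + η), f t * ex (-⟪ζ n, γ t⟫)) +
        ∫ t in (a + η)..y, f t * ex (-⟪ζ n, γ t⟫) := by
      rw [Finset.sum_insert haZ,
        ← intervalIntegral.integral_add_adjacent_intervals (hint 0 (a - η)) (hint (a - η) y),
        ← intervalIntegral.integral_add_adjacent_intervals (hint (a - η) (a + η))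
          (hint (a + η) y)]
      ring
    rw [e, add_div]
    exact (norm_add_le _ _).trans (add_le_add h1 h2)

/-- (GLUE) Proof: more generally on `[0, y]`, `y ≤ L`, for `Z` the set of zeros in `[0, y]`, by induction on the
cardinality of `Z`: split off the largest zero `s`: `[0, s-η] ∪ [s-η, s+η] ∪ [s+η, y]`, `outside` on the last interval. -/
theorem glue (hL : Loop L γ γ1 γ2 γ3 V C) {ζ : ℕ → E} {θ : E} (hζ : Dirs ζ θ)
    {f f1 : ℝ → ℂ} (hf : ∀ t, HasDerivAt f (f1 t) t) (cf : Continuous f1) (Z : Finset ℝ) {η : ℝ}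
    (hη : 0 < η) (hZ : ∀ t ∈ Icc 0 L, ⟪θ, γ1 t⟫ = 0 → t ∈ Z)
    (hin : ∀ s ∈ Z, 0 < s - η ∧ s + η < L)
    (hsep : ∀ s ∈ Z, ∀ s' ∈ Z, s ≠ s' → 2 * η < |s - s'|) :
    ∃ K : ℝ, ∀ᶠ n in atTop, ‖(∫ t in (0:ℝ)..L, f t * ex (-⟪ζ n, γ t⟫)) -
      ∑ s ∈ Z, ∫ t in (s - η)..(s + η), f t * ex (-⟪ζ n, γ t⟫)‖ ≤ K / ‖ζ n‖ := by
  exact glue_aux hL hζ hf cf hη Z L hL.Lpos.le le_rfl hZ
    (fun s hs => ⟨(hin s hs).1, (hin s hs).2.le⟩) hsep

end Pool.Agent.LoopSpec
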