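import Pool.Agent.Lib_MP_e9ccd1_s.OscA

/-!
# MP_e9ccd1_an, space curves: contribution away from the zeros (piece GLUE)
-/

set_option autoImplicit false

open MeasureTheory Set Filter Topology
open scoped RealInnerProductSpace
open Pool.Agent.CurveSpec (ex BM norm_ex ex_zero ex_add conj_ex continuous_ex)

namespace Pool.Agent.LoopSpec

variable {E : Type*} [NormedAddCommGroup E] [InnerProductSpace ℝ E]
variable {L C : ℝ} {γ γ1 γ2 γ3 : ℝ → E} {V : Finset ℝ}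

/-- (GLUE) Proof: `|⟪θ, γ1⟫| ≥ 2c` on the compact `[x, y]`, so `|⟪ζ n, γ1⟫| ≥ c ‖ζ n‖` there for large `n`
(`|⟪ζ n, x⟫/‖ζ n‖ - ⟪θ, x⟫| ≤ ‖(‖ζ n‖)⁻¹ • ζ n - θ‖ ‖x‖`); `nonstat` with `ψ = -⟪ζ n, γ⟫`. -/
theorem outside (hL : Loop L γ γ1 γ2 γ3 V C) {ζ : ℕ → E} {θ : E} (hζ : Dirs ζ θ)
    {f f1 : ℝ → ℂ} (hf : ∀ t, HasDerivAt f (f1 t) t) (cf : Continuous f1) {x y : ℝ} (h0 : 0 ≤ x)
    (hxy : x ≤ y) (hy : y ≤ L) (hne : ∀ t ∈ Icc x y, ⟪θ, γ1 t⟫ ≠ 0) :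
    ∃ K : ℝ, ∀ᶠ n in atTop, ‖∫ t in x..y, f t * ex (-⟪ζ n, γ t⟫)‖ ≤ K / ‖ζ n‖ := by
  have hfc : Continuous f := continuous_iff_continuousAt.2 fun t => (hf t).continuousAt
  have hcp : IsCompact (Icc x y) := isCompact_Icc
  have hnei : (Icc x y).Nonempty := nonempty_Icc.2 hxy
  -- lower bound
  obtain ⟨t1, ht1, hmin⟩ := hcp.exists_isMinOn hnei
    (f := fun t => |⟪θ, γ1 t⟫|) ((continuous_const.inner hL.contγ1).abs.continuousOn)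
  have hmin' : ∀ t ∈ Icc x y, |⟪θ, γ1 t1⟫| ≤ |⟪θ, γ1 t⟫| := fun t ht => hmin ht
  set c : ℝ := |⟪θ, γ1 t1⟫| / 2 with hc
  have hcpos : 0 < c := by
    rw [hc]
    exact half_pos (abs_pos.2 (hne t1 ht1))
  -- bounds of the amplitude
  obtain ⟨B, hB⟩ := (hcp.image hfc).isBounded.exists_norm_le
  obtain ⟨B1, hB1⟩ := (hcp.image cf).isBounded.exists_norm_le
  have hB' : ∀ t ∈ Icc x y, ‖f t‖ ≤ B := fun t ht => hB _ (mem_image_of_mem _ ht)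
  have hB1' : ∀ t ∈ Icc x y, ‖f1 t‖ ≤ B1 := fun t ht => hB1 _ (mem_image_of_mem _ ht)
  refine ⟨(2 * B + (y - x) * (B1 + B * C / c)) / c, ?_⟩
  have e1 : ∀ᶠ n in atTop, ‖(‖ζ n‖)⁻¹ • ζ n - θ‖ < c := by
    have h := (tendsto_iff_norm_sub_tendsto_zero.1 hζ.dir)
    exact h.eventually (gt_mem_nhds hcpos)
  have e2 : ∀ᶠ n in atTop, 1 ≤ ‖ζ n‖ := hζ.inf.eventually_ge_atTop 1
  filter_upwards [e1, e2] with n h1 h2
  have hpos : 0 < ‖ζ n‖ := by linarith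
  have hlow : ∀ t ∈ Icc x y, c * ‖ζ n‖ ≤ |-⟪ζ n, γ1 t⟫| := by
    intro t ht
    have a1 : ⟪ζ n, γ1 t⟫ = ‖ζ n‖ * ⟪(‖ζ n‖)⁻¹ • ζ n, γ1 t⟫ := by
      rw [real_inner_smul_left, ← mul_assoc, mul_inv_cancel₀ hpos.ne', one_mul]
    have a2 : |⟪(‖ζ n‖)⁻¹ • ζ n - θ, γ1 t⟫| ≤ c := by
      have := abs_real_inner_le_norm ((‖ζ n‖)⁻¹ • ζ n - θ) (γ1 t)
      rw [hL.unit t, mul_one] at this
      exact this.trans h1.le
    have a3 : 2 * c ≤ |⟪θ, γ1 t⟫| := by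
      have := hmin' t ht
      rw [hc]
      linarith
    have a4 : c ≤ |⟪(‖ζ n‖)⁻¹ • ζ n, γ1 t⟫| := by
      have a5 : ⟪(‖ζ n‖)⁻¹ • ζ n, γ1 t⟫ = ⟪(‖ζ n‖)⁻¹ • ζ n - θ, γ1 t⟫ + ⟪θ, γ1 t⟫ := by
        rw [inner_sub_left]
        ring
      have a6 := abs_sub_abs_le_abs_sub ⟪θ, γ1 t⟫ (-⟪(‖ζ n‖)⁻¹ • ζ n - θ, γ1 t⟫)
      rw [abs_neg, sub_neg_eq_add] at a6
      rw [a5, add_comm]
      linarith
    rw [abs_neg, a1, abs_mul, abs_of_pos hpos, mul_comm]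
    exact mul_le_mul_of_nonneg_left a4 hpos.le
  have hC0 : (0 : ℝ) ≤ C := zero_le_one.trans hL.Cpos
  have key := nonstat (ψ := fun t => -⟪ζ n, γ t⟫) (ψ1 := fun t => -⟪ζ n, γ1 t⟫)
    (ψ2 := fun t => -⟪ζ n, γ2 t⟫) (f := f) (f1 := f1) (V := V) (a := x) (b := y)
    (m := c * ‖ζ n‖) (M := C * ‖ζ n‖) (B := B) (B1 := B1) hxy (mul_pos hcpos hpos)
    (mul_nonneg hC0 hpos.le) (fun t _ => (hL.hasDerivAt_inner (ζ n) t).neg)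
    ((continuous_const.inner hL.contγ1).neg.continuousOn)
    (fun t ht hV => (hL.hasDerivAt_inner1 (ζ n) ⟨h0.trans_lt ht.1, ht.2.trans_le hy⟩ hV).neg)
    (fun t ht => ((hL.hasDerivAt_inner2 (ζ n) ⟨h0.trans_lt ht.1.1, ht.1.2.trans_le hy⟩
      ht.2).neg.continuousAt).continuousWithinAt)
    (fun t _ => by
      rw [abs_neg]
      refine (abs_real_inner_le_norm _ _).trans ?_
      rw [mul_comm]
      exact mul_le_mul_of_nonneg_right (hL.b2 t) hpos.le)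
    hlow (fun t _ => hf t) cf.continuousOn hB' hB1'
  refine key.trans_eq ?_
  field_simp

end Pool.Agent.LoopSpec
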