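import Pool.Agent.Lib_MP_e9ccd1_s.Cubic
import Pool.Agent.Lib_MP_e9ccd1_s.GlueA

/-!
# MP_e9ccd1_an, space curves: contribution of a zero (pieces LOCONE, LOCTWO)
-/

set_option autoImplicit false

open MeasureTheory Set Filter Topology
open scoped RealInnerProductSpace
open Pool.Agent.CurveSpec (ex BM norm_ex ex_zero ex_add conj_ex continuous_ex)

namespace Pool.Agent.LoopSpec

variable {E : Type*} [NormedAddCommGroup E] [InnerProductSpace ℝ E]
variable {L C : ℝ} {γ γ1 γ2 γ3 : ℝ → E} {V : Finset ℝ}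

private lemma lt_sign {g : ℝ → ℝ} {a b c : ℝ} (hc : 0 < c)
    (hg : ContinuousOn g (Icc a b)) (h : ∀ t ∈ Icc a b, c ≤ |g t|) :
    (∀ t ∈ Icc a b, c ≤ g t) ∨ (∀ t ∈ Icc a b, c ≤ - g t) := by
  by_contra hcon
  rw [not_or] at hcon
  obtain ⟨hn1, hn2⟩ := hcon
  push Not at hn1 hn2
  obtain ⟨t1, ht1, h1⟩ := hn1
  obtain ⟨t2, ht2, h2⟩ := hn2
  have g1 : g t1 ≤ 0 := by
    rcases le_abs.1 (h t1 ht1) with h' | h'
    · linarith
    · linarith
  have g2 : 0 ≤ g t2 := by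
    rcases le_abs.1 (h t2 ht2) with h' | h'
    · linarith
    · linarith
  obtain ⟨x, hx, hx0⟩ := isPreconnected_Icc.intermediate_value ht1 ht2 hg ⟨g1, g2⟩
  have := h x hx
  rw [hx0] at this
  simp at this
  linarith

private lemma lt_pos {g g1 g2 : ℝ → ℝ} {s η c : ℝ} (hη : 0 < η) (hc : 0 < c)
    (h1 : ∀ t ∈ Icc (s - η) (s + η), HasDerivAt g (g1 t) t)
    (h2 : ∀ t ∈ Icc (s - η) (s + η), HasDerivAt g1 (g2 t) t)
    (hg : g s = 0) (hg1 : g1 s = 0) (h : ∀ t ∈ Icc (s - η) (s + η), c ≤ g2 t) :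
    ∀ t ∈ Icc (s - η) (s + η), t ≠ s → 0 < g t := by
  have hs : s ∈ Icc (s - η) (s + η) := ⟨by linarith, by linarith⟩
  have mono1 : StrictMonoOn g1 (Icc (s - η) (s + η)) := by
    refine strictMonoOn_of_deriv_pos (convex_Icc _ _)
      (fun t ht => (h2 t ht).continuousAt.continuousWithinAt) fun t ht => ?_
    have ht' := interior_subset ht
    rw [(h2 t ht').deriv]
    exact lt_of_lt_of_le hc (h t ht')
  intro t ht hts
  rcases lt_or_gt_of_ne hts with hlt | hgt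
  · -- left
    have anti : StrictAntiOn g (Icc (s - η) s) := by
      refine strictAntiOn_of_deriv_neg (convex_Icc _ _)
        (fun u hu => (h1 u ⟨hu.1, hu.2.trans hs.2⟩).continuousAt.continuousWithinAt) fun u hu => ?_
      rw [interior_Icc] at hu
      have hu' : u ∈ Icc (s - η) (s + η) := ⟨hu.1.le, hu.2.le.trans hs.2⟩
      rw [(h1 u hu').deriv, ← hg1]
      exact mono1 hu' hs hu.2
    have := anti ⟨ht.1, hlt.le⟩ ⟨hs.1, le_refl _⟩ hlt
    linarith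
  · have mono : StrictMonoOn g (Icc s (s + η)) := by
      refine strictMonoOn_of_deriv_pos (convex_Icc _ _)
        (fun u hu => (h1 u ⟨hs.1.trans hu.1, hu.2⟩).continuousAt.continuousWithinAt) fun u hu => ?_
      rw [interior_Icc] at hu
      have hu' : u ∈ Icc (s - η) (s + η) := ⟨hs.1.trans hu.1.le, hu.2.le⟩
      rw [(h1 u hu').deriv]
      have := mono1 hs hu' hu.1
      linarith
    have := mono ⟨le_refl _, hs.2⟩ ⟨hgt.le, ht.2⟩ hgt
    linarith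

private lemma lt_zero {g g1 : ℝ → ℝ} {s r m : ℝ} (hr : 0 < r)
    (h1 : ∀ t ∈ Icc (s - r) (s + r), HasDerivAt g (g1 t) t)
    (h : ∀ t ∈ Icc (s - r) (s + r), m ≤ g1 t) (hs : |g s| ≤ m * r) :
    ∃ x ∈ Icc (s - r) (s + r), g x = 0 := by
  have hcont : ContinuousOn g (Icc (s - r) (s + r)) :=
    fun t ht => (h1 t ht).continuousAt.continuousWithinAt
  have hmv := (convex_Icc (s - r) (s + r)).mul_sub_le_image_sub_of_le_deriv hcont
    (fun t ht => ((h1 t (interior_subset ht)).differentiableAt).differentiableWithinAt)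
    (C := m) (fun t ht => by rw [(h1 t (interior_subset ht)).deriv]; exact h t (interior_subset ht))
  have e1 := hmv (s - r) ⟨le_refl _, by linarith⟩ s ⟨by linarith, by linarith⟩ (by linarith)
  have e2 := hmv s ⟨by linarith, by linarith⟩ (s + r) ⟨by linarith, le_refl _⟩ (by linarith)
  rw [show s - (s - r) = r by ring] at e1
  rw [show s + r - s = r by ring] at e2
  obtain ⟨ha, hb⟩ := abs_le.1 hs
  obtain ⟨x, hx, hx0⟩ := isPreconnected_Icc.intermediate_value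
    (show s - r ∈ Icc (s - r) (s + r) from ⟨le_refl _, by linarith⟩)
    (show s + r ∈ Icc (s - r) (s + r) from ⟨by linarith, le_refl _⟩) hcont
    (show (0:ℝ) ∈ Icc (g (s - r)) (g (s + r)) from ⟨by linarith, by linarith⟩)
  exact ⟨x, hx, hx0⟩

private lemma lt_dir {z θ v : E} {K δ : ℝ} (hz : 0 < ‖z‖) (hδ : ‖(‖z‖)⁻¹ • z - θ‖ ≤ δ)
    (hv : ‖v‖ ≤ K) : |⟪z, v⟫ - ‖z‖ * ⟪θ, v⟫| ≤ ‖z‖ * (δ * K) := by
  have h1 : ⟪z, v⟫ - ‖z‖ * ⟪θ, v⟫ = ‖z‖ * ⟪(‖z‖)⁻¹ • z - θ, v⟫ := by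
    rw [inner_sub_left, real_inner_smul_left]
    field_simp
  rw [h1, abs_mul, abs_of_pos hz]
  refine mul_le_mul_of_nonneg_left ?_ hz.le
  exact (abs_real_inner_le_norm _ _).trans
    (mul_le_mul hδ hv (norm_nonneg _) ((norm_nonneg _).trans hδ))

/-- (LOCTWO) Zero of order two. Proof: for large `n`, `⟪ζ n, γ3⟫` has constant sign and size `≥ (c/2) ‖ζ n‖` on `[s-η, s+η]` and
`⟪ζ n, γ2⟫` has a zero `s_n → s`. `f t - f s = (f s_n - f s) + (f t - f s_n)`: the first part contributes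
`‖f s_n - f s‖ ‖∫ ex‖ ≤ ε ‖∫ ex‖`; for the second use `cubic` on `[s-η', s+η']` (`x = s_n`, `μ = (c/2) ‖ζ n‖`):
`≤ 100 B1 √(4 η'/(c ‖ζ n‖)) ≤ (ε/2)/√‖ζ n‖` for small `η'`, and on the two remaining intervals
(`⟪θ, γ1⟫ ≠ 0` there: `|⟪θ, γ1 t⟫| ≥ c (t-s)²/2`) apply `outside` to `f` and to the constant `1`
(`f - f s_n = f - f s_n * 1`, `‖f s_n‖ ≤ B`). -/
theorem loc_two (hL : Loop L γ γ1 γ2 γ3 V C) {ζ : ℕ → E} {θ : E} (hζ : Dirs ζ θ)
    {f f1 : ℝ → ℂ} (hf : ∀ t, HasDerivAt f (f1 t) t) (cf : Continuous f1) {s η c : ℝ}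
    (hη : 0 < η) (hc : 0 < c) (h0 : 0 < s - η) (h1 : s + η < L)
    (hV : ∀ t ∈ Icc (s - η) (s + η), t ∉ V) (hz : ⟪θ, γ1 s⟫ = 0) (hz2 : ⟪θ, γ2 s⟫ = 0)
    (hlow : ∀ t ∈ Icc (s - η) (s + η), c ≤ |⟪θ, γ3 t⟫|) :
    ∀ ε > (0:ℝ), ∀ᶠ n in atTop, ‖∫ t in (s - η)..(s + η), (f t - f s) * ex (-⟪ζ n, γ t⟫)‖ ≤
      ε * (‖∫ t in (s - η)..(s + η), ex (-⟪ζ n, γ t⟫)‖ + 1 / Real.sqrt ‖ζ n‖) := by
  intro ε hε
  have hsub : Icc (s - η) (s + η) ⊆ Ioo 0 L := fun t ht => ⟨by linarith [ht.1], by linarith [ht.2]⟩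
  have fcont : Continuous f := continuous_iff_continuousAt.2 fun t => (hf t).continuousAt
  have c3 : ContinuousOn (fun t => ⟪θ, γ3 t⟫) (Icc (s - η) (s + η)) :=
    continuousOn_const.inner (hL.c3.mono fun t ht => ⟨hsub ht, hV t ht⟩)
  obtain ⟨σ, hσ, hσc⟩ : ∃ σ : ℝ, (σ = 1 ∨ σ = -1) ∧
      ∀ t ∈ Icc (s - η) (s + η), c ≤ σ * ⟪θ, γ3 t⟫ := by
    rcases lt_sign hc c3 hlow with h | h
    · exact ⟨1, Or.inl rfl, fun t ht => by simpa using h t ht⟩
    · exact ⟨-1, Or.inr rfl, fun t ht => by simpa using h t ht⟩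
  have hσa : |σ| = 1 := by rcases hσ with rfl | rfl <;> simp
  have hne : ∀ t ∈ Icc (s - η) (s + η), t ≠ s → ⟪θ, γ1 t⟫ ≠ 0 := by
    intro t ht hts h
    have := lt_pos (g := fun t => σ * ⟪θ, γ1 t⟫) (g1 := fun t => σ * ⟪θ, γ2 t⟫)
      (g2 := fun t => σ * ⟪θ, γ3 t⟫) hη hc
      (fun t ht => (hL.hasDerivAt_inner1 θ (hsub ht) (hV t ht)).const_mul σ)
      (fun t ht => (hL.hasDerivAt_inner2 θ (hsub ht) (hV t ht)).const_mul σ)
      (by simp [hz]) (by simp [hz2]) hσc t ht hts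
    simp [h] at this
  -- bounds
  obtain ⟨B, hB⟩ : ∃ B : ℝ, ∀ t ∈ Icc (s - η) (s + η), ‖f t‖ ≤ B :=
    isCompact_Icc.exists_bound_of_continuousOn fcont.continuousOn
  obtain ⟨B0, hB0⟩ : ∃ B : ℝ, ∀ t ∈ Icc (s - η) (s + η), ‖f1 t‖ ≤ B :=
    isCompact_Icc.exists_bound_of_continuousOn cf.continuousOn
  obtain ⟨B1, hB1p, hB1⟩ : ∃ B : ℝ, 0 < B ∧ ∀ t ∈ Icc (s - η) (s + η), ‖f1 t‖ ≤ B :=
    ⟨max B0 1, by positivity, fun t ht => (hB0 t ht).trans (le_max_left _ _)⟩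
  -- choice of η'
  obtain ⟨η', hη', hη'η, hη'ε⟩ : ∃ η' : ℝ, 0 < η' ∧ η' ≤ η ∧
      100 * B1 * Real.sqrt (4 * η' / c) ≤ ε / 2 := by
    refine ⟨min η (c / 4 * (ε / (200 * B1)) ^ 2), by positivity, min_le_left _ _, ?_⟩
    have e1 : 4 * min η (c / 4 * (ε / (200 * B1)) ^ 2) / c ≤ (ε / (200 * B1)) ^ 2 := by
      have : min η (c / 4 * (ε / (200 * B1)) ^ 2) ≤ c / 4 * (ε / (200 * B1)) ^ 2 := min_le_right _ _
      rw [div_le_iff₀ hc]
      linarith
    have e2 : Real.sqrt (4 * min η (c / 4 * (ε / (200 * B1)) ^ 2) / c) ≤ ε / (200 * B1) := by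
      exact (Real.sqrt_le_sqrt e1).trans
        (Real.sqrt_sq (show 0 ≤ ε / (200 * B1) by positivity)).le
    calc 100 * B1 * Real.sqrt (4 * min η (c / 4 * (ε / (200 * B1)) ^ 2) / c)
        ≤ 100 * B1 * (ε / (200 * B1)) := by gcongr
      _ = ε / 2 := by field_simp; ring
  -- continuity radius
  obtain ⟨r, hr, hrη, hrε⟩ : ∃ r : ℝ, 0 < r ∧ r ≤ η' ∧ ∀ x ∈ Icc (s - r) (s + r), ‖f x - f s‖ ≤ ε := by
    obtain ⟨δ, hδ, h⟩ := Metric.continuous_iff.1 fcont s ε hε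
    refine ⟨min η' (δ / 2), by positivity, min_le_left _ _, fun x hx => ?_⟩
    have hx' : dist x s < δ := by
      rw [Real.dist_eq, abs_lt]
      have := min_le_right η' (δ / 2)
      constructor <;> linarith [hx.1, hx.2]
    have := h x hx'
    rw [dist_eq_norm] at this
    exact this.le
  -- outside estimates
  obtain ⟨K1, hK1⟩ := outside hL hζ hf cf (x := s - η) (y := s - η') h0.le (by linarith) (by linarith)
    (fun t ht => hne t ⟨ht.1, by linarith [ht.2]⟩ (by intro h; linarith [ht.2]))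
  obtain ⟨K2, hK2⟩ := outside hL hζ (f := fun _ => 1) (f1 := fun _ => 0)
    (fun t => hasDerivAt_const t 1) continuous_const (x := s - η) (y := s - η') h0.le
    (by linarith) (by linarith)
    (fun t ht => hne t ⟨ht.1, by linarith [ht.2]⟩ (by intro h; linarith [ht.2]))
  obtain ⟨K3, hK3⟩ := outside hL hζ hf cf (x := s + η') (y := s + η) (by linarith) (by linarith)
    (by linarith)
    (fun t ht => hne t ⟨by linarith [ht.1], ht.2⟩ (by intro h; linarith [ht.1]))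
  obtain ⟨K4, hK4⟩ := outside hL hζ (f := fun _ => 1) (f1 := fun _ => 0)
    (fun t => hasDerivAt_const t 1) continuous_const (x := s + η') (y := s + η) (by linarith)
    (by linarith) (by linarith)
    (fun t ht => hne t ⟨by linarith [ht.1], ht.2⟩ (by intro h; linarith [ht.1]))
  have hB0' : 0 ≤ B := (norm_nonneg _).trans (hB s ⟨by linarith, by linarith⟩)
  -- eventually conditions
  have hCp : 0 < C := lt_of_lt_of_le one_pos hL.Cpos
  have ev1 : ∀ᶠ n in atTop, 1 ≤ ‖ζ n‖ := hζ.inf.eventually_ge_atTop 1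
  have ev2 : ∀ᶠ n in atTop, ‖(‖ζ n‖)⁻¹ • ζ n - θ‖ ≤ c / 2 * min 1 r / C := by
    have hpos : 0 < c / 2 * min 1 r / C := by positivity
    have := Metric.tendsto_nhds.1 hζ.dir _ hpos
    filter_upwards [this] with n hn
    rw [dist_eq_norm] at hn
    exact hn.le
  set K : ℝ := K1 + B * K2 + K3 + B * K4 with hK
  have ev3 : ∀ᶠ n in atTop, 2 * |K| / ε ≤ Real.sqrt ‖ζ n‖ :=
    (Real.tendsto_sqrt_atTop.comp hζ.inf).eventually_ge_atTop _
  filter_upwards [ev1, ev2, ev3, hK1, hK2, hK3, hK4] with n hn1 hn2 hn3 k1 k2 k3 k4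
  have hρ : 0 < ‖ζ n‖ := by linarith
  -- third derivative
  have hδC : c / 2 * min 1 r / C * C = c / 2 * min 1 r := by field_simp
  have hthird : ∀ t ∈ Icc (s - η) (s + η), c / 2 * ‖ζ n‖ ≤ σ * ⟪ζ n, γ3 t⟫ := by
    intro t ht
    have e1 := lt_dir hρ hn2 (hL.b3 t)
    rw [hδC] at e1
    have e2 : |σ * (⟪ζ n, γ3 t⟫ - ‖ζ n‖ * ⟪θ, γ3 t⟫)| ≤ ‖ζ n‖ * (c / 2 * min 1 r) := by
      rw [abs_mul, hσa, one_mul]; exact e1
    have e3 := (abs_le.1 e2).1
    have e4 := mul_le_mul_of_nonneg_left (hσc t ht) hρ.le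
    have e5 : ‖ζ n‖ * (c / 2 * min 1 r) ≤ ‖ζ n‖ * (c / 2) := by
      have : c / 2 * min 1 r ≤ c / 2 * 1 := by gcongr; exact min_le_left _ _
      gcongr
      linarith
    nlinarith [e3, e4, e5]
  have hrsub : Icc (s - r) (s + r) ⊆ Icc (s - η) (s + η) :=
    Icc_subset_Icc (by linarith) (by linarith)
  obtain ⟨x, hx, hx0⟩ : ∃ x ∈ Icc (s - r) (s + r), ⟪ζ n, γ2 x⟫ = 0 := by
    obtain ⟨x, hx, hx0⟩ := lt_zero (g := fun t => σ * ⟪ζ n, γ2 t⟫) (g1 := fun t => σ * ⟪ζ n, γ3 t⟫)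
      (m := c / 2 * ‖ζ n‖) hr
      (fun t ht => (hL.hasDerivAt_inner2 (ζ n) (hsub (hrsub ht)) (hV t (hrsub ht))).const_mul σ)
      (fun t ht => hthird t (hrsub ht)) (by
        have e1 := lt_dir hρ hn2 (hL.b2 s)
        rw [hδC, hz2, mul_zero, sub_zero] at e1
        simp only [abs_mul, hσa, one_mul]
        refine e1.trans ?_
        have : c / 2 * min 1 r ≤ c / 2 * r := by gcongr; exact min_le_right _ _
        nlinarith [this, hρ])
    refine ⟨x, hx, ?_⟩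
    have hσ0 : σ ≠ 0 := by rcases hσ with rfl | rfl <;> norm_num
    simpa [hσ0] using hx0
  -- decomposition
  have exc : Continuous fun t => ex (-⟪ζ n, γ t⟫) :=
    continuous_ex.comp (continuous_const.inner hL.contγ).neg
  have Fc : Continuous fun t => (f t - f x) * ex (-⟪ζ n, γ t⟫) :=
    (fcont.sub continuous_const).mul exc
  have ei : ∀ a b : ℝ, IntervalIntegrable (fun t => ex (-⟪ζ n, γ t⟫)) volume a b :=
    fun a b => exc.intervalIntegrable a b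
  have Fi : ∀ a b : ℝ, IntervalIntegrable (fun t => (f t - f x) * ex (-⟪ζ n, γ t⟫)) volume a b :=
    fun a b => Fc.intervalIntegrable a b
  have dec1 : ∫ t in (s - η)..(s + η), (f t - f s) * ex (-⟪ζ n, γ t⟫) =
      (∫ t in (s - η)..(s + η), (f t - f x) * ex (-⟪ζ n, γ t⟫)) +
        (f x - f s) * ∫ t in (s - η)..(s + η), ex (-⟪ζ n, γ t⟫) := by
    rw [← intervalIntegral.integral_const_mul, ← intervalIntegral.integral_add (Fi _ _)
      ((ei _ _).const_mul _)]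
    congr 1
    ext t
    ring
  have dec2 : ∫ t in (s - η)..(s + η), (f t - f x) * ex (-⟪ζ n, γ t⟫) =
      (∫ t in (s - η)..(s - η'), (f t - f x) * ex (-⟪ζ n, γ t⟫)) +
      (∫ t in (s - η')..(s + η'), (f t - f x) * ex (-⟪ζ n, γ t⟫)) +
      ∫ t in (s + η')..(s + η), (f t - f x) * ex (-⟪ζ n, γ t⟫) := by
    rw [intervalIntegral.integral_add_adjacent_intervals (Fi _ _) (Fi _ _),
      intervalIntegral.integral_add_adjacent_intervals (Fi _ _) (Fi _ _)]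
  have dec3 : ∀ a b : ℝ, ∫ t in a..b, (f t - f x) * ex (-⟪ζ n, γ t⟫) =
      (∫ t in a..b, f t * ex (-⟪ζ n, γ t⟫)) - f x * ∫ t in a..b, 1 * ex (-⟪ζ n, γ t⟫) := by
    intro a b
    have i1 : IntervalIntegrable (fun t => f t * ex (-⟪ζ n, γ t⟫)) volume a b :=
      (fcont.mul exc).intervalIntegrable _ _
    have i2 : IntervalIntegrable (fun t => f x * (1 * ex (-⟪ζ n, γ t⟫))) volume a b :=
      (continuous_const.mul (continuous_const.mul exc)).intervalIntegrable _ _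
    rw [← intervalIntegral.integral_const_mul, ← intervalIntegral.integral_sub i1 i2]
    congr 1
    ext t
    ring
  have hxη : x ∈ Icc (s - η) (s + η) := hrsub hx
  have hfx : ‖f x‖ ≤ B := hB x hxη
  have out : ∀ {a b k k' : ℝ}, ‖∫ t in a..b, f t * ex (-⟪ζ n, γ t⟫)‖ ≤ k / ‖ζ n‖ →
      ‖∫ t in a..b, 1 * ex (-⟪ζ n, γ t⟫)‖ ≤ k' / ‖ζ n‖ →
      ‖∫ t in a..b, (f t - f x) * ex (-⟪ζ n, γ t⟫)‖ ≤ (k + B * k') / ‖ζ n‖ := by
    intro a b k k' h h'
    rw [dec3]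
    refine (norm_sub_le _ _).trans ?_
    rw [norm_mul, add_div, mul_div_assoc]
    exact add_le_add h (mul_le_mul hfx h' (norm_nonneg _) hB0')
  have o1 := out k1 k2
  have o2 := out k3 k4
  -- middle
  have hmsub : Icc (s - η') (s + η') ⊆ Icc (s - η) (s + η) :=
    Icc_subset_Icc (by linarith) (by linarith)
  have mid : ‖∫ t in (s - η')..(s + η'), (f t - f x) * ex (-⟪ζ n, γ t⟫)‖ ≤
      (ε / 2) / Real.sqrt ‖ζ n‖ := by
    have hcub := cubic (ψ := fun t => -⟪ζ n, γ t⟫) (ψ1 := fun t => -⟪ζ n, γ1 t⟫)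
      (ψ2 := fun t => -⟪ζ n, γ2 t⟫) (ψ3 := fun t => -⟪ζ n, γ3 t⟫)
      (f := fun t => f t - f x) (f1 := f1) (a := s - η') (b := s + η') (x := x)
      (μ := c / 2 * ‖ζ n‖) (B1 := B1)
      ⟨by linarith [hx.1], by linarith [hx.2]⟩ (by positivity) hB1p.le
      (fun t _ => (hL.hasDerivAt_inner (ζ n) t).neg)
      (fun t ht => (hL.hasDerivAt_inner1 (ζ n) (hsub (hmsub ht)) (hV t (hmsub ht))).neg)
      (fun t ht => (hL.hasDerivAt_inner2 (ζ n) (hsub (hmsub ht)) (hV t (hmsub ht))).neg)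
      (by
        rcases hσ with rfl | rfl
        · right
          intro t ht
          have := hthird t (hmsub ht)
          linarith
        · left
          intro t ht
          have := hthird t (hmsub ht)
          linarith)
      (by simp [hx0])
      (fun t _ => (hf t).sub_const (f x)) cf.continuousOn (by simp)
      (fun t ht => hB1 t (hmsub ht))
    refine hcub.trans ?_
    have e1 : (s + η' - (s - η')) / (c / 2 * ‖ζ n‖) = 4 * η' / c / ‖ζ n‖ := by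
      field_simp; ring
    rw [e1, Real.sqrt_div' _ hρ.le, ← mul_div_assoc]
    gcongr
  -- final
  have hsq : 0 < Real.sqrt ‖ζ n‖ := Real.sqrt_pos.2 hρ
  have hss : Real.sqrt ‖ζ n‖ * Real.sqrt ‖ζ n‖ = ‖ζ n‖ := Real.mul_self_sqrt hρ.le
  have hKbound : K / ‖ζ n‖ ≤ (ε / 2) / Real.sqrt ‖ζ n‖ := by
    rw [div_le_div_iff₀ hρ hsq]
    have e1 : 2 * |K| ≤ Real.sqrt ‖ζ n‖ * ε := by
      rwa [div_le_iff₀ hε] at hn3
    have e2 : K ≤ |K| := le_abs_self K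
    have e3 : K ≤ ε / 2 * Real.sqrt ‖ζ n‖ := by linarith
    calc K * Real.sqrt ‖ζ n‖ ≤ ε / 2 * Real.sqrt ‖ζ n‖ * Real.sqrt ‖ζ n‖ := by gcongr
      _ = ε / 2 * ‖ζ n‖ := by rw [mul_assoc, hss]
  have total : ‖∫ t in (s - η)..(s + η), (f t - f x) * ex (-⟪ζ n, γ t⟫)‖ ≤ ε * (1 / Real.sqrt ‖ζ n‖) := by
    rw [dec2]
    refine (norm_add₃_le).trans ?_
    have e1 : (K1 + B * K2) / ‖ζ n‖ + (K3 + B * K4) / ‖ζ n‖ = K / ‖ζ n‖ := by
      rw [← add_div, hK]; ring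
    have e2 : ε * (1 / Real.sqrt ‖ζ n‖) = (ε / 2) / Real.sqrt ‖ζ n‖ + (ε / 2) / Real.sqrt ‖ζ n‖ := by
      field_simp; ring
    rw [e2]
    linarith
  rw [dec1]
  refine (norm_add_le _ _).trans ?_
  rw [norm_mul]
  have hfin : ‖f x - f s‖ * ‖∫ t in (s - η)..(s + η), ex (-⟪ζ n, γ t⟫)‖ ≤
      ε * ‖∫ t in (s - η)..(s + η), ex (-⟪ζ n, γ t⟫)‖ := by
    gcongr
    exact hrε x hx
  linarith

end Pool.Agent.LoopSpec
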