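import Pool.Agent.Lib_MP_e9ccd1_s.Lower
import Pool.Agent.Lib_MP_e9ccd1_s.GlueA

/-!
# MP_e9ccd1_an, space curves: contribution of a zero (pieces LOCONE, LOCTWO)
-/

set_option autoImplicit false

open MeasureTheory Set Filter Topology
open scoped RealInnerProductSpace
open Pool.Agent.CurveSpec (ex BM norm_ex ex_zero ex_add conj_ex continuous_ex)

namespace Pool.Agent.LoopSpec

variable {E : Type*} [NormedAddCommGroup E] [InnerProductSpace ℝ E]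
variable {L C : ℝ} {γ γ1 γ2 γ3 : ℝ → E} {V : Finset ℝ}

private lemma lo_close {ζ : ℕ → E} {θ : E} (hζ : Dirs ζ θ) {ε : ℝ} (hε : 0 < ε) :
    ∀ᶠ n in atTop, ∀ x : E, |⟪ζ n, x⟫ - ‖ζ n‖ * ⟪θ, x⟫| ≤ ε * ‖ζ n‖ * ‖x‖ := by
  have h1 : ∀ᶠ n in atTop, ‖(‖ζ n‖)⁻¹ • ζ n - θ‖ < ε := by
    have h2 := (tendsto_iff_norm_sub_tendsto_zero.1 hζ.dir)
    exact h2.eventually (gt_mem_nhds hε)
  filter_upwards [h1, hζ.inf.eventually_gt_atTop 0] with n hn hpos x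
  have h3 : ⟪ζ n, x⟫ - ‖ζ n‖ * ⟪θ, x⟫ = ‖ζ n‖ * ⟪(‖ζ n‖)⁻¹ • ζ n - θ, x⟫ := by
    rw [inner_sub_left, inner_smul_left, RCLike.conj_to_real, mul_sub, ← mul_assoc,
      mul_inv_cancel₀ hpos.ne', one_mul]
  rw [h3, abs_mul, abs_of_pos hpos]
  have h4 := abs_real_inner_le_norm ((‖ζ n‖)⁻¹ • ζ n - θ) x
  calc ‖ζ n‖ * |⟪(‖ζ n‖)⁻¹ • ζ n - θ, x⟫| ≤ ‖ζ n‖ * (ε * ‖x‖) := by
        refine mul_le_mul_of_nonneg_left (h4.trans ?_) hpos.le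
        exact mul_le_mul_of_nonneg_right hn.le (norm_nonneg x)
    _ = ε * ‖ζ n‖ * ‖x‖ := by ring

private lemma lo_sign (hL : Loop L γ γ1 γ2 γ3 V C) {θ : E} {a b c : ℝ} (hc : 0 < c)
    (h0 : 0 < a) (h1 : b < L) (hV : ∀ t ∈ Icc a b, t ∉ V)
    (hlow : ∀ t ∈ Icc a b, c ≤ |⟪θ, γ2 t⟫|) :
    (∀ t ∈ Icc a b, c ≤ ⟪θ, γ2 t⟫) ∨ (∀ t ∈ Icc a b, ⟪θ, γ2 t⟫ ≤ -c) := by
  have hcont : ContinuousOn (fun t => ⟪θ, γ2 t⟫) (Icc a b) := fun t ht =>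
    (hL.hasDerivAt_inner2 θ ⟨h0.trans_le ht.1, ht.2.trans_lt h1⟩
      (hV t ht)).continuousAt.continuousWithinAt
  by_contra hcon
  push Not at hcon
  obtain ⟨⟨t, ht, ht1⟩, u, hu, hu1⟩ := hcon
  have ht2 : ⟪θ, γ2 t⟫ ≤ -c := by
    rcases le_abs.1 (hlow t ht) with h2 | h2
    · linarith
    · linarith
  have hu2 : c ≤ ⟪θ, γ2 u⟫ := by
    rcases le_abs.1 (hlow u hu) with h2 | h2
    · exact h2
    · linarith
  have h3 := isPreconnected_Icc.intermediate_value ht hu hcont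
  obtain ⟨v, hv, hv0⟩ := h3 ⟨(by linarith : ⟪θ, γ2 t⟫ ≤ 0), (by linarith : 0 ≤ ⟪θ, γ2 u⟫)⟩
  have h4 := hlow v hv
  simp only at hv0
  rw [hv0, abs_zero] at h4
  linarith

/-- a strictly monotone function has a zero -/
private lemma lo_zero {g g' : ℝ → ℝ} {s η m δ : ℝ} (hη : 0 < η)
    (hg : ∀ t ∈ Icc (s - η) (s + η), HasDerivAt g (g' t) t)
    (hlow : ∀ t ∈ Icc (s - η) (s + η), m ≤ g' t) (hs : |g s| ≤ δ) (hδ : δ ≤ m * (η / 2)) :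
    ∃ u, s - η + η / 2 ≤ u ∧ u + η / 2 ≤ s + η ∧ g u = 0 := by
  have hcont : ContinuousOn g (Icc (s - η / 2) (s + η / 2)) := fun t ht =>
    (hg t ⟨by linarith [ht.1], by linarith [ht.2]⟩).continuousAt.continuousWithinAt
  have hs' := abs_le.1 hs
  have h1 : 0 ≤ g (s + η / 2) := by
    obtain ⟨ξ, hξ, he⟩ := exists_hasDerivAt_eq_slope g g' (by linarith : s < s + η / 2)
      (hcont.mono (Icc_subset_Icc (by linarith) le_rfl))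
      (fun t ht => hg t ⟨by linarith [ht.1], by linarith [ht.2]⟩)
    have h2 := hlow ξ ⟨by linarith [hξ.1], by linarith [hξ.2]⟩
    rw [he, le_div_iff₀ (by linarith)] at h2
    have h3 : m * (s + η / 2 - s) = m * (η / 2) := by ring
    linarith
  have h2 : g (s - η / 2) ≤ 0 := by
    obtain ⟨ξ, hξ, he⟩ := exists_hasDerivAt_eq_slope g g' (by linarith : s - η / 2 < s)
      (hcont.mono (Icc_subset_Icc le_rfl (by linarith)))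
      (fun t ht => hg t ⟨by linarith [ht.1], by linarith [ht.2]⟩)
    have h2 := hlow ξ ⟨by linarith [hξ.1], by linarith [hξ.2]⟩
    rw [he, le_div_iff₀ (by linarith)] at h2
    have h3 : m * (s - (s - η / 2)) = m * (η / 2) := by ring
    linarith
  obtain ⟨u, hu, hu0⟩ := intermediate_value_Icc (by linarith) hcont ⟨h2, h1⟩
  exact ⟨u, by linarith [hu.1], by linarith [hu.2], hu0⟩

/-- (LOCONE) Lower bound. Proof: for large `n`, `⟪ζ n, γ2⟫` has constant sign and size between `(c/2) ‖ζ n‖` and `C ‖ζ n‖` on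
`[s-η, s+η]`, and `⟪ζ n, γ1⟫` has a zero `s_n → s` there (`⟪ζ n, γ1 s⟫ = o(‖ζ n‖)`); `lower_quad` with
`a = η/2`, `ρ = ‖ζ n‖`, `m = c/2`, `M = C` (`c/2 ≤ C`). -/
theorem low_one (hL : Loop L γ γ1 γ2 γ3 V C) {ζ : ℕ → E} {θ : E} (hζ : Dirs ζ θ) {s η c : ℝ}
    (hη : 0 < η) (hc : 0 < c) (h0 : 0 < s - η) (h1 : s + η < L)
    (hV : ∀ t ∈ Icc (s - η) (s + η), t ∉ V) (hz : ⟪θ, γ1 s⟫ = 0)
    (hlow : ∀ t ∈ Icc (s - η) (s + η), c ≤ |⟪θ, γ2 t⟫|) :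
    ∃ c' > (0:ℝ), ∀ᶠ n in atTop,
      c' / Real.sqrt ‖ζ n‖ ≤ ‖∫ t in (s - η)..(s + η), ex (-⟪ζ n, γ t⟫)‖ := by
  have hCpos : 0 < C := by linarith [hL.Cpos]
  have hsm : s ∈ Icc (s - η) (s + η) := ⟨by linarith, by linarith⟩
  have hcC : c ≤ C := by
    refine (hlow s hsm).trans ((abs_real_inner_le_norm θ (γ2 s)).trans ?_)
    rw [hζ.unit, one_mul]
    exact hL.b2 s
  obtain ⟨c', hc', ρ0, hρ0, H⟩ := lower_quad (c / 2) C (η / 2) (by linarith) (by linarith)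
    (by linarith)
  refine ⟨c', hc', ?_⟩
  set ε : ℝ := min (c / (2 * C)) (c * η / 4) with hε
  have hε0 : 0 < ε := by positivity
  have hε1 : ε * C ≤ c / 2 := by
    calc ε * C ≤ c / (2 * C) * C := mul_le_mul_of_nonneg_right (min_le_left _ _) hCpos.le
      _ = c / 2 := by field_simp
  have hε2 : ε ≤ c * η / 4 := min_le_right _ _
  have hin : ∀ t ∈ Icc (s - η) (s + η), t ∈ Ioo 0 L := fun t ht =>
    ⟨h0.trans_le ht.1, ht.2.trans_lt h1⟩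
  filter_upwards [lo_close hζ hε0, hζ.inf.eventually_ge_atTop ρ0] with n hn hρ
  have hpos : 0 < ‖ζ n‖ := hρ0.trans_le hρ
  have hd : ∀ t ∈ Icc (s - η) (s + η), HasDerivAt (fun u => ⟪ζ n, γ u⟫) ⟪ζ n, γ1 t⟫ t :=
    fun t _ => hL.hasDerivAt_inner (ζ n) t
  have hd1 : ∀ t ∈ Icc (s - η) (s + η), HasDerivAt (fun u => ⟪ζ n, γ1 u⟫) ⟪ζ n, γ2 t⟫ t :=
    fun t ht => hL.hasDerivAt_inner1 (ζ n) (hin t ht) (hV t ht)
  have hc2 : ContinuousOn (fun u => ⟪ζ n, γ2 u⟫) (Icc (s - η) (s + η)) := fun t ht =>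
    (hL.hasDerivAt_inner2 (ζ n) (hin t ht) (hV t ht)).continuousAt.continuousWithinAt
  have hup : ∀ t, |⟪ζ n, γ2 t⟫| ≤ C * ‖ζ n‖ := fun t => by
    refine (abs_real_inner_le_norm _ _).trans ?_
    rw [mul_comm]
    exact mul_le_mul_of_nonneg_right (hL.b2 t) hpos.le
  have hdev : ∀ t, |⟪ζ n, γ2 t⟫ - ‖ζ n‖ * ⟪θ, γ2 t⟫| ≤ c / 2 * ‖ζ n‖ := fun t => by
    refine (hn (γ2 t)).trans ?_
    calc ε * ‖ζ n‖ * ‖γ2 t‖ ≤ ε * ‖ζ n‖ * C :=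
          mul_le_mul_of_nonneg_left (hL.b2 t) (by positivity)
      _ = (ε * C) * ‖ζ n‖ := by ring
      _ ≤ c / 2 * ‖ζ n‖ := mul_le_mul_of_nonneg_right hε1 hpos.le
  have hs1 : |⟪ζ n, γ1 s⟫| ≤ c * η / 4 * ‖ζ n‖ := by
    have h2 := hn (γ1 s)
    rw [hz, mul_zero, sub_zero, hL.unit, mul_one] at h2
    exact h2.trans (mul_le_mul_of_nonneg_right hε2 hpos.le)
  have hzero : (∀ t ∈ Icc (s - η) (s + η), c / 2 * ‖ζ n‖ ≤ ⟪ζ n, γ2 t⟫) ∨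
      (∀ t ∈ Icc (s - η) (s + η), c / 2 * ‖ζ n‖ ≤ -⟪ζ n, γ2 t⟫) := by
    rcases lo_sign hL hc h0 h1 hV hlow with h2 | h2
    · left
      intro t ht
      have h3 := (abs_le.1 (hdev t)).1
      have h4 := mul_le_mul_of_nonneg_left (h2 t ht) hpos.le
      linarith
    · right
      intro t ht
      have h3 := (abs_le.1 (hdev t)).2
      have h4 := mul_le_mul_of_nonneg_left (h2 t ht) hpos.le
      linarith
  have hsn : ∃ u, s - η + η / 2 ≤ u ∧ u + η / 2 ≤ s + η ∧ ⟪ζ n, γ1 u⟫ = 0 := by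
    rcases hzero with h2 | h2
    · exact lo_zero hη hd1 h2 hs1 (le_of_eq (by ring))
    · obtain ⟨u, hu1, hu2, hu3⟩ := lo_zero (g := fun u => -⟪ζ n, γ1 u⟫)
        (δ := c * η / 4 * ‖ζ n‖) hη (fun t ht => (hd1 t ht).neg) h2
        (by rw [abs_neg]; exact hs1) (le_of_eq (by ring))
      exact ⟨u, hu1, hu2, neg_eq_zero.1 hu3⟩
  obtain ⟨u, hu1, hu2, hu3⟩ := hsn
  refine H ‖ζ n‖ hρ (fun t => -⟪ζ n, γ t⟫) (fun t => -⟪ζ n, γ1 t⟫) (fun t => -⟪ζ n, γ2 t⟫)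
    (s - η) u (s + η) hu1 hu2 (fun t ht => (hd t ht).neg) (fun t ht => (hd1 t ht).neg) hc2.neg
    (by simp only [hu3, neg_zero]) ?_
  rcases hzero with h2 | h2
  · right
    intro t ht
    rw [neg_neg]
    exact ⟨h2 t ht, (le_abs_self _).trans (hup t)⟩
  · left
    intro t ht
    exact ⟨h2 t ht, (neg_le_abs _).trans (hup t)⟩

end Pool.Agent.LoopSpec
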