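import Pool.Agent.Lib_MP_e9ccd1_s.Zeros
import Pool.Agent.Lib_MP_e9ccd1_s.LocInt

/-!
# MP_e9ccd1_an, space curves: the annihilating measure (piece REL)
-/

set_option autoImplicit false

open MeasureTheory Set Filter Topology
open scoped RealInnerProductSpace
open Pool.Agent.CurveSpec (ex BM norm_ex ex_zero ex_add conj_ex continuous_ex)

namespace Pool.Agent.LoopSpec

variable {E : Type*} [NormedAddCommGroup E] [InnerProductSpace ℝ E]
variable {ι : Type*} {L C : ℝ} {γ γ1 γ2 γ3 : ℝ → E} {V : Finset ℝ} {lam : ι → E}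

/-- the estimate for one amplitude -/
private lemma rel_est (hL : Loop L γ γ1 γ2 γ3 V C) {ζ : ℕ → E} {θ : E} (hζ : Dirs ζ θ)
    {Z : Finset ℝ} {η c : ℝ} (hη : 0 < η) (hc : 0 < c)
    (hZ : ∀ t ∈ Icc 0 L, ⟪θ, γ1 t⟫ = 0 → t ∈ Z)
    (hdat : ∀ s ∈ Z, 0 < s - η ∧ s + η < L ∧ ⟪θ, γ1 s⟫ = 0 ∧
      (∀ t ∈ Icc (s - η) (s + η), t ∉ V) ∧
        ((⟪θ, γ2 s⟫ ≠ 0 ∧ ∀ t ∈ Icc (s - η) (s + η), c ≤ |⟪θ, γ2 t⟫|) ∨
          (⟪θ, γ2 s⟫ = 0 ∧ ∀ t ∈ Icc (s - η) (s + η), c ≤ |⟪θ, γ3 t⟫|)))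
    (hsep : ∀ s ∈ Z, ∀ s' ∈ Z, s ≠ s' → 2 * η < |s - s'|)
    {f f1 : ℝ → ℂ} (hf : ∀ t, HasDerivAt f (f1 t) t) (cf : Continuous f1)
    (horth : ∀ᶠ n in atTop, ∫ t in (0:ℝ)..L, f t * ex (-⟪ζ n, γ t⟫) = 0) :
    ∀ ε > (0:ℝ), ∃ K : ℝ, ∀ᶠ n in atTop,
      ‖∑ s ∈ Z, f s * ∫ t in (s - η)..(s + η), ex (-⟪ζ n, γ t⟫)‖ ≤ K / ‖ζ n‖ +
        ∑ s ∈ Z, ε * (‖∫ t in (s - η)..(s + η), ex (-⟪ζ n, γ t⟫)‖ + 1 / Real.sqrt ‖ζ n‖) := by
  intro ε hε
  obtain ⟨K, hK⟩ := glue hL hζ hf cf Z hη hZ (fun s hs => ⟨(hdat s hs).1, (hdat s hs).2.1⟩) hsep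
  have hloc : ∀ s ∈ Z, ∀ᶠ n in atTop,
      ‖∫ t in (s - η)..(s + η), (f t - f s) * ex (-⟪ζ n, γ t⟫)‖ ≤
        ε * (‖∫ t in (s - η)..(s + η), ex (-⟪ζ n, γ t⟫)‖ + 1 / Real.sqrt ‖ζ n‖) := by
    intro s hs
    obtain ⟨h0, h1, hz, hVs, hcase⟩ := hdat s hs
    rcases hcase with ⟨_, hlow⟩ | ⟨hz2, hlow⟩
    · filter_upwards [loc_one hL hζ hf cf hη hc h0 h1 hVs hz hlow ε hε] with n hn
      refine hn.trans ?_
      rw [div_eq_mul_one_div]
      apply mul_le_mul_of_nonneg_left _ hε.le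
      have := norm_nonneg (∫ t in (s - η)..(s + η), ex (-⟪ζ n, γ t⟫))
      linarith
    · exact loc_two hL hζ hf cf hη hc h0 h1 hVs hz hz2 hlow ε hε
  have hall : ∀ᶠ n in atTop, ∀ s ∈ Z,
      ‖∫ t in (s - η)..(s + η), (f t - f s) * ex (-⟪ζ n, γ t⟫)‖ ≤
        ε * (‖∫ t in (s - η)..(s + η), ex (-⟪ζ n, γ t⟫)‖ + 1 / Real.sqrt ‖ζ n‖) := by
    rw [Finset.eventually_all]
    exact hloc
  refine ⟨K, ?_⟩
  filter_upwards [hK, hall, horth] with n h1 h2 h3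
  have hcf : Continuous f := continuous_iff_continuousAt.2 fun t => (hf t).continuousAt
  have hce : Continuous fun t => ex (-⟪ζ n, γ t⟫) := by
    have := hL.contγ
    fun_prop
  have hsplit : ∀ s, ∫ t in (s - η)..(s + η), f t * ex (-⟪ζ n, γ t⟫) =
      f s * (∫ t in (s - η)..(s + η), ex (-⟪ζ n, γ t⟫)) +
        ∫ t in (s - η)..(s + η), (f t - f s) * ex (-⟪ζ n, γ t⟫) := by
    intro s
    have i1 : IntervalIntegrable (fun t => f s * ex (-⟪ζ n, γ t⟫)) volume (s - η) (s + η) :=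
      (continuous_const.mul hce).intervalIntegrable _ _
    have i2 : IntervalIntegrable (fun t => (f t - f s) * ex (-⟪ζ n, γ t⟫)) volume
        (s - η) (s + η) := ((hcf.sub continuous_const).mul hce).intervalIntegrable _ _
    rw [← intervalIntegral.integral_const_mul, ← intervalIntegral.integral_add i1 i2]
    congr 1
    ext t
    ring
  rw [h3, zero_sub, norm_neg] at h1
  have h4 : ∑ s ∈ Z, f s * ∫ t in (s - η)..(s + η), ex (-⟪ζ n, γ t⟫) =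
      (∑ s ∈ Z, ∫ t in (s - η)..(s + η), f t * ex (-⟪ζ n, γ t⟫)) -
        ∑ s ∈ Z, ∫ t in (s - η)..(s + η), (f t - f s) * ex (-⟪ζ n, γ t⟫) := by
    rw [← Finset.sum_sub_distrib]
    apply Finset.sum_congr rfl
    intro s _
    rw [hsplit s]
    ring
  rw [h4]
  refine (norm_sub_le _ _).trans (add_le_add h1 ?_)
  exact (norm_sum_le _ _).trans (Finset.sum_le_sum h2)

/-- (REL) Proof: `zeros_data` gives `Z, η, c`. `A n s = ∫_{s-η}^{s+η} ex (-⟪lam (k n), γ⟫)`, `M n = max_{s ∈ Z} ‖A n s‖`; by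
`low_one`, `M n ≥ c'/√‖lam (k n)‖` for large `n`. For fixed `i` let `f = ex ⟪lam i, γ⟫` (`C^1`): for large `n`, `k n ≠ i`
and `∫_0^L f ex(-⟪lam (k n), γ⟫) = 0` (`ONB.orth`), so by `glue`, `loc_one`, `loc_two`:
`‖∑_{s ∈ Z} f s * A n s‖ ≤ ε (M n + 1/√‖lam (k n)‖) * card + K/‖lam (k n)‖`, i.e. `∑ f s * (A n s/M n) → 0`. The vectors
`(A n s / M n)_s` lie in the unit ball of `Z → ℂ` and have sup norm one: take a convergent subsequence; its limit `a` has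
sup norm one and `∑ f s * a s = 0` for every `i`. -/
theorem relation (hL : Loop L γ γ1 γ2 γ3 V C) (hF : ONB L γ lam) {θ : E} (k : ℕ → ι)
    (hk : Dirs (fun n => lam (k n)) θ)
    (hV : ∀ v ∈ V, v ∈ Icc 0 L → ⟪θ, γ1 v⟫ ≠ 0)
    (hz : ∀ s ∈ Ioo 0 L, s ∉ V → ⟪θ, γ1 s⟫ = 0 → ⟪θ, γ2 s⟫ ≠ 0 ∨ ⟪θ, γ3 s⟫ ≠ 0) :
    ∃ (Z : Finset ℝ) (a : ℝ → ℂ), (∀ s ∈ Z, s ∈ Ioo 0 L ∧ s ∉ V ∧ ⟪θ, γ1 s⟫ = 0) ∧
      (∃ s ∈ Z, a s ≠ 0) ∧ ∀ i, ∑ s ∈ Z, a s * ex ⟪lam i, γ s⟫ = 0 := by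
  classical
  obtain ⟨Z, η, c, hη, hc, hZ, hdat, hsep, s1, hs1, hs1'⟩ := zeros_data hL hk.unit hV hz
  set ζ : ℕ → E := fun n => lam (k n) with hζdef
  set v : ℕ → Z → ℂ := fun n s => ∫ t in ((s:ℝ) - η)..((s:ℝ) + η), ex (-⟪ζ n, γ t⟫) with hv
  -- the lower bound
  obtain ⟨c', hc', hlow⟩ : ∃ c' > (0:ℝ), ∀ᶠ n in atTop, c' / Real.sqrt ‖ζ n‖ ≤ ‖v n‖ := by
    obtain ⟨h0, h1, hz1, hVs, hcase⟩ := hdat s1 hs1
    rcases hcase with ⟨_, hl⟩ | ⟨hz2, _⟩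
    · obtain ⟨c', hc', h⟩ := low_one hL hk hη hc h0 h1 hVs hz1 hl
      refine ⟨c', hc', ?_⟩
      filter_upwards [h] with n hn
      exact hn.trans (norm_le_pi_norm (v n) ⟨s1, hs1⟩)
    · exact absurd hz2 hs1'
  have hinf : Tendsto (fun n => ‖ζ n‖) atTop atTop := hk.inf
  have hsqrt : Tendsto (fun n => Real.sqrt ‖ζ n‖) atTop atTop := Real.tendsto_sqrt_atTop.comp hinf
  set w : ℕ → Z → ℂ := fun n => ((‖v n‖⁻¹ : ℝ) : ℂ) • v n with hw
  have hw1 : ∀ n, w n ∈ Metric.closedBall (0 : Z → ℂ) 1 := by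
    intro n
    rw [mem_closedBall_zero_iff, hw]
    dsimp only
    rw [norm_smul, Complex.norm_real, norm_inv, norm_norm]
    exact inv_mul_le_one
  obtain ⟨a, _, φ, hφ, hlim⟩ := (isCompact_closedBall (0 : Z → ℂ) 1).tendsto_subseq hw1
  have hwn : ∀ᶠ n in atTop, ‖w n‖ = 1 := by
    filter_upwards [hlow, hinf.eventually_gt_atTop 0] with n h1 h2
    have h3 : 0 < ‖v n‖ := lt_of_lt_of_le (div_pos hc' (Real.sqrt_pos.2 h2)) h1
    rw [hw]
    dsimp only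
    rw [norm_smul, Complex.norm_real, norm_inv, norm_norm, inv_mul_cancel₀ h3.ne']
  have ha : ‖a‖ = 1 := by
    have h1 : Tendsto (fun n => ‖w (φ n)‖) atTop (𝓝 ‖a‖) := hlim.norm
    have h2 : Tendsto (fun n => ‖w (φ n)‖) atTop (𝓝 1) := by
      refine tendsto_const_nhds.congr' ?_
      filter_upwards [hφ.tendsto_atTop.eventually hwn] with n hn
      exact hn.symm
    exact tendsto_nhds_unique h1 h2
  obtain ⟨s2, hs2⟩ : ∃ s : Z, a s ≠ 0 := by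
    by_contra hcon
    push Not at hcon
    have : a = 0 := funext hcon
    rw [this, norm_zero] at ha
    exact zero_ne_one ha
  refine ⟨Z, fun s => if h : s ∈ Z then a ⟨s, h⟩ else 0, fun s hs => ?_, ⟨s2, s2.2, ?_⟩,
    fun i => ?_⟩
  · obtain ⟨h0, h1, hz1, hVs, _⟩ := hdat s hs
    refine ⟨⟨by linarith, by linarith⟩, hVs s ⟨by linarith, by linarith⟩, hz1⟩
  · simpa using hs2
  · -- the relation
    set f : ℝ → ℂ := fun t => ex ⟪lam i, γ t⟫ with hf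
    set f1 : ℝ → ℂ := fun t => 2 * Real.pi * Complex.I * ⟪lam i, γ1 t⟫ * ex ⟪lam i, γ t⟫ with hf1
    have hder : ∀ t, HasDerivAt f (f1 t) t := fun t => hasDerivAt_ex (hL.hasDerivAt_inner _ t)
    have hcf1 : Continuous f1 := by
      have h1 := hL.contγ
      have h2 := hL.contγ1
      have h3 : Continuous fun t => ((⟪lam i, γ1 t⟫ : ℝ) : ℂ) :=
        Complex.continuous_ofReal.comp (continuous_const.inner h2)
      have h4 : Continuous fun t => ex ⟪lam i, γ t⟫ := by fun_prop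
      exact (continuous_const.mul h3).mul h4
    have horth : ∀ᶠ n in atTop, ∫ t in (0:ℝ)..L, f t * ex (-⟪ζ n, γ t⟫) = 0 := by
      filter_upwards [hinf.eventually_gt_atTop ‖lam i‖] with n hn
      have hne : i ≠ k n := by
        rintro rfl
        exact lt_irrefl _ hn
      rw [← hF.orth i (k n) hne]
      congr 1
      ext t
      rw [hf]
      dsimp only
      rw [← ex_add, inner_sub_left, sub_eq_add_neg]
    have hest := rel_est hL hk hη hc hZ hdat hsep hder hcf1 horth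
    -- the normalised sums tend to zero
    have hzero : Tendsto (fun n => ∑ s : Z, f s * w n s) atTop (𝓝 0) := by
      rw [Metric.tendsto_nhds]
      intro ε' hε'
      set m : ℝ := (Z.card : ℝ) * (1 + 1 / c') + 1 with hm
      have hmpos : 0 < m := by positivity
      obtain ⟨K, hK⟩ := hest (ε' / (2 * m)) (by positivity)
      have hbig : ∀ᶠ n in atTop, 2 * |K| / (c' * ε') + 1 ≤ Real.sqrt ‖ζ n‖ :=
        hsqrt.eventually_ge_atTop _
      filter_upwards [hK, hlow, hbig, hinf.eventually_gt_atTop 0] with n h1 h2 h3 h4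
      have hsq : 0 < Real.sqrt ‖ζ n‖ := Real.sqrt_pos.2 h4
      have hvpos : 0 < ‖v n‖ := lt_of_lt_of_le (div_pos hc' hsq) h2
      rw [dist_zero_right]
      have e1 : ∑ s : Z, f s * w n s = ((‖v n‖⁻¹ : ℝ) : ℂ) *
          ∑ s ∈ Z, f s * ∫ t in (s - η)..(s + η), ex (-⟪ζ n, γ t⟫) := by
        rw [← Finset.sum_coe_sort Z, Finset.mul_sum]
        apply Finset.sum_congr rfl
        intro s _
        rw [hw, hv]
        simp only [Pi.smul_apply, smul_eq_mul]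
        ring
      rw [e1, norm_mul, Complex.norm_real, norm_inv, norm_norm, inv_mul_lt_iff₀ hvpos]
      refine lt_of_le_of_lt h1 ?_
      have e2 : ∑ s ∈ Z, ε' / (2 * m) * (‖∫ t in (s - η)..(s + η), ex (-⟪ζ n, γ t⟫)‖ +
          1 / Real.sqrt ‖ζ n‖) ≤ (Z.card : ℝ) * (ε' / (2 * m) * (‖v n‖ + ‖v n‖ / c')) := by
        rw [← nsmul_eq_mul]
        apply Finset.sum_le_card_nsmul
        intro s hs
        apply mul_le_mul_of_nonneg_left _ (by positivity)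
        apply add_le_add
        · exact norm_le_pi_norm (v n) ⟨s, hs⟩
        · rw [le_div_iff₀ hc', div_mul_eq_mul_div, one_mul]
          exact h2
      have e3 : K / ‖ζ n‖ < ε' / 2 * ‖v n‖ := by
        have e4 : ‖ζ n‖ = Real.sqrt ‖ζ n‖ * Real.sqrt ‖ζ n‖ := (Real.mul_self_sqrt h4.le).symm
        have e5 : K / ‖ζ n‖ ≤ |K| / Real.sqrt ‖ζ n‖ / Real.sqrt ‖ζ n‖ := by
          rw [div_div, ← e4]
          gcongr
          exact le_abs_self K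
        have e6 : |K| / Real.sqrt ‖ζ n‖ < ε' / 2 * c' := by
          rw [div_lt_iff₀ hsq]
          have e7 : 2 * |K| / (c' * ε') < Real.sqrt ‖ζ n‖ := by linarith
          rw [div_lt_iff₀ (by positivity)] at e7
          linarith
        calc K / ‖ζ n‖ ≤ |K| / Real.sqrt ‖ζ n‖ / Real.sqrt ‖ζ n‖ := e5
          _ < ε' / 2 * c' / Real.sqrt ‖ζ n‖ := by gcongr
          _ = ε' / 2 * (c' / Real.sqrt ‖ζ n‖) := by ring
          _ ≤ ε' / 2 * ‖v n‖ := by gcongr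
      have e8 : (Z.card : ℝ) * (ε' / (2 * m) * (‖v n‖ + ‖v n‖ / c')) ≤ ε' / 2 * ‖v n‖ := by
        have e9 : (Z.card : ℝ) * (ε' / (2 * m) * (‖v n‖ + ‖v n‖ / c')) =
            ((Z.card : ℝ) * (1 + 1 / c') / m) * (ε' / 2 * ‖v n‖) := by
          field_simp
        rw [e9]
        have e10 : (Z.card : ℝ) * (1 + 1 / c') / m ≤ 1 := by
          rw [div_le_one hmpos, hm]
          linarith
        calc ((Z.card : ℝ) * (1 + 1 / c') / m) * (ε' / 2 * ‖v n‖) ≤ 1 * (ε' / 2 * ‖v n‖) := by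
              gcongr
          _ = ε' / 2 * ‖v n‖ := one_mul _
      calc K / ‖ζ n‖ + ∑ s ∈ Z, ε' / (2 * m) *
            (‖∫ t in (s - η)..(s + η), ex (-⟪ζ n, γ t⟫)‖ + 1 / Real.sqrt ‖ζ n‖)
          < ε' / 2 * ‖v n‖ + ε' / 2 * ‖v n‖ := add_lt_add_of_lt_of_le e3 (e2.trans e8)
        _ = ‖v n‖ * ε' := by ring
    have hlim2 : Tendsto (fun n => ∑ s : Z, f s * w (φ n) s) atTop (𝓝 (∑ s : Z, f s * a s)) := by
      apply tendsto_finsetSum
      intro s _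
      exact ((tendsto_pi_nhds.1 hlim) s).const_mul _
    have h0 : ∑ s : Z, f s * a s = 0 :=
      tendsto_nhds_unique hlim2 (hzero.comp hφ.tendsto_atTop)
    rw [← Finset.sum_coe_sort Z, ← h0]
    apply Finset.sum_congr rfl
    intro s _
    simp only [Finset.coe_mem, dite_true, Subtype.coe_eta]
    rw [mul_comm]

end Pool.Agent.LoopSpec
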