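import Pool.Agent.Lib_MP_e9ccd1_s.Arc

/-!
# MP_e9ccd1_an, space curves: local structure of `{(t, s) | ⟪cr (γ1 t) (γ2 t), γ1 s⟫ = 0}` (pieces LOCA, LOCB)

Notation `w t = cr (γ1 t) (γ2 t)`; on `Ioo α β` it is differentiable with derivative `cr (γ1 t) (γ3 t)`
(`cr (γ2 t) (γ2 t) = 0`), continuous there. `⟪cr (γ1 t) (γ3 t), γ2 t⟫ = -⟪w t, γ3 t⟫ ≠ 0`,
`⟪cr (γ1 t) (γ3 t), γ1 t⟫ = 0`. In particular `w t ≠ 0`, `γ2 t ≠ 0`.
-/

set_option autoImplicit false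

open MeasureTheory Set Filter Topology
open scoped RealInnerProductSpace

namespace Pool.Agent.LoopSpec

variable {L C : ℝ} {γ γ1 γ2 γ3 : ℝ → E3} {V : Finset ℝ}

/-- a lower bound from the mean value theorem -/
lemma locB_mvt {f f' : ℝ → ℝ} {t0 δ c : ℝ} (hd : ∀ x, |x - t0| < δ → HasDerivAt f (f' x) x)
    (hc : ∀ x, |x - t0| < δ → c ≤ |f' x|) {t t' : ℝ} (ht : |t - t0| < δ) (ht' : |t' - t0| < δ) :
    c * |t - t'| ≤ |f t - f t'| := by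
  have key : ∀ u v : ℝ, |u - t0| < δ → |v - t0| < δ → u < v → c * |v - u| ≤ |f v - f u| := by
    intro u v hu hv huv
    have hin : ∀ x ∈ Icc u v, |x - t0| < δ := by
      intro x hx
      rw [abs_lt] at hu hv ⊢
      exact ⟨by linarith [hx.1], by linarith [hx.2]⟩
    obtain ⟨x, hx, hxe⟩ := exists_hasDerivAt_eq_slope f f' huv
      (fun x hx => (hd x (hin x hx)).continuousAt.continuousWithinAt)
      (fun x hx => hd x (hin x (Ioo_subset_Icc_self hx)))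
    have hvu : 0 < v - u := by linarith
    have h1 : f v - f u = f' x * (v - u) := by
      rw [hxe]
      field_simp
    rw [h1, abs_mul]
    exact mul_le_mul_of_nonneg_right (hc x (hin x (Ioo_subset_Icc_self hx))) (abs_nonneg _)
  rcases lt_trichotomy t t' with h | h | h
  · rw [abs_sub_comm t t', abs_sub_comm (f t) (f t')]
    exact key t t' ht ht' h
  · rw [h]
    simp
  · exact key t' t ht' ht h

/-- Taylor's formula of order two at a critical point. -/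
lemma locB_taylor {f f' : ℝ → ℝ} {x0 D : ℝ} (h : ∀ᶠ x in 𝓝 x0, HasDerivAt f (f' x) x)
    (h0 : f' x0 = 0) (hD : HasDerivAt f' D x0) {η : ℝ} (hη : 0 < η) :
    ∃ δ > 0, ∀ x, |x - x0| < δ → |f x - f x0 - D / 2 * (x - x0) ^ 2| ≤ η * (x - x0) ^ 2 := by
  have hev := (hasDerivAt_iff_isLittleO.mp hD).def hη
  obtain ⟨δ, hδ, hball⟩ := Metric.eventually_nhds_iff.mp (h.and hev)
  refine ⟨δ, hδ, fun x hx => ?_⟩
  set r : ℝ → ℝ := fun y => f y - D / 2 * (y - x0) ^ 2 with hr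
  have hin : ∀ y ∈ Metric.closedBall x0 |x - x0|, dist y x0 < δ := fun y hy =>
    lt_of_le_of_lt (Metric.mem_closedBall.mp hy) hx
  have hrd : ∀ y ∈ Metric.closedBall x0 |x - x0|,
      HasDerivWithinAt r (f' y - D / 2 * (2 * (y - x0) ^ 1 * 1))
        (Metric.closedBall x0 |x - x0|) y := by
    intro y hy
    have h1 := (hball (hin y hy)).1
    have h2 : HasDerivAt (fun y : ℝ => y - x0) 1 y := (hasDerivAt_id y).sub_const x0
    exact (h1.sub ((h2.pow 2).const_mul (D / 2))).hasDerivWithinAt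
  have hb : ∀ y ∈ Metric.closedBall x0 |x - x0|,
      ‖f' y - D / 2 * (2 * (y - x0) ^ 1 * 1)‖ ≤ η * |x - x0| := by
    intro y hy
    have h1 := (hball (hin y hy)).2
    rw [h0, sub_zero, smul_eq_mul] at h1
    have h2 : f' y - D / 2 * (2 * (y - x0) ^ 1 * 1) = f' y - (y - x0) * D := by ring
    rw [h2]
    refine h1.trans ?_
    apply mul_le_mul_of_nonneg_left _ hη.le
    rw [Real.norm_eq_abs, ← Real.dist_eq]
    exact Metric.mem_closedBall.mp hy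
  have h3 := (convex_closedBall x0 |x - x0|).norm_image_sub_le_of_norm_hasDerivWithin_le hrd hb
    (Metric.mem_closedBall_self (abs_nonneg _))
    (Metric.mem_closedBall.mpr (by rw [Real.dist_eq]) : x ∈ Metric.closedBall x0 |x - x0|)
  have h4 : r x - r x0 = f x - f x0 - D / 2 * (x - x0) ^ 2 := by
    simp only [hr]
    ring
  rw [h4, Real.norm_eq_abs, Real.norm_eq_abs] at h3
  refine h3.trans (le_of_eq ?_)
  rw [mul_assoc, ← sq, sq_abs]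

/-- (LOCB) Parallel zeros. Proof: `γ2 t0 ≠ 0`, so `‖γ1 t - γ1 t'‖ ≥ c |t - t'|` near `t0`
(`⟪γ2 t0, γ1 t - γ1 t'⟫` and the mean value theorem), and `‖γ1 t - γ1 t'‖ = ‖γ1 s - γ1 s'‖ ≤ C |s - s'|`. -/
theorem lipB (hL : Loop L γ γ1 γ2 γ3 V C) {α β : ℝ} (hA : Arc L γ1 γ2 γ3 V α β) {t0 : ℝ}
    (ht0 : t0 ∈ Ioo α β) (s0 : ℝ) (σ : ℝ) (hσ : σ = 1 ∨ σ = -1) :
    ∃ K : ℝ, ∃ δ > 0, ∀ t t' s s' : ℝ, |t - t0| < δ → |t' - t0| < δ → |s - s0| < δ →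
      |s' - s0| < δ → γ1 s = σ • γ1 t → γ1 s' = σ • γ1 t' → |t - t'| ≤ K * |s - s'| := by
  have ht0L := hA.sub t0 ht0
  have ht0V := hA.notV t0 ht0
  have hdet := hA.det t0 ht0
  have hσ1 : |σ| = 1 := by
    rcases hσ with h | h <;> rw [h] <;> simp
  have hγ2 : γ2 t0 ≠ 0 := by
    intro h
    apply hdet
    rw [h, inner_cr]
    simp
  have hn : 0 < ‖γ2 t0‖ := norm_pos_iff.mpr hγ2
  have hc2 : ContinuousAt γ2 t0 := (hL.h3 t0 ht0L ht0V).continuousAt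
  have hGc : ContinuousAt (fun t => ⟪γ2 t0, γ2 t⟫) t0 := continuousAt_const.inner hc2
  have hev : ∀ᶠ t in 𝓝 t0, ‖γ2 t0‖ ^ 2 / 2 < ⟪γ2 t0, γ2 t⟫ := by
    apply hGc.eventually_const_lt
    show ‖γ2 t0‖ ^ 2 / 2 < ⟪γ2 t0, γ2 t0⟫
    rw [real_inner_self_eq_norm_sq]
    nlinarith
  obtain ⟨δ, hδ, hball⟩ := Metric.eventually_nhds_iff.mp (hev.and (isOpen_Ioo.mem_nhds ht0))
  refine ⟨‖γ2 t0‖ * C / (‖γ2 t0‖ ^ 2 / 2), δ, hδ, fun t t' s s' ht ht' _ _ h1 h2 => ?_⟩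
  have h3 := locB_mvt (f := fun x => ⟪γ2 t0, γ1 x⟫) (f' := fun x => ⟪γ2 t0, γ2 x⟫) (t0 := t0)
    (δ := δ) (c := ‖γ2 t0‖ ^ 2 / 2) (by
      intro x hx
      have h4 := (hball (by rw [Real.dist_eq]; exact hx)).2
      exact hL.hasDerivAt_inner1 _ (hA.sub x h4) (hA.notV x h4)) (by
      intro x hx
      have h4 := (hball (y := x) (by rw [Real.dist_eq]; exact hx)).1
      exact h4.le.trans (le_abs_self _)) ht ht'
  have h5 : ‖γ1 t - γ1 t'‖ ≤ C * |s - s'| := by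
    have h6 : ‖γ1 s - γ1 s'‖ = ‖γ1 t - γ1 t'‖ := by
      rw [h1, h2, ← smul_sub, norm_smul, Real.norm_eq_abs, hσ1, one_mul]
    rw [← h6]
    exact hL.lip s s'
  have h6 : |⟪γ2 t0, γ1 t⟫ - ⟪γ2 t0, γ1 t'⟫| ≤ ‖γ2 t0‖ * (C * |s - s'|) := by
    rw [← inner_sub_right]
    exact (abs_real_inner_le_norm _ _).trans (mul_le_mul_of_nonneg_left h5 hn.le)
  rw [div_mul_eq_mul_div, le_div_iff₀ (by positivity)]
  linarith

/-- (LOCB) Parallel zeros of order at least three. Proof: with `w0 = w t0`,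
`⟪w0, γ1 s - γ1 s0⟫ = o((s - s0)²)` (Taylor: first and second derivatives `⟪w0, γ2 s0⟫`, `⟪w0, γ3 s0⟫` vanish), and
`⟪w0, γ1 t - γ1 t0⟫ = ½ ⟪w0, γ3 t0⟫ (t - t0)² + o((t - t0)²)` (`⟪w0, γ2 t0⟫ = 0`); the two are equal up to
the sign `σ`, so `(t - t0)² ≤ ε² (s - s0)²` near `(t0, s0)`. -/
theorem critB (hL : Loop L γ γ1 γ2 γ3 V C) {α β : ℝ} (hA : Arc L γ1 γ2 γ3 V α β) {t0 s0 : ℝ}
    (ht0 : t0 ∈ Ioo α β) (hs0 : s0 ∈ Ioo 0 L) (hsV : s0 ∉ V) (σ : ℝ) (hσ : σ = 1 ∨ σ = -1)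
    (hp : γ1 s0 = σ • γ1 t0) (h2 : ⟪cr (γ1 t0) (γ2 t0), γ2 s0⟫ = 0)
    (h3 : ⟪cr (γ1 t0) (γ2 t0), γ3 s0⟫ = 0) :
    ∀ ε > (0:ℝ), ∃ δ > 0, ∀ t s : ℝ, |t - t0| < δ → |s - s0| < δ →
      γ1 s = σ • γ1 t → |t - t0| ≤ ε * |s - s0| := by
  intro ε hε
  have ht0L := hA.sub t0 ht0
  have ht0V := hA.notV t0 ht0
  have hdet := hA.det t0 ht0
  have hσ1 : |σ| = 1 := by
    rcases hσ with h | h <;> rw [h] <;> simp
  set w0 := cr (γ1 t0) (γ2 t0) with hw0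
  set D : ℝ := ⟪w0, γ3 t0⟫ with hD
  have hD0 : 0 < |D| := abs_pos.mpr hdet
  have hopen : IsOpen (Ioo 0 L \ (V : Set ℝ)) := isOpen_Ioo.sdiff V.finite_toSet.isClosed
  have hnear : ∀ x0 : ℝ, x0 ∈ Ioo 0 L → x0 ∉ V →
      ∀ᶠ x in 𝓝 x0, HasDerivAt (fun x => ⟪w0, γ1 x⟫) ⟪w0, γ2 x⟫ x := by
    intro x0 hx0 hx0V
    filter_upwards [hopen.mem_nhds ⟨hx0, by simpa using hx0V⟩] with x hx
    exact hL.hasDerivAt_inner1 w0 hx.1 (by simpa using hx.2)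
  obtain ⟨δ1, hδ1, hT1⟩ := locB_taylor (hnear s0 hs0 hsV) h2
    (hL.hasDerivAt_inner2 w0 hs0 hsV) (by positivity : 0 < ε ^ 2 * (|D| / 4))
  obtain ⟨δ2, hδ2, hT2⟩ := locB_taylor (hnear t0 ht0L ht0V) (inner_cr_right _ _)
    (hL.hasDerivAt_inner2 w0 ht0L ht0V) (by positivity : 0 < |D| / 4)
  refine ⟨min δ1 δ2, lt_min hδ1 hδ2, fun t s ht hs h1 => ?_⟩
  have e1 := hT1 s (hs.trans_le (min_le_left _ _))
  have e2 := hT2 t (ht.trans_le (min_le_right _ _))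
  have z1 : ⟪w0, γ1 t0⟫ = 0 := inner_cr_left _ _
  have z2 : ⟪w0, γ1 s0⟫ = 0 := by
    rw [hp, real_inner_smul_right, z1, mul_zero]
  rw [h3, z2, zero_div, zero_mul, sub_zero, sub_zero] at e1
  rw [z1, sub_zero, ← hD] at e2
  have e3 : |⟪w0, γ1 s⟫| = |⟪w0, γ1 t⟫| := by
    rw [h1, real_inner_smul_right, abs_mul, hσ1, one_mul]
  rw [e3] at e1
  have e4 : |D| / 2 * (t - t0) ^ 2 ≤ |⟪w0, γ1 t⟫| + |D| / 4 * (t - t0) ^ 2 := by
    have e5 : |D / 2 * (t - t0) ^ 2| = |D| / 2 * (t - t0) ^ 2 := by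
      rw [abs_mul, abs_div, abs_of_nonneg (sq_nonneg (t - t0)), abs_of_pos (two_pos : (0:ℝ) < 2)]
    have e6 : |D / 2 * (t - t0) ^ 2| - |⟪w0, γ1 t⟫| ≤ |D / 2 * (t - t0) ^ 2 - ⟪w0, γ1 t⟫| :=
      abs_sub_abs_le_abs_sub _ _
    rw [abs_sub_comm, e5] at e6
    linarith
  have e5 : (t - t0) ^ 2 ≤ (ε * (s - s0)) ^ 2 := by
    have e6 : |D| / 4 * (t - t0) ^ 2 ≤ |D| / 4 * (ε * (s - s0)) ^ 2 := by
      rw [mul_pow]
      linarith
    exact le_of_mul_le_mul_left e6 (by positivity)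
  have e6 := sq_le_sq.mp e5
  rw [abs_mul, abs_of_pos hε] at e6
  exact e6

end Pool.Agent.LoopSpec
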