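import Mathlib

/-!
# MP_e9ccd1_an, space curves: null projections of plane sets (piece MEAS)
-/

set_option autoImplicit false

open MeasureTheory Set Filter Topology

namespace Pool.Agent.LoopSpec

/-- a set which is locally contained in sets with null projection has a null projection -/
private theorem null_of_local (D : Set (ℝ × ℝ))
    (h : ∀ p ∈ D, ∃ δ > (0 : ℝ), volume (Prod.fst '' (D ∩ Metric.ball p δ)) = 0) :
    volume (Prod.fst '' D) = 0 := by
  classical
  choose! δ hδ hnull using h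
  obtain ⟨t, htD, htc, hcov⟩ := TopologicalSpace.countable_cover_nhdsWithin
    (s := D) (f := fun p => D ∩ Metric.ball p (δ p))
    (fun p hp => inter_mem self_mem_nhdsWithin
      (mem_nhdsWithin_of_mem_nhds (Metric.ball_mem_nhds p (hδ p hp))))
  have hsub : Prod.fst '' D ⊆ ⋃ p ∈ t, Prod.fst '' (D ∩ Metric.ball p (δ p)) := by
    rintro _ ⟨q, hq, rfl⟩
    have := hcov hq
    simp only [mem_iUnion] at this ⊢
    obtain ⟨p, hp, hqp⟩ := this
    exact ⟨p, hp, mem_image_of_mem _ hqp⟩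
  refine measure_mono_null hsub ?_
  rw [measure_biUnion_null_iff htc]
  exact fun p hp => hnull p (htD hp)

/-- locally the set is a Lipschitz graph over the second coordinate -/
private theorem exists_graph (D' : Set (ℝ × ℝ)) (K : ℝ)
    (h : ∀ q ∈ D', ∀ q' ∈ D', |q.1 - q'.1| ≤ K * |q.2 - q'.2|) :
    ∃ g : ℝ → ℝ, (∀ q ∈ D', g q.2 = q.1) ∧
      (∀ s ∈ Prod.snd '' D', ∀ s' ∈ Prod.snd '' D', |g s - g s'| ≤ K * |s - s'|) ∧
      g '' (Prod.snd '' D') = Prod.fst '' D' := by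
  classical
  let g : ℝ → ℝ := fun s => if hs : ∃ q ∈ D', q.2 = s then hs.choose.1 else 0
  have hg : ∀ q ∈ D', g q.2 = q.1 := by
    intro q hq
    have hex : ∃ q' ∈ D', q'.2 = q.2 := ⟨q, hq, rfl⟩
    have e : g q.2 = hex.choose.1 := by
      simp only [g]
      rw [dif_pos hex]
    rw [e]
    obtain ⟨h1, h2⟩ := hex.choose_spec
    have h3 := h _ h1 q hq
    rw [h2, sub_self, abs_zero, mul_zero] at h3
    have h4 := abs_nonpos_iff.1 h3
    linarith
  refine ⟨g, hg, ?_, ?_⟩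
  · rintro _ ⟨q, hq, rfl⟩ _ ⟨q', hq', rfl⟩
    rw [hg q hq, hg q' hq']
    exact h q hq q' hq'
  · ext x
    constructor
    · rintro ⟨_, ⟨q, hq, rfl⟩, rfl⟩
      exact ⟨q, hq, (hg q hq).symm⟩
    · rintro ⟨q, hq, rfl⟩
      exact ⟨q.2, ⟨q, hq, rfl⟩, hg q hq⟩

/-- (MEAS) Proof: countable subadditivity of the outer measure `A ↦ volume (Prod.fst '' A)`
(`OuterMeasure.comap Prod.fst volume.toOuterMeasure`, `measure_null_of_locally_null`): it is enough to see
that `D ∩ U` has null projection for `U` a small ball around a point of `D`. There the first coordinate is a Lipschitz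
function of the second one (in particular determined by it), so the projection is the image of a subset of
`N` under a Lipschitz function, hence null (e.g. `LipschitzOnWith` and `hausdorffMeasure`, or
`MeasureTheory.addHaar_image_le_mul_of_det_lt`, or extend the Lipschitz function to `ℝ`). -/
theorem proj_null_lip (D : Set (ℝ × ℝ)) (N : Set ℝ) (hN : volume N = 0) (hD : ∀ p ∈ D, p.2 ∈ N)
    (h : ∀ p ∈ D, ∃ K : ℝ, ∃ δ > 0, ∀ q ∈ D, ∀ q' ∈ D, dist q p < δ → dist q' p < δ →
      |q.1 - q'.1| ≤ K * |q.2 - q'.2|) :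
    volume (Prod.fst '' D) = 0 := by
  apply null_of_local
  intro p hp
  obtain ⟨K, δ, hδ, hK⟩ := h p hp
  refine ⟨δ, hδ, ?_⟩
  obtain ⟨g, hg1, hg2, hg3⟩ := exists_graph (D ∩ Metric.ball p δ) K
    (fun q hq q' hq' => hK q hq.1 q' hq'.1 hq.2 hq'.2)
  rw [← hg3]
  set A := Prod.snd '' (D ∩ Metric.ball p δ) with hA
  have hAN : A ⊆ N := by
    rintro _ ⟨q, hq, rfl⟩
    exact hD q hq.1
  have hlip : LipschitzOnWith (Real.toNNReal K) g A := by
    apply LipschitzOnWith.of_dist_le_mul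
    intro s hs s' hs'
    rw [Real.dist_eq, Real.dist_eq]
    refine (hg2 s hs s' hs').trans ?_
    exact mul_le_mul_of_nonneg_right (Real.le_coe_toNNReal K) (abs_nonneg _)
  have h1 := hlip.hausdorffMeasure_image_le (d := 1) zero_le_one
  rw [hausdorffMeasure_real, measure_mono_null hAN hN, mul_zero] at h1
  exact le_antisymm h1 zero_le

/-- (MEAS) Proof: as before, locally `D` is the graph `t = g s` over a set `A` of parameters `s`, and `g` has
derivative `0` within `A` at every point of `A`: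
`MeasureTheory.addHaar_image_eq_zero_of_det_fderivWithin_eq_zero`. -/
theorem proj_null_crit (D : Set (ℝ × ℝ))
    (h : ∀ p ∈ D, ∃ K : ℝ, ∃ δ > 0, ∀ q ∈ D, ∀ q' ∈ D, dist q p < δ → dist q' p < δ →
      |q.1 - q'.1| ≤ K * |q.2 - q'.2|)
    (h0 : ∀ p ∈ D, ∀ ε > (0:ℝ), ∃ δ > 0, ∀ q ∈ D, dist q p < δ → |q.1 - p.1| ≤ ε * |q.2 - p.2|) :
    volume (Prod.fst '' D) = 0 := by
  apply null_of_local
  intro p hp
  obtain ⟨K, δ, hδ, hK⟩ := h p hp
  refine ⟨δ, hδ, ?_⟩
  obtain ⟨g, hg1, hg2, hg3⟩ := exists_graph (D ∩ Metric.ball p δ) K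
    (fun q hq q' hq' => hK q hq.1 q' hq'.1 hq.2 hq'.2)
  rw [← hg3]
  set A := Prod.snd '' (D ∩ Metric.ball p δ) with hA
  apply addHaar_image_eq_zero_of_det_fderivWithin_eq_zero volume
    (f := g) (s := A) (f' := fun _ => (0 : ℝ →L[ℝ] ℝ))
  · rintro _ ⟨q, hq, rfl⟩
    show HasFDerivWithinAt g (0 : ℝ →L[ℝ] ℝ) A q.2
    rw [hasFDerivWithinAt_iff_isLittleO, Asymptotics.isLittleO_iff]
    intro ε hε
    obtain ⟨η, hη, hηq⟩ := h0 q hq.1 ε hε
    have hev : ∀ᶠ s in 𝓝[A] q.2, s ∈ A ∧ |s - q.2| < η / (|K| + 1) := by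
      have h1 : ∀ᶠ s in 𝓝[A] q.2, s ∈ A := self_mem_nhdsWithin
      have h2 : ∀ᶠ s in 𝓝 q.2, |s - q.2| < η / (|K| + 1) := by
        have := Metric.ball_mem_nhds q.2 (by positivity : 0 < η / (|K| + 1))
        filter_upwards [this] with s hs
        rwa [Metric.mem_ball, Real.dist_eq] at hs
      exact h1.and (h2.filter_mono nhdsWithin_le_nhds)
    filter_upwards [hev] with s hs
    obtain ⟨⟨q', hq', rfl⟩, hs2⟩ := hs
    have e1 : g q'.2 = q'.1 := hg1 q' hq'
    have e2 : g q.2 = q.1 := hg1 q hq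
    rw [e1, e2]
    simp only [zero_apply, sub_zero, Real.norm_eq_abs]
    apply hηq q' hq'.1
    rw [Prod.dist_eq, max_lt_iff, Real.dist_eq, Real.dist_eq]
    rw [lt_div_iff₀ (by positivity)] at hs2
    have h3 := hK q' hq'.1 q hq.1 hq'.2 hq.2
    have h4 : K * |q'.2 - q.2| ≤ |K| * |q'.2 - q.2| :=
      mul_le_mul_of_nonneg_right (le_abs_self K) (abs_nonneg _)
    have h5 : 0 ≤ |K| * |q'.2 - q.2| := by positivity
    have h6 : 0 ≤ |q'.2 - q.2| := abs_nonneg _
    constructor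
    · nlinarith
    · nlinarith
  · intro x _
    show (0 : ℝ →L[ℝ] ℝ).det = 0
    rw [ContinuousLinearMap.det, ContinuousLinearMap.toLinearMap_zero]
    simp

end Pool.Agent.LoopSpec
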