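import Pool.Agent.Lib_MP_e9ccd1_s.LocA
import Pool.Agent.Lib_MP_e9ccd1_s.LocB
import Pool.Agent.Lib_MP_e9ccd1_s.Meas

/-!
# MP_e9ccd1_an, space curves: almost every parameter is good (piece TYP)
-/

set_option autoImplicit false

open MeasureTheory Set Filter Topology
open scoped RealInnerProductSpace

namespace Pool.Agent.LoopSpec

variable {L C : ℝ} {γ γ1 γ2 γ3 : ℝ → E3} {V : Finset ℝ}

private lemma typB_dist {q p : ℝ × ℝ} {δ : ℝ} (h : dist q p < δ) :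
    |q.1 - p.1| < δ ∧ |q.2 - p.2| < δ := by
  rw [Prod.dist_eq, max_lt_iff, Real.dist_eq, Real.dist_eq] at h
  exact h

private lemma typB_split (hL : Loop L γ γ1 γ2 γ3 V C) (s t : ℝ) (h : cr (γ1 s) (γ1 t) = 0) :
    γ1 s = (1 : ℝ) • γ1 t ∨ γ1 s = (-1 : ℝ) • γ1 t := by
  rcases eq_or_neg_of_cr (hL.unit s) (hL.unit t) h with h1 | h1
  · left
    rw [h1, one_smul]
  · right
    rw [h1, neg_one_smul]

/-- (TYP) Proof: split the pairs `(t, s)` into nonparallel ones (`cr (γ1 s) (γ1 t) ≠ 0`) and those with `γ1 s = ± γ1 t`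
(`eq_or_neg_of_cr`); `proj_null_lip` with `lipA`, `lipB`. -/
theorem typ_null (hL : Loop L γ γ1 γ2 γ3 V C) {α β : ℝ} (hA : Arc L γ1 γ2 γ3 V α β) {N : Set ℝ}
    (hN : volume N = 0) :
    volume {t | t ∈ Ioo α β ∧ ∃ s ∈ N, ⟪cr (γ1 t) (γ2 t), γ1 s⟫ = 0} = 0 := by
  set D1 : Set (ℝ × ℝ) := {p | p.1 ∈ Ioo α β ∧ p.2 ∈ N ∧
    ⟪cr (γ1 p.1) (γ2 p.1), γ1 p.2⟫ = 0 ∧ cr (γ1 p.2) (γ1 p.1) ≠ 0} with hD1
  set D2 : ℝ → Set (ℝ × ℝ) := fun σ => {p | p.1 ∈ Ioo α β ∧ p.2 ∈ N ∧ γ1 p.2 = σ • γ1 p.1} with hD2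
  have h1 : volume (Prod.fst '' D1) = 0 := by
    refine proj_null_lip D1 N hN (fun p hp => hp.2.1) ?_
    intro p hp
    obtain ⟨K, δ, hδ, h⟩ := lipA hL hA hp.1 hp.2.2.1 hp.2.2.2
    refine ⟨K, δ, hδ, fun q hq q' hq' hd hd' => ?_⟩
    exact h _ _ _ _ (typB_dist hd).1 (typB_dist hd').1 (typB_dist hd).2 (typB_dist hd').2
      hq.2.2.1 hq'.2.2.1
  have h2 : ∀ σ : ℝ, σ = 1 ∨ σ = -1 → volume (Prod.fst '' (D2 σ)) = 0 := by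
    intro σ hσ
    refine proj_null_lip (D2 σ) N hN (fun p hp => hp.2.1) ?_
    intro p hp
    obtain ⟨K, δ, hδ, h⟩ := lipB hL hA hp.1 p.2 σ hσ
    refine ⟨K, δ, hδ, fun q hq q' hq' hd hd' => ?_⟩
    exact h _ _ _ _ (typB_dist hd).1 (typB_dist hd').1 (typB_dist hd).2 (typB_dist hd').2
      hq.2.2 hq'.2.2
  refine measure_mono_null ?_ (measure_union_null h1
    (measure_union_null (h2 1 (Or.inl rfl)) (h2 (-1) (Or.inr rfl))))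
  rintro t ⟨ht, s, hs, h0⟩
  by_cases hc : cr (γ1 s) (γ1 t) = 0
  · right
    rcases typB_split hL s t hc with h | h
    · left
      exact ⟨(t, s), ⟨ht, hs, h⟩, rfl⟩
    · right
      exact ⟨(t, s), ⟨ht, hs, h⟩, rfl⟩
  · left
    exact ⟨(t, s), ⟨ht, hs, h0, hc⟩, rfl⟩

/-- (TYP) Proof: same splitting; `proj_null_crit` with `lipA`, `critA`, `lipB`, `critB`. -/
theorem typ_order (hL : Loop L γ γ1 γ2 γ3 V C) {α β : ℝ} (hA : Arc L γ1 γ2 γ3 V α β) :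
    volume {t | t ∈ Ioo α β ∧ ∃ s ∈ Ioo 0 L, s ∉ V ∧ ⟪cr (γ1 t) (γ2 t), γ1 s⟫ = 0 ∧
      ⟪cr (γ1 t) (γ2 t), γ2 s⟫ = 0 ∧ ⟪cr (γ1 t) (γ2 t), γ3 s⟫ = 0} = 0 := by
  set D1 : Set (ℝ × ℝ) := {p | p.1 ∈ Ioo α β ∧ (p.2 ∈ Ioo 0 L ∧ p.2 ∉ V) ∧
    ⟪cr (γ1 p.1) (γ2 p.1), γ1 p.2⟫ = 0 ∧ ⟪cr (γ1 p.1) (γ2 p.1), γ2 p.2⟫ = 0 ∧
    cr (γ1 p.2) (γ1 p.1) ≠ 0} with hD1
  set D2 : ℝ → Set (ℝ × ℝ) := fun σ => {p | p.1 ∈ Ioo α β ∧ (p.2 ∈ Ioo 0 L ∧ p.2 ∉ V) ∧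
    γ1 p.2 = σ • γ1 p.1 ∧ ⟪cr (γ1 p.1) (γ2 p.1), γ2 p.2⟫ = 0 ∧
    ⟪cr (γ1 p.1) (γ2 p.1), γ3 p.2⟫ = 0} with hD2
  have h1 : volume (Prod.fst '' D1) = 0 := by
    refine proj_null_crit D1 ?_ ?_
    · intro p hp
      obtain ⟨K, δ, hδ, h⟩ := lipA hL hA hp.1 hp.2.2.1 hp.2.2.2.2
      refine ⟨K, δ, hδ, fun q hq q' hq' hd hd' => ?_⟩
      exact h _ _ _ _ (typB_dist hd).1 (typB_dist hd').1 (typB_dist hd).2 (typB_dist hd').2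
        hq.2.2.1 hq'.2.2.1
    · intro p hp ε hε
      obtain ⟨δ, hδ, h⟩ := critA hL hA hp.1 hp.2.1.1 hp.2.1.2 hp.2.2.1 hp.2.2.2.1 hp.2.2.2.2 ε hε
      refine ⟨δ, hδ, fun q hq hd => ?_⟩
      exact h _ _ (typB_dist hd).1 (typB_dist hd).2 hq.2.2.1
  have h2 : ∀ σ : ℝ, σ = 1 ∨ σ = -1 → volume (Prod.fst '' (D2 σ)) = 0 := by
    intro σ hσ
    refine proj_null_crit (D2 σ) ?_ ?_
    · intro p hp
      obtain ⟨K, δ, hδ, h⟩ := lipB hL hA hp.1 p.2 σ hσ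
      refine ⟨K, δ, hδ, fun q hq q' hq' hd hd' => ?_⟩
      exact h _ _ _ _ (typB_dist hd).1 (typB_dist hd').1 (typB_dist hd).2 (typB_dist hd').2
        hq.2.2.1 hq'.2.2.1
    · intro p hp ε hε
      obtain ⟨δ, hδ, h⟩ := critB hL hA hp.1 hp.2.1.1 hp.2.1.2 σ hσ hp.2.2.1 hp.2.2.2.1
        hp.2.2.2.2 ε hε
      refine ⟨δ, hδ, fun q hq hd => ?_⟩
      exact h _ _ (typB_dist hd).1 (typB_dist hd).2 hq.2.2.1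
  refine measure_mono_null ?_ (measure_union_null h1
    (measure_union_null (h2 1 (Or.inl rfl)) (h2 (-1) (Or.inr rfl))))
  rintro t ⟨ht, s, hs, hsV, h0, h2', h3'⟩
  by_cases hc : cr (γ1 s) (γ1 t) = 0
  · right
    rcases typB_split hL s t hc with h | h
    · left
      exact ⟨(t, s), ⟨ht, ⟨hs, hsV⟩, h, h2', h3'⟩, rfl⟩
    · right
      exact ⟨(t, s), ⟨ht, ⟨hs, hsV⟩, h, h2', h3'⟩, rfl⟩
  · left
    exact ⟨(t, s), ⟨ht, ⟨hs, hsV⟩, h0, h2', hc⟩, rfl⟩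

end Pool.Agent.LoopSpec
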