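import Pool.Agent.Lib_MP_e9ccd1_s.Dir
import Pool.Agent.Lib_MP_e9ccd1_s.Typ
import Pool.Agent.Lib_MP_e9ccd1_s.Rel
import Pool.Agent.Lib_MP_e9ccd1_s.Indep

/-!
# MP_e9ccd1_an, space curves: curves with torsion (assembly)
-/

set_option autoImplicit false

open MeasureTheory Set Filter Topology
open scoped RealInnerProductSpace
open Pool.Agent.CurveSpec (ex BM norm_ex ex_zero ex_add conj_ex continuous_ex)

namespace Pool.Agent.LoopSpec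

variable {ι : Type*} {L C : ℝ} {γ γ1 γ2 γ3 : ℝ → E3} {V : Finset ℝ} {lam : ι → E3}

/-- limit direction -/
theorem exists_dir [Countable ι] (hL : Loop L γ γ1 γ2 γ3 V C) (hF : ONB L γ lam) {t0 : ℝ}
    (ht0 : t0 ∈ Ioo 0 L) (htV : t0 ∉ V) :
    ∃ (θ : E3) (k : ℕ → ι), Dirs (fun n => lam (k n)) θ ∧ ⟪θ, γ1 t0⟫ = 0 ∧ ⟪θ, γ2 t0⟫ = 0 := by
  have h := fun n : ℕ => direction hL hF ht0 htV (1 / ((n : ℝ) + 1)) (by positivity) ((n : ℝ) + 1)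
  choose k hk1 hk2 hk3 using h
  have hpos : ∀ n, 0 < ‖lam (k n)‖ := fun n =>
    lt_of_lt_of_le (by positivity : (0:ℝ) < (n:ℝ) + 1) (hk1 n)
  set u : ℕ → E3 := fun n => (‖lam (k n)‖)⁻¹ • lam (k n) with hu
  have hun : ∀ n, u n ∈ Metric.sphere (0 : E3) 1 := by
    intro n
    rw [mem_sphere_zero_iff_norm, hu]
    dsimp only
    rw [norm_smul, norm_inv, norm_norm, inv_mul_cancel₀ (hpos n).ne']
  obtain ⟨θ, hθ, φ, hφ, hlim⟩ := (isCompact_sphere (0 : E3) 1).tendsto_subseq hun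
  have hinf : Tendsto (fun n => ‖lam (k n)‖) atTop atTop := by
    refine tendsto_atTop_mono (fun n => ?_) tendsto_natCast_atTop_atTop
    linarith [hk1 n]
  have key : ∀ x : E3, (∀ n, |⟪lam (k n), x⟫| ≤ 1 / ((n : ℝ) + 1) * ‖lam (k n)‖) → ⟪θ, x⟫ = 0 := by
    intro x hx
    have h1 : Tendsto (fun n => ⟪u (φ n), x⟫) atTop (𝓝 ⟪θ, x⟫) := hlim.inner tendsto_const_nhds
    have h2 : Tendsto (fun n => ⟪u n, x⟫) atTop (𝓝 0) := by
      refine squeeze_zero_norm (a := fun n : ℕ => 1 / ((n : ℝ) + 1)) (fun n => ?_)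
        tendsto_one_div_add_atTop_nhds_zero_nat
      rw [hu]
      dsimp only
      rw [real_inner_smul_left, norm_mul, norm_inv, norm_norm, Real.norm_eq_abs]
      rw [inv_mul_le_iff₀ (hpos n)]
      have := hx n
      linarith [mul_comm (1 / ((n : ℝ) + 1)) ‖lam (k n)‖]
    exact tendsto_nhds_unique h1 (h2.comp hφ.tendsto_atTop)
  refine ⟨θ, fun n => k (φ n), ⟨mem_sphere_zero_iff_norm.1 hθ, hinf.comp hφ.tendsto_atTop, hlim⟩,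
    key _ hk2, key _ hk3⟩

/-- a spectral curve has zero torsion -/
theorem coreB [Countable ι] (hL : Loop L γ γ1 γ2 γ3 V C) (hF : ONB L γ lam) {t : ℝ}
    (ht : t ∈ Ioo 0 L) (htV : t ∉ V) : ⟪cr (γ1 t) (γ2 t), γ3 t⟫ = 0 := by
  by_contra hdet
  -- an arc around `t`
  have hopen : IsOpen (Ioo 0 L \ (V : Set ℝ)) := isOpen_Ioo.sdiff V.finite_toSet.isClosed
  have hmem : t ∈ Ioo 0 L \ (V : Set ℝ) := ⟨ht, by simpa using htV⟩
  have hcont : ContinuousAt (fun s => ⟪cr (γ1 s) (γ2 s), γ3 s⟫) t := by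
    have h3 : ContinuousAt γ3 t := hL.c3.continuousAt (hopen.mem_nhds hmem)
    have h2 : ContinuousAt γ2 t := (hL.h3 t ht htV).continuousAt
    have h1 : ContinuousAt γ1 t := hL.contγ1.continuousAt
    exact (continuous_cr.continuousAt.comp (h1.prodMk h2)).inner h3
  have hev : ∀ᶠ s in 𝓝 t, s ∈ Ioo 0 L \ (V : Set ℝ) ∧ ⟪cr (γ1 s) (γ2 s), γ3 s⟫ ≠ 0 :=
    Filter.Eventually.and (hopen.mem_nhds hmem) (hcont.eventually_ne hdet)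
  obtain ⟨δ, hδ, hball⟩ := Metric.eventually_nhds_iff.1 hev
  set α := t - δ with hα
  set β := t + δ with hβ
  have hin : ∀ s ∈ Ioo α β, s ∈ Ioo 0 L \ (V : Set ℝ) ∧ ⟪cr (γ1 s) (γ2 s), γ3 s⟫ ≠ 0 := by
    intro s hs
    apply hball
    rw [Real.dist_eq, abs_lt]
    constructor <;> [linarith [hs.1]; linarith [hs.2]]
  have hA : Arc L γ1 γ2 γ3 V α β :=
    ⟨fun s hs => (hin s hs).1.1, fun s hs => by simpa using (hin s hs).1.2,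
      fun s hs => (hin s hs).2⟩
  obtain ⟨N, hN, hind⟩ := indep hL.Lpos hL.contγ hF
  have hγ1ne : ∀ s, γ1 s ≠ 0 := fun s h => by
    have := hL.unit s
    rw [h, norm_zero] at this
    exact zero_ne_one this
  -- bad parameters
  have hbad1 : volume (⋃ v ∈ (V : Set ℝ), {s | s ∈ Ioo α β ∧ ⟪cr (γ1 s) (γ2 s), γ1 v⟫ = 0}) = 0 := by
    rw [measure_biUnion_null_iff V.countable_toSet]
    intro v _
    exact typ_avoid hL hA (hγ1ne v)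
  have hbad2 := typ_null hL hA hN
  have hbad3 := typ_order hL hA
  have hbad := measure_union_null (measure_union_null hbad1 hbad2) hbad3
  have hpos : 0 < volume (Ioo α β) := by
    rw [Real.volume_Ioo]
    simp only [ENNReal.ofReal_pos]
    linarith
  obtain ⟨s0, hs0, hgood⟩ : ∃ s0 ∈ Ioo α β, s0 ∉
      ((⋃ v ∈ (V : Set ℝ), {s | s ∈ Ioo α β ∧ ⟪cr (γ1 s) (γ2 s), γ1 v⟫ = 0}) ∪
        {s | s ∈ Ioo α β ∧ ∃ x ∈ N, ⟪cr (γ1 s) (γ2 s), γ1 x⟫ = 0}) ∪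
        {s | s ∈ Ioo α β ∧ ∃ x ∈ Ioo 0 L, x ∉ V ∧ ⟪cr (γ1 s) (γ2 s), γ1 x⟫ = 0 ∧
          ⟪cr (γ1 s) (γ2 s), γ2 x⟫ = 0 ∧ ⟪cr (γ1 s) (γ2 s), γ3 x⟫ = 0} := by
    by_contra hcon
    push Not at hcon
    exact absurd (measure_mono_null hcon hbad) hpos.ne'
  have hg1 : ∀ v ∈ V, ⟪cr (γ1 s0) (γ2 s0), γ1 v⟫ ≠ 0 := by
    intro v hv h0
    exact hgood (Or.inl (Or.inl (mem_biUnion (show v ∈ (V : Set ℝ) from hv) ⟨hs0, h0⟩)))
  have hg2 : ∀ x ∈ N, ⟪cr (γ1 s0) (γ2 s0), γ1 x⟫ ≠ 0 := fun x hx h0 =>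
    hgood (Or.inl (Or.inr ⟨hs0, x, hx, h0⟩))
  have hg3 : ∀ x ∈ Ioo 0 L, x ∉ V → ⟪cr (γ1 s0) (γ2 s0), γ1 x⟫ = 0 →
      ⟪cr (γ1 s0) (γ2 s0), γ2 x⟫ = 0 → ⟪cr (γ1 s0) (γ2 s0), γ3 x⟫ ≠ 0 :=
    fun x hx hxV h1 h2 h3 => hgood (Or.inr ⟨hs0, x, hx, hxV, h1, h2, h3⟩)
  -- the limit direction
  obtain ⟨θ, k, hk, hθ1, hθ2⟩ := exists_dir hL hF (hA.sub s0 hs0) (hA.notV s0 hs0)
  have hcr : cr (γ1 s0) (γ2 s0) ≠ 0 := by
    intro h
    apply hA.det s0 hs0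
    rw [h, inner_zero_left]
  have hiff : ∀ z : E3, ⟪θ, z⟫ = 0 ↔ ⟪cr (γ1 s0) (γ2 s0), z⟫ = 0 :=
    inner_eq_zero_iff_of_orth hk.unit hcr hθ1 hθ2
  obtain ⟨Z, a, hZ, ⟨z, hz, haz⟩, hrel⟩ := relation hL hF k hk
    (fun v hv _ h => hg1 v hv ((hiff _).1 h))
    (fun x hx hxV h => by
      by_cases h2 : ⟪θ, γ2 x⟫ = 0
      · right
        intro h3
        exact hg3 x hx hxV ((hiff _).1 h) ((hiff _).1 h2) ((hiff _).1 h3)
      · left; exact h2)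
  refine haz (hind Z a (fun x hx => ⟨(hZ x hx).1, fun hxN => ?_⟩) hrel z hz)
  exact hg2 x hxN ((hiff _).1 (hZ x hx).2.2)

end Pool.Agent.LoopSpec
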