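import Pool.Agent.Lib_MP_e9ccd1_s.CountA

/-!
# MP_e9ccd1_an, space curves: counting frequencies (pieces COUNTA, COUNTB, COUNTC)
-/

set_option autoImplicit false

open MeasureTheory Set Filter Topology
open scoped RealInnerProductSpace
open Pool.Agent.CurveSpec (ex BM norm_ex ex_zero ex_add conj_ex continuous_ex)

namespace Pool.Agent.LoopSpec

variable {E : Type*} [NormedAddCommGroup E] [InnerProductSpace ℝ E]
variable {ι : Type*} {L C : ℝ} {γ γ1 γ2 γ3 : ℝ → E} {V : Finset ℝ} {lam : ι → E}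

private lemma countB_slope (hL : Loop L γ γ1 γ2 γ3 V C) (l : E) (s t : ℝ) :
    |⟪l, γ1 s⟫ - ⟪l, γ1 t⟫| ≤ ‖l‖ * (C * |s - t|) := by
  rw [← inner_sub_right]
  exact (abs_real_inner_le_norm _ _).trans
    (mul_le_mul_of_nonneg_left (hL.lip s t) (norm_nonneg _))

/-- the phase varies little on a window where the slope is small at the left end -/
private lemma countB_phase (hL : Loop L γ γ1 γ2 γ3 V C) (l : E) {τ ℓ A : ℝ} (hℓ : 0 ≤ ℓ)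
    (hA : |⟪l, γ1 τ⟫| ≤ A) (hs : (A + ‖l‖ * (C * ℓ)) * ℓ ≤ 1 / 8) {t : ℝ}
    (ht : t ∈ Icc τ (τ + ℓ)) : |-⟪l, γ t⟫ - -⟪l, γ τ⟫| ≤ 1 / 8 := by
  have hC0 : 0 ≤ C := by linarith [hL.Cpos]
  have hA0 : 0 ≤ A := (abs_nonneg _).trans hA
  have hbd : ∀ s ∈ Icc τ (τ + ℓ), ‖⟪l, γ1 s⟫‖ ≤ A + ‖l‖ * (C * ℓ) := by
    intro s hs
    have h1 := countB_slope hL l s τ
    have h2 : |s - τ| ≤ ℓ := by
      rw [abs_of_nonneg (by linarith [hs.1])]
      linarith [hs.2]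
    have h3 : ‖l‖ * (C * |s - τ|) ≤ ‖l‖ * (C * ℓ) :=
      mul_le_mul_of_nonneg_left (mul_le_mul_of_nonneg_left h2 hC0) (norm_nonneg _)
    have h4 : |⟪l, γ1 s⟫| ≤ |⟪l, γ1 s⟫ - ⟪l, γ1 τ⟫| + |⟪l, γ1 τ⟫| := by
      have := abs_add_le (⟪l, γ1 s⟫ - ⟪l, γ1 τ⟫) ⟪l, γ1 τ⟫
      simpa using this
    rw [Real.norm_eq_abs]
    linarith
  have hmv := Convex.norm_image_sub_le_of_norm_hasDerivWithin_le
    (f := fun s => ⟪l, γ s⟫) (f' := fun s => ⟪l, γ1 s⟫) (s := Icc τ (τ + ℓ))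
    (C := A + ‖l‖ * (C * ℓ)) (x := τ) (y := t)
    (fun x _ => (hL.hasDerivAt_inner l x).hasDerivWithinAt) hbd (convex_Icc _ _)
    ⟨le_rfl, by linarith⟩ ht
  have h5 : ‖t - τ‖ ≤ ℓ := by
    rw [Real.norm_eq_abs, abs_of_nonneg (by linarith [ht.1])]
    linarith [ht.2]
  have h6 : (A + ‖l‖ * (C * ℓ)) * ‖t - τ‖ ≤ (A + ‖l‖ * (C * ℓ)) * ℓ :=
    mul_le_mul_of_nonneg_left h5 (by positivity)
  have h7 : |-⟪l, γ t⟫ - -⟪l, γ τ⟫| = ‖⟪l, γ t⟫ - ⟪l, γ τ⟫‖ := by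
    rw [Real.norm_eq_abs, ← abs_neg]
    congr 1
    ring
  rw [h7]
  linarith

/-- a subinterval of `[0, L - ℓ]` of length `w / 2` on which the slope is at most `A` -/
private lemma countB_interval (hL : Loop L γ γ1 γ2 γ3 V C) (l : E) {ℓ w A : ℝ}
    (hℓ : 0 ≤ ℓ) (hℓL : ℓ ≤ L / 4) (hw : 2 * ℓ ≤ w) (hwL : w ≤ L / 4)
    (hA : ‖l‖ * (C * w) ≤ A) :
    ∃ a b : ℝ, 0 ≤ a ∧ b ≤ L - ℓ ∧ b - a = w / 2 ∧ ∀ τ ∈ Icc a b, |⟪l, γ1 τ⟫| ≤ A := by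
  obtain ⟨τ0, hτ0, hz⟩ := hL.exists_zero l
  have hC0 : 0 ≤ C := by linarith [hL.Cpos]
  have hLpos := hL.Lpos
  have key : ∀ τ : ℝ, |τ - τ0| ≤ w → |⟪l, γ1 τ⟫| ≤ A := by
    intro τ hτ
    have h1 := countB_slope hL l τ τ0
    rw [hz, sub_zero] at h1
    exact h1.trans ((mul_le_mul_of_nonneg_left (mul_le_mul_of_nonneg_left hτ hC0)
      (norm_nonneg _)).trans hA)
  rcases le_total τ0 (L / 2) with h | h
  · refine ⟨τ0, τ0 + w / 2, hτ0.1.le, by linarith, by ring, fun τ hτ => key τ ?_⟩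
    rw [abs_of_nonneg (by linarith [hτ.1])]
    linarith [hτ.2]
  · refine ⟨τ0 - w, τ0 - w / 2, by linarith, by linarith [hτ0.2], by ring, fun τ hτ => key τ ?_⟩
    rw [abs_of_nonpos (by linarith [hτ.2])]
    linarith [hτ.1]

private lemma countB_cont {g : ℝ → ℂ} (hg : Continuous g) (ℓ : ℝ) :
    Continuous (fun τ => ‖∫ t in τ..(τ + ℓ), g t‖ ^ 2) := by
  have hii : ∀ a b : ℝ, IntervalIntegrable g volume a b := fun a b => hg.intervalIntegrable a b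
  have h1 : (fun τ => ‖∫ t in τ..(τ + ℓ), g t‖ ^ 2) =
      fun τ => ‖(∫ t in (0:ℝ)..(τ + ℓ), g t) - ∫ t in (0:ℝ)..τ, g t‖ ^ 2 := by
    funext τ
    rw [intervalIntegral.integral_interval_sub_left (hii _ _) (hii _ _)]
  rw [h1]
  have h2 : Continuous (fun x : ℝ => ∫ t in (0:ℝ)..x, g t) :=
    intervalIntegral.continuous_primitive hii 0
  exact (((h2.comp (continuous_id.add continuous_const)).sub h2).norm.pow 2)

/-- (COUNTB) Proof. Constants: `c1 = 1/(32 C)`, window length `ℓ = c1 / r` (`r ≥ 1`; also `≤ L/4`, shrink `c1`),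
`δ = 1/(32 c1)`.
If `|⟪lam i, γ1 τ⟫| ≤ δ r` and `‖lam i‖ ≤ ε r²` then for `t ∈ [τ, τ+ℓ]`
`|⟪lam i, γ t - γ τ⟫| ≤ δ r ℓ + ‖lam i‖ C ℓ² ≤ 1/8`, so `no_cancel` gives `‖∫_τ^{τ+ℓ}‖² ≥ ℓ²/4`.
By `Loop.exists_zero` there is `τ0 ∈ (0, L)` with `⟪lam i, γ1 τ0⟫ = 0`, and `|⟪lam i, γ1 τ⟫| ≤ δ r` for
`|τ - τ0| ≤ δ r/(C ‖lam i‖) =: w` (`w ≥ 2 ℓ` if `‖lam i‖ ≤ ε r²`, `ε` small, and `w ≤ L/4`, shrink `δ`), so
the set of such `τ` in `[0, L - ℓ]` has measure at least `w/2`. Integrate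
`∑_{i ∈ S} ‖∫_τ^{τ+ℓ} ex(-⟪lam i, γ⟫)‖² ≤ L ℓ` (`ONB.par_one`) over `τ ∈ [0, L - ℓ]`:
`∑_{i∈S} (ℓ²/4) (δ r/(2 C ‖lam i‖)) ≤ L² ℓ`, i.e. `∑ 1/‖lam i‖ ≤ 8 C L²/(δ r ℓ) = 8 C L²/(δ c1)`. -/
theorem sum_inv (hL : Loop L γ γ1 γ2 γ3 V C) (hF : ONB L γ lam) :
    ∃ K > 0, ∃ ε > 0, ∀ r ≥ (1:ℝ), ∀ S : Finset ι,
      (∀ i ∈ S, r ≤ ‖lam i‖ ∧ ‖lam i‖ ≤ ε * r ^ 2) → ∑ i ∈ S, 1 / ‖lam i‖ ≤ K := by
  have hLpos := hL.Lpos
  have hC1 := hL.Cpos
  have hC0 : 0 < C := by linarith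
  obtain ⟨c, hc0, hcL⟩ : ∃ c : ℝ, 0 < c ∧ c ≤ L / 4 := ⟨L / 4, by positivity, le_rfl⟩
  obtain ⟨δ, hδ0, hδ1, hδ2⟩ : ∃ δ : ℝ, 0 < δ ∧ δ * c ≤ 1 / 32 ∧ δ ≤ C * (L / 4) := by
    refine ⟨min (1 / (32 * c)) (C * (L / 4)), by positivity, ?_, min_le_right _ _⟩
    have h1 : min (1 / (32 * c)) (C * (L / 4)) * c ≤ 1 / (32 * c) * c :=
      mul_le_mul_of_nonneg_right (min_le_left _ _) hc0.le
    have h2 : 1 / (32 * c) * c = 1 / 32 := by field_simp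
    linarith
  obtain ⟨ε, hε0, hε1, hε2⟩ : ∃ ε : ℝ, 0 < ε ∧ ε * (C * c ^ 2) ≤ 1 / 32 ∧
      2 * c * (C * ε) ≤ δ := by
    refine ⟨min (1 / (32 * (C * c ^ 2))) (δ / (2 * c * C)), by positivity, ?_, ?_⟩
    · have h1 : min (1 / (32 * (C * c ^ 2))) (δ / (2 * c * C)) * (C * c ^ 2) ≤
          1 / (32 * (C * c ^ 2)) * (C * c ^ 2) :=
        mul_le_mul_of_nonneg_right (min_le_left _ _) (by positivity)
      have h2 : 1 / (32 * (C * c ^ 2)) * (C * c ^ 2) = 1 / 32 := by field_simp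
      linarith
    · have h1 : min (1 / (32 * (C * c ^ 2))) (δ / (2 * c * C)) * (2 * c * C) ≤
          δ / (2 * c * C) * (2 * c * C) :=
        mul_le_mul_of_nonneg_right (min_le_right _ _) (by positivity)
      have h2 : δ / (2 * c * C) * (2 * c * C) = δ := by field_simp
      nlinarith
  refine ⟨8 * C * L ^ 2 / (δ * c), by positivity, ε, hε0, fun r hr S hS => ?_⟩
  have hr0 : 0 < r := by linarith
  set ℓ : ℝ := c / r with hℓdef
  have hℓ0 : 0 < ℓ := by positivity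
  have hℓr : ℓ * r = c := by rw [hℓdef]; field_simp
  have hℓL : ℓ ≤ L / 4 := by
    have : ℓ ≤ c := by
      rw [hℓdef]
      exact div_le_self hc0.le hr
    linarith
  set F : ι → ℝ → ℝ := fun i τ => ‖∫ t in τ..(τ + ℓ), ex (-⟪lam i, γ t⟫)‖ ^ 2 with hFdef
  have hcontg : ∀ i, Continuous (fun t => ex (-⟪lam i, γ t⟫)) := fun i =>
    continuous_ex.comp (continuous_const.inner hL.contγ).neg
  have hFc : ∀ i, Continuous (F i) := fun i => countB_cont (hcontg i) ℓ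
  have hFn : ∀ i τ, 0 ≤ F i τ := fun i τ => sq_nonneg _
  -- upper bound
  have hup : ∑ i ∈ S, ∫ τ in (0:ℝ)..(L - ℓ), F i τ ≤ L ^ 2 * ℓ := by
    rw [← intervalIntegral.integral_finsetSum
      (fun i _ => (hFc i).intervalIntegrable _ _)]
    have h1 : ∫ τ in (0:ℝ)..(L - ℓ), ∑ i ∈ S, F i τ ≤ ∫ _ in (0:ℝ)..(L - ℓ), L * ℓ := by
      refine intervalIntegral.integral_mono_on (by linarith)
        ((continuous_finsetSum S fun i _ => hFc i).intervalIntegrable _ _)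
        (continuous_const.intervalIntegrable _ _) fun τ hτ => ?_
      have h2 := hF.par_one (a := τ) (b := τ + ℓ) hτ.1 (by linarith) (by linarith [hτ.2])
      have h3 := sum_le_hasSum S (fun i _ => sq_nonneg _) h2
      simpa using h3
    refine h1.trans ?_
    rw [intervalIntegral.integral_const, smul_eq_mul, sub_zero]
    nlinarith [mul_pos hLpos hℓ0]
  -- lower bound
  have hlow : ∀ i ∈ S, δ * r / (C * ‖lam i‖) / 2 * (ℓ / 2) ^ 2 ≤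
      ∫ τ in (0:ℝ)..(L - ℓ), F i τ := by
    intro i hi
    obtain ⟨hi1, hi2⟩ := hS i hi
    have hl0 : 0 < ‖lam i‖ := by linarith
    set w : ℝ := δ * r / (C * ‖lam i‖) with hwdef
    have hw0 : 0 < w := by positivity
    have hwl : ‖lam i‖ * (C * w) = δ * r := by
      rw [hwdef]; field_simp
    have hw1 : 2 * ℓ ≤ w := by
      rw [hwdef, le_div_iff₀ (by positivity)]
      have h1 : C * ‖lam i‖ ≤ C * (ε * r ^ 2) := mul_le_mul_of_nonneg_left hi2 hC0.le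
      have h2 : 2 * ℓ * (C * ‖lam i‖) ≤ 2 * ℓ * (C * (ε * r ^ 2)) :=
        mul_le_mul_of_nonneg_left h1 (by positivity)
      have h3 : 2 * ℓ * (C * (ε * r ^ 2)) = (2 * (ℓ * r) * (C * ε)) * r := by ring
      rw [h3, hℓr] at h2
      exact h2.trans (mul_le_mul_of_nonneg_right hε2 hr0.le)
    have hw2 : w ≤ L / 4 := by
      rw [hwdef, div_le_iff₀ (by positivity)]
      have h1 : δ * r ≤ C * (L / 4) * r := mul_le_mul_of_nonneg_right hδ2 hr0.le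
      have h2 : C * (L / 4) * r ≤ C * (L / 4) * ‖lam i‖ :=
        mul_le_mul_of_nonneg_left hi1 (by positivity)
      linarith
    obtain ⟨a, b, ha, hb, hab, hsl⟩ := countB_interval hL (lam i) (A := δ * r) hℓ0.le hℓL hw1 hw2
      hwl.le
    have hab' : a ≤ b := by linarith
    have hbound : ∀ τ ∈ Icc a b, (ℓ / 2) ^ 2 ≤ F i τ := by
      intro τ hτ
      have hsmall : (δ * r + ‖lam i‖ * (C * ℓ)) * ℓ ≤ 1 / 8 := by
        have h1 : (δ * r + ‖lam i‖ * (C * ℓ)) * ℓ = δ * (ℓ * r) + ‖lam i‖ * (C * ℓ ^ 2) := by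
          ring
        have h2 : ‖lam i‖ * (C * ℓ ^ 2) ≤ ε * r ^ 2 * (C * ℓ ^ 2) :=
          mul_le_mul_of_nonneg_right hi2 (by positivity)
        have h3 : ε * r ^ 2 * (C * ℓ ^ 2) = ε * (C * (ℓ * r) ^ 2) := by ring
        rw [h1, hℓr]
        rw [h3, hℓr] at h2
        linarith
      have hn := no_cancel (a := τ) hℓ0.le (ψ := fun t => -⟪lam i, γ t⟫)
        (continuous_const.inner hL.contγ).neg
        (fun t ht => countB_phase hL (lam i) hℓ0.le (hsl τ hτ) hsmall ht)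
      exact pow_le_pow_left₀ (by positivity) hn 2
    have h1 : ∫ _ in a..b, (ℓ / 2) ^ 2 ≤ ∫ τ in a..b, F i τ :=
      intervalIntegral.integral_mono_on hab' (continuous_const.intervalIntegrable _ _)
        ((hFc i).intervalIntegrable _ _) hbound
    rw [intervalIntegral.integral_const, smul_eq_mul, hab] at h1
    have h2 : ∫ τ in a..b, F i τ ≤ ∫ τ in (0:ℝ)..(L - ℓ), F i τ :=
      intervalIntegral.integral_mono_interval ha hab' hb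
        (Filter.Eventually.of_forall fun τ => hFn i τ) ((hFc i).intervalIntegrable _ _)
    exact h1.trans h2
  have hsum : ∑ i ∈ S, δ * r / (C * ‖lam i‖) / 2 * (ℓ / 2) ^ 2 ≤ L ^ 2 * ℓ :=
    (Finset.sum_le_sum hlow).trans hup
  have hrw : ∑ i ∈ S, δ * r / (C * ‖lam i‖) / 2 * (ℓ / 2) ^ 2 =
      (δ * (ℓ * r) * ℓ / (8 * C)) * ∑ i ∈ S, 1 / ‖lam i‖ := by
    rw [Finset.mul_sum]
    refine Finset.sum_congr rfl fun i hi => ?_
    have hl0 : 0 < ‖lam i‖ := by linarith [(hS i hi).1]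
    field_simp
    ring
  rw [hrw, hℓr] at hsum
  have hfac : 0 < δ * c * ℓ / (8 * C) := by positivity
  rw [le_div_iff₀ (by positivity)]
  have h9 : δ * c * ℓ / (8 * C) * ∑ i ∈ S, 1 / ‖lam i‖ =
      (∑ i ∈ S, 1 / ‖lam i‖) * (δ * c) * (ℓ / (8 * C)) := by ring
  rw [h9] at hsum
  have h10 : L ^ 2 * ℓ = 8 * C * L ^ 2 * (ℓ / (8 * C)) := by field_simp
  rw [h10] at hsum
  exact le_of_mul_le_mul_right hsum (by positivity)

end Pool.Agent.LoopSpec
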