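import Pool.Agent.Lib_MP_e9ccd1_s.CountB

/-!
# MP_e9ccd1_an, space curves: counting frequencies (pieces COUNTA, COUNTB, COUNTC)
-/

set_option autoImplicit false

open MeasureTheory Set Filter Topology
open scoped RealInnerProductSpace
open Pool.Agent.CurveSpec (ex BM norm_ex ex_zero ex_add conj_ex continuous_ex)

namespace Pool.Agent.LoopSpec

variable {E : Type*} [NormedAddCommGroup E] [InnerProductSpace ℝ E]
variable {ι : Type*} {L C : ℝ} {γ γ1 γ2 γ3 : ℝ → E} {V : Finset ℝ} {lam : ι → E}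

/-- (COUNTC) Proof: suppose `n(R) > η R` for all `R ≥ R0`, where `n(R) = card {‖lam i‖ ≤ R}` (`fin_ball`). Let `K` be
as in `count_le`, `M = 2 K/η + 1`. Then `card {u < ‖lam i‖ ≤ M u} ≥ η M u - K u ≥ η M u/2`, so
`∑_{u < ‖lam i‖ ≤ M u} 1/‖lam i‖ ≥ η/2`. Use `u = r, M r, M² r, ..., M^(N-1) r` with `M^N ≤ ε r`
(`r` large): `∑_{r ≤ ‖lam i‖ ≤ ε r²} ≥ N η/2 > K'`, contradiction with `sum_inv`. -/
theorem sparse (hL : Loop L γ γ1 γ2 γ3 V C) (hF : ONB L γ lam) :
    ∀ η > (0:ℝ), ∀ R0 : ℝ, ∃ R ≥ R0, ∀ S : Finset ι, (∀ i ∈ S, ‖lam i‖ ≤ R) →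
      (S.card : ℝ) ≤ η * R := by
  classical
  intro η hη R0
  by_contra hcon
  push Not at hcon
  obtain ⟨K, hK0, hK⟩ := count_le hL hF
  obtain ⟨K', hK'0, ε, hε0, hK'⟩ := sum_inv hL hF
  set G : ℝ → Finset ι := fun R => (fin_ball hL hF R).toFinset with hG
  have hmem : ∀ R i, i ∈ G R ↔ ‖lam i‖ ≤ R := fun R i => by simp [hG]
  have hsub : ∀ {a b : ℝ}, a ≤ b → G a ⊆ G b := fun {a b} hab i hi =>
    (hmem b i).2 (((hmem a i).1 hi).trans hab)
  have hbig : ∀ R, R0 ≤ R → η * R ≤ ((G R).card : ℝ) := by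
    intro R hR
    obtain ⟨S, hS, hcard⟩ := hcon R hR
    have : S ⊆ G R := fun i hi => (hmem R i).2 (hS i hi)
    exact hcard.le.trans (by exact_mod_cast Finset.card_le_card this)
  set M : ℝ := 2 * K / η + 1 with hM
  have hM1 : 1 ≤ M := by
    have : 0 ≤ 2 * K / η := by positivity
    linarith
  have hM0 : 0 < M := by linarith
  have hMη : K ≤ η * M / 2 := by
    have : η * (2 * K / η) = 2 * K := by field_simp
    rw [hM]
    nlinarith
  set T : ℝ → ℝ := fun R => ∑ i ∈ G R, 1 / ‖lam i‖ with hT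
  have hstep : ∀ u : ℝ, 1 ≤ u → R0 ≤ M * u → η / 2 ≤ T (M * u) - T u := by
    intro u hu1 hu2
    have hu0 : 0 < u := by linarith
    have huM : u ≤ M * u := le_mul_of_one_le_left hu0.le hM1
    have h1 : T (M * u) - T u = ∑ i ∈ G (M * u) \ G u, 1 / ‖lam i‖ := by
      rw [Finset.sum_sdiff_eq_sub (hsub huM)]
    have h2 : (((G (M * u) \ G u).card : ℕ) : ℝ) * (1 / (M * u)) ≤
        ∑ i ∈ G (M * u) \ G u, 1 / ‖lam i‖ := by
      rw [← nsmul_eq_mul]
      refine Finset.card_nsmul_le_sum _ _ _ fun i hi => ?_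
      rw [Finset.mem_sdiff, hmem, hmem, not_le] at hi
      exact one_div_le_one_div_of_le (by linarith [hi.2]) hi.1
    have h3 : (((G (M * u) \ G u).card : ℕ) : ℝ) = (G (M * u)).card - (G u).card := by
      rw [Finset.card_sdiff_of_subset (hsub huM), Nat.cast_sub (Finset.card_le_card (hsub huM))]
    have h4 := hbig (M * u) hu2
    have h5 := hK u hu1 (G u) (fun i hi => (hmem u i).1 hi)
    have h6 : η * (M * u) / 2 ≤ (((G (M * u) \ G u).card : ℕ) : ℝ) := by
      rw [h3]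
      nlinarith
    have h7 : η / 2 = η * (M * u) / 2 * (1 / (M * u)) := by field_simp
    rw [h1, h7]
    exact (mul_le_mul_of_nonneg_right h6 (by positivity)).trans h2
  -- number of steps
  obtain ⟨N, hN⟩ := exists_nat_gt (2 * K' / η)
  set r : ℝ := max (max 1 R0) (M ^ N / ε) with hr
  have hr1 : 1 ≤ r := (le_max_left _ _).trans (le_max_left _ _)
  have hrR : R0 ≤ r := (le_max_right _ _).trans (le_max_left _ _)
  have hrM : M ^ N ≤ ε * r := by
    have h1 : M ^ N / ε ≤ r := le_max_right _ _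
    rw [div_le_iff₀ hε0] at h1
    linarith
  have hr0 : 0 < r := by linarith
  have hind : ∀ k : ℕ, (k : ℝ) * (η / 2) ≤ T (M ^ k * r) - T r := by
    intro k
    induction k with
    | zero => simp
    | succ k ih =>
      have hk1 : 1 ≤ M ^ k := one_le_pow₀ hM1
      have h1 : 1 ≤ M ^ k * r := by nlinarith
      have h2 : M * (M ^ k * r) = M ^ (k + 1) * r := by ring
      have h3 : R0 ≤ M * (M ^ k * r) := by
        have h5 : 1 ≤ M ^ (k + 1) := one_le_pow₀ hM1
        rw [h2]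
        nlinarith
      have h4 := hstep _ h1 h3
      rw [h2] at h4
      push_cast
      linarith
  have h1 := hind N
  have hsubN : G r ⊆ G (M ^ N * r) :=
    hsub (le_mul_of_one_le_left hr0.le (one_le_pow₀ hM1))
  have h2 : T (M ^ N * r) - T r = ∑ i ∈ G (M ^ N * r) \ G r, 1 / ‖lam i‖ := by
    rw [Finset.sum_sdiff_eq_sub hsubN]
  have h3 := hK' r hr1 (G (M ^ N * r) \ G r) (fun i hi => by
    rw [Finset.mem_sdiff, hmem, hmem, not_le] at hi
    refine ⟨hi.2.le, hi.1.trans ?_⟩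
    have : M ^ N * r ≤ ε * r * r := mul_le_mul_of_nonneg_right hrM hr0.le
    linarith [this, (by ring : ε * r * r = ε * r ^ 2)])
  rw [div_lt_iff₀ hη] at hN
  rw [h2] at h1
  linarith

end Pool.Agent.LoopSpec
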