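import Pool.Agent.Lib_MP_e9ccd1_s.Base

/-!
# MP_e9ccd1_an, space curves: the cross product of `E3` (piece CROSS)
-/

set_option autoImplicit false

open MeasureTheory Set Filter Topology
open scoped RealInnerProductSpace

namespace Pool.Agent.LoopSpec

/-- the cross product -/
noncomputable def cr (x y : E3) : E3 :=
  !₂[x 1 * y 2 - x 2 * y 1, x 2 * y 0 - x 0 * y 2, x 0 * y 1 - x 1 * y 0]

lemma inner_eq (x y : E3) : ⟪x, y⟫ = x 0 * y 0 + x 1 * y 1 + x 2 * y 2 := by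
  simp [PiLp.inner_apply, Fin.sum_univ_three, mul_comm]

lemma inner_cr (x y z : E3) : ⟪cr x y, z⟫ = (x 1 * y 2 - x 2 * y 1) * z 0 +
    (x 2 * y 0 - x 0 * y 2) * z 1 + (x 0 * y 1 - x 1 * y 0) * z 2 := by
  rw [inner_eq]; simp [cr]

lemma inner_cr_left (x y : E3) : ⟪cr x y, x⟫ = 0 := by rw [inner_cr]; ring

lemma inner_cr_right (x y : E3) : ⟪cr x y, y⟫ = 0 := by rw [inner_cr]; ring

lemma inner_cr_swap (x y z : E3) : ⟪cr x z, y⟫ = -⟪cr x y, z⟫ := by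
  rw [inner_cr, inner_cr]; ring

private lemma cr_zero' (x y : E3) : cr x y 0 = x 1 * y 2 - x 2 * y 1 := by simp [cr]
private lemma cr_one' (x y : E3) : cr x y 1 = x 2 * y 0 - x 0 * y 2 := by simp [cr]
private lemma cr_two' (x y : E3) : cr x y 2 = x 0 * y 1 - x 1 * y 0 := by simp [cr]

private lemma nsq (x : E3) : ‖x‖ ^ 2 = x 0 ^ 2 + x 1 ^ 2 + x 2 ^ 2 := by
  rw [← real_inner_self_eq_norm_sq, inner_eq]; ring

private lemma ext3 {x y : E3} (h0 : x 0 = y 0) (h1 : x 1 = y 1) (h2 : x 2 = y 2) : x = y := by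
  ext i
  fin_cases i
  · exact h0
  · exact h1
  · exact h2

/-- (CROSS) Lagrange -/
lemma norm_cr_sq (x y : E3) : ‖cr x y‖ ^ 2 = ‖x‖ ^ 2 * ‖y‖ ^ 2 - ⟪x, y⟫ ^ 2 := by
  rw [nsq, nsq, nsq, inner_eq, cr_zero', cr_one', cr_two']
  ring

/-- (CROSS) -/
lemma norm_cr_le (x y : E3) : ‖cr x y‖ ≤ ‖x‖ * ‖y‖ := by
  apply (pow_le_pow_iff_left₀ (norm_nonneg _) (by positivity) two_ne_zero).1
  rw [norm_cr_sq, mul_pow]
  nlinarith [sq_nonneg ⟪x, y⟫]

/-- (CROSS) -/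
lemma cr_sub_left (x x' y : E3) : cr (x - x') y = cr x y - cr x' y := by
  apply ext3
  · simp only [cr_zero', PiLp.sub_apply]; ring
  · simp only [cr_one', PiLp.sub_apply]; ring
  · simp only [cr_two', PiLp.sub_apply]; ring

/-- (CROSS) -/
lemma cr_sub_right (x y y' : E3) : cr x (y - y') = cr x y - cr x y' := by
  apply ext3
  · simp only [cr_zero', PiLp.sub_apply]; ring
  · simp only [cr_one', PiLp.sub_apply]; ring
  · simp only [cr_two', PiLp.sub_apply]; ring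

private lemma nsq_cr_ne {x y : E3} (h : cr x y ≠ 0) :
    (x 1 * y 2 - x 2 * y 1) ^ 2 + (x 2 * y 0 - x 0 * y 2) ^ 2 + (x 0 * y 1 - x 1 * y 0) ^ 2 ≠ 0 := by
  have h1 : ‖cr x y‖ ^ 2 ≠ 0 := pow_ne_zero 2 (norm_ne_zero_iff.2 h)
  rwa [nsq, cr_zero', cr_one', cr_two'] at h1

/-- (CROSS) a vector orthogonal to `x` and `y` is a multiple of `cr x y` -/
lemma eq_smul_cr {x y θ : E3} (h : cr x y ≠ 0) (hx : ⟪θ, x⟫ = 0) (hy : ⟪θ, y⟫ = 0) :
    ∃ c : ℝ, θ = c • cr x y := by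
  have hD := nsq_cr_ne h
  set D := (x 1 * y 2 - x 2 * y 1) ^ 2 + (x 2 * y 0 - x 0 * y 2) ^ 2 +
    (x 0 * y 1 - x 1 * y 0) ^ 2 with hDdef
  rw [inner_eq] at hx hy
  refine ⟨⟪cr x y, θ⟫ / D, ?_⟩
  rw [inner_cr]
  apply ext3
  · rw [PiLp.smul_apply, cr_zero', smul_eq_mul, div_mul_eq_mul_div, eq_div_iff hD]
    rw [hDdef]
    linear_combination ((x 0 * y 1 * y 1 + x 0 * y 2 * y 2 - x 1 * y 0 * y 1 - x 2 * y 0 * y 2)) * hx +
      ((x 1 * x 1 * y 0 + x 2 * x 2 * y 0 - x 0 * x 1 * y 1 - x 0 * x 2 * y 2)) * hy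
  · rw [PiLp.smul_apply, cr_one', smul_eq_mul, div_mul_eq_mul_div, eq_div_iff hD]
    rw [hDdef]
    linear_combination ((x 1 * y 0 * y 0 + x 1 * y 2 * y 2 - x 0 * y 0 * y 1 - x 2 * y 1 * y 2)) * hx +
      ((x 0 * x 0 * y 1 + x 2 * x 2 * y 1 - x 0 * x 1 * y 0 - x 1 * x 2 * y 2)) * hy
  · rw [PiLp.smul_apply, cr_two', smul_eq_mul, div_mul_eq_mul_div, eq_div_iff hD]
    rw [hDdef]
    linear_combination ((x 2 * y 0 * y 0 + x 2 * y 1 * y 1 - x 0 * y 0 * y 2 - x 1 * y 1 * y 2)) * hx +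
      ((x 0 * x 0 * y 2 + x 1 * x 1 * y 2 - x 0 * x 2 * y 0 - x 1 * x 2 * y 1)) * hy

/-- (CROSS) a unit vector orthogonal to `x` and `y` is `± cr x y / ‖cr x y‖`; sign free version -/
lemma inner_eq_zero_iff_of_orth {x y θ : E3} (hθ : ‖θ‖ = 1) (h : cr x y ≠ 0)
    (hx : ⟪θ, x⟫ = 0) (hy : ⟪θ, y⟫ = 0) (z : E3) : ⟪θ, z⟫ = 0 ↔ ⟪cr x y, z⟫ = 0 := by
  obtain ⟨c, hc⟩ := eq_smul_cr h hx hy
  have hc0 : c ≠ 0 := by
    rintro rfl
    rw [zero_smul] at hc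
    rw [hc, norm_zero] at hθ
    exact zero_ne_one hθ
  rw [hc, inner_smul_left]
  simp [hc0]

/-- (CROSS) `z` orthogonal to `cr x y` is a combination of `x` and `y` -/
lemma exists_comb {x y z : E3} (h : cr x y ≠ 0) (hz : ⟪cr x y, z⟫ = 0) :
    ∃ a b : ℝ, z = a • x + b • y := by
  have hD := nsq_cr_ne h
  set D := (x 1 * y 2 - x 2 * y 1) ^ 2 + (x 2 * y 0 - x 0 * y 2) ^ 2 +
    (x 0 * y 1 - x 1 * y 0) ^ 2 with hDdef
  rw [inner_cr] at hz
  refine ⟨⟪cr z y, cr x y⟫ / D, ⟪cr x z, cr x y⟫ / D, ?_⟩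
  rw [inner_cr, inner_cr]
  apply ext3
  · rw [PiLp.add_apply, PiLp.smul_apply, PiLp.smul_apply, smul_eq_mul, smul_eq_mul,
      div_mul_eq_mul_div, div_mul_eq_mul_div, ← add_div, eq_div_iff hD, cr_zero', cr_one', cr_two']
    rw [hDdef]
    linear_combination (x 1 * y 2 - x 2 * y 1) * hz
  · rw [PiLp.add_apply, PiLp.smul_apply, PiLp.smul_apply, smul_eq_mul, smul_eq_mul,
      div_mul_eq_mul_div, div_mul_eq_mul_div, ← add_div, eq_div_iff hD, cr_zero', cr_one', cr_two']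
    rw [hDdef]
    linear_combination (x 2 * y 0 - x 0 * y 2) * hz
  · rw [PiLp.add_apply, PiLp.smul_apply, PiLp.smul_apply, smul_eq_mul, smul_eq_mul,
      div_mul_eq_mul_div, div_mul_eq_mul_div, ← add_div, eq_div_iff hD, cr_zero', cr_one', cr_two']
    rw [hDdef]
    linear_combination (x 0 * y 1 - x 1 * y 0) * hz

/-- (CROSS) parallel unit vectors -/
lemma eq_or_neg_of_cr {x y : E3} (hx : ‖x‖ = 1) (hy : ‖y‖ = 1) (h : cr x y = 0) :
    x = (1:ℝ) • y ∨ x = (-1:ℝ) • y := by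
  have h1 := norm_cr_sq x y
  rw [h, hx, hy, norm_zero] at h1
  have h2 : ⟪x, y⟫ = 1 ∨ ⟪x, y⟫ = -1 := by
    have : (⟪x, y⟫ - 1) * (⟪x, y⟫ + 1) = 0 := by nlinarith
    rcases mul_eq_zero.1 this with h3 | h3
    · left; linarith
    · right; linarith
  rcases h2 with h2 | h2
  · left
    rw [one_smul]
    exact (inner_eq_one_iff_of_norm_eq_one hx hy).1 h2
  · right
    rw [neg_one_smul]
    have h3 : ⟪x, -y⟫ = 1 := by rw [inner_neg_right, h2]; norm_num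
    exact (inner_eq_one_iff_of_norm_eq_one hx (by rw [norm_neg]; exact hy)).1 h3

private lemma hasDerivAt_coord {f : ℝ → E3} {f' : E3} {t : ℝ} (hf : HasDerivAt f f' t)
    (i : Fin 3) : HasDerivAt (fun s => f s i) (f' i) t := by
  have h := hasDerivAt_pi.1 ((PiLp.hasFDerivAt_ofLp 2 (f t)).comp_hasDerivAt t hf) i
  exact h

private lemma hasDerivAt_of_coord {F : ℝ → E3} {F' : E3} {t : ℝ}
    (h : ∀ i, HasDerivAt (fun s => F s i) (F' i) t) : HasDerivAt F F' t := by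
  have h1 : HasDerivAt (fun s => (fun i => F s i : Fin 3 → ℝ)) (fun i => F' i) t :=
    hasDerivAt_pi.2 h
  exact (PiLp.hasFDerivAt_toLp (𝕜 := ℝ) 2 (fun i => F t i : Fin 3 → ℝ)).comp_hasDerivAt t h1

/-- (CROSS) -/
lemma hasDerivAt_cr {f g : ℝ → E3} {f' g' : E3} {t : ℝ} (hf : HasDerivAt f f' t)
    (hg : HasDerivAt g g' t) :
    HasDerivAt (fun s => cr (f s) (g s)) (cr f' (g t) + cr (f t) g') t := by
  have hF := hasDerivAt_coord hf
  have hG := hasDerivAt_coord hg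
  apply hasDerivAt_of_coord
  intro i
  fin_cases i
  · show HasDerivAt (fun s => cr (f s) (g s) 0) ((cr f' (g t) + cr (f t) g') 0) t
    simp only [cr_zero', PiLp.add_apply]
    have := ((hF 1).mul (hG 2)).sub ((hF 2).mul (hG 1))
    refine this.congr_deriv ?_
    ring
  · show HasDerivAt (fun s => cr (f s) (g s) 1) ((cr f' (g t) + cr (f t) g') 1) t
    simp only [cr_one', PiLp.add_apply]
    have := ((hF 2).mul (hG 0)).sub ((hF 0).mul (hG 2))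
    refine this.congr_deriv ?_
    ring
  · show HasDerivAt (fun s => cr (f s) (g s) 2) ((cr f' (g t) + cr (f t) g') 2) t
    simp only [cr_two', PiLp.add_apply]
    have := ((hF 0).mul (hG 1)).sub ((hF 1).mul (hG 0))
    refine this.congr_deriv ?_
    ring

/-- (CROSS) -/
lemma cr_self (x : E3) : cr x x = 0 := by
  apply ext3
  · rw [cr_zero', PiLp.zero_apply]; ring
  · rw [cr_one', PiLp.zero_apply]; ring
  · rw [cr_two', PiLp.zero_apply]; ring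

/-- (CROSS) -/
lemma continuous_cr : Continuous (fun p : E3 × E3 => cr p.1 p.2) := by
  unfold cr
  fun_prop

end Pool.Agent.LoopSpec
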