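import Pool.Agent.Lib_MP_e9ccd1_s.OscB

/-!
# MP_e9ccd1_an, space curves: amplitude vanishing at a degenerate point (piece CUBIC)
-/

set_option autoImplicit false

open MeasureTheory Set Filter Topology
open scoped RealInnerProductSpace
open Pool.Agent.CurveSpec (ex BM norm_ex ex_zero ex_add conj_ex continuous_ex)

namespace Pool.Agent.LoopSpec

namespace CubicAux

/-- hypotheses on one side of the degenerate point -/
structure Side (ψ ψ1 ψ2 ψ3 : ℝ → ℝ) (f f1 : ℝ → ℂ) (x b μ B1 : ℝ) : Prop where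
  xb : x ≤ b
  hμ : 0 < μ
  hB1 : 0 ≤ B1
  h1 : ∀ t ∈ Icc x b, HasDerivAt ψ (ψ1 t) t
  h2 : ∀ t ∈ Icc x b, HasDerivAt ψ1 (ψ2 t) t
  h3 : ∀ t ∈ Icc x b, HasDerivAt ψ2 (ψ3 t) t
  h : (∀ t ∈ Icc x b, μ ≤ ψ3 t) ∨ (∀ t ∈ Icc x b, ψ3 t ≤ -μ)
  hx2 : ψ2 x = 0
  hf : ∀ t ∈ Icc x b, HasDerivAt f (f1 t) t
  cf : ContinuousOn f1 (Icc x b)
  hfx : f x = 0
  bf1 : ∀ t ∈ Icc x b, ‖f1 t‖ ≤ B1

variable {ψ ψ1 ψ2 ψ3 : ℝ → ℝ} {f f1 : ℝ → ℂ} {x b μ B1 : ℝ}

theorem Side.slope (S : Side ψ ψ1 ψ2 ψ3 f f1 x b μ B1) {t : ℝ} (ht : x < t) (htb : t ≤ b) :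
    ∃ c ∈ Icc x b, ψ2 t = ψ3 c * (t - x) := by
  obtain ⟨c, hc, he⟩ := exists_hasDerivAt_eq_slope ψ2 ψ3 ht
    (fun s hs => (S.h3 s ⟨hs.1, hs.2.trans htb⟩).continuousAt.continuousWithinAt)
    (fun s hs => S.h3 s ⟨hs.1.le, hs.2.le.trans htb⟩)
  refine ⟨c, ⟨hc.1.le, hc.2.le.trans htb⟩, ?_⟩
  have h0 : t - x ≠ 0 := (sub_pos.mpr ht).ne'
  rw [he, S.hx2, sub_zero, div_mul_cancel₀ _ h0]

theorem Side.norm_f (S : Side ψ ψ1 ψ2 ψ3 f f1 x b μ B1) {t : ℝ} (ht : t ∈ Icc x b) :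
    ‖f t‖ ≤ B1 * (t - x) := by
  have h := (convex_Icc x b).norm_image_sub_le_of_norm_hasDerivWithin_le
    (fun s hs => (S.hf s hs).hasDerivWithinAt) S.bf1 (left_mem_Icc.mpr S.xb) ht
  rw [S.hfx, sub_zero, Real.norm_of_nonneg (sub_nonneg.mpr ht.1)] at h
  exact h

theorem Side.cont (S : Side ψ ψ1 ψ2 ψ3 f f1 x b μ B1) :
    ContinuousOn (fun t => f t * ex (ψ t)) (Icc x b) := by
  intro t ht
  exact ((S.hf t ht).continuousAt.mul
    (continuous_ex.continuousAt.comp (S.h1 t ht).continuousAt)).continuousWithinAt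

theorem Side.int (S : Side ψ ψ1 ψ2 ψ3 f f1 x b μ B1) {p q : ℝ} (hp : x ≤ p) (hpq : p ≤ q)
    (hq : q ≤ b) : IntervalIntegrable (fun t => f t * ex (ψ t)) volume p q := by
  apply ContinuousOn.intervalIntegrable
  rw [uIcc_of_le hpq]
  exact S.cont.mono (Icc_subset_Icc hp hq)

theorem Side.shell (S : Side ψ ψ1 ψ2 ψ3 f f1 x b μ B1) {w : ℝ} (hw : 0 < w) (hwb : x + w ≤ b) :
    ‖∫ t in (x + w / 2)..(x + w), f t * ex (ψ t)‖ ≤ 9 * B1 * Real.sqrt (w / μ) := by
  have hμ := S.hμ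
  have hsub : Icc (x + w / 2) (x + w) ⊆ Icc x b := Icc_subset_Icc (by linarith) hwb
  have hμ' : 0 < μ * w / 2 := by positivity
  have hvdc : ∀ y ∈ Icc (x + w / 2) (x + w), ‖∫ t in y..(x + w), ex (ψ t)‖ ≤
      4 / Real.sqrt (μ * w / 2) := by
    intro y hy
    have hsub' : Icc y (x + w) ⊆ Icc x b := Icc_subset_Icc (by linarith [hy.1]) hwb
    refine vdc2 hy.2 hμ' (fun t ht => S.h1 t (hsub' ht)) (fun t ht => S.h2 t (hsub' ht))
      (fun t ht => (S.h3 t (hsub' ht)).continuousAt.continuousWithinAt) ?_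
    rcases S.h with h | h
    · left
      intro t ht
      have htx : x < t := by linarith [hy.1, ht.1]
      obtain ⟨c, hc, he⟩ := S.slope htx (hsub' ht).2
      rw [he]
      have h1 := h c hc
      have h2 : w / 2 ≤ t - x := by linarith [hy.1, ht.1]
      calc μ * w / 2 = μ * (w / 2) := by ring
        _ ≤ ψ3 c * (t - x) := by
          have := hμ.le.trans h1
          gcongr
    · right
      intro t ht
      have htx : x < t := by linarith [hy.1, ht.1]
      obtain ⟨c, hc, he⟩ := S.slope htx (hsub' ht).2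
      rw [he]
      have h1 : μ ≤ -ψ3 c := by linarith [h c hc]
      have h2 : w / 2 ≤ t - x := by linarith [hy.1, ht.1]
      have h3 : μ * (w / 2) ≤ (-ψ3 c) * (t - x) := by
        have := hμ.le.trans h1
        gcongr
      linarith
  have hbf : ∀ t ∈ Icc (x + w / 2) (x + w), ‖f t‖ ≤ B1 * w := by
    intro t ht
    refine (S.norm_f (hsub ht)).trans ?_
    have := S.hB1
    have h2 : t - x ≤ w := by linarith [ht.2]
    gcongr
  have key := amp (g := fun t => ex (ψ t)) (f := f) (f1 := f1) (by linarith)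
    (fun t ht => (continuous_ex.continuousAt.comp
      (S.h1 t (hsub ht)).continuousAt).continuousWithinAt) hvdc
    (fun t ht => S.hf t (hsub ht)) (S.cf.mono hsub) hbf (fun t ht => S.bf1 t (hsub ht))
  refine key.trans ?_
  have e1 : B1 * w + (x + w - (x + w / 2)) * B1 = 3 / 2 * w * B1 := by ring
  rw [e1]
  set r := Real.sqrt (μ * w / 2) with hr
  set s := Real.sqrt (w / μ) with hs
  have hr0 : 0 < r := Real.sqrt_pos.mpr hμ'
  have hs0 : 0 < s := Real.sqrt_pos.mpr (by positivity)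
  have hr2 : r ^ 2 = μ * w / 2 := Real.sq_sqrt hμ'.le
  have hs2 : s ^ 2 = w / μ := Real.sq_sqrt (by positivity)
  have hrs : 6 * w ≤ 9 * (s * r) := by
    have h1 : (6 * w) ^ 2 ≤ (9 * (s * r)) ^ 2 := by
      have : (9 * (s * r)) ^ 2 = 81 * (s ^ 2 * r ^ 2) := by ring
      rw [this, hr2, hs2]
      have : w / μ * (μ * w / 2) = w ^ 2 / 2 := by
        field_simp
      rw [this]
      nlinarith [sq_nonneg w]
    exact le_of_sq_le_sq h1 (by positivity)
  have e2 : 4 / r * (3 / 2 * w * B1) = (6 * w) * B1 / r := by ring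
  rw [e2, div_le_iff₀ hr0]
  have := S.hB1
  calc 6 * w * B1 ≤ 9 * (s * r) * B1 := by gcongr
    _ = 9 * B1 * s * r := by ring

theorem Side.triv (S : Side ψ ψ1 ψ2 ψ3 f f1 x b μ B1) {w : ℝ} (hw : 0 ≤ w) (hwb : x + w ≤ b) :
    ‖∫ t in x..(x + w), f t * ex (ψ t)‖ ≤ B1 * w ^ 2 := by
  have h := intervalIntegral.norm_integral_le_of_norm_le_const (a := x) (b := x + w)
    (f := fun t => f t * ex (ψ t)) (C := B1 * w) (by
      intro t ht
      rw [uIoc_of_le (by linarith)] at ht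
      rw [norm_mul, norm_ex, mul_one]
      refine (S.norm_f ⟨ht.1.le, ht.2.trans hwb⟩).trans ?_
      have := S.hB1
      have h2 : t - x ≤ w := by linarith [ht.2]
      gcongr)
  refine h.trans (le_of_eq ?_)
  rw [add_sub_cancel_left, abs_of_nonneg hw]
  ring

theorem Side.iter (S : Side ψ ψ1 ψ2 ψ3 f f1 x b μ B1) (n : ℕ) : ∀ w : ℝ, 0 ≤ w → x + w ≤ b →
    ‖∫ t in x..(x + w), f t * ex (ψ t)‖ ≤ B1 * w ^ 2 / 4 ^ n + 50 * B1 * Real.sqrt (w / μ) := by
  have hB1 := S.hB1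
  have hμ := S.hμ
  induction n with
  | zero =>
    intro w hw hwb
    have h := S.triv hw hwb
    have : 0 ≤ 50 * B1 * Real.sqrt (w / μ) := by positivity
    rw [pow_zero, div_one]
    linarith
  | succ n ih =>
    intro w hw hwb
    rcases hw.eq_or_lt with h0 | h0
    · rw [← h0]
      simp
    · have h1 := ih (w / 2) (by positivity) (by linarith)
      have h2 := S.shell h0 hwb
      have h3 : ∫ t in x..(x + w), f t * ex (ψ t) =
          (∫ t in x..(x + w / 2), f t * ex (ψ t)) +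
            ∫ t in (x + w / 2)..(x + w), f t * ex (ψ t) :=
        (intervalIntegral.integral_add_adjacent_intervals
          (S.int le_rfl (by linarith) (by linarith))
          (S.int (by linarith) (by linarith) hwb)).symm
      rw [h3]
      refine (norm_add_le _ _).trans ?_
      have h4 : Real.sqrt (w / 2 / μ) ≤ 0.8 * Real.sqrt (w / μ) := by
        rw [Real.sqrt_le_left (by positivity)]
        rw [mul_pow, Real.sq_sqrt (by positivity)]
        have : w / 2 / μ = 0.5 * (w / μ) := by ring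
        rw [this]
        have h5 : 0 ≤ w / μ := by positivity
        nlinarith
      have h5 : B1 * (w / 2) ^ 2 / 4 ^ n = B1 * w ^ 2 / 4 ^ (n + 1) := by
        rw [pow_succ]
        field_simp
        ring
      rw [h5] at h1
      have h6 : 50 * B1 * Real.sqrt (w / 2 / μ) ≤ 50 * B1 * (0.8 * Real.sqrt (w / μ)) := by
        gcongr
      have h7 : 0 ≤ B1 * Real.sqrt (w / μ) := by positivity
      nlinarith

theorem Side.bound (S : Side ψ ψ1 ψ2 ψ3 f f1 x b μ B1) :
    ‖∫ t in x..b, f t * ex (ψ t)‖ ≤ 50 * B1 * Real.sqrt ((b - x) / μ) := by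
  have h : ∀ n : ℕ, ‖∫ t in x..b, f t * ex (ψ t)‖ ≤
      B1 * (b - x) ^ 2 / 4 ^ n + 50 * B1 * Real.sqrt ((b - x) / μ) := by
    intro n
    have := S.iter n (b - x) (sub_nonneg.mpr S.xb) (by linarith)
    rwa [add_sub_cancel] at this
  have hlim : Tendsto (fun n : ℕ => B1 * (b - x) ^ 2 / 4 ^ n +
      50 * B1 * Real.sqrt ((b - x) / μ)) atTop
      (𝓝 (0 + 50 * B1 * Real.sqrt ((b - x) / μ))) := by
    refine Tendsto.add_const _ ?_
    have h1 : Tendsto (fun n : ℕ => B1 * (b - x) ^ 2 * (1 / 4 : ℝ) ^ n) atTop (𝓝 (B1 * (b - x) ^ 2 * 0)) :=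
      (tendsto_pow_atTop_nhds_zero_of_lt_one (by norm_num) (by norm_num)).const_mul _
    rw [mul_zero] at h1
    refine h1.congr fun n => ?_
    rw [one_div, inv_pow, div_eq_mul_inv]
  rw [zero_add] at hlim
  exact ge_of_tendsto' hlim h

end CubicAux

/-- (CUBIC) `ψ3` has constant sign and size at least `μ`, `ψ2 x = 0`, the amplitude vanishes at `x`.
Proof: right of `x`, split `[x, b]` into the shells `[x + w/2, x + w]`, `w = (b - x) 2^{-j}`: there
`|ψ2| ≥ μ w/2`, `‖f‖ ≤ B1 w`, so `vdc2` and `amp` give at most `4/√(μ w/2) * (B1 w + (w/2) B1)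
≤ 9 B1 √(w/μ)`; the geometric sum over `j` is at most `31 B1 √((b-x)/μ)` (continuity of the integral,
or stop at shell `n` and use the trivial bound `B1 w^2` on the remaining piece). Same on the left. -/
theorem cubic {ψ ψ1 ψ2 ψ3 : ℝ → ℝ} {f f1 : ℝ → ℂ} {a b x μ B1 : ℝ} (hx : x ∈ Icc a b)
    (hμ : 0 < μ) (hB1 : 0 ≤ B1)
    (h1 : ∀ t ∈ Icc a b, HasDerivAt ψ (ψ1 t) t) (h2 : ∀ t ∈ Icc a b, HasDerivAt ψ1 (ψ2 t) t)
    (h3 : ∀ t ∈ Icc a b, HasDerivAt ψ2 (ψ3 t) t)
    (h : (∀ t ∈ Icc a b, μ ≤ ψ3 t) ∨ (∀ t ∈ Icc a b, ψ3 t ≤ -μ)) (hx2 : ψ2 x = 0)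
    (hf : ∀ t ∈ Icc a b, HasDerivAt f (f1 t) t) (cf : ContinuousOn f1 (Icc a b))
    (hfx : f x = 0) (bf1 : ∀ t ∈ Icc a b, ‖f1 t‖ ≤ B1) :
    ‖∫ t in a..b, f t * ex (ψ t)‖ ≤ 100 * B1 * Real.sqrt ((b - a) / μ) := by
  -- the right side
  have hsub : Icc x b ⊆ Icc a b := Icc_subset_Icc_left hx.1
  have hR : CubicAux.Side ψ ψ1 ψ2 ψ3 f f1 x b μ B1 :=
    { xb := hx.2
      hμ := hμ
      hB1 := hB1
      h1 := fun t ht => h1 t (hsub ht)
      h2 := fun t ht => h2 t (hsub ht)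
      h3 := fun t ht => h3 t (hsub ht)
      h := h.imp (fun h t ht => h t (hsub ht)) (fun h t ht => h t (hsub ht))
      hx2 := hx2
      hf := fun t ht => hf t (hsub ht)
      cf := cf.mono hsub
      hfx := hfx
      bf1 := fun t ht => bf1 t (hsub ht) }
  -- the left side
  have hneg : ∀ t ∈ Icc (-x) (-a), -t ∈ Icc a b := by
    intro t ht
    exact ⟨by linarith [ht.2], by linarith [ht.1, hx.2]⟩
  have hd : ∀ {F : Type} [NormedAddCommGroup F] [NormedSpace ℝ F] (g : ℝ → F) (g' : F) (t : ℝ),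
      HasDerivAt g g' (-t) → HasDerivAt (fun s => g (-s)) (-g') t := by
    intro F _ _ g g' t hg
    have := hg.scomp t (hasDerivAt_neg t)
    rw [neg_one_smul] at this
    exact this
  have hL : CubicAux.Side (fun t => ψ (-t)) (fun t => -ψ1 (-t)) (fun t => ψ2 (-t))
      (fun t => -ψ3 (-t)) (fun t => f (-t)) (fun t => -f1 (-t)) (-x) (-a) μ B1 :=
    { xb := neg_le_neg hx.1
      hμ := hμ
      hB1 := hB1
      h1 := fun t ht => hd ψ _ t (h1 _ (hneg t ht))
      h2 := fun t ht => by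
        have := (hd ψ1 _ t (h2 _ (hneg t ht))).neg
        rw [neg_neg] at this
        exact this
      h3 := fun t ht => hd ψ2 _ t (h3 _ (hneg t ht))
      h := by
        rcases h with h | h
        · right
          intro t ht
          exact neg_le_neg (h _ (hneg t ht))
        · left
          intro t ht
          have := h _ (hneg t ht)
          show μ ≤ -ψ3 (-t)
          linarith
      hx2 := by simp [hx2]
      hf := fun t ht => hd f _ t (hf _ (hneg t ht))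
      cf := (cf.comp continuous_neg.continuousOn hneg).neg
      hfx := by simp [hfx]
      bf1 := fun t ht => by
        rw [norm_neg]
        exact bf1 _ (hneg t ht) }
  have hbR := hR.bound
  have hbL := hL.bound
  have e1 : ∫ t in (-x)..(-a), f (-t) * ex (ψ (-t)) = ∫ t in a..x, f t * ex (ψ t) := by
    rw [intervalIntegral.integral_comp_neg (fun t => f t * ex (ψ t)), neg_neg, neg_neg]
  rw [e1] at hbL
  have hc : ContinuousOn (fun t => f t * ex (ψ t)) (Icc a b) := by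
    intro t ht
    exact ((hf t ht).continuousAt.mul
      (continuous_ex.continuousAt.comp (h1 t ht).continuousAt)).continuousWithinAt
  have e2 : ∫ t in a..b, f t * ex (ψ t) = (∫ t in a..x, f t * ex (ψ t)) +
      ∫ t in x..b, f t * ex (ψ t) := by
    symm
    apply intervalIntegral.integral_add_adjacent_intervals
    · apply ContinuousOn.intervalIntegrable
      rw [uIcc_of_le hx.1]
      exact hc.mono (Icc_subset_Icc_right hx.2)
    · apply ContinuousOn.intervalIntegrable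
      rw [uIcc_of_le hx.2]
      exact hc.mono (Icc_subset_Icc_left hx.1)
  rw [e2]
  have h5 : Real.sqrt ((b - x) / μ) ≤ Real.sqrt ((b - a) / μ) := by
    apply Real.sqrt_le_sqrt
    have := hx.1
    gcongr
  have h6 : Real.sqrt ((-a - -x) / μ) ≤ Real.sqrt ((b - a) / μ) := by
    apply Real.sqrt_le_sqrt
    have := hx.2
    have h7 : -a - -x ≤ b - a := by linarith
    gcongr
  calc _ ≤ _ := norm_add_le _ _
    _ ≤ 50 * B1 * Real.sqrt ((-a - -x) / μ) + 50 * B1 * Real.sqrt ((b - x) / μ) :=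
      add_le_add hbL hbR
    _ ≤ 50 * B1 * Real.sqrt ((b - a) / μ) + 50 * B1 * Real.sqrt ((b - a) / μ) := by gcongr
    _ = 100 * B1 * Real.sqrt ((b - a) / μ) := by ring

end Pool.Agent.LoopSpec
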