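import Pool.Agent.Lib_MP_e9ccd1_s.Osc

/-!
# MP_e9ccd1_an, space curves: binormal directions (pieces DIRX, DIRN, DIRF)
-/

set_option autoImplicit false

open MeasureTheory Set Filter Topology
open scoped RealInnerProductSpace
open Pool.Agent.CurveSpec (ex BM norm_ex ex_zero ex_add conj_ex continuous_ex)

namespace Pool.Agent.LoopSpec

variable {E : Type*} [NormedAddCommGroup E] [InnerProductSpace ℝ E]
variable {ι : Type*} {L C : ℝ} {γ γ1 γ2 γ3 : ℝ → E} {V : Finset ℝ} {lam : ι → E}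

private lemma dirN_inner_le (v x : E) (hv : ‖v‖ = 1) {h : ℝ} (hh : 0 ≤ h) {K : ℝ}
    (hx : ‖x‖ ≤ K) : |⟪h • v, x⟫| ≤ h * K := by
  rw [real_inner_smul_left, abs_mul, abs_of_nonneg hh]
  apply mul_le_mul_of_nonneg_left _ hh
  calc |⟪v, x⟫| ≤ ‖v‖ * ‖x‖ := abs_real_inner_le_norm v x
    _ = ‖x‖ := by rw [hv, one_mul]
    _ ≤ K := hx

/-- (DIRN) far frequency, noncrossing: `‖∫_a^b ex(-⟪l - h v, γ⟫)‖ ≤ K/‖l‖` if `|⟪l, γ1⟫| ≥ c ‖l‖` on `[a, b]`,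
`‖v‖ = 1` and `0 ≤ h ≤ (c/2) ‖l‖`. Proof: `nonstat` with `f = 1`, `ψ = -⟪l - h v, γ⟫`,
`|ψ1| ≥ (c/2) ‖l‖`, `|ψ2| ≤ 2 C ‖l‖` (`c ≤ 1` may be assumed: otherwise the hypothesis forces `l = 0`). -/
theorem far_noncross (hL : Loop L γ γ1 γ2 γ3 V C) {a b c : ℝ} (ha : 0 ≤ a) (hab : a ≤ b)
    (hb : b ≤ L) (hc : 0 < c) :
    ∃ K > 0, ∀ (l v : E) (h : ℝ), 0 < ‖l‖ → ‖v‖ = 1 → 0 ≤ h → h ≤ c / 2 * ‖l‖ →
      (∀ t ∈ Icc a b, c * ‖l‖ ≤ |⟪l, γ1 t⟫|) →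
      ‖∫ t in a..b, ex (-⟪l - h • v, γ t⟫)‖ ≤ K / ‖l‖ := by
  have hC0 : 0 < C := lt_of_lt_of_le one_pos hL.Cpos
  have hba : 0 ≤ b - a := by linarith
  refine ⟨(2 + (b - a) * ((2 / c + 1) * C)) * (2 / c), by positivity, ?_⟩
  intro l v h hl hv hh hhc hlow
  have hsub : ∀ t ∈ Ioo a b, t ∈ Ioo 0 L := fun t ht =>
    ⟨lt_of_le_of_lt ha ht.1, lt_of_lt_of_le ht.2 hb⟩
  have hm : 0 < c / 2 * ‖l‖ := by positivity
  have key := nonstat (ψ := fun t => -⟪l - h • v, γ t⟫) (ψ1 := fun t => -⟪l - h • v, γ1 t⟫)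
    (ψ2 := fun t => -⟪l - h • v, γ2 t⟫) (f := fun _ => (1 : ℂ)) (f1 := fun _ => (0 : ℂ)) (V := V)
    (a := a) (b := b) (m := c / 2 * ‖l‖) (M := (1 + c / 2) * C * ‖l‖) (B := 1) (B1 := 0) hab hm
    (by positivity) (fun t _ => (hL.hasDerivAt_inner (l - h • v) t).neg)
    ((continuous_const.inner hL.contγ1).neg.continuousOn)
    (fun t ht htV => (hL.hasDerivAt_inner1 (l - h • v) (hsub t ht) htV).neg)
    (by
      intro t ht
      have h1 : ContinuousAt γ2 t := (hL.h3 t (hsub t ht.1) (by simpa using ht.2)).continuousAt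
      exact (continuousAt_const.inner h1).neg.continuousWithinAt)
    (by
      intro t ht
      rw [abs_neg]
      calc |⟪l - h • v, γ2 t⟫| ≤ ‖l - h • v‖ * ‖γ2 t‖ := abs_real_inner_le_norm _ _
        _ ≤ ((1 + c / 2) * ‖l‖) * C := by
            apply mul_le_mul _ (hL.b2 t) (norm_nonneg _) (by positivity)
            calc ‖l - h • v‖ ≤ ‖l‖ + ‖h • v‖ := norm_sub_le _ _
              _ = ‖l‖ + h := by rw [norm_smul, hv, mul_one, Real.norm_of_nonneg hh]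
              _ ≤ (1 + c / 2) * ‖l‖ := by linarith
        _ = (1 + c / 2) * C * ‖l‖ := by ring)
    (by
      intro t ht
      rw [abs_neg, inner_sub_left]
      have h1 := hlow t ht
      have h2 := dirN_inner_le v (γ1 t) hv hh (hL.unit t).le
      have h3 := abs_sub_abs_le_abs_sub ⟪l, γ1 t⟫ ⟪h • v, γ1 t⟫
      linarith)
    (fun t _ => hasDerivAt_const t _) continuousOn_const (fun t _ => by simp)
    (fun t _ => by simp)
  have h1 : ∫ t in a..b, ex (-⟪l - h • v, γ t⟫) =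
      ∫ t in a..b, (fun _ => (1 : ℂ)) t * ex ((fun t => -⟪l - h • v, γ t⟫) t) := by
    congr 1
    funext t
    simp
  rw [h1]
  refine key.trans (le_of_eq ?_)
  field_simp
  ring

/-- (DIRN) far frequency, crossing: `‖∫_a^b ex(-⟪l - h v, γ⟫)‖² ≤ K/‖l‖` if `⟪l, γ2⟫` has constant sign and size
at least `c ‖l‖` on `[a, b]` and `0 ≤ h ≤ c/(2 C) ‖l‖`. Proof: `vdc2` with `μ = (c/2) ‖l‖`. -/
theorem far_cross (hL : Loop L γ γ1 γ2 γ3 V C) {a b c : ℝ} (ha : 0 < a) (hab : a ≤ b)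
    (hb : b < L) (hV : ∀ t ∈ Icc a b, t ∉ V) (hc : 0 < c) :
    ∃ K > 0, ∀ (l v : E) (h : ℝ), 0 < ‖l‖ → ‖v‖ = 1 → 0 ≤ h → h ≤ c / (2 * C) * ‖l‖ →
      ((∀ t ∈ Icc a b, c * ‖l‖ ≤ ⟪l, γ2 t⟫) ∨ (∀ t ∈ Icc a b, ⟪l, γ2 t⟫ ≤ -(c * ‖l‖))) →
      ‖∫ t in a..b, ex (-⟪l - h • v, γ t⟫)‖ ^ 2 ≤ K / ‖l‖ := by
  have hC0 : 0 < C := lt_of_lt_of_le one_pos hL.Cpos
  refine ⟨32 / c, by positivity, ?_⟩
  intro l v h hl hv hh hhc hcase
  have hsub : ∀ t ∈ Icc a b, t ∈ Ioo 0 L := fun t ht =>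
    ⟨lt_of_lt_of_le ha ht.1, lt_of_le_of_lt ht.2 hb⟩
  have hμ : 0 < c / 2 * ‖l‖ := by positivity
  have hhC : h * C ≤ c / 2 * ‖l‖ := by
    calc h * C ≤ (c / (2 * C) * ‖l‖) * C := mul_le_mul_of_nonneg_right hhc hC0.le
      _ = c / 2 * ‖l‖ := by field_simp
  have hsmall : ∀ t, |⟪h • v, γ2 t⟫| ≤ c / 2 * ‖l‖ := fun t =>
    (dirN_inner_le v (γ2 t) hv hh (hL.b2 t)).trans hhC
  have key := vdc2 (ψ := fun t => -⟪l - h • v, γ t⟫) (ψ1 := fun t => -⟪l - h • v, γ1 t⟫)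
    (ψ2 := fun t => -⟪l - h • v, γ2 t⟫) (a := a) (b := b) (μ := c / 2 * ‖l‖) hab hμ
    (fun t _ => (hL.hasDerivAt_inner (l - h • v) t).neg)
    (fun t ht => (hL.hasDerivAt_inner1 (l - h • v) (hsub t ht) (hV t ht)).neg)
    (by
      intro t ht
      have h1 : ContinuousAt γ2 t := (hL.h3 t (hsub t ht) (hV t ht)).continuousAt
      exact (continuousAt_const.inner h1).neg.continuousWithinAt)
    (by
      rcases hcase with hcase | hcase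
      · right
        intro t ht
        have h1 := hcase t ht
        have h2 := abs_le.mp (hsmall t)
        show -⟪l - h • v, γ2 t⟫ ≤ -(c / 2 * ‖l‖)
        rw [inner_sub_left]
        linarith [h2.2]
      · left
        intro t ht
        have h1 := hcase t ht
        have h2 := abs_le.mp (hsmall t)
        show c / 2 * ‖l‖ ≤ -⟪l - h • v, γ2 t⟫
        rw [inner_sub_left]
        linarith [h2.1])
  have h1 : ‖∫ t in a..b, ex (-⟪l - h • v, γ t⟫)‖ ^ 2 ≤ (4 / Real.sqrt (c / 2 * ‖l‖)) ^ 2 :=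
    pow_le_pow_left₀ (norm_nonneg _) key 2
  refine h1.trans (le_of_eq ?_)
  rw [div_pow, Real.sq_sqrt hμ.le]
  field_simp
  norm_num

end Pool.Agent.LoopSpec
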