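import Pool.Agent.Lib_MP_e9ccd1_s.Base

/-!
# MP_e9ccd1_an, space curves: one-dimensional Plancherel bound (piece PLANCH)
-/

set_option autoImplicit false

open MeasureTheory Set Filter Topology
open scoped RealInnerProductSpace ComplexConjugate
open Pool.Agent.CurveSpec (ex BM norm_ex ex_zero ex_add conj_ex continuous_ex)

namespace Pool.Agent.LoopSpec

/-- Gaussian Fourier transform -/
lemma gauss_ft {R : ℝ} (hR : 0 < R) (x : ℝ) :
    ∫ h : ℝ, ((Real.exp (-(h / R) ^ 2) : ℝ) : ℂ) * ex (h * x) =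
      ((R * Real.sqrt Real.pi * Real.exp (-(Real.pi * R * x) ^ 2) : ℝ) : ℂ) := by
  have hb : 0 < ((1 / R ^ 2 : ℝ) : ℂ).re := by rw [Complex.ofReal_re]; positivity
  have h1 := fourierIntegral_gaussian hb ((2 * Real.pi * x : ℝ) : ℂ)
  have e1 : ∀ h : ℝ, ((Real.exp (-(h / R) ^ 2) : ℝ) : ℂ) * ex (h * x) =
      Complex.exp (Complex.I * ((2 * Real.pi * x : ℝ) : ℂ) * h) *
        Complex.exp (-((1 / R ^ 2 : ℝ) : ℂ) * (h : ℂ) ^ 2) := by
    intro h
    unfold ex
    rw [Complex.ofReal_exp, ← Complex.exp_add, ← Complex.exp_add]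
    congr 1
    push_cast
    have hR' : (R : ℂ) ≠ 0 := by exact_mod_cast hR.ne'
    field_simp
    ring
  simp_rw [e1]
  rw [h1]
  have e2 : ((Real.pi : ℂ) / ((1 / R ^ 2 : ℝ) : ℂ)) ^ (1 / 2 : ℂ) =
      ((R * Real.sqrt Real.pi : ℝ) : ℂ) := by
    rw [← Complex.ofReal_div]
    have h2 : (1 / 2 : ℂ) = ((1 / 2 : ℝ) : ℂ) := by norm_num
    rw [h2, ← Complex.ofReal_cpow (by positivity), ← Real.sqrt_eq_rpow]
    congr 1
    rw [show Real.pi / (1 / R ^ 2) = R ^ 2 * Real.pi by field_simp, Real.sqrt_mul (sq_nonneg R),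
      Real.sqrt_sq hR.le]
  rw [e2]
  have e3 : Complex.exp (-((2 * Real.pi * x : ℝ) : ℂ) ^ 2 / (4 * ((1 / R ^ 2 : ℝ) : ℂ))) =
      ((Real.exp (-(Real.pi * R * x) ^ 2) : ℝ) : ℂ) := by
    rw [Complex.ofReal_exp]
    congr 1
    push_cast
    have hR' : (R : ℂ) ≠ 0 := by exact_mod_cast hR.ne'
    field_simp
    ring
  rw [e3]
  push_cast
  ring

lemma integrable_gauss {R : ℝ} (hR : 0 < R) :
    Integrable (fun h : ℝ => Real.exp (-(h / R) ^ 2)) := by
  have h1 := integrable_exp_neg_mul_sq (b := 1 / R ^ 2) (by positivity)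
  refine h1.congr (Eventually.of_forall fun h => ?_)
  simp only
  congr 1
  field_simp

/-- the convolution kernel has mass at most 2 -/
lemma kernel_mass {R : ℝ} (hR : 0 < R) (t : ℝ) :
    ∫ s : ℝ, R * Real.sqrt Real.pi * Real.exp (-(Real.pi * R * ((t - s) / 2)) ^ 2) = 2 := by
  rw [integral_const_mul]
  have h1 : ∫ s : ℝ, Real.exp (-(Real.pi * R * ((t - s) / 2)) ^ 2) =
      ∫ s : ℝ, Real.exp (-(Real.pi * R / 2) ^ 2 * s ^ 2) := by
    rw [← integral_sub_left_eq_self (fun s : ℝ => Real.exp (-(Real.pi * R / 2) ^ 2 * s ^ 2)) _ t]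
    congr 1
    ext s
    congr 1
    ring
  rw [h1, integral_gaussian]
  have h2 : Real.pi / (Real.pi * R / 2) ^ 2 = (2 / R) ^ 2 / Real.pi := by
    field_simp
  rw [h2, Real.sqrt_div (by positivity), Real.sqrt_sq (by positivity)]
  have h3 : Real.sqrt Real.pi ≠ 0 := by positivity
  field_simp

lemma integrable_kernel {R : ℝ} (hR : 0 < R) (t : ℝ) :
    Integrable fun s : ℝ => R * Real.sqrt Real.pi * Real.exp (-(Real.pi * R * ((t - s) / 2)) ^ 2) := by
  by_contra h
  have h1 := kernel_mass hR t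
  rw [integral_undef h] at h1
  norm_num at h1

/-- monotonicity: the increments of `u` dominate `1 / 2` times the increments -/
lemma incr {u u1 : ℝ → ℝ} {a b : ℝ}
    (hu : ∀ t ∈ Icc a b, HasDerivAt u (u1 t) t)
    (hu1 : ∀ t ∈ Icc a b, 1 / 2 ≤ u1 t) {s t : ℝ} (hs : s ∈ Icc a b) (ht : t ∈ Icc a b) :
    |t - s| / 2 ≤ |u t - u s| := by
  have key : ∀ s ∈ Icc a b, ∀ t ∈ Icc a b, s ≤ t → (t - s) / 2 ≤ u t - u s := by
    intro s hs t ht hst
    have hc : Convex ℝ (Icc s t) := convex_Icc s t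
    have hsub : Icc s t ⊆ Icc a b := Icc_subset_Icc hs.1 ht.2
    have h1 := hc.mul_sub_le_image_sub_of_le_deriv (f := u) (C := 1 / 2)
      (fun x hx => (hu x (hsub hx)).continuousAt.continuousWithinAt)
      (fun x hx => (hu x (hsub (interior_subset hx))).differentiableAt.differentiableWithinAt)
      (fun x hx => by
        rw [(hu x (hsub (interior_subset hx))).deriv]
        exact hu1 x (hsub (interior_subset hx)))
      s (left_mem_Icc.2 hst) t (right_mem_Icc.2 hst) hst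
    linarith
  rcases le_total s t with h | h
  · have h1 := key s hs t ht h
    rw [abs_of_nonneg (by linarith : 0 ≤ t - s)]
    exact h1.trans (le_abs_self _)
  · have h1 := key t ht s hs h
    rw [abs_sub_comm t s, abs_sub_comm (u t), abs_of_nonneg (by linarith : 0 ≤ s - t)]
    exact h1.trans (le_abs_self _)

/-- (PLANCH) Proof: `1 ≤ e * exp (-(h/R)²)` for `0 ≤ h ≤ R`; expand the square, Fubini:
`∫_ℝ exp (-(h/R)²) ‖∫_a^b φ ex (h u)‖² dh = ∫∫ φ(t) conj φ(s) K (u t - u s) ds dt` with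
`K x = ∫ exp (-(h/R)²) ex (h x) dh = R √π exp (-(π R x)²) > 0` (Gaussian Fourier transform), and
`|u t - u s| ≥ |t - s|/2`, so `∫ K (u t - u s) ds ≤ R √π ∫ exp (-(π R (t-s)/2)²) ds = 2`. Total
`≤ e * 2 (b - a) ≤ 6 (b - a)`. -/
theorem planch {u u1 : ℝ → ℝ} {φ : ℝ → ℂ} {a b R : ℝ} (hab : a ≤ b) (hR : 0 < R)
    (cu : Continuous u) (hu : ∀ t ∈ Icc a b, HasDerivAt u (u1 t) t)
    (hu1 : ∀ t ∈ Icc a b, 1 / 2 ≤ u1 t) (hφ : Measurable φ) (bφ : ∀ t, ‖φ t‖ ≤ 1) :
    ∫ h in (0:ℝ)..R, ‖∫ t in a..b, φ t * ex (h * u t)‖ ^ 2 ≤ 6 * (b - a) := by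
  set μ : Measure ℝ := volume.restrict (Ioc a b) with hμ
  have : IsFiniteMeasure μ := by rw [hμ]; infer_instance
  have hF : ∀ h : ℝ, ∫ t in a..b, φ t * ex (h * u t) = ∫ t, φ t * ex (h * u t) ∂μ := fun h => by
    rw [intervalIntegral.integral_of_le hab]
  simp_rw [hF]
  set G : ℝ → ℝ := fun h => Real.exp (-(h / R) ^ 2) with hG
  have hGpos : ∀ h, 0 < G h := fun h => Real.exp_pos _
  have hGi : Integrable G := integrable_gauss hR
  set F : ℝ → ℂ := fun h => ∫ t, φ t * ex (h * u t) ∂μ with hFdef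
  -- the product function
  set P : ℝ → ℝ × ℝ → ℂ := fun h p =>
    (G h : ℂ) * (φ p.1 * conj (φ p.2) * ex (h * (u p.1 - u p.2))) with hP
  have hPm : Measurable (Function.uncurry P) := by
    simp only [hP]
    unfold Function.uncurry
    have m1 : Measurable fun q : ℝ × ℝ × ℝ => ((G q.1 : ℝ) : ℂ) := by
      refine Complex.measurable_ofReal.comp ?_
      simp only [hG]
      fun_prop
    have m2 : Measurable fun q : ℝ × ℝ × ℝ => φ q.2.1 := hφ.comp (measurable_fst.comp measurable_snd)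
    have m3 : Measurable fun q : ℝ × ℝ × ℝ => conj (φ q.2.2) :=
      Complex.continuous_conj.measurable.comp (hφ.comp (measurable_snd.comp measurable_snd))
    have m4 : Measurable fun q : ℝ × ℝ × ℝ => ex (q.1 * (u q.2.1 - u q.2.2)) := by
      have : Continuous fun q : ℝ × ℝ × ℝ => ex (q.1 * (u q.2.1 - u q.2.2)) := by fun_prop
      exact this.measurable
    exact m1.mul ((m2.mul m3).mul m4)
  have hPn : ∀ h p, ‖P h p‖ ≤ G h := by
    intro h p
    simp only [hP]
    rw [norm_mul, norm_mul, norm_mul, norm_ex, mul_one, Complex.norm_real, Real.norm_eq_abs,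
      abs_of_pos (hGpos h), RCLike.norm_conj]
    have h1 : ‖φ p.1‖ * ‖φ p.2‖ ≤ 1 * 1 := mul_le_mul (bφ _) (bφ _) (norm_nonneg _) zero_le_one
    nlinarith [hGpos h]
  have hPi : Integrable (Function.uncurry P) (volume.prod (μ.prod μ)) := by
    have h1 : Integrable (fun q : ℝ × ℝ × ℝ => G q.1 * (1 : ℝ)) (volume.prod (μ.prod μ)) :=
      hGi.mul_prod (integrable_const (1 : ℝ))
    refine h1.mono' hPm.aestronglyMeasurable (Eventually.of_forall fun q => ?_)
    rw [mul_one]
    exact hPn q.1 q.2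
  -- expand the square
  have hsq : ∀ h, ((G h * ‖F h‖ ^ 2 : ℝ) : ℂ) = ∫ p, P h p ∂(μ.prod μ) := by
    intro h
    have h1 : (((‖F h‖ ^ 2 : ℝ)) : ℂ) = F h * conj (F h) := by
      rw [RCLike.mul_conj]
      push_cast
      rfl
    have h2 : conj (F h) = ∫ t, conj (φ t * ex (h * u t)) ∂μ := by
      rw [hFdef]
      exact (integral_conj).symm
    have h3 : F h * conj (F h) =
        ∫ p : ℝ × ℝ, (φ p.1 * ex (h * u p.1)) * conj (φ p.2 * ex (h * u p.2)) ∂(μ.prod μ) := by
      rw [h2]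
      exact (integral_prod_mul (fun t => φ t * ex (h * u t))
        (fun t => conj (φ t * ex (h * u t)))).symm
    rw [Complex.ofReal_mul, h1, h3, ← integral_const_mul]
    congr 1
    ext p
    simp only [hP]
    rw [map_mul, conj_ex]
    have h4 : ex (h * (u p.1 - u p.2)) = ex (h * u p.1) * ex (-(h * u p.2)) := by
      rw [← ex_add]
      congr 1
      ring
    rw [h4]
    ring
  -- Fubini
  have hfub : ∫ h, ((G h * ‖F h‖ ^ 2 : ℝ) : ℂ) = ∫ p, (∫ h, P h p) ∂(μ.prod μ) := by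
    simp_rw [hsq]
    exact integral_integral_swap hPi
  have hinner : ∀ p : ℝ × ℝ, ∫ h, P h p = φ p.1 * conj (φ p.2) *
      ((R * Real.sqrt Real.pi * Real.exp (-(Real.pi * R * (u p.1 - u p.2)) ^ 2) : ℝ) : ℂ) := by
    intro p
    rw [← gauss_ft hR (u p.1 - u p.2), ← integral_const_mul]
    congr 1
    ext h
    simp only [hP, hG]
    ring
  set K : ℝ × ℝ → ℝ := fun p => R * Real.sqrt Real.pi *
    Real.exp (-(Real.pi * R * ((p.1 - p.2) / 2)) ^ 2) with hK
  have hKm : Continuous K := by simp only [hK]; fun_prop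
  have hKb : ∀ p, ‖K p‖ ≤ R * Real.sqrt Real.pi := by
    intro p
    simp only [hK]
    rw [Real.norm_of_nonneg (by positivity)]
    have h1 : Real.exp (-(Real.pi * R * ((p.1 - p.2) / 2)) ^ 2) ≤ 1 :=
      Real.exp_le_one_iff.2 (by have := sq_nonneg (Real.pi * R * ((p.1 - p.2) / 2)); linarith)
    have h2 : 0 ≤ R * Real.sqrt Real.pi := by positivity
    nlinarith
  have hKi : Integrable K (μ.prod μ) := by
    refine (integrable_const (R * Real.sqrt Real.pi)).mono' hKm.aestronglyMeasurable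
      (Eventually.of_forall hKb)
  have hae : ∀ᵐ p ∂(μ.prod μ), ‖∫ h, P h p‖ ≤ K p := by
    have hm : ∀ᵐ p ∂(μ.prod μ), p ∈ (Ioc a b) ×ˢ (Ioc a b) := by
      rw [hμ, Measure.prod_restrict]
      exact ae_restrict_mem (measurableSet_Ioc.prod measurableSet_Ioc)
    filter_upwards [hm] with p hp
    rw [hinner p, norm_mul, norm_mul, RCLike.norm_conj, Complex.norm_real,
      Real.norm_of_nonneg (by positivity)]
    have h1 : ‖φ p.1‖ * ‖φ p.2‖ ≤ 1 * 1 := mul_le_mul (bφ _) (bφ _) (norm_nonneg _) zero_le_one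
    have h2 := incr hu hu1 (Ioc_subset_Icc_self hp.2) (Ioc_subset_Icc_self hp.1)
    have h3 : (Real.pi * R * ((p.1 - p.2) / 2)) ^ 2 ≤ (Real.pi * R * (u p.1 - u p.2)) ^ 2 := by
      rw [mul_pow, mul_pow (Real.pi * R)]
      refine mul_le_mul_of_nonneg_left ?_ (sq_nonneg _)
      rw [← sq_abs ((p.1 - p.2) / 2), ← sq_abs (u p.1 - u p.2)]
      refine pow_le_pow_left₀ (abs_nonneg _) ?_ 2
      rw [abs_div, abs_two]
      exact h2
    have h4 : Real.exp (-(Real.pi * R * (u p.1 - u p.2)) ^ 2) ≤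
        Real.exp (-(Real.pi * R * ((p.1 - p.2) / 2)) ^ 2) := Real.exp_le_exp.2 (by linarith)
    have h5 : R * Real.sqrt Real.pi * Real.exp (-(Real.pi * R * (u p.1 - u p.2)) ^ 2) ≤ K p := by
      simp only [hK]
      exact mul_le_mul_of_nonneg_left h4 (by positivity)
    have h6 : 0 ≤ R * Real.sqrt Real.pi * Real.exp (-(Real.pi * R * (u p.1 - u p.2)) ^ 2) := by
      positivity
    calc _ ≤ 1 * 1 * (R * Real.sqrt Real.pi * Real.exp (-(Real.pi * R * (u p.1 - u p.2)) ^ 2)) :=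
          mul_le_mul_of_nonneg_right h1 h6
      _ ≤ K p := by rw [one_mul, one_mul]; exact h5
  have hKint : ∫ p, K p ∂(μ.prod μ) ≤ 2 * (b - a) := by
    rw [integral_prod _ hKi]
    have h1 : ∀ t, ∫ s, K (t, s) ∂μ ≤ 2 := by
      intro t
      rw [← kernel_mass hR t]
      simp only [hK, hμ]
      exact setIntegral_le_integral (integrable_kernel hR t)
        (Eventually.of_forall fun s => by positivity)
    have h2 : ∫ t, ∫ s, K (t, s) ∂μ ∂μ ≤ ∫ _t, (2 : ℝ) ∂μ := by
      refine integral_mono hKi.integral_prod_left (integrable_const _) h1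
    refine h2.trans ?_
    rw [integral_const, hμ]
    simp [Measure.real, hab]
    linarith
  -- bound the weighted integral
  have hw : ∫ h, G h * ‖F h‖ ^ 2 ≤ 2 * (b - a) := by
    have h1 : ((∫ h, G h * ‖F h‖ ^ 2 : ℝ) : ℂ) = ∫ p, (∫ h, P h p) ∂(μ.prod μ) := by
      rw [← hfub]
      exact integral_complex_ofReal.symm
    have h2 : ‖((∫ h, G h * ‖F h‖ ^ 2 : ℝ) : ℂ)‖ ≤ ∫ p, K p ∂(μ.prod μ) := by
      rw [h1]
      exact norm_integral_le_of_norm_le hKi hae
    rw [Complex.norm_real] at h2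
    exact (le_abs_self _).trans (h2.trans hKint)
  -- integrability of the weighted square
  have hGF : Integrable fun h => G h * ‖F h‖ ^ 2 := by
    have h1 : Integrable (fun h => ∫ p, P h p ∂(μ.prod μ)) := hPi.integral_prod_left
    have h2 : (fun h => ∫ p, P h p ∂(μ.prod μ)) = fun h => ((G h * ‖F h‖ ^ 2 : ℝ) : ℂ) := by
      ext h
      rw [hsq h]
    rw [h2] at h1
    have h3 := h1.re
    simpa only [RCLike.re_to_complex, Complex.ofReal_re] using h3
  -- compare
  have hcmp : ∀ h ∈ Ioc 0 R, ‖F h‖ ^ 2 ≤ Real.exp 1 * (G h * ‖F h‖ ^ 2) := by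
    intro h hh
    have h1 : 1 ≤ Real.exp 1 * G h := by
      simp only [hG]
      rw [← Real.exp_add]
      refine Real.one_le_exp ?_
      have h2 : (h / R) ^ 2 ≤ 1 := by
        have h3 : 0 ≤ h / R := div_nonneg hh.1.le hR.le
        have h4 : h / R ≤ 1 := (div_le_one hR).2 hh.2
        nlinarith
      linarith
    have h5 : 0 ≤ ‖F h‖ ^ 2 := by positivity
    nlinarith
  rw [intervalIntegral.integral_of_le hR.le]
  have hcont : Continuous F := by
    refine continuous_of_dominated (bound := fun _ => (1 : ℝ)) ?_ ?_ (integrable_const _) ?_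
    · intro h
      have : Measurable fun t => φ t * ex (h * u t) := hφ.mul (by
        have : Continuous fun t => ex (h * u t) := by fun_prop
        exact this.measurable)
      exact this.aestronglyMeasurable
    · intro h
      refine Eventually.of_forall fun t => ?_
      rw [norm_mul, norm_ex, mul_one]
      exact bφ t
    · refine Eventually.of_forall fun t => ?_
      fun_prop
  have hFi : IntegrableOn (fun h => ‖F h‖ ^ 2) (Ioc 0 R) := by
    have : Continuous fun h => ‖F h‖ ^ 2 := by fun_prop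
    exact this.integrableOn_Ioc
  calc ∫ h in Ioc 0 R, ‖F h‖ ^ 2 ≤ ∫ h in Ioc 0 R, Real.exp 1 * (G h * ‖F h‖ ^ 2) :=
        setIntegral_mono_on hFi (hGF.integrableOn.const_mul _) measurableSet_Ioc hcmp
    _ ≤ ∫ h, Real.exp 1 * (G h * ‖F h‖ ^ 2) :=
        setIntegral_le_integral (hGF.const_mul _) (Eventually.of_forall fun h => by
          have := hGpos h
          positivity)
    _ = Real.exp 1 * ∫ h, G h * ‖F h‖ ^ 2 := integral_const_mul _ _
    _ ≤ Real.exp 1 * (2 * (b - a)) := mul_le_mul_of_nonneg_left hw (Real.exp_pos 1).le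
    _ ≤ 6 * (b - a) := by
        have := Real.exp_one_lt_d9
        nlinarith

end Pool.Agent.LoopSpec
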