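import Pool.Agent.Lib_MP_e9ccd1_s.DirX
import Pool.Agent.Lib_MP_e9ccd1_s.DirN
import Pool.Agent.Lib_MP_e9ccd1_s.Planch
import Pool.Agent.Lib_MP_e9ccd1_s.Count

/-!
# MP_e9ccd1_an, space curves: binormal directions (pieces DIRX, DIRN, DIRF)
-/

set_option autoImplicit false

open MeasureTheory Set Filter Topology
open scoped RealInnerProductSpace
open Pool.Agent.CurveSpec (ex BM norm_ex ex_zero ex_add conj_ex continuous_ex)

namespace Pool.Agent.LoopSpec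

variable {E : Type*} [NormedAddCommGroup E] [InnerProductSpace ℝ E]
variable {ι : Type*} {L C : ℝ} {γ γ1 γ2 γ3 : ℝ → E} {V : Finset ℝ} {lam : ι → E}

/-- if `⟪l, γ2⟫ ≥ c ‖l‖` on `[a, b]` and `⟪l, γ1⟫` is small at a point of `[a + 2h, b - 2h]` then it has a zero
in `[a + h, b - h]`. -/
private lemma dirf_zero (hL : Loop L γ γ1 γ2 γ3 V C) {a b c h : ℝ} (ha : 0 < a) (hb : b < L)
    (hV : ∀ t ∈ Icc a b, t ∉ V) (hh : 0 < h) {l : E} 
    (hl : ∀ t ∈ Icc a b, c * ‖l‖ ≤ ⟪l, γ2 t⟫) {t : ℝ} (ht : t ∈ Icc (a + 2 * h) (b - 2 * h))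
    (hs : |⟪l, γ1 t⟫| < c * ‖l‖ * h) : ∃ s ∈ Icc (a + h) (b - h), ⟪l, γ1 s⟫ = 0 := by
  have hder : ∀ s ∈ Icc a b, HasDerivAt (fun s => ⟪l, γ1 s⟫) ⟪l, γ2 s⟫ s := fun s hs =>
    hL.hasDerivAt_inner1 l ⟨lt_of_lt_of_le ha hs.1, lt_of_le_of_lt hs.2 hb⟩ (hV s hs)
  have hcont : Continuous (fun s => ⟪l, γ1 s⟫) := continuous_const.inner hL.contγ1
  -- monotone growth
  have grow : ∀ x y, a ≤ x → x ≤ y → y ≤ b → ⟪l, γ1 x⟫ + c * ‖l‖ * (y - x) ≤ ⟪l, γ1 y⟫ := by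
    intro x y hx hxy hy
    rcases eq_or_lt_of_le hxy with h0 | h0
    · subst h0; simp
    obtain ⟨z, hz, hzz⟩ := exists_hasDerivAt_eq_slope (fun s => ⟪l, γ1 s⟫) (fun s => ⟪l, γ2 s⟫) h0
      hcont.continuousOn (fun s hs => hder s ⟨hx.trans hs.1.le, hs.2.le.trans hy⟩)
    have h1 := hl z ⟨hx.trans hz.1.le, hz.2.le.trans hy⟩
    rw [hzz, le_div_iff₀ (by linarith)] at h1
    linarith
  have hs' := abs_lt.1 hs
  have ht1 := ht.1
  have ht2 := ht.2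
  have g1 := grow t (t + h) (by linarith) (by linarith) (by linarith)
  have g2 := grow (t - h) t (by linarith) (by linarith) (by linarith)
  have e1 : c * ‖l‖ * (t + h - t) = c * ‖l‖ * h := by ring
  have e2 : c * ‖l‖ * (t - (t - h)) = c * ‖l‖ * h := by ring
  rw [e1] at g1
  rw [e2] at g2
  have hivt := intermediate_value_Icc (show t - h ≤ t + h by linarith)
    (f := fun s => ⟪l, γ1 s⟫) hcont.continuousOn
  obtain ⟨s, hs1, hs2⟩ := hivt (show (0:ℝ) ∈ Icc _ _ from ⟨by linarith [hs'.1, hs'.2], by linarith [hs'.1, hs'.2]⟩)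
  exact ⟨s, ⟨by linarith [hs1.1], by linarith [hs1.2]⟩, hs2⟩

/-- the dichotomy: type N or type X -/
private lemma dirf_type (hL : Loop L γ γ1 γ2 γ3 V C) {ε h t0 : ℝ} (hh : 0 < h)
    (ha : 0 < t0 - 2 * h) (hb : t0 + 2 * h < L)
    (hV : ∀ t ∈ Icc (t0 - 2 * h) (t0 + 2 * h), t ∉ V)
    (h1 : ∀ t ∈ Icc (t0 - 2 * h) (t0 + 2 * h), ‖γ1 t - γ1 t0‖ ≤ ε / 4)
    (h2 : ∀ t ∈ Icc (t0 - 2 * h) (t0 + 2 * h), ‖γ2 t - γ2 t0‖ ≤ ε / 4) {l : E}
    (hl : |⟪l, γ1 t0⟫| ≤ ε * ‖l‖ → ¬ |⟪l, γ2 t0⟫| ≤ ε * ‖l‖) :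
    (∀ t ∈ Icc (t0 - h) (t0 + h), min (3 * ε / 4) (3 * ε / 4 * (h / 2)) * ‖l‖ ≤ |⟪l, γ1 t⟫|) ∨
      TypeX γ1 γ2 (t0 - 2 * h) (t0 + 2 * h) (3 * ε / 4) (h / 2) l := by
  by_cases hc : |⟪l, γ1 t0⟫| ≤ ε * ‖l‖
  · have hc2 := hl hc
    push Not at hc2
    have hdiff : ∀ t ∈ Icc (t0 - 2 * h) (t0 + 2 * h), |⟪l, γ2 t⟫ - ⟪l, γ2 t0⟫| ≤ ε / 4 * ‖l‖ := by
      intro t ht
      rw [← inner_sub_right]
      calc |⟪l, γ2 t - γ2 t0⟫| ≤ ‖l‖ * ‖γ2 t - γ2 t0‖ := abs_real_inner_le_norm _ _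
        _ ≤ ‖l‖ * (ε / 4) := mul_le_mul_of_nonneg_left (h2 t ht) (norm_nonneg _)
        _ = ε / 4 * ‖l‖ := by ring
    by_cases hN : ∀ t ∈ Icc (t0 - h) (t0 + h), 3 * ε / 4 * (h / 2) * ‖l‖ ≤ |⟪l, γ1 t⟫|
    · left
      intro t ht
      exact (mul_le_mul_of_nonneg_right (min_le_right _ _) (norm_nonneg _)).trans (hN t ht)
    · right
      push Not at hN
      obtain ⟨t, ht, htt⟩ := hN
      have htt' : |⟪l, γ1 t⟫| < 3 * ε / 4 * ‖l‖ * (h / 2) := by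
        calc |⟪l, γ1 t⟫| < 3 * ε / 4 * (h / 2) * ‖l‖ := htt
          _ = _ := by ring
      have htm : t ∈ Icc (t0 - 2 * h + 2 * (h / 2)) (t0 + 2 * h - 2 * (h / 2)) :=
        ⟨by linarith [ht.1], by linarith [ht.2]⟩
      rcases lt_abs.1 hc2 with hp | hp
      · have hcurv : ∀ t ∈ Icc (t0 - 2 * h) (t0 + 2 * h), 3 * ε / 4 * ‖l‖ ≤ ⟪l, γ2 t⟫ := by
          intro t ht
          have := (abs_le.1 (hdiff t ht)).1
          linarith
        exact ⟨dirf_zero hL ha hb hV (by linarith) hcurv htm htt', Or.inl hcurv⟩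
      · have hcurv : ∀ t ∈ Icc (t0 - 2 * h) (t0 + 2 * h), ⟪l, γ2 t⟫ ≤ -(3 * ε / 4 * ‖l‖) := by
          intro t ht
          have := (abs_le.1 (hdiff t ht)).2
          linarith
        refine ⟨?_, Or.inr hcurv⟩
        have h3 : ∀ t ∈ Icc (t0 - 2 * h) (t0 + 2 * h), 3 * ε / 4 * ‖-l‖ ≤ ⟪-l, γ2 t⟫ := by
          intro t ht
          rw [norm_neg, inner_neg_left]
          linarith [hcurv t ht]
        have h4 : |⟪-l, γ1 t⟫| < 3 * ε / 4 * ‖-l‖ * (h / 2) := by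
          rw [norm_neg, inner_neg_left, abs_neg]
          exact htt'
        obtain ⟨s, hs, hs0⟩ := dirf_zero hL ha hb hV (by linarith) h3 htm h4
        refine ⟨s, hs, ?_⟩
        rw [inner_neg_left] at hs0
        linarith
  · left
    push Not at hc
    intro t ht
    have ht' : t ∈ Icc (t0 - 2 * h) (t0 + 2 * h) := ⟨by linarith [ht.1], by linarith [ht.2]⟩
    have hd : |⟪l, γ1 t0⟫ - ⟪l, γ1 t⟫| ≤ ε / 4 * ‖l‖ := by
      rw [← inner_sub_right]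
      calc |⟪l, γ1 t0 - γ1 t⟫| ≤ ‖l‖ * ‖γ1 t0 - γ1 t‖ := abs_real_inner_le_norm _ _
        _ ≤ ‖l‖ * (ε / 4) := by
            rw [norm_sub_rev]
            exact mul_le_mul_of_nonneg_left (h1 t ht') (norm_nonneg _)
        _ = ε / 4 * ‖l‖ := by ring
    have h5 := abs_sub_abs_le_abs_sub ⟪l, γ1 t0⟫ ⟪l, γ1 t⟫
    have h6 : min (3 * ε / 4) (3 * ε / 4 * (h / 2)) * ‖l‖ ≤ 3 * ε / 4 * ‖l‖ :=
      mul_le_mul_of_nonneg_right (min_le_left _ _) (norm_nonneg _)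
    linarith

/-- a good window around `t0` -/
private lemma dirf_window (hL : Loop L γ γ1 γ2 γ3 V C) {t0 : ℝ}
    (ht0 : t0 ∈ Ioo 0 L) (htV : t0 ∉ V) {ε : ℝ} (hε : 0 < ε) :
    ∃ h > 0, 0 < t0 - 2 * h ∧ t0 + 2 * h < L ∧
      (∀ t ∈ Icc (t0 - 2 * h) (t0 + 2 * h), t ∉ V) ∧
      (∀ t ∈ Icc (t0 - 2 * h) (t0 + 2 * h), ‖γ1 t - γ1 t0‖ ≤ ε / 4) ∧
      (∀ t ∈ Icc (t0 - 2 * h) (t0 + 2 * h), ‖γ2 t - γ2 t0‖ ≤ ε / 4) ∧
      (∀ t ∈ Icc (t0 - 2 * h) (t0 + 2 * h), 1 / 2 ≤ ⟪γ1 t0, γ1 t⟫) := by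
  have c1 : ContinuousAt γ1 t0 := hL.contγ1.continuousAt
  have c2 : ContinuousAt γ2 t0 := (hL.h3 t0 ht0 htV).continuousAt
  have e1 : ∀ᶠ t in 𝓝 t0, t ∈ Ioo 0 L := isOpen_Ioo.mem_nhds ht0
  have e2 : ∀ᶠ t in 𝓝 t0, t ∉ V :=
    (V.finite_toSet.isClosed.isOpen_compl.mem_nhds (by simpa using htV))
  have e3 : ∀ᶠ t in 𝓝 t0, ‖γ1 t - γ1 t0‖ < ε / 4 := by
    have := Metric.continuousAt_iff'.1 c1 (ε / 4) (by linarith)
    simpa [dist_eq_norm] using this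
  have e4 : ∀ᶠ t in 𝓝 t0, ‖γ2 t - γ2 t0‖ < ε / 4 := by
    have := Metric.continuousAt_iff'.1 c2 (ε / 4) (by linarith)
    simpa [dist_eq_norm] using this
  have e5 : ∀ᶠ t in 𝓝 t0, 1 / 2 < ⟪γ1 t0, γ1 t⟫ := by
    have c3 : ContinuousAt (fun t => ⟪γ1 t0, γ1 t⟫) t0 :=
      (continuous_const.inner hL.contγ1).continuousAt
    have : (1:ℝ) / 2 < ⟪γ1 t0, γ1 t0⟫ := by
      rw [real_inner_self_eq_norm_sq, hL.unit]; norm_num
    exact c3.eventually (lt_mem_nhds this)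
  have hall := e1.and (e2.and (e3.and (e4.and e5)))
  obtain ⟨δ, hδ, hball⟩ := Metric.eventually_nhds_iff.1 hall
  have hin : ∀ t ∈ Icc (t0 - 2 * (δ / 4)) (t0 + 2 * (δ / 4)), dist t t0 < δ := by
    intro t ht
    rw [Real.dist_eq, abs_lt]
    constructor <;> linarith [ht.1, ht.2]
  refine ⟨δ / 4, by linarith, ?_, ?_, ?_, ?_, ?_, ?_⟩
  · exact (hball (hin (t0 - 2 * (δ / 4)) ⟨le_rfl, by linarith⟩)).1.1
  · exact (hball (hin (t0 + 2 * (δ / 4)) ⟨by linarith, le_rfl⟩)).1.2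
  · exact fun t ht => (hball (hin t ht)).2.1
  · exact fun t ht => (hball (hin t ht)).2.2.1.le
  · exact fun t ht => (hball (hin t ht)).2.2.2.1.le
  · exact fun t ht => (hball (hin t ht)).2.2.2.2.le

/-- (DIRF) Far frequencies nearly orthogonal to the tangent and to the curvature vector at every smooth parameter.
Proof by contradiction: suppose for all `i` with `‖lam i‖ ≥ R1`:
`|⟪lam i, γ1 t0⟫| > ε ‖lam i‖` or `|⟪lam i, γ2 t0⟫| > ε ‖lam i‖`. Choose `h > 0` such that on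
`J2 = [t0 - 2h, t0 + 2h] ⊆ (0, L) \ V`: `‖γ1 t - γ1 t0‖ ≤ ε/4`, `‖γ2 t - γ2 t0‖ ≤ ε/4`,
`⟪γ1 t0, γ1 t⟫ ≥ 1/2`. Put `J = [t0 - h, t0 + h]`, `v = γ1 t0`, `c0 = min (3ε/4) (3 ε h/8)`.
Every far `i` is of type N: `|⟪lam i, γ1 t⟫| ≥ c0 ‖lam i‖` on `J`, or of `TypeX γ1 γ2 (t0-2h) (t0+2h) (3ε/4) (h/2)`
(if the second alternative holds and `⟪lam i, γ1⟫` has no zero in `[t0 - 3h/2, t0 + 3h/2]`, then its modulus is at
least `(3ε/4) ‖lam i‖ * h/2` on `J`, because it is monotone with slope `≥ (3ε/4) ‖lam i‖`).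
For `R ≥ 1` and `K0 = max (2/c0) (2C/(3ε/4))`: for every `h' ∈ [0, R]`, `ONB.par_ab` with
`f t = ex (h' ⟪v, γ t⟫)` on `J` gives `∑_i ‖∫_J ex(-⟪lam i - h' v, γ⟫)‖² = L * 2h`; integrate over `h' ∈ [0, R]`
(`lintegral_tsum` or `integral_tsum`; `ι` is countable):
`R L 2h = ∑_i ∫_0^R ‖...‖² dh' ≤ ∑_{‖lam i‖ ≤ K0 R + R1} 12 h` (`planch`, `φ = ex(-⟪lam i, γ⟫)`, `u = ⟪v, γ⟫`)
`+ R ∑_{N, ‖lam i‖ > K0 R} K²/‖lam i‖² + R ∑_{X, ‖lam i‖ > K0 R} K/‖lam i‖`. Divide by `R`: the last two sums tend to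
`0` (tails of the convergent series `inv_sq_summable`, `crossing_summable`), the first is
`≤ 12 h * n((K0 + R1) R)/R`, which is `≤ 12 h (K0 + R1) η` for suitable arbitrarily large `R` (`sparse`).
Contradiction for small `η`. -/
theorem direction [Countable ι] (hL : Loop L γ γ1 γ2 γ3 V C) (hF : ONB L γ lam) {t0 : ℝ}
    (ht0 : t0 ∈ Ioo 0 L) (htV : t0 ∉ V) :
    ∀ ε > (0:ℝ), ∀ R : ℝ, ∃ i, R ≤ ‖lam i‖ ∧ |⟪lam i, γ1 t0⟫| ≤ ε * ‖lam i‖ ∧
      |⟪lam i, γ2 t0⟫| ≤ ε * ‖lam i‖ := by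
  intro ε hε R1
  by_contra hcon
  push Not at hcon
  obtain ⟨h, hh, ha2, hb2, hV, hw1, hw2, hw3⟩ := dirf_window hL ht0 htV hε
  have hLpos := hL.Lpos
  have hC := hL.Cpos
  obtain ⟨c, hcdef⟩ : ∃ c, c = 3 * ε / 4 := ⟨_, rfl⟩
  have hc : 0 < c := by rw [hcdef]; linarith
  obtain ⟨c0, hc0def⟩ : ∃ c0, c0 = min c (c * (h / 2)) := ⟨_, rfl⟩
  have hc0 : 0 < c0 := by
    rw [hc0def]; exact lt_min hc (mul_pos hc (by linarith))
  have sub : ∀ t ∈ Icc (t0 - h) (t0 + h), t ∈ Icc (t0 - 2 * h) (t0 + 2 * h) :=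
    fun t ht => ⟨by linarith [ht.1], by linarith [ht.2]⟩
  have hab : t0 - h ≤ t0 + h := by linarith
  -- the two bounds for far frequencies
  obtain ⟨KN, hKN, bN⟩ := far_noncross hL (a := t0 - h) (b := t0 + h) (c := c0) (by linarith)
    hab (by linarith) hc0
  obtain ⟨KX, hKX, bX⟩ := far_cross hL (a := t0 - h) (b := t0 + h) (c := c) (by linarith)
    hab (by linarith) (fun t ht => hV t (sub t ht)) hc
  -- the summable majorant
  have s1 := inv_sq_summable hL hF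
  have s2 := crossing_summable hL hF (a := t0 - 2 * h) (b := t0 + 2 * h) (c := c) (h := h / 2)
    ha2 (by linarith) hb2 hV hc (by linarith)
  obtain ⟨A1, hA1⟩ : ∃ A1 : ι → ℝ, A1 = fun i => Set.indicator {i | 1 ≤ ‖lam i‖}
    (fun i => 1 / ‖lam i‖ ^ 2) i := ⟨_, rfl⟩
  obtain ⟨A2, hA2⟩ : ∃ A2 : ι → ℝ, A2 = fun i => Set.indicator {i | 1 ≤ ‖lam i‖ ∧
    TypeX γ1 γ2 (t0 - 2 * h) (t0 + 2 * h) c (h / 2) (lam i)} (fun i => 1 / ‖lam i‖) i := ⟨_, rfl⟩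
  rw [← hA1] at s1
  rw [← hA2] at s2
  have nA1 : ∀ i, 0 ≤ A1 i := by
    intro i; rw [hA1]; exact Set.indicator_nonneg (fun i _ => by positivity) i
  have nA2 : ∀ i, 0 ≤ A2 i := by
    intro i; rw [hA2]; exact Set.indicator_nonneg (fun i _ => by positivity) i
  have sB : Summable (fun i => KN ^ 2 * A1 i + KX * A2 i) := (s1.mul_left _).add (s2.mul_left _)
  have nB : ∀ i, 0 ≤ KN ^ 2 * A1 i + KX * A2 i := fun i =>
    add_nonneg (mul_nonneg (by positivity) (nA1 i)) (mul_nonneg hKX.le (nA2 i))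
  have hLh : 0 < L * h := mul_pos hLpos hh
  obtain ⟨T0, hT0⟩ := summable_iff_vanishing_norm.1 sB (L * h) hLh
  -- the radius
  obtain ⟨K0, hK0def⟩ : ∃ K0, K0 = max (max (2 / c0) (2 * C / c)) 1 := ⟨_, rfl⟩
  have hK0 : 1 ≤ K0 := by rw [hK0def]; exact le_max_right _ _
  have hK01 : 2 / c0 ≤ K0 := by
    rw [hK0def]; exact (le_max_left _ _).trans (le_max_left _ _)
  have hK02 : 2 * C / c ≤ K0 := by
    rw [hK0def]; exact (le_max_right _ _).trans (le_max_left _ _)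
  obtain ⟨M0, hM0⟩ : ∃ M0 : ℝ, ∀ i ∈ T0, ‖lam i‖ ≤ M0 := by
    refine ⟨∑ i ∈ T0, ‖lam i‖, fun i hi => ?_⟩
    exact Finset.single_le_sum (f := fun i => ‖lam i‖) (fun j _ => norm_nonneg _) hi
  obtain ⟨R', hR', hcard⟩ := sparse hL hF (L / (24 * K0)) (by positivity) (max (max M0 R1) 1)
  have hR'1 : 1 ≤ R' := (le_max_right _ _).trans hR'
  have hR'2 : R1 ≤ R' := ((le_max_right _ _).trans (le_max_left _ _)).trans hR'
  have hR'3 : M0 ≤ R' := ((le_max_left _ _).trans (le_max_left _ _)).trans hR'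
  obtain ⟨R, hRdef⟩ : ∃ R, R = R' / K0 := ⟨_, rfl⟩
  have hR'R : R' = K0 * R := by rw [hRdef]; field_simp
  have hRpos : 0 < R := by rw [hRdef]; positivity
  obtain ⟨S, hS⟩ : ∃ S : Finset ι, ∀ i, i ∈ S ↔ ‖lam i‖ ≤ R' :=
    ⟨(fin_ball hL hF R').toFinset, fun i => by simp⟩
  have cS := hcard S (fun i hi => (hS i).1 hi)
  -- the functions
  obtain ⟨F, hF0⟩ : ∃ F : ι → ℝ → ℝ, F = fun i x =>
    ‖∫ t in (t0 - h)..(t0 + h), ex (-⟪lam i, γ t⟫) * ex (x * ⟪γ1 t0, γ t⟫)‖ ^ 2 := ⟨_, rfl⟩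
  have hFx : ∀ i x, F i x = ‖∫ t in (t0 - h)..(t0 + h), ex (-⟪lam i - x • γ1 t0, γ t⟫)‖ ^ 2 := by
    intro i x
    rw [hF0]
    have : ∀ t, ex (-⟪lam i, γ t⟫) * ex (x * ⟪γ1 t0, γ t⟫) = ex (-⟪lam i - x • γ1 t0, γ t⟫) := by
      intro t
      rw [← ex_add, inner_sub_left, real_inner_smul_left]
      congr 1
      ring
    simp only [this]
  have nF : ∀ i x, 0 ≤ F i x := by intro i x; rw [hF0]; positivity
  have cF : ∀ i, Continuous (F i) := by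
    intro i
    rw [hF0]
    have c1 : Continuous (Function.uncurry fun (x : ℝ) (t : ℝ) =>
        ex (-⟪lam i, γ t⟫) * ex (x * ⟪γ1 t0, γ t⟫)) := by
      apply Continuous.mul
      · exact continuous_ex.comp ((continuous_const.inner (hL.contγ.comp continuous_snd)).neg)
      · exact continuous_ex.comp (continuous_fst.mul
          (continuous_const.inner (hL.contγ.comp continuous_snd)))
    exact (intervalIntegral.continuous_parametric_intervalIntegral_of_continuous' c1 _ _).norm.pow 2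
  -- Parseval
  have par : ∀ x, HasSum (fun i => F i x) (L * (2 * h)) := by
    intro x
    have hbm : BM (fun t => ex (x * ⟪γ1 t0, γ t⟫)) :=
      BM.ex_comp (continuous_const.mul (continuous_const.inner hL.contγ)).measurable
    have h1 := hF.par_ab (a := t0 - h) (b := t0 + h) (by linarith) hab (by linarith) hbm
    have h2 : ∫ t in (t0 - h)..(t0 + h), ‖ex (x * ⟪γ1 t0, γ t⟫)‖ ^ 2 = 2 * h := by
      simp only [norm_ex]
      simp
      ring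
    rw [h2] at h1
    have h3 : (fun i => F i x) = fun i =>
        ‖∫ t in (t0 - h)..(t0 + h), ex (x * ⟪γ1 t0, γ t⟫) * ex (-⟪lam i, γ t⟫)‖ ^ 2 := by
      funext i
      rw [hF0]
      simp only [mul_comm]
    rw [h3]
    exact h1
  -- far frequencies
  have far : ∀ x ∈ Icc (0:ℝ) R, ∀ i, i ∉ S → F i x ≤ KN ^ 2 * A1 i + KX * A2 i := by
    intro x hx i hi
    rw [hS, not_le] at hi
    have hli : 1 ≤ ‖lam i‖ := hR'1.trans hi.le
    have hl0 : 0 < ‖lam i‖ := by linarith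
    have hxR : K0 * x ≤ ‖lam i‖ :=
      (mul_le_mul_of_nonneg_left hx.2 (by linarith)).trans (hR'R ▸ hi.le)
    have hx1 : x ≤ c0 / 2 * ‖lam i‖ := by
      have h1 : 2 / c0 * x ≤ ‖lam i‖ := (mul_le_mul_of_nonneg_right hK01 hx.1).trans hxR
      have h2 : x = c0 / 2 * (2 / c0 * x) := by field_simp
      rw [h2]
      exact mul_le_mul_of_nonneg_left h1 (by positivity)
    have hx2 : x ≤ c / (2 * C) * ‖lam i‖ := by
      have h1 : 2 * C / c * x ≤ ‖lam i‖ := (mul_le_mul_of_nonneg_right hK02 hx.1).trans hxR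
      have hC0 : 0 < C := by linarith
      have h2 : x = c / (2 * C) * (2 * C / c * x) := by field_simp
      rw [h2]
      exact mul_le_mul_of_nonneg_left h1 (by positivity)
    rcases dirf_type hL hh ha2 hb2 hV hw1 hw2 (hcon i (hR'2.trans hi.le) · |>.not_ge) with hN | hX
    · have b1 := bN (lam i) (γ1 t0) x hl0 (hL.unit t0) hx.1 hx1 (by
        rw [hc0def, hcdef]; exact hN)
      have b2 : F i x ≤ KN ^ 2 * A1 i := by
        rw [hFx, hA1]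
        beta_reduce
        rw [Set.indicator_of_mem (show i ∈ {i | 1 ≤ ‖lam i‖} from hli)]
        calc ‖∫ t in (t0 - h)..(t0 + h), ex (-⟪lam i - x • γ1 t0, γ t⟫)‖ ^ 2
            ≤ (KN / ‖lam i‖) ^ 2 := by
              exact pow_le_pow_left₀ (norm_nonneg _) b1 2
          _ = KN ^ 2 * (1 / ‖lam i‖ ^ 2) := by rw [div_pow]; ring
      have := mul_nonneg hKX.le (nA2 i)
      linarith
    · have hX' : TypeX γ1 γ2 (t0 - 2 * h) (t0 + 2 * h) c (h / 2) (lam i) := by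
        rw [hcdef]; exact hX
      have b1 := bX (lam i) (γ1 t0) x hl0 (hL.unit t0) hx.1 hx2 (by
        rcases hX'.2 with h3 | h3
        · exact Or.inl fun t ht => h3 t (sub t ht)
        · exact Or.inr fun t ht => h3 t (sub t ht))
      have b2 : F i x ≤ KX * A2 i := by
        rw [hFx, hA2]
        beta_reduce
        rw [Set.indicator_of_mem (show i ∈ {i | 1 ≤ ‖lam i‖ ∧
          TypeX γ1 γ2 (t0 - 2 * h) (t0 + 2 * h) c (h / 2) (lam i)} from ⟨hli, hX'⟩)]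
        calc ‖∫ t in (t0 - h)..(t0 + h), ex (-⟪lam i - x • γ1 t0, γ t⟫)‖ ^ 2
            ≤ KX / ‖lam i‖ := b1
          _ = KX * (1 / ‖lam i‖) := by ring
      have := mul_nonneg (show (0:ℝ) ≤ KN ^ 2 by positivity) (nA1 i)
      linarith
  -- the pointwise inequality
  have point : ∀ x ∈ Icc (0:ℝ) R, L * (2 * h) ≤ ∑ i ∈ S, F i x + L * h := by
    intro x hx
    classical
    refine hasSum_le_of_sum_le (par x) fun T => ?_
    have h1 : ∑ i ∈ T, F i x ≤ ∑ i ∈ S ∪ (T \ S), F i x := by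
      refine Finset.sum_le_sum_of_subset_of_nonneg ?_ fun i _ _ => nF i x
      rw [Finset.union_sdiff_self_eq_union]
      exact Finset.subset_union_right
    have h2 : ∑ i ∈ S ∪ (T \ S), F i x = ∑ i ∈ S, F i x + ∑ i ∈ T \ S, F i x :=
      Finset.sum_union Finset.disjoint_sdiff
    have h3 : ∑ i ∈ T \ S, F i x ≤ ∑ i ∈ T \ S, (KN ^ 2 * A1 i + KX * A2 i) :=
      Finset.sum_le_sum fun i hi => far x hx i (Finset.mem_sdiff.1 hi).2
    have hdis : Disjoint (T \ S) T0 := by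
      rw [Finset.disjoint_left]
      intro i hi hi0
      exact (Finset.mem_sdiff.1 hi).2 ((hS i).2 ((hM0 i hi0).trans hR'3))
    have h4 := hT0 (T \ S) hdis
    rw [Real.norm_eq_abs] at h4
    have h5 := le_abs_self (∑ i ∈ T \ S, (KN ^ 2 * A1 i + KX * A2 i))
    linarith
  -- integrate
  have hplan : ∀ i, ∫ x in (0:ℝ)..R, F i x ≤ 12 * h := by
    intro i
    have h1 := planch (u := fun t => ⟪γ1 t0, γ t⟫) (u1 := fun t => ⟪γ1 t0, γ1 t⟫)
      (φ := fun t => ex (-⟪lam i, γ t⟫)) hab hRpos (continuous_const.inner hL.contγ)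
      (fun t _ => hL.hasDerivAt_inner _ t) (fun t ht => hw3 t (sub t ht))
      (continuous_ex.comp (continuous_const.inner hL.contγ).neg).measurable
      (fun t => (norm_ex _).le)
    have h2 : (t0 + h - (t0 - h)) = 2 * h := by ring
    rw [h2] at h1
    rw [hF0]
    linarith
  have int1 : ∫ x in (0:ℝ)..R, (L * h) ≤ ∫ x in (0:ℝ)..R, ∑ i ∈ S, F i x := by
    refine intervalIntegral.integral_mono_on hRpos.le
      (continuous_const.intervalIntegrable _ _)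
      ((continuous_finsetSum S fun i _ => cF i).intervalIntegrable _ _) fun x hx => ?_
    have := point x hx
    linarith
  rw [intervalIntegral.integral_finsetSum (fun i _ => (cF i).intervalIntegrable _ _),
    intervalIntegral.integral_const] at int1
  have sum1 : ∑ i ∈ S, ∫ x in (0:ℝ)..R, F i x ≤ S.card * (12 * h) := by
    calc ∑ i ∈ S, ∫ x in (0:ℝ)..R, F i x ≤ ∑ i ∈ S, 12 * h := Finset.sum_le_sum fun i _ => hplan i
      _ = S.card * (12 * h) := by rw [Finset.sum_const, nsmul_eq_mul]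
  have sum2 : (S.card : ℝ) * (12 * h) ≤ L / (24 * K0) * R' * (12 * h) :=
    mul_le_mul_of_nonneg_right cS (by positivity)
  have e3 : L / (24 * K0) * R' * (12 * h) = R * (L * h) / 2 := by
    rw [hR'R]; field_simp; ring
  rw [e3] at sum2
  rw [sub_zero, smul_eq_mul] at int1
  have : 0 < R * (L * h) := mul_pos hRpos hLh
  linarith

end Pool.Agent.LoopSpec
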