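import Pool.Agent.Lib_MP_e9ccd1_s.Lower
import Pool.Agent.Lib_MP_e9ccd1_s.CountA

/-!
# MP_e9ccd1_an, space curves: binormal directions (pieces DIRX, DIRN, DIRF)
-/

set_option autoImplicit false

open MeasureTheory Set Filter Topology
open scoped RealInnerProductSpace
open Pool.Agent.CurveSpec (ex BM norm_ex ex_zero ex_add conj_ex continuous_ex)

namespace Pool.Agent.LoopSpec

variable {E : Type*} [NormedAddCommGroup E] [InnerProductSpace ℝ E]
variable {ι : Type*} {L C : ℝ} {γ γ1 γ2 γ3 : ℝ → E} {V : Finset ℝ} {lam : ι → E}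

/-- (DIRX) Proof: for `‖lam i‖ ≥ ρ0` and `TypeX`, `lower_quad` with `ψ = -⟪lam i, γ⟫`, `ρ = ‖lam i‖`, `m = c`,
`M = C` (`c ≤ C` because `c ‖l‖ ≤ |⟪l, γ2⟫| ≤ C ‖l‖`), `a = h` gives `c'^2/‖lam i‖ ≤ ‖∫_a^b ex(-⟪lam i,γ⟫)‖²`, which is
summable by `ONB.par_one`; only finitely many `i` have `‖lam i‖ < ρ0` (`fin_ball`). -/
theorem crossing_summable (hL : Loop L γ γ1 γ2 γ3 V C) (hF : ONB L γ lam) {a b c h : ℝ}
    (ha : 0 < a) (hab : a ≤ b) (hb : b < L) (hV : ∀ t ∈ Icc a b, t ∉ V) (hc : 0 < c) (hh : 0 < h) :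
    Summable (fun i => Set.indicator {i | 1 ≤ ‖lam i‖ ∧ TypeX γ1 γ2 a b c h (lam i)}
      (fun i => 1 / ‖lam i‖) i) := by
  obtain ⟨c', hc', ρ0, hρ0, key⟩ := lower_quad c (max C c) h hc (le_max_right _ _) hh
  have hpar := (hF.par_one ha.le hab hb.le).summable
  have hfin := fin_ball hL hF ρ0
  have hs1 : Summable (fun i => (c' ^ 2)⁻¹ * ‖∫ t in a..b, ex (-⟪lam i, γ t⟫)‖ ^ 2) :=
    hpar.mul_left _
  have hs2 : Summable (Set.indicator {i | ‖lam i‖ ≤ ρ0} (fun _ => (1 : ℝ))) :=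
    summable_of_hasFiniteSupport (hfin.subset (Set.support_indicator_subset))
  refine Summable.of_nonneg_of_le (fun i => ?_) (fun i => ?_) (hs1.add hs2)
  · exact Set.indicator_nonneg (fun i _ => by positivity) i
  · have hp : 0 ≤ (c' ^ 2)⁻¹ * ‖∫ t in a..b, ex (-⟪lam i, γ t⟫)‖ ^ 2 := by positivity
    have hq : 0 ≤ Set.indicator {i | ‖lam i‖ ≤ ρ0} (fun _ => (1 : ℝ)) i :=
      Set.indicator_nonneg (fun i _ => zero_le_one) i
    by_cases hi : i ∈ {i | 1 ≤ ‖lam i‖ ∧ TypeX γ1 γ2 a b c h (lam i)}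
    swap
    · rw [Set.indicator_of_notMem hi]
      exact add_nonneg hp hq
    rw [Set.indicator_of_mem hi]
    obtain ⟨h1, ⟨s, hs, hs0⟩, hT⟩ := hi
    by_cases hr : ‖lam i‖ ≤ ρ0
    · have e : Set.indicator {i | ‖lam i‖ ≤ ρ0} (fun _ => (1 : ℝ)) i = 1 :=
        Set.indicator_of_mem (s := {i | ‖lam i‖ ≤ ρ0}) hr _
      have h2 : 1 / ‖lam i‖ ≤ 1 := by
        rw [div_le_one (by linarith)]
        exact h1
      rw [e]
      linarith
    · push Not at hr
      have hmem : ∀ t ∈ Icc a b, t ∈ Ioo 0 L := fun t ht =>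
        ⟨lt_of_lt_of_le ha ht.1, lt_of_le_of_lt ht.2 hb⟩
      have hup : ∀ t, |⟪lam i, γ2 t⟫| ≤ max C c * ‖lam i‖ := by
        intro t
        calc |⟪lam i, γ2 t⟫| ≤ ‖lam i‖ * ‖γ2 t‖ := abs_real_inner_le_norm _ _
          _ ≤ ‖lam i‖ * max C c :=
            mul_le_mul_of_nonneg_left ((hL.b2 t).trans (le_max_left _ _)) (norm_nonneg _)
          _ = max C c * ‖lam i‖ := mul_comm _ _
      have k := key ‖lam i‖ hr.le (fun t => -⟪lam i, γ t⟫) (fun t => -⟪lam i, γ1 t⟫)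
        (fun t => -⟪lam i, γ2 t⟫) a s b hs.1 (by linarith [hs.2])
        (fun t _ => (hL.hasDerivAt_inner (lam i) t).neg)
        (fun t ht => (hL.hasDerivAt_inner1 (lam i) (hmem t ht) (hV t ht)).neg)
        (fun t ht => ((hL.hasDerivAt_inner2 (lam i) (hmem t ht)
          (hV t ht)).neg.continuousAt.continuousWithinAt))
        (by simp [hs0])
        (by
          rcases hT with hT | hT
          · right
            intro t ht
            simp only [neg_neg]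
            exact ⟨hT t ht, (le_abs_self _).trans (hup t)⟩
          · left
            intro t ht
            refine ⟨by linarith [hT t ht], (neg_le_abs _).trans (hup t)⟩)
      have hρ : 0 < ‖lam i‖ := lt_of_lt_of_le one_pos h1
      have hsq : 0 < Real.sqrt ‖lam i‖ := Real.sqrt_pos.2 hρ
      have k2 : (c' / Real.sqrt ‖lam i‖) ^ 2 ≤ ‖∫ t in a..b, ex (-⟪lam i, γ t⟫)‖ ^ 2 :=
        pow_le_pow_left₀ (by positivity) k 2
      rw [div_pow, Real.sq_sqrt hρ.le] at k2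
      have k3 : 1 / ‖lam i‖ ≤ (c' ^ 2)⁻¹ * ‖∫ t in a..b, ex (-⟪lam i, γ t⟫)‖ ^ 2 := by
        rw [inv_mul_eq_div, le_div_iff₀ (by positivity)]
        calc 1 / ‖lam i‖ * c' ^ 2 = c' ^ 2 / ‖lam i‖ := by ring
          _ ≤ _ := k2
      linarith

end Pool.Agent.LoopSpec
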