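import Pool.Agent.Lib_MP_e9ccd1_s.Base

/-!
# MP_e9ccd1_an, space curves: transfer (pieces MKLOOP, MKONB)
-/

set_option autoImplicit false

open MeasureTheory Set Filter Topology
open scoped RealInnerProductSpace
open Pool.Agent.CurveSpec

namespace Pool.Agent.LoopSpec

/-- clamping to the parameter interval -/
noncomputable def mkClamp (L t : ℝ) : ℝ := max 0 (min L t)

lemma mkClamp_mem {L : ℝ} (hL : 0 ≤ L) (t : ℝ) : mkClamp L t ∈ Icc 0 L :=
  ⟨le_max_left _ _, max_le hL (min_le_left _ _)⟩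

lemma mkClamp_eq {L t : ℝ} (ht : t ∈ Icc 0 L) : mkClamp L t = t := by
  unfold mkClamp; rw [min_eq_right ht.2, max_eq_right ht.1]

lemma mkClamp_cont (L : ℝ) : Continuous (mkClamp L) := by
  unfold mkClamp; fun_prop

lemma mkClamp_neg {L t : ℝ} (ht : t ≤ 0) : mkClamp L t = 0 := by
  unfold mkClamp
  exact max_eq_left ((min_le_right _ _).trans ht)

lemma mkClamp_big {L t : ℝ} (hL : 0 ≤ L) (ht : L ≤ t) : mkClamp L t = L := by
  unfold mkClamp
  rw [min_eq_left ht, max_eq_right hL]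

lemma mk_find_piece {L : ℝ} {n : ℕ} {τ : ℕ → ℝ} (h0 : τ 0 = 0) (hn : τ n = L) {t : ℝ}
    (ht : 0 < t) (htL : t < L) (hne : ∀ k ≤ n, t ≠ τ k) : ∃ k < n, τ k < t ∧ t < τ (k + 1) := by
  classical
  have hex : ∃ k : ℕ, k ≤ n ∧ t < τ k := ⟨n, le_rfl, by rw [hn]; exact htL⟩
  have h1 := Nat.find_spec hex
  have hmin := fun m => Nat.find_min (m := m) hex
  set k := Nat.find hex with hk
  have hk0 : k ≠ 0 := by
    intro h; rw [h, h0] at h1; linarith [h1.2]
  obtain ⟨m, hm⟩ := Nat.exists_eq_succ_of_ne_zero hk0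
  rw [Nat.succ_eq_add_one] at hm
  refine ⟨m, by omega, ?_, by rw [← hm]; exact h1.2⟩
  have h2 := hmin m (by omega)
  have h3 : ¬ t < τ m := fun h => h2 ⟨by omega, h⟩
  exact lt_of_le_of_ne (not_lt.1 h3) (hne m (by omega)).symm

section piece

variable {F : Type*} [NormedAddCommGroup F] [NormedSpace ℝ F]

/-- bounds on one closed piece -/
lemma mk_piece {a b : ℝ} (hab : a < b) {c : ℝ → F} (h : ContDiffOn ℝ 3 c (Icc a b)) :
    ∃ M : ℝ, ∀ t ∈ Ioo a b, DifferentiableAt ℝ (deriv c) t ∧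
      DifferentiableAt ℝ (deriv (deriv c)) t ∧ ContinuousAt (deriv (deriv (deriv c))) t ∧
      ‖deriv (deriv c) t‖ ≤ M ∧ ‖deriv (deriv (deriv c)) t‖ ≤ M := by
  have hun : UniqueDiffOn ℝ (Icc a b) := uniqueDiffOn_Icc hab
  have e3 : (3 : WithTop ℕ∞) = 2 + 1 := by norm_num
  have e2 : (2 : WithTop ℕ∞) = 1 + 1 := by norm_num
  have e1 : (1 : WithTop ℕ∞) = 0 + 1 := by norm_num
  -- the closed piece
  set D1 := derivWithin c (Icc a b) with hD1
  set D2 := derivWithin D1 (Icc a b) with hD2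
  set D3 := derivWithin D2 (Icc a b) with hD3
  have k1 : ContDiffOn ℝ 2 D1 (Icc a b) := by
    rw [e3] at h
    exact ((contDiffOn_succ_iff_derivWithin hun).mp h).2.2
  have k2 : ContDiffOn ℝ 1 D2 (Icc a b) := by
    rw [e2] at k1
    exact ((contDiffOn_succ_iff_derivWithin hun).mp k1).2.2
  have k3 : ContDiffOn ℝ 0 D3 (Icc a b) := by
    rw [e1] at k2
    exact ((contDiffOn_succ_iff_derivWithin hun).mp k2).2.2
  obtain ⟨M2, hM2⟩ := isCompact_Icc.exists_bound_of_continuousOn k2.continuousOn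
  obtain ⟨M3, hM3⟩ := isCompact_Icc.exists_bound_of_continuousOn k3.continuousOn
  -- the open piece
  have ho := h.mono (Ioo_subset_Icc_self (a := a) (b := b))
  rw [e3] at ho
  have o1 := ((contDiffOn_succ_iff_deriv_of_isOpen isOpen_Ioo).mp ho).2.2
  have o1' := o1
  rw [e2] at o1'
  have o2 := (contDiffOn_succ_iff_deriv_of_isOpen isOpen_Ioo).mp o1'
  have o2' := o2.2.2
  rw [e1] at o2'
  have o3 := (contDiffOn_succ_iff_deriv_of_isOpen isOpen_Ioo).mp o2'
  have hD1e : ∀ t ∈ Ioo a b, D1 t = deriv c t := fun t ht =>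
    derivWithin_of_mem_nhds (Icc_mem_nhds ht.1 ht.2)
  have hD2e : ∀ t ∈ Ioo a b, D2 t = deriv (deriv c) t := by
    intro t ht
    rw [hD2, derivWithin_of_mem_nhds (Icc_mem_nhds ht.1 ht.2)]
    apply Filter.EventuallyEq.deriv_eq
    filter_upwards [isOpen_Ioo.mem_nhds ht] with s hs using hD1e s hs
  have hD3e : ∀ t ∈ Ioo a b, D3 t = deriv (deriv (deriv c)) t := by
    intro t ht
    rw [hD3, derivWithin_of_mem_nhds (Icc_mem_nhds ht.1 ht.2)]
    apply Filter.EventuallyEq.deriv_eq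
    filter_upwards [isOpen_Ioo.mem_nhds ht] with s hs using hD2e s hs
  refine ⟨max M2 M3, fun t ht => ?_⟩
  have htn := isOpen_Ioo.mem_nhds ht
  refine ⟨(o2.1 t ht).differentiableAt htn, (o3.1 t ht).differentiableAt htn,
    o3.2.2.continuousOn.continuousAt htn, ?_, ?_⟩
  · rw [← hD2e t ht]
    exact (hM2 t (Ioo_subset_Icc_self ht)).trans (le_max_left _ _)
  · rw [← hD3e t ht]
    exact (hM3 t (Ioo_subset_Icc_self ht)).trans (le_max_right _ _)

/-- a continuous function with bounded derivative outside a finite set is Lipschitz -/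
lemma mk_lip [CompleteSpace F] {g : ℝ → F} (hg : Continuous g) {N : Set ℝ} (hN : N.Finite)
    {M : ℝ} (hM : 0 ≤ M) (hd : ∀ t, t ∉ N → DifferentiableAt ℝ g t ∧ ‖deriv g t‖ ≤ M)
    (s t : ℝ) : ‖g s - g t‖ ≤ M * |s - t| := by
  classical
  set g' : ℝ → F := Nᶜ.indicator (deriv g) with hg'
  have hb : ∀ x, ‖g' x‖ ≤ M := by
    intro x
    by_cases hx : x ∈ N
    · rw [hg', Set.indicator_of_notMem (by simpa using hx)]
      simpa using hM
    · rw [hg', Set.indicator_of_mem (show x ∈ Nᶜ from hx)]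
      exact (hd x hx).2
  have hmeas : StronglyMeasurable g' :=
    (stronglyMeasurable_deriv g).indicator hN.measurableSet.compl
  have hint : IntervalIntegrable g' volume t s := by
    rw [intervalIntegrable_iff]
    exact Measure.integrableOn_of_bounded (M := M) (by simp)
      hmeas.aestronglyMeasurable (Eventually.of_forall hb)
  have h1 := MeasureTheory.integral_eq_of_hasDerivAt_off_countable g g' hN.countable
    hg.continuousOn (fun x hx => by
      rw [hg', Set.indicator_of_mem (show x ∈ Nᶜ from hx.2)]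
      exact (hd x hx.2).1.hasDerivAt) hint
  rw [← h1]
  exact intervalIntegral.norm_integral_le_of_norm_le_const fun x _ => hb x

end piece

/-- (MKLOOP) Proof: `γ1 t = derivWithin c (Icc 0 L) (clamp t)` (continuous on `ℝ`), `γ t = c 0 + ∫_0^t γ1`, `γ2 = deriv γ1`,
`γ3 = deriv γ2` on `(0, L) \ V` and `0` elsewhere, `V` = the break points `τ k`. On every closed piece `γ1` is `C^2`
(`ContDiffOn ℝ 3 c` there and `derivWithin` on the piece agrees with `derivWithin` on `Icc 0 L`), so `γ2, γ3` are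
bounded on the open pieces (they extend continuously to the closed ones), and `γ1` is Lipschitz on every closed piece,
hence on `ℝ` by continuity. -/
theorem mkLoop {F : Type*} [NormedAddCommGroup F] [InnerProductSpace ℝ F] [CompleteSpace F]
    {L : ℝ} (hL : 0 < L) {c : ℝ → F} (h1 : ContDiffOn ℝ 1 c (Icc 0 L))
    (hu : ∀ t ∈ Icc 0 L, ‖derivWithin c (Icc 0 L) t‖ = 1) (hc : c 0 = c L)
    (h3 : ∃ (n : ℕ) (τ : ℕ → ℝ), τ 0 = 0 ∧ τ n = L ∧ ∀ k < n, τ k < τ (k + 1) ∧
      ContDiffOn ℝ 3 c (Icc (τ k) (τ (k + 1)))) :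
    ∃ (γ γ1 γ2 γ3 : ℝ → F) (V : Finset ℝ) (C : ℝ), Loop L γ γ1 γ2 γ3 V C ∧
      ∀ t ∈ Icc 0 L, γ t = c t := by
  classical
  obtain ⟨n, τ, hτ0, hτn, hτ⟩ := h3
  set V : Finset ℝ := (Finset.range (n + 1)).image τ with hV
  have hVmem : ∀ k ≤ n, τ k ∈ V := fun k hk =>
    Finset.mem_image_of_mem τ (Finset.mem_range.mpr (by omega))
  have h0V : (0 : ℝ) ∈ V := by rw [← hτ0]; exact hVmem 0 (Nat.zero_le _)
  have hLV : L ∈ V := by rw [← hτn]; exact hVmem n le_rfl
  have hun : UniqueDiffOn ℝ (Icc 0 L) := uniqueDiffOn_Icc hL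
  set γ1 : ℝ → F := fun t => derivWithin c (Icc 0 L) (mkClamp L t) with hγ1
  have hγ1c : Continuous γ1 :=
    (h1.continuousOn_derivWithin hun le_rfl).comp_continuous (mkClamp_cont L)
      (mkClamp_mem hL.le)
  set γ : ℝ → F := fun t => c 0 + ∫ s in (0:ℝ)..t, γ1 s with hγ
  have hγd : ∀ t, HasDerivAt γ (γ1 t) t := fun t =>
    ((hγ1c.integral_hasStrictDerivAt 0 t).hasDerivAt).const_add (c 0)
  -- the derivative of `c` inside
  have hcd : ∀ t ∈ Ioo 0 L, HasDerivAt c (γ1 t) t := by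
    intro t ht
    have hn : Icc 0 L ∈ 𝓝 t := Icc_mem_nhds ht.1 ht.2
    have hdiff : DifferentiableAt ℝ c t :=
      (h1.differentiableOn (by norm_num) t (Ioo_subset_Icc_self ht)).differentiableAt hn
    have h2 : γ1 t = deriv c t := by
      simp only [hγ1]
      rw [mkClamp_eq (Ioo_subset_Icc_self ht), derivWithin_of_mem_nhds hn]
    rw [h2]
    exact hdiff.hasDerivAt
  have hγe : ∀ t ∈ Icc 0 L, γ t = c t := by
    intro t ht
    have h2 := intervalIntegral.integral_eq_sub_of_hasDerivAt_of_le (a := 0) (b := t) (f := c)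
      (f' := γ1) ht.1 (h1.continuousOn.mono (Icc_subset_Icc_right ht.2))
      (fun x hx => hcd x ⟨hx.1, lt_of_lt_of_le hx.2 ht.2⟩) (hγ1c.intervalIntegrable _ _)
    simp only [hγ]
    rw [h2]
    abel
  -- the pieces
  have hex : ∀ k, k < n → ∃ M : ℝ, ∀ t ∈ Ioo (τ k) (τ (k + 1)),
      DifferentiableAt ℝ (deriv c) t ∧
      DifferentiableAt ℝ (deriv (deriv c)) t ∧ ContinuousAt (deriv (deriv (deriv c))) t ∧
      ‖deriv (deriv c) t‖ ≤ M ∧ ‖deriv (deriv (deriv c)) t‖ ≤ M :=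
    fun k hk => mk_piece (hτ k hk).1 (hτ k hk).2
  choose! M hM using hex
  set M0 : ℝ := ∑ k ∈ Finset.range n, |M k| with hM0
  have hM0n : 0 ≤ M0 := Finset.sum_nonneg fun k _ => abs_nonneg _
  have hMk : ∀ k < n, M k ≤ M0 := by
    intro k hk
    exact (le_abs_self _).trans (Finset.single_le_sum (f := fun k => |M k|)
      (fun i _ => abs_nonneg _) (Finset.mem_range.mpr hk))
  set U : Set ℝ := Ioo 0 L \ (V : Set ℝ) with hU
  have hUo : IsOpen U := isOpen_Ioo.sdiff V.finite_toSet.isClosed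
  have hγ1e : ∀ t ∈ Ioo 0 L, γ1 t = deriv c t := fun t ht => (hcd t ht).deriv.symm
  have hev1 : ∀ t ∈ Ioo 0 L, γ1 =ᶠ[𝓝 t] deriv c := by
    intro t ht
    filter_upwards [isOpen_Ioo.mem_nhds ht] with s hs using hγ1e s hs
  have hev2 : ∀ t ∈ Ioo 0 L, deriv γ1 =ᶠ[𝓝 t] deriv (deriv c) := fun t ht => (hev1 t ht).deriv
  have hev3 : ∀ t ∈ Ioo 0 L, deriv (deriv γ1) =ᶠ[𝓝 t] deriv (deriv (deriv c)) :=
    fun t ht => (hev2 t ht).deriv
  have hmain : ∀ t ∈ U, DifferentiableAt ℝ γ1 t ∧ DifferentiableAt ℝ (deriv γ1) t ∧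
      ContinuousAt (deriv (deriv γ1)) t ∧ ‖deriv γ1 t‖ ≤ M0 ∧ ‖deriv (deriv γ1) t‖ ≤ M0 := by
    intro t ht
    have htI : t ∈ Ioo 0 L := ht.1
    obtain ⟨k, hk, hk1, hk2⟩ := mk_find_piece hτ0 hτn htI.1 htI.2 (fun k hk h => by
      apply ht.2
      rw [h]
      exact hVmem k hk)
    obtain ⟨m1, m2, m3, m4, m5⟩ := hM k hk t ⟨hk1, hk2⟩
    refine ⟨(hev1 t htI).differentiableAt_iff.mpr m1, (hev2 t htI).differentiableAt_iff.mpr m2,
      (continuousAt_congr (hev3 t htI)).mpr m3, ?_, ?_⟩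
    · rw [(hev2 t htI).eq_of_nhds]
      exact m4.trans (hMk k hk)
    · rw [(hev3 t htI).eq_of_nhds]
      exact m5.trans (hMk k hk)
  set γ2 : ℝ → F := U.indicator (deriv γ1) with hγ2
  set γ3 : ℝ → F := U.indicator (deriv (deriv γ1)) with hγ3
  have hUev2 : ∀ t ∈ U, γ2 =ᶠ[𝓝 t] deriv γ1 := by
    intro t ht
    filter_upwards [hUo.mem_nhds ht] with s hs
    rw [hγ2, Set.indicator_of_mem hs]
  have hUev3 : ∀ t ∈ U, γ3 =ᶠ[𝓝 t] deriv (deriv γ1) := by
    intro t ht
    filter_upwards [hUo.mem_nhds ht] with s hs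
    rw [hγ3, Set.indicator_of_mem hs]
  have hUmem : ∀ t ∈ Ioo 0 L, t ∉ V → t ∈ U := fun t ht htV => ⟨ht, by simpa using htV⟩
  set C : ℝ := max 1 M0 with hC
  refine ⟨γ, γ1, γ2, γ3, V, C, ?_, hγe⟩
  refine
    { Lpos := hL
      Cpos := le_max_left _ _
      h1 := hγd
      lip := ?_
      unit := fun t => hu _ (mkClamp_mem hL.le t)
      closed := ?_
      mem0 := h0V
      memL := hLV
      h2 := ?_
      h3 := ?_
      c3 := ?_
      b2 := ?_
      b3 := ?_ }
  · intro s t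
    refine (mk_lip hγ1c V.finite_toSet hM0n (fun x hx => ?_) s t).trans
      (mul_le_mul_of_nonneg_right (le_max_right _ _) (abs_nonneg _))
    have hx0 : x ≠ 0 := by
      rintro rfl
      exact hx h0V
    have hxL : x ≠ L := by
      rintro rfl
      exact hx hLV
    rcases lt_or_gt_of_ne hx0 with hlt | hgt
    · have he : γ1 =ᶠ[𝓝 x] fun _ => γ1 x := by
        filter_upwards [Iio_mem_nhds hlt] with s hs
        have hs' : s < 0 := hs
        simp only [hγ1]
        rw [mkClamp_neg hs'.le, mkClamp_neg hlt.le]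
      have h2 : HasDerivAt γ1 0 x := (hasDerivAt_const x (γ1 x)).congr_of_eventuallyEq he
      exact ⟨h2.differentiableAt, by rw [h2.deriv, norm_zero]; exact hM0n⟩
    · rcases lt_or_gt_of_ne hxL with hlt | hgt'
      · have h2 := hmain x (hUmem x ⟨hgt, hlt⟩ (by simpa using hx))
        exact ⟨h2.1, h2.2.2.2.1⟩
      · have he : γ1 =ᶠ[𝓝 x] fun _ => γ1 x := by
          filter_upwards [Ioi_mem_nhds hgt'] with s hs
          have hs' : L < s := hs
          simp only [hγ1]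
          rw [mkClamp_big hL.le hs'.le, mkClamp_big hL.le hgt'.le]
        have h2 : HasDerivAt γ1 0 x := (hasDerivAt_const x (γ1 x)).congr_of_eventuallyEq he
        exact ⟨h2.differentiableAt, by rw [h2.deriv, norm_zero]; exact hM0n⟩
  · rw [hγe 0 ⟨le_rfl, hL.le⟩, hγe L ⟨hL.le, le_rfl⟩, hc]
  · intro t ht htV
    have hU' := hUmem t ht htV
    have h2 : γ2 t = deriv γ1 t := (hUev2 t hU').eq_of_nhds
    rw [h2]
    exact (hmain t hU').1.hasDerivAt
  · intro t ht htV
    have hU' := hUmem t ht htV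
    have h2 : γ3 t = deriv (deriv γ1) t := (hUev3 t hU').eq_of_nhds
    rw [h2]
    exact (hmain t hU').2.1.hasDerivAt.congr_of_eventuallyEq (hUev2 t hU')
  · intro t ht
    exact ((continuousAt_congr (hUev3 t ht)).mpr (hmain t ht).2.2.1).continuousWithinAt
  · intro t
    by_cases ht : t ∈ U
    · rw [hγ2, Set.indicator_of_mem ht]
      exact (hmain t ht).2.2.2.1.trans (le_max_right _ _)
    · rw [hγ2, Set.indicator_of_notMem ht, norm_zero]
      exact le_trans zero_le_one (le_max_left _ _)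
  · intro t
    by_cases ht : t ∈ U
    · rw [hγ3, Set.indicator_of_mem ht]
      exact (hmain t ht).2.2.2.2.trans (le_max_right _ _)
    · rw [hγ3, Set.indicator_of_notMem ht, norm_zero]
      exact le_trans zero_le_one (le_max_left _ _)

end Pool.Agent.LoopSpec
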