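import Pool.Agent.Lib_MP_e9ccd1_s.Base
import Pool.Agent.Lib_MP_e9ccd1_an.Defs
import Pool.Agent.Lib_MP_e9ccd1_an.Transfer
import Pool.Agent.Lib_MP_e9ccd1_an.SpectralTight

/-!
# MP_e9ccd1_an, space curves: transfer (pieces MKLOOP, MKONB)
-/

set_option autoImplicit false

open MeasureTheory Set Filter Topology
open scoped RealInnerProductSpace
open Pool.Agent.CurveSpec

namespace Pool.Agent.LoopSpec

section

variable {E : Type*} [NormedAddCommGroup E] [InnerProductSpace ℝ E] [MeasurableSpace E]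

private lemma mkonb_par {μ : Measure E} {Λ : Set E} (b : HilbertBasis Λ ℂ (Lp ℂ 2 μ))
    (hb : ∀ l : Λ, ∀ᵐ x ∂μ, (b l : E → ℂ) x = expo (l : E) x) (f : E → ℂ) (hf : MemLp f 2 μ) :
    HasSum (fun l : Λ => ‖∫ x, f x * expo (-(l : E)) x ∂μ‖ ^ 2) (∫ x, ‖f x‖ ^ 2 ∂μ) := by
  set g : Lp ℂ 2 μ := hf.toLp f with hg
  have hgf : ∀ᵐ x ∂μ, g x = f x := hf.coeFn_toLp
  have h1 := b.hasSum_inner_mul_inner g g
  have h2 : ∀ l : Λ, inner ℂ (b l) g = ∫ x, f x * expo (-(l : E)) x ∂μ := by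
    intro l
    rw [L2.inner_def]
    apply integral_congr_ae
    filter_upwards [hgf, hb l] with x hx hbx
    rw [RCLike.inner_apply, hx, hbx, conj_expo]
  have h3 : ∀ l : Λ, inner ℂ g (b l) * inner ℂ (b l) g =
      ((‖∫ x, f x * expo (-(l : E)) x ∂μ‖ ^ 2 : ℝ) : ℂ) := by
    intro l
    rw [← inner_conj_symm, h2, mul_comm, Complex.mul_conj, Complex.normSq_eq_norm_sq]
  have h4 : inner ℂ g g = ((∫ x, ‖f x‖ ^ 2 ∂μ : ℝ) : ℂ) := by
    rw [L2.inner_def, ← integral_complex_ofReal]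
    apply integral_congr_ae
    filter_upwards [hgf] with x hx
    rw [RCLike.inner_apply, hx, Complex.mul_conj, Complex.normSq_eq_norm_sq]
  rw [h4] at h1
  simp only [h3] at h1
  exact Complex.hasSum_ofReal.1 h1

private lemma mkonb_expo (l x : E) : expo l x = ex ⟪l, x⟫ := by
  unfold expo ex
  congr 1
  push_cast
  ring

private lemma mkonb_orth {μ : Measure E} {Λ : Set E} (b : HilbertBasis Λ ℂ (Lp ℂ 2 μ))
    (hb : ∀ l : Λ, ∀ᵐ x ∂μ, (b l : E → ℂ) x = expo (l : E) x) (l l' : Λ) (hl : l ≠ l') :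
    ∫ x, ex ⟪(l : E) - (l' : E), x⟫ ∂μ = 0 := by
  have h1 : inner ℂ (b l') (b l) = 0 := b.orthonormal.2 hl.symm
  rw [L2.inner_def] at h1
  rw [← h1]
  apply integral_congr_ae
  filter_upwards [hb l, hb l'] with x hx hx'
  rw [RCLike.inner_apply, hx, hx', conj_expo, mkonb_expo, mkonb_expo, ← ex_add, inner_sub_left,
    inner_neg_left, ← sub_eq_add_neg]

end

/-- (MKONB) Proof: Parseval as in `CurveSpec.not_tight` (`Spectral.tight` has constant one; `exists_lift`,
`integral_arcMeasure`); orthogonality from `⟪b l, b l'⟫ = 0` in `Lp ℂ 2 μ`, `L2.inner_def`, `integral_arcMeasure`. -/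
theorem mkONB {E : Type*} [NormedAddCommGroup E] [InnerProductSpace ℝ E] [FiniteDimensional ℝ E]
    [MeasurableSpace E] [BorelSpace E] {L : ℝ} {γ : ℝ → E} (h : ClosedCurve L γ)
    (hs : Spectral (arcMeasure L γ)) :
    ∃ Λ : Set E, Λ.Countable ∧ (∀ f : ℝ → ℂ, BM f → HasSum
      (fun l : Λ => ‖∫ t in (0:ℝ)..L, f t * ex (-⟪(l : E), γ t⟫)‖ ^ 2)
        (L * ∫ t in (0:ℝ)..L, ‖f t‖ ^ 2)) ∧
      ∀ l l' : Λ, l ≠ l' → ∫ t in (0:ℝ)..L, ex ⟪(l : E) - (l' : E), γ t⟫ = 0 := by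
  obtain ⟨Λ, hΛ, b, hb⟩ := hs
  have hLpos := h.pos
  refine ⟨Λ, hΛ, fun f hf => ?_, fun l l' hl => ?_⟩
  · obtain ⟨F, hFm, ⟨C, hC⟩, N, hN, hFf⟩ := exists_lift h hf
    have : IsFiniteMeasure (arcMeasure L γ) := by
      unfold arcMeasure
      have : IsFiniteMeasure (Measure.map γ (volume.restrict (Set.Icc 0 L))) :=
        Measure.isFiniteMeasure_map _ _
      exact Measure.smul_finite _ (ENNReal.inv_ne_top.2 (by simpa using hLpos))
    have hLp : MemLp F 2 (arcMeasure L γ) :=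
      MemLp.of_bound hFm.aestronglyMeasurable C (Eventually.of_forall hC)
    have h1 := mkonb_par b hb F hLp
    have hae : ∀ᵐ t, t ∈ Set.Ioc 0 L → t ∉ N := by
      have : ∀ᵐ t : ℝ, t ∉ N := by
        rw [ae_iff]; simp only [not_not]
        exact hN.measure_zero _
      filter_upwards [this] with t ht _ using ht
    have h2 : ∫ x, ‖F x‖ ^ 2 ∂(arcMeasure L γ) = L⁻¹ * ∫ t in (0:ℝ)..L, ‖f t‖ ^ 2 := by
      rw [integral_arcMeasure h (hFm.norm.pow_const 2).stronglyMeasurable, smul_eq_mul]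
      congr 1
      apply intervalIntegral.integral_congr_ae
      rw [Set.uIoc_of_le hLpos.le]
      filter_upwards [hae] with t ht htI
      rw [hFf t (Set.Ioc_subset_Icc_self htI) (ht htI)]
    have h3 : ∀ l : Λ, ‖∫ x, F x * expo (-(l : E)) x ∂(arcMeasure L γ)‖ ^ 2 =
        (L⁻¹) ^ 2 * ‖∫ t in (0:ℝ)..L, f t * ex (-⟪(l : E), γ t⟫)‖ ^ 2 := by
      intro l
      have hexpo : Measurable (fun x : E => expo (-(l : E)) x) := by
        unfold expo
        exact (by fun_prop : Continuous fun x : E =>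
          Complex.exp (2 * Real.pi * Complex.I * ((inner ℝ (-(l : E)) x : ℝ) : ℂ))).measurable
      have hprod : StronglyMeasurable (fun x : E => F x * expo (-(l : E)) x) :=
        (hFm.mul hexpo).stronglyMeasurable
      rw [integral_arcMeasure h hprod]
      have h4 : ∫ t in (0:ℝ)..L, F (γ t) * expo (-(l : E)) (γ t) =
          ∫ t in (0:ℝ)..L, f t * ex (-⟪(l : E), γ t⟫) := by
        apply intervalIntegral.integral_congr_ae
        rw [Set.uIoc_of_le hLpos.le]
        filter_upwards [hae] with t ht htI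
        have htI' := Set.Ioc_subset_Icc_self htI
        rw [hFf t htI' (ht htI), mkonb_expo, inner_neg_left]
      rw [h4, norm_smul, Real.norm_of_nonneg (by positivity), mul_pow]
    simp only [h3] at h1
    rw [h2] at h1
    have h6 := h1.mul_left (L ^ 2)
    have e1 : ∀ l : Λ, L ^ 2 * ((L⁻¹) ^ 2 * ‖∫ t in (0:ℝ)..L, f t * ex (-⟪(l : E), γ t⟫)‖ ^ 2) =
        ‖∫ t in (0:ℝ)..L, f t * ex (-⟪(l : E), γ t⟫)‖ ^ 2 := by
      intro l; field_simp
    have e2 : L ^ 2 * (L⁻¹ * ∫ t in (0:ℝ)..L, ‖f t‖ ^ 2) =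
        L * ∫ t in (0:ℝ)..L, ‖f t‖ ^ 2 := by field_simp
    rw [e2] at h6
    simpa only [e1] using h6
  · have h1 := mkonb_orth b hb l l' hl
    have hex : StronglyMeasurable (fun x : E => ex ⟪(l : E) - (l' : E), x⟫) :=
      (continuous_ex.comp (continuous_const.inner continuous_id)).stronglyMeasurable
    rw [integral_arcMeasure h hex] at h1
    rcases smul_eq_zero.mp h1 with h2 | h2
    · exact absurd h2 (inv_ne_zero hLpos.ne')
    · exact h2

/-- (MKONB) a linear map to three-space, isometric on a subspace of dimension at most three -/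
theorem exists_map {E : Type*} [NormedAddCommGroup E] [InnerProductSpace ℝ E]
    [FiniteDimensional ℝ E] (W : Submodule ℝ E) (hW : Module.finrank ℝ W ≤ 3) :
    ∃ T : E →L[ℝ] E3, ∀ x y : E, y ∈ W → ⟪T x, T y⟫ = ⟪x, y⟫ := by
  let b := stdOrthonormalBasis ℝ W
  let f : W →ₗ[ℝ] E3 := b.toBasis.constr ℝ (fun i => EuclideanSpace.single (Fin.castLE hW i) (1 : ℝ))
  have hv : Orthonormal ℝ b.toBasis := by
    rw [b.coe_toBasis]
    exact b.orthonormal
  have hf : Orthonormal ℝ (f ∘ b.toBasis) := by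
    have h1 : (f ∘ b.toBasis) =
        (fun j : Fin 3 => (EuclideanSpace.single j (1 : ℝ) : E3)) ∘ (Fin.castLE hW) := by
      funext i
      simp only [f, Function.comp_apply, Module.Basis.constr_basis]
    rw [h1]
    have h2 : Orthonormal ℝ (fun j : Fin 3 => (EuclideanSpace.single j (1 : ℝ) : E3)) :=
      EuclideanSpace.orthonormal_single
    exact h2.comp _ (Fin.castLE_injective hW)
  let J : W →ₗᵢ[ℝ] E3 := f.isometryOfOrthonormal hv hf
  refine ⟨J.toContinuousLinearMap.comp W.orthogonalProjectionOnto, fun x y hy => ?_⟩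
  change ⟪J (W.orthogonalProjectionOnto x), J (W.orthogonalProjectionOnto y)⟫ = ⟪x, y⟫
  rw [J.inner_map_map]
  have h1 : W.orthogonalProjectionOnto y = ⟨y, hy⟩ :=
    Submodule.orthogonalProjectionOnto_mem_subspace_eq_self (K := W) ⟨y, hy⟩
  rw [h1]
  exact Submodule.inner_orthogonalProjectionOnto_eq_of_mem_right (K := W) ⟨y, hy⟩ x

end Pool.Agent.LoopSpec
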