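import Pool.Agent.Lib_MP_e9ccd1_s.Core
import Pool.Agent.Lib_MP_e9ccd1_s.MkLoop
import Pool.Agent.Lib_MP_e9ccd1_s.MkONB

/-!
# MP_e9ccd1_an, space curves: final theorem (piece FINAL)
-/

set_option autoImplicit false

open MeasureTheory Set Filter Topology
open scoped RealInnerProductSpace
open Pool.Agent.CurveSpec

namespace Pool.Agent.LoopSpec

/-- every parameter lies in a closed piece, contained in the parameter interval -/
lemma final_piece {L : ℝ} (hL : 0 < L) {n : ℕ} {τ : ℕ → ℝ} (h0 : τ 0 = 0) (hn : τ n = L)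
    (hτ : ∀ k < n, τ k < τ (k + 1)) {t : ℝ} (ht : t ∈ Icc 0 L) :
    ∃ k < n, t ∈ Icc (τ k) (τ (k + 1)) ∧ Icc (τ k) (τ (k + 1)) ⊆ Icc 0 L := by
  classical
  have hn0 : n ≠ 0 := by
    rintro rfl
    rw [h0] at hn
    linarith
  have hmono : ∀ j i : ℕ, i ≤ j → j ≤ n → τ i ≤ τ j := by
    intro j
    induction j with
    | zero =>
      intro i hi _
      rw [Nat.le_zero.mp hi]
    | succ j ih =>
      intro i hi hj
      rcases Nat.lt_or_ge i (j + 1) with h | h
      · exact (ih i (by omega) (by omega)).trans (hτ j (by omega)).le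
      · rw [show i = j + 1 by omega]
  have hex : ∃ k : ℕ, k < n ∧ t ≤ τ (k + 1) := ⟨n - 1, by omega, by
    rw [show n - 1 + 1 = n by omega, hn]
    exact ht.2⟩
  have h1 := Nat.find_spec hex
  have hmin := fun m => Nat.find_min (m := m) hex
  set k := Nat.find hex with hk
  have hlow : τ k ≤ t := by
    rcases Nat.eq_zero_or_pos k with hk0 | hk0
    · rw [hk0, h0]
      exact ht.1
    · have h2 := hmin (k - 1) (by omega)
      rw [show k - 1 + 1 = k by omega] at h2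
      by_contra h3
      exact h2 ⟨by omega, (not_le.mp h3).le⟩
  refine ⟨k, h1.1, ⟨hlow, h1.2⟩, ?_⟩
  apply Icc_subset_Icc
  · rw [← h0]
    exact hmono k 0 (Nat.zero_le _) (by omega)
  · rw [← hn]
    exact hmono n (k + 1) (by omega) le_rfl

/-- unit speed of a `C^1` closed curve -/
lemma final_unit {E : Type*} [NormedAddCommGroup E] [NormedSpace ℝ E] {L : ℝ} {γ : ℝ → E}
    (hγ : ClosedCurve L γ) (h1 : ContDiffOn ℝ 1 γ (Icc 0 L)) {t : ℝ} (ht : t ∈ Icc 0 L) :
    ‖derivWithin γ (Icc 0 L) t‖ = 1 := by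
  obtain ⟨n, τ, hτ0, hτn, hτ⟩ := hγ.pieces
  obtain ⟨k, hk, htk, hsub⟩ := final_piece hγ.pos hτ0 hτn (fun k hk => (hτ k hk).1) ht
  have hd : HasDerivWithinAt γ (derivWithin γ (Icc 0 L) t) (Icc 0 L) t :=
    (h1.differentiableOn (by norm_num) t ht).hasDerivWithinAt
  have hun : UniqueDiffWithinAt ℝ (Icc (τ k) (τ (k + 1))) t :=
    uniqueDiffOn_Icc (hτ k hk).1 t htk
  rw [← (hd.mono hsub).derivWithin hun]
  exact (hτ k hk).2.2 t htk

/-- (FINAL) Closed curves with at most one corner in a three-dimensional affine subspace are not spectral. Proof: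
`T` from `exists_map` for `P.direction`, `p = γ 0`, `c t = T (γ t - p)`; `mkLoop` (unit speed: the derivative of `γ` lies in
`P.direction` and agrees with the derivatives within the pieces), `mkONB`, `⟪l, γ t⟫ = ⟪l, p⟫ + ⟪T l, c t⟫`; `core` with
`lam l = T l`. -/
theorem not_spectral {d : ℕ} {L : ℝ} {γ : ℝ → EuclideanSpace ℝ (Fin d)} (hγ : ClosedCurve L γ)
    (h1 : ContDiffOn ℝ 1 γ (Icc 0 L))
    (h3 : ∃ (n : ℕ) (τ : ℕ → ℝ), τ 0 = 0 ∧ τ n = L ∧ ∀ k < n, τ k < τ (k + 1) ∧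
      ContDiffOn ℝ 3 γ (Icc (τ k) (τ (k + 1))))
    (P : AffineSubspace ℝ (EuclideanSpace ℝ (Fin d))) (hP : Module.finrank ℝ P.direction ≤ 3)
    (hγP : ∀ t ∈ Icc 0 L, γ t ∈ P) : ¬ Spectral (arcMeasure L γ) := by
  intro hs
  have hLpos := hγ.pos
  have hL0 : (0:ℝ) ∈ Icc 0 L := ⟨le_rfl, hLpos.le⟩
  obtain ⟨Λ, hΛ, hpar, horth⟩ := mkONB hγ hs
  obtain ⟨T, hT⟩ := exists_map P.direction hP
  set c : ℝ → E3 := fun t => T (γ t - γ 0) with hc
  have hmem : ∀ t ∈ Icc 0 L, γ t - γ 0 ∈ P.direction := by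
    intro t ht
    have := AffineSubspace.vsub_mem_direction (hγP t ht) (hγP 0 hL0)
    simpa using this
  have hun : UniqueDiffOn ℝ (Icc 0 L) := uniqueDiffOn_Icc hLpos
  have hc1 : ContDiffOn ℝ 1 c (Icc 0 L) :=
    T.contDiff.comp_contDiffOn (h1.sub contDiffOn_const)
  -- the derivative of `γ`
  have hd : ∀ t ∈ Icc 0 L, HasDerivWithinAt γ (derivWithin γ (Icc 0 L) t) (Icc 0 L) t :=
    fun t ht => (h1.differentiableOn (by norm_num) t ht).hasDerivWithinAt
  have hdir : ∀ t ∈ Icc 0 L, derivWithin γ (Icc 0 L) t ∈ P.direction := by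
    intro t ht
    have e1 : HasDerivWithinAt (fun s => γ s - γ 0) (derivWithin γ (Icc 0 L) t) (Icc 0 L) t :=
      (hd t ht).sub_const (γ 0)
    have e2 : HasDerivWithinAt (fun s => P.direction.starProjection (γ s - γ 0))
        (P.direction.starProjection (derivWithin γ (Icc 0 L) t)) (Icc 0 L) t :=
      P.direction.starProjection.hasFDerivAt.comp_hasDerivWithinAt t e1
    have e3 : HasDerivWithinAt (fun s => γ s - γ 0)
        (P.direction.starProjection (derivWithin γ (Icc 0 L) t)) (Icc 0 L) t := by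
      refine e2.congr (fun s hs => ?_) ?_
      · exact (Submodule.starProjection_eq_self_iff.mpr (hmem s hs)).symm
      · exact (Submodule.starProjection_eq_self_iff.mpr (hmem t ht)).symm
    have e4 := (hun t ht).eq_deriv _ e3 e1
    exact Submodule.starProjection_eq_self_iff.mp e4
  have hTn : ∀ v ∈ P.direction, ‖T v‖ = ‖v‖ := by
    intro v hv
    have e1 := hT v v hv
    rw [real_inner_self_eq_norm_sq, real_inner_self_eq_norm_sq] at e1
    exact (sq_eq_sq₀ (norm_nonneg _) (norm_nonneg _)).mp e1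
  have hcu : ∀ t ∈ Icc 0 L, ‖derivWithin c (Icc 0 L) t‖ = 1 := by
    intro t ht
    have e1 : HasDerivWithinAt c (T (derivWithin γ (Icc 0 L) t)) (Icc 0 L) t :=
      T.hasFDerivAt.comp_hasDerivWithinAt t ((hd t ht).sub_const (γ 0))
    rw [e1.derivWithin (hun t ht), hTn _ (hdir t ht)]
    exact final_unit hγ h1 ht
  have hcc : c 0 = c L := by
    simp only [hc]
    rw [hγ.closed]
  have hc3 : ∃ (n : ℕ) (τ : ℕ → ℝ), τ 0 = 0 ∧ τ n = L ∧ ∀ k < n, τ k < τ (k + 1) ∧
      ContDiffOn ℝ 3 c (Icc (τ k) (τ (k + 1))) := by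
    obtain ⟨n, τ, hτ0, hτn, hτ⟩ := h3
    exact ⟨n, τ, hτ0, hτn, fun k hk => ⟨(hτ k hk).1,
      T.contDiff.comp_contDiffOn ((hτ k hk).2.sub contDiffOn_const)⟩⟩
  obtain ⟨γ', γ1, γ2, γ3, V, C, hloop, hγ'⟩ := mkLoop hLpos hc1 hcu hcc hc3
  have hinner : ∀ l : EuclideanSpace ℝ (Fin d), ∀ t ∈ Icc 0 L,
      ⟪l, γ t⟫ = ⟪l, γ 0⟫ + ⟪T l, γ' t⟫ := by
    intro l t ht
    rw [hγ' t ht]
    simp only [hc]
    rw [hT l _ (hmem t ht), inner_sub_right]
    ring
  have : Countable Λ := hΛ.to_subtype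
  have hF : ONB L γ' (fun l : Λ => T (l : EuclideanSpace ℝ (Fin d))) := by
    refine ⟨fun f hf => ?_, fun l l' hll => ?_⟩
    · have e1 := hpar f hf
      have e2 : ∀ l : Λ, ‖∫ t in (0:ℝ)..L, f t * ex (-⟪(l : EuclideanSpace ℝ (Fin d)), γ t⟫)‖ ^ 2 =
          ‖∫ t in (0:ℝ)..L, f t * ex (-⟪T (l : EuclideanSpace ℝ (Fin d)), γ' t⟫)‖ ^ 2 := by
        intro l
        have e3 : ∫ t in (0:ℝ)..L, f t * ex (-⟪(l : EuclideanSpace ℝ (Fin d)), γ t⟫) =
            ex (-⟪(l : EuclideanSpace ℝ (Fin d)), γ 0⟫) *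
              ∫ t in (0:ℝ)..L, f t * ex (-⟪T (l : EuclideanSpace ℝ (Fin d)), γ' t⟫) := by
          rw [← intervalIntegral.integral_const_mul]
          apply intervalIntegral.integral_congr
          intro t ht
          rw [uIcc_of_le hLpos.le] at ht
          show f t * ex (-⟪(l : EuclideanSpace ℝ (Fin d)), γ t⟫) = _
          rw [hinner _ t ht, neg_add, ex_add]
          ring
        rw [e3, norm_mul, norm_ex, one_mul]
      simpa only [e2] using e1
    · have e1 := horth l l' hll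
      have e3 : ∫ t in (0:ℝ)..L, ex ⟪(l : EuclideanSpace ℝ (Fin d)) - (l' : EuclideanSpace ℝ (Fin d)), γ t⟫ =
          ex ⟪(l : EuclideanSpace ℝ (Fin d)) - (l' : EuclideanSpace ℝ (Fin d)), γ 0⟫ *
            ∫ t in (0:ℝ)..L, ex ⟪T (l : EuclideanSpace ℝ (Fin d)) -
              T (l' : EuclideanSpace ℝ (Fin d)), γ' t⟫ := by
        rw [← intervalIntegral.integral_const_mul]
        apply intervalIntegral.integral_congr
        intro t ht
        rw [uIcc_of_le hLpos.le] at ht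
        show ex ⟪(l : EuclideanSpace ℝ (Fin d)) - (l' : EuclideanSpace ℝ (Fin d)), γ t⟫ = _
        rw [hinner _ t ht, map_sub, ex_add]
      rw [e3] at e1
      rcases mul_eq_zero.mp e1 with e4 | e4
      · have e5 := norm_ex ⟪(l : EuclideanSpace ℝ (Fin d)) - (l' : EuclideanSpace ℝ (Fin d)), γ 0⟫
        rw [e4, norm_zero] at e5
        exact absurd e5 zero_ne_one
      · exact e4
  exact core hloop hF

end Pool.Agent.LoopSpec
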