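import Pool.Agent.Lib_MP_e9ccd1_s.Arc

/-!
# MP_e9ccd1_an, space curves: local structure of `{(t, s) | ⟪cr (γ1 t) (γ2 t), γ1 s⟫ = 0}` (pieces LOCA, LOCB)

Notation `w t = cr (γ1 t) (γ2 t)`; on `Ioo α β` it is differentiable with derivative `cr (γ1 t) (γ3 t)`
(`cr (γ2 t) (γ2 t) = 0`), continuous there. `⟪cr (γ1 t) (γ3 t), γ2 t⟫ = -⟪w t, γ3 t⟫ ≠ 0`,
`⟪cr (γ1 t) (γ3 t), γ1 t⟫ = 0`. In particular `w t ≠ 0`, `γ2 t ≠ 0`.
-/

set_option autoImplicit false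

open MeasureTheory Set Filter Topology
open scoped RealInnerProductSpace

namespace Pool.Agent.LoopSpec

variable {L C : ℝ} {γ γ1 γ2 γ3 : ℝ → E3} {V : Finset ℝ}

/-- a lower bound from the mean value theorem -/
lemma locA_mvt {f f' : ℝ → ℝ} {t0 δ c : ℝ} (hd : ∀ x, |x - t0| < δ → HasDerivAt f (f' x) x)
    (hc : ∀ x, |x - t0| < δ → c ≤ |f' x|) {t t' : ℝ} (ht : |t - t0| < δ) (ht' : |t' - t0| < δ) :
    c * |t - t'| ≤ |f t - f t'| := by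
  have key : ∀ u v : ℝ, |u - t0| < δ → |v - t0| < δ → u < v → c * |v - u| ≤ |f v - f u| := by
    intro u v hu hv huv
    have hin : ∀ x ∈ Icc u v, |x - t0| < δ := by
      intro x hx
      rw [abs_lt] at hu hv ⊢
      exact ⟨by linarith [hx.1], by linarith [hx.2]⟩
    obtain ⟨x, hx, hxe⟩ := exists_hasDerivAt_eq_slope f f' huv
      (fun x hx => (hd x (hin x hx)).continuousAt.continuousWithinAt)
      (fun x hx => hd x (hin x (Ioo_subset_Icc_self hx)))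
    have hvu : 0 < v - u := by linarith
    have h1 : f v - f u = f' x * (v - u) := by
      rw [hxe]
      field_simp
    rw [h1, abs_mul]
    exact mul_le_mul_of_nonneg_right (hc x (hin x (Ioo_subset_Icc_self hx))) (abs_nonneg _)
  rcases lt_trichotomy t t' with h | h | h
  · rw [abs_sub_comm t t', abs_sub_comm (f t) (f t')]
    exact key t t' ht ht' h
  · rw [h]
    simp
  · exact key t' t ht' ht h

/-- the set of smooth parameters is open -/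
lemma locA_open (V : Finset ℝ) (L : ℝ) : IsOpen (Ioo 0 L \ (V : Set ℝ)) :=
  isOpen_Ioo.sdiff V.finite_toSet.isClosed

/-- the derivative of the binormal direction -/
lemma locA_deriv (hL : Loop L γ γ1 γ2 γ3 V C) {t : ℝ} (ht : t ∈ Ioo 0 L) (htV : t ∉ V) :
    HasDerivAt (fun t => cr (γ1 t) (γ2 t)) (cr (γ1 t) (γ3 t)) t := by
  have h1 := hasDerivAt_cr (hL.h2 t ht htV) (hL.h3 t ht htV)
  rw [cr_self, zero_add] at h1
  exact h1

/-- the main local estimate in `t` -/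
lemma locA_main (hL : Loop L γ γ1 γ2 γ3 V C) {α β : ℝ} (hA : Arc L γ1 γ2 γ3 V α β) {t0 s0 : ℝ}
    (ht0 : t0 ∈ Ioo α β) (h0 : ⟪cr (γ1 t0) (γ2 t0), γ1 s0⟫ = 0)
    (hnp : cr (γ1 s0) (γ1 t0) ≠ 0) :
    ∃ c > 0, ∃ δ > 0, ∀ t t' s : ℝ, |t - t0| < δ → |t' - t0| < δ → |s - s0| < δ →
      c * |t - t'| ≤ |⟪cr (γ1 t) (γ2 t), γ1 s⟫ - ⟪cr (γ1 t') (γ2 t'), γ1 s⟫| := by
  have ht0L := hA.sub t0 ht0
  have ht0V := hA.notV t0 ht0
  have hdet := hA.det t0 ht0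
  have hw0 : cr (γ1 t0) (γ2 t0) ≠ 0 := by
    intro h
    apply hdet
    rw [h, inner_zero_left]
  set G : ℝ × ℝ → ℝ := fun q => ⟪cr (γ1 q.1) (γ3 q.1), γ1 q.2⟫ with hG
  have hG0 : G (t0, s0) ≠ 0 := by
    obtain ⟨a, b, hab⟩ := exists_comb hw0 h0
    show ⟪cr (γ1 t0) (γ3 t0), γ1 s0⟫ ≠ 0
    rw [hab, inner_add_right, real_inner_smul_right, real_inner_smul_right, inner_cr_left,
      inner_cr_swap, mul_zero, zero_add]
    have hb : b ≠ 0 := by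
      rintro rfl
      apply hnp
      rw [hab, zero_smul, add_zero, ← norm_eq_zero, ← sq_eq_zero_iff, norm_cr_sq,
        real_inner_smul_left, norm_smul, real_inner_self_eq_norm_sq, Real.norm_eq_abs, mul_pow,
        sq_abs]
      ring
    exact mul_ne_zero hb (neg_ne_zero.mpr hdet)
  have hγ3 : ContinuousAt γ3 t0 :=
    hL.c3.continuousAt ((locA_open V L).mem_nhds ⟨ht0L, by simpa using ht0V⟩)
  have hGc : ContinuousAt G (t0, s0) := by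
    have h1 : ContinuousAt (fun q : ℝ × ℝ => γ1 q.1) (t0, s0) :=
      (hL.contγ1.comp continuous_fst).continuousAt
    have h3 : ContinuousAt (fun q : ℝ × ℝ => γ3 q.1) (t0, s0) :=
      ContinuousAt.comp (f := Prod.fst) (g := γ3) hγ3 continuousAt_fst
    have h2 : ContinuousAt (fun q : ℝ × ℝ => γ1 q.2) (t0, s0) :=
      (hL.contγ1.comp continuous_snd).continuousAt
    exact (continuous_cr.continuousAt.comp (h1.prodMk h3)).inner h2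
  set c : ℝ := |G (t0, s0)| / 2 with hc
  have hc0 : 0 < c := by
    have := abs_pos.mpr hG0
    positivity
  have hev : ∀ᶠ q in 𝓝 (t0, s0), |G q - G (t0, s0)| < c := by
    have := Metric.continuousAt_iff'.mp hGc c hc0
    simpa [Real.dist_eq] using this
  have hev2 : ∀ᶠ q : ℝ × ℝ in 𝓝 (t0, s0), q.1 ∈ Ioo α β :=
    continuousAt_fst.eventually (isOpen_Ioo.mem_nhds ht0)
  obtain ⟨δ, hδ, hball⟩ := Metric.eventually_nhds_iff.mp (hev.and hev2)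
  have hin : ∀ t s : ℝ, |t - t0| < δ → |s - s0| < δ → c ≤ |G (t, s)| ∧ t ∈ Ioo α β := by
    intro t s ht hs
    have h1 : dist (t, s) (t0, s0) < δ := by
      rw [Prod.dist_eq, max_lt_iff, Real.dist_eq, Real.dist_eq]
      exact ⟨ht, hs⟩
    obtain ⟨h2, h3⟩ := hball h1
    refine ⟨?_, h3⟩
    have h4 : |G (t0, s0)| - |G (t, s)| ≤ |G (t0, s0) - G (t, s)| := abs_sub_abs_le_abs_sub _ _
    rw [abs_sub_comm] at h4
    have h5 : |G (t0, s0)| = 2 * c := by rw [hc]; ring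
    linarith
  refine ⟨c, hc0, δ, hδ, fun t t' s ht ht' hs => ?_⟩
  refine locA_mvt (f := fun x => ⟪cr (γ1 x) (γ2 x), γ1 s⟫) (f' := fun x => G (x, s)) (t0 := t0)
    (δ := δ) ?_ (fun x hx => (hin x s hx hs).1) ht ht'
  intro x hx
  have h1 := (hin x s hx hs).2
  have h2 := (locA_deriv hL (hA.sub x h1) (hA.notV x h1)).inner ℝ (hasDerivAt_const x (γ1 s))
  simpa using h2

lemma locA_norm_w (hL : Loop L γ γ1 γ2 γ3 V C) (t : ℝ) : ‖cr (γ1 t) (γ2 t)‖ ≤ C := by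
  refine (norm_cr_le _ _).trans ?_
  rw [hL.unit, one_mul]
  exact hL.b2 t

/-- (LOCA) Nonparallel zeros: `t` is locally a Lipschitz function of `s`. Proof: at `(t0, s0)`:
`γ1 s0 = a γ1 t0 + b γ2 t0` (`exists_comb`) with `b ≠ 0` (nonparallel), so
`⟪cr (γ1 t0) (γ3 t0), γ1 s0⟫ = -b ⟪w t0, γ3 t0⟫ ≠ 0`; by continuity of `(t, s) ↦ ⟪cr (γ1 t) (γ3 t), γ1 s⟫` it has
constant sign and modulus `≥ c` near `(t0, s0)`, so (mean value theorem in `t`)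
`|⟪w t, γ1 s⟫ - ⟪w t', γ1 s⟫| ≥ c |t - t'|`; and `|⟪w t', γ1 s⟫ - ⟪w t', γ1 s'⟫| ≤ ‖w t'‖ C |s - s'|`. -/
theorem lipA (hL : Loop L γ γ1 γ2 γ3 V C) {α β : ℝ} (hA : Arc L γ1 γ2 γ3 V α β) {t0 s0 : ℝ}
    (ht0 : t0 ∈ Ioo α β) (h0 : ⟪cr (γ1 t0) (γ2 t0), γ1 s0⟫ = 0)
    (hnp : cr (γ1 s0) (γ1 t0) ≠ 0) :
    ∃ K : ℝ, ∃ δ > 0, ∀ t t' s s' : ℝ, |t - t0| < δ → |t' - t0| < δ → |s - s0| < δ →
      |s' - s0| < δ → ⟪cr (γ1 t) (γ2 t), γ1 s⟫ = 0 → ⟪cr (γ1 t') (γ2 t'), γ1 s'⟫ = 0 →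
      |t - t'| ≤ K * |s - s'| := by
  have hC0 : 0 ≤ C := le_trans zero_le_one hL.Cpos
  obtain ⟨c, hc, δ, hδ, hmain⟩ := locA_main hL hA ht0 h0 hnp
  refine ⟨C * C / c, δ, hδ, fun t t' s s' ht ht' hs _ h1 h2 => ?_⟩
  have h3 := hmain t t' s ht ht' hs
  rw [h1, zero_sub, abs_neg] at h3
  have h4 : ⟪cr (γ1 t') (γ2 t'), γ1 s⟫ = ⟪cr (γ1 t') (γ2 t'), γ1 s - γ1 s'⟫ := by
    rw [inner_sub_right, h2, sub_zero]
  have h5 : |⟪cr (γ1 t') (γ2 t'), γ1 s⟫| ≤ C * (C * |s - s'|) := by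
    rw [h4]
    exact (abs_real_inner_le_norm _ _).trans
      (mul_le_mul (locA_norm_w hL t') (hL.lip s s') (norm_nonneg _) hC0)
  rw [div_mul_eq_mul_div, le_div_iff₀ hc]
  linarith

/-- (LOCA) Nonparallel degenerate zeros. Proof: `0 = ⟪w t, γ1 s⟫ - ⟪w t0, γ1 s0⟫ = (⟪w t, γ1 s⟫ - ⟪w t0, γ1 s⟫) +
(⟪w t0, γ1 s⟫ - ⟪w t0, γ1 s0⟫)`; the first difference has modulus `≥ c |t - t0|` as in `lipA`, the second is
`o(|s - s0|)` because the derivative of `s ↦ ⟪w t0, γ1 s⟫` at `s0` is `⟪w t0, γ2 s0⟫ = 0`. -/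
theorem critA (hL : Loop L γ γ1 γ2 γ3 V C) {α β : ℝ} (hA : Arc L γ1 γ2 γ3 V α β) {t0 s0 : ℝ}
    (ht0 : t0 ∈ Ioo α β) (hs0 : s0 ∈ Ioo 0 L) (hsV : s0 ∉ V)
    (h0 : ⟪cr (γ1 t0) (γ2 t0), γ1 s0⟫ = 0) (h2 : ⟪cr (γ1 t0) (γ2 t0), γ2 s0⟫ = 0)
    (hnp : cr (γ1 s0) (γ1 t0) ≠ 0) :
    ∀ ε > (0:ℝ), ∃ δ > 0, ∀ t s : ℝ, |t - t0| < δ → |s - s0| < δ →
      ⟪cr (γ1 t) (γ2 t), γ1 s⟫ = 0 → |t - t0| ≤ ε * |s - s0| := by
  intro ε hε
  obtain ⟨c, hc, δ, hδ, hmain⟩ := locA_main hL hA ht0 h0 hnp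
  have hd := hL.hasDerivAt_inner1 (cr (γ1 t0) (γ2 t0)) hs0 hsV
  rw [h2] at hd
  have hev := (hasDerivAt_iff_isLittleO.mp hd).def (by positivity : 0 < ε * c)
  obtain ⟨δ', hδ', hball⟩ := Metric.eventually_nhds_iff.mp hev
  refine ⟨min δ δ', lt_min hδ hδ', fun t s ht hs h1 => ?_⟩
  have h3 := hmain t t0 s (ht.trans_le (min_le_left _ _)) (by simpa using hδ)
    (hs.trans_le (min_le_left _ _))
  rw [h1, zero_sub, abs_neg] at h3
  have h4 : dist s s0 < δ' := by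
    rw [Real.dist_eq]
    exact hs.trans_le (min_le_right _ _)
  have h5 := hball h4
  rw [h0, smul_zero, sub_zero, sub_zero, Real.norm_eq_abs, Real.norm_eq_abs] at h5
  have h6 : c * |t - t0| ≤ c * (ε * |s - s0|) := by linarith
  exact le_of_mul_le_mul_left h6 hc

end Pool.Agent.LoopSpec
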