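import Pool.Agent.Lib_MP_e9ccd1_s.Osc
import Pool.Agent.Lib_MP_e9ccd1_s.GlueA

/-!
# MP_e9ccd1_an, space curves: contribution of a zero (pieces LOCONE, LOCTWO)
-/

set_option autoImplicit false

open MeasureTheory Set Filter Topology
open scoped RealInnerProductSpace
open Pool.Agent.CurveSpec (ex BM norm_ex ex_zero ex_add conj_ex continuous_ex)

namespace Pool.Agent.LoopSpec

variable {E : Type*} [NormedAddCommGroup E] [InnerProductSpace ℝ E]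
variable {L C : ℝ} {γ γ1 γ2 γ3 : ℝ → E} {V : Finset ℝ}

private lemma lo_close {ζ : ℕ → E} {θ : E} (hζ : Dirs ζ θ) {ε : ℝ} (hε : 0 < ε) :
    ∀ᶠ n in atTop, ∀ x : E, |⟪ζ n, x⟫ - ‖ζ n‖ * ⟪θ, x⟫| ≤ ε * ‖ζ n‖ * ‖x‖ := by
  have h1 : ∀ᶠ n in atTop, ‖(‖ζ n‖)⁻¹ • ζ n - θ‖ < ε := by
    have h2 := (tendsto_iff_norm_sub_tendsto_zero.1 hζ.dir)
    exact h2.eventually (gt_mem_nhds hε)
  filter_upwards [h1, hζ.inf.eventually_gt_atTop 0] with n hn hpos x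
  have h3 : ⟪ζ n, x⟫ - ‖ζ n‖ * ⟪θ, x⟫ = ‖ζ n‖ * ⟪(‖ζ n‖)⁻¹ • ζ n - θ, x⟫ := by
    rw [inner_sub_left, inner_smul_left, RCLike.conj_to_real, mul_sub, ← mul_assoc,
      mul_inv_cancel₀ hpos.ne', one_mul]
  rw [h3, abs_mul, abs_of_pos hpos]
  have h4 := abs_real_inner_le_norm ((‖ζ n‖)⁻¹ • ζ n - θ) x
  calc ‖ζ n‖ * |⟪(‖ζ n‖)⁻¹ • ζ n - θ, x⟫| ≤ ‖ζ n‖ * (ε * ‖x‖) := by
        refine mul_le_mul_of_nonneg_left (h4.trans ?_) hpos.le
        exact mul_le_mul_of_nonneg_right hn.le (norm_nonneg x)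
    _ = ε * ‖ζ n‖ * ‖x‖ := by ring

private lemma lo_sign (hL : Loop L γ γ1 γ2 γ3 V C) {θ : E} {a b c : ℝ} (hc : 0 < c)
    (h0 : 0 < a) (h1 : b < L) (hV : ∀ t ∈ Icc a b, t ∉ V)
    (hlow : ∀ t ∈ Icc a b, c ≤ |⟪θ, γ2 t⟫|) :
    (∀ t ∈ Icc a b, c ≤ ⟪θ, γ2 t⟫) ∨ (∀ t ∈ Icc a b, ⟪θ, γ2 t⟫ ≤ -c) := by
  have hcont : ContinuousOn (fun t => ⟪θ, γ2 t⟫) (Icc a b) := fun t ht =>
    (hL.hasDerivAt_inner2 θ ⟨h0.trans_le ht.1, ht.2.trans_lt h1⟩
      (hV t ht)).continuousAt.continuousWithinAt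
  by_contra hcon
  push Not at hcon
  obtain ⟨⟨t, ht, ht1⟩, u, hu, hu1⟩ := hcon
  have ht2 : ⟪θ, γ2 t⟫ ≤ -c := by
    rcases le_abs.1 (hlow t ht) with h2 | h2
    · linarith
    · linarith
  have hu2 : c ≤ ⟪θ, γ2 u⟫ := by
    rcases le_abs.1 (hlow u hu) with h2 | h2
    · exact h2
    · linarith
  have h3 := isPreconnected_Icc.intermediate_value ht hu hcont
  obtain ⟨v, hv, hv0⟩ := h3 ⟨(by linarith : ⟪θ, γ2 t⟫ ≤ 0), (by linarith : 0 ≤ ⟪θ, γ2 u⟫)⟩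
  have h4 := hlow v hv
  simp only at hv0
  rw [hv0, abs_zero] at h4
  linarith

/-- the second derivative test near the zero -/
private lemma lo_mid (hL : Loop L γ γ1 γ2 γ3 V C) {l : E} {f f1 : ℝ → ℂ}
    (hf : ∀ t, HasDerivAt f (f1 t) t) (cf : Continuous f1) {s η' μ B1 : ℝ} (hη' : 0 < η')
    (hμ : 0 < μ) (hin : ∀ t ∈ Icc (s - η') (s + η'), t ∈ Ioo 0 L ∧ t ∉ V)
    (hsgn : (∀ t ∈ Icc (s - η') (s + η'), μ ≤ ⟪l, γ2 t⟫) ∨
      (∀ t ∈ Icc (s - η') (s + η'), ⟪l, γ2 t⟫ ≤ -μ))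
    (hB1 : ∀ t ∈ Icc (s - η') (s + η'), ‖f1 t‖ ≤ B1) :
    ‖∫ t in (s - η')..(s + η'), (f t - f s) * ex (-⟪l, γ t⟫)‖ ≤
      4 / Real.sqrt μ * (3 * B1 * η') := by
  have hsm : s ∈ Icc (s - η') (s + η') := ⟨by linarith, by linarith⟩
  have hB10 : 0 ≤ B1 := (norm_nonneg _).trans (hB1 s hsm)
  have hcg : Continuous (fun t => ex (-⟪l, γ t⟫)) := by
    have := hL.contγ
    exact continuous_ex.comp (continuous_const.inner this).neg
  have hK : ∀ x ∈ Icc (s - η') (s + η'), ‖∫ t in x..(s + η'), ex (-⟪l, γ t⟫)‖ ≤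
      4 / Real.sqrt μ := by
    intro x hx
    have hsub : ∀ t ∈ Icc x (s + η'), t ∈ Icc (s - η') (s + η') := fun t ht =>
      ⟨hx.1.trans ht.1, ht.2⟩
    refine vdc2 (ψ := fun t => -⟪l, γ t⟫) (ψ1 := fun t => -⟪l, γ1 t⟫)
      (ψ2 := fun t => -⟪l, γ2 t⟫) hx.2 hμ (fun t _ => (hL.hasDerivAt_inner l t).neg)
      (fun t ht => (hL.hasDerivAt_inner1 l (hin t (hsub t ht)).1 (hin t (hsub t ht)).2).neg)
      ?_ ?_
    · intro t ht
      exact (hL.hasDerivAt_inner2 l (hin t (hsub t ht)).1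
        (hin t (hsub t ht)).2).neg.continuousAt.continuousWithinAt
    · rcases hsgn with h2 | h2
      · right
        intro t ht
        linarith [h2 t (hsub t ht)]
      · left
        intro t ht
        linarith [h2 t (hsub t ht)]
  have hfd : ∀ t ∈ Icc (s - η') (s + η'), HasDerivAt (fun u => f u - f s) (f1 t) t :=
    fun t _ => (hf t).sub_const _
  have hbd : ∀ t ∈ Icc (s - η') (s + η'), ‖f t - f s‖ ≤ B1 * η' := by
    intro t ht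
    have h3 := (convex_Icc (s - η') (s + η')).norm_image_sub_le_of_norm_hasDerivWithin_le
      (fun x _ => (hf x).hasDerivWithinAt) hB1 hsm ht
    refine h3.trans (mul_le_mul_of_nonneg_left ?_ hB10)
    rw [Real.norm_eq_abs, abs_le]
    exact ⟨by linarith [ht.1], by linarith [ht.2]⟩
  have h4 := amp (g := fun t => ex (-⟪l, γ t⟫)) (by linarith : s - η' ≤ s + η')
    hcg.continuousOn hK hfd cf.continuousOn hbd hB1
  refine h4.trans (le_of_eq ?_)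
  ring

/-- (LOCONE) Zero of order one. Proof: given `ε`, take `η' ≤ η` small: on `[s-η', s+η']` `vdc2` (`μ = (c/2) ‖ζ n‖`, large `n`)
and `amp` with `‖f - f s‖ ≤ B η'` give `≤ const * η'/√‖ζ n‖ ≤ (ε/2)/√‖ζ n‖`; on the two remaining intervals
`⟪θ, γ1⟫ ≠ 0` (`⟪θ, γ1⟫` is strictly monotone on `[s-η, s+η]`), so `outside` gives `O(1/‖ζ n‖)`. -/
theorem loc_one (hL : Loop L γ γ1 γ2 γ3 V C) {ζ : ℕ → E} {θ : E} (hζ : Dirs ζ θ)
    {f f1 : ℝ → ℂ} (hf : ∀ t, HasDerivAt f (f1 t) t) (cf : Continuous f1) {s η c : ℝ}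
    (hη : 0 < η) (hc : 0 < c) (h0 : 0 < s - η) (h1 : s + η < L)
    (hV : ∀ t ∈ Icc (s - η) (s + η), t ∉ V) (hz : ⟪θ, γ1 s⟫ = 0)
    (hlow : ∀ t ∈ Icc (s - η) (s + η), c ≤ |⟪θ, γ2 t⟫|) :
    ∀ ε > (0:ℝ), ∀ᶠ n in atTop, ‖∫ t in (s - η)..(s + η), (f t - f s) * ex (-⟪ζ n, γ t⟫)‖ ≤
      ε / Real.sqrt ‖ζ n‖ := by
  intro ε hε
  have hCpos : 0 < C := by linarith [hL.Cpos]
  have hsm : s ∈ Icc (s - η) (s + η) := ⟨by linarith, by linarith⟩
  have hin : ∀ t ∈ Icc (s - η) (s + η), t ∈ Ioo 0 L := fun t ht =>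
    ⟨h0.trans_le ht.1, ht.2.trans_lt h1⟩
  obtain ⟨B1, hB1⟩ := (isCompact_Icc (a := s - η) (b := s + η)).exists_bound_of_continuousOn
    cf.continuousOn
  have hB10 : 0 ≤ B1 := (norm_nonneg _).trans (hB1 s hsm)
  have hsc : 0 < Real.sqrt (c / 2) := Real.sqrt_pos.2 (by positivity)
  set η' : ℝ := min η (ε * Real.sqrt (c / 2) / (24 * (B1 + 1))) with hη'def
  have hη' : 0 < η' := by positivity
  have hη'η : η' ≤ η := min_le_left _ _
  have hη'2 : 4 / Real.sqrt (c / 2) * (3 * B1 * η') ≤ ε / 2 := by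
    have h2 : η' ≤ ε * Real.sqrt (c / 2) / (24 * (B1 + 1)) := min_le_right _ _
    have h3 : 3 * B1 * η' ≤ 3 * (B1 + 1) * (ε * Real.sqrt (c / 2) / (24 * (B1 + 1))) :=
      mul_le_mul (by linarith) h2 hη'.le (by positivity)
    have h4 : 3 * (B1 + 1) * (ε * Real.sqrt (c / 2) / (24 * (B1 + 1))) =
        ε * Real.sqrt (c / 2) / 8 := by
      field_simp
      norm_num
    rw [h4] at h3
    calc 4 / Real.sqrt (c / 2) * (3 * B1 * η') ≤
          4 / Real.sqrt (c / 2) * (ε * Real.sqrt (c / 2) / 8) :=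
          mul_le_mul_of_nonneg_left h3 (by positivity)
      _ = ε / 2 := by
          field_simp
          norm_num
  have hne : ∀ t ∈ Icc (s - η) (s + η), t ≠ s → ⟪θ, γ1 t⟫ ≠ 0 := by
    intro t ht hts h2
    have key : ∀ a b : ℝ, a < b → a ∈ Icc (s - η) (s + η) → b ∈ Icc (s - η) (s + η) →
        ⟪θ, γ1 a⟫ = 0 → ⟪θ, γ1 b⟫ = 0 → False := by
      intro a b hab ha hb ea eb
      obtain ⟨ξ, hξ, he⟩ := exists_hasDerivAt_eq_zero (f := fun u => ⟪θ, γ1 u⟫)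
        (f' := fun u => ⟪θ, γ2 u⟫) hab
        (continuous_const.inner hL.contγ1).continuousOn (by simp only [ea, eb])
        (fun x hx => hL.hasDerivAt_inner1 θ
          (hin x ⟨ha.1.trans hx.1.le, hx.2.le.trans hb.2⟩)
          (hV x ⟨ha.1.trans hx.1.le, hx.2.le.trans hb.2⟩))
      have h3 := hlow ξ ⟨ha.1.trans hξ.1.le, hξ.2.le.trans hb.2⟩
      rw [he, abs_zero] at h3
      linarith
    rcases lt_or_gt_of_ne hts with h3 | h3
    · exact key t s h3 ht hsm h2 hz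
    · exact key s t h3 hsm ht hz h2
  have hfs : ∀ t, HasDerivAt (fun u => f u - f s) (f1 t) t := fun t => (hf t).sub_const _
  obtain ⟨K1, hK1⟩ := outside hL hζ hfs cf (x := s - η) (y := s - η') h0.le (by linarith)
    (by linarith) (fun t ht => hne t ⟨ht.1, by linarith [ht.2]⟩ (by
      intro h2
      have := ht.2
      linarith))
  obtain ⟨K2, hK2⟩ := outside hL hζ hfs cf (x := s + η') (y := s + η) (by linarith)
    (by linarith) h1.le (fun t ht => hne t ⟨by linarith [ht.1], ht.2⟩ (by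
      intro h2
      have := ht.1
      linarith))
  have hsub : ∀ t ∈ Icc (s - η') (s + η'), t ∈ Icc (s - η) (s + η) := fun t ht =>
    ⟨by linarith [ht.1], by linarith [ht.2]⟩
  have hlarge : ∀ᶠ n in atTop, (|K1| + |K2|) / (ε / 2) ≤ Real.sqrt ‖ζ n‖ :=
    (Real.tendsto_sqrt_atTop.comp hζ.inf).eventually_ge_atTop _
  have hε'0 : 0 < c / (2 * C) := by positivity
  filter_upwards [lo_close hζ hε'0, hζ.inf.eventually_gt_atTop 0, hK1, hK2, hlarge]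
    with n hn hpos hn1 hn2 hn3
  have hdev : ∀ t, |⟪ζ n, γ2 t⟫ - ‖ζ n‖ * ⟪θ, γ2 t⟫| ≤ c / 2 * ‖ζ n‖ := fun t => by
    refine (hn (γ2 t)).trans ?_
    calc c / (2 * C) * ‖ζ n‖ * ‖γ2 t‖ ≤ c / (2 * C) * ‖ζ n‖ * C :=
          mul_le_mul_of_nonneg_left (hL.b2 t) (by positivity)
      _ = c / 2 * ‖ζ n‖ := by field_simp
  have hsgn : (∀ t ∈ Icc (s - η') (s + η'), c / 2 * ‖ζ n‖ ≤ ⟪ζ n, γ2 t⟫) ∨
      (∀ t ∈ Icc (s - η') (s + η'), ⟪ζ n, γ2 t⟫ ≤ -(c / 2 * ‖ζ n‖)) := by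
    rcases lo_sign hL hc h0 h1 hV hlow with h2 | h2
    · left
      intro t ht
      have h3 := (abs_le.1 (hdev t)).1
      have h4 := mul_le_mul_of_nonneg_left (h2 t (hsub t ht)) hpos.le
      linarith
    · right
      intro t ht
      have h3 := (abs_le.1 (hdev t)).2
      have h4 := mul_le_mul_of_nonneg_left (h2 t (hsub t ht)) hpos.le
      linarith
  have hmid := lo_mid hL hf cf hη' (by positivity : 0 < c / 2 * ‖ζ n‖)
    (fun t ht => ⟨hin t (hsub t ht), hV t (hsub t ht)⟩) hsgn (fun t ht => hB1 t (hsub t ht))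
  have hsqrt : Real.sqrt (c / 2 * ‖ζ n‖) = Real.sqrt (c / 2) * Real.sqrt ‖ζ n‖ :=
    Real.sqrt_mul (by positivity) _
  have hsp : 0 < Real.sqrt ‖ζ n‖ := Real.sqrt_pos.2 hpos
  have hmid2 : ‖∫ t in (s - η')..(s + η'), (f t - f s) * ex (-⟪ζ n, γ t⟫)‖ ≤
      ε / 2 / Real.sqrt ‖ζ n‖ := by
    refine hmid.trans ?_
    rw [hsqrt]
    calc 4 / (Real.sqrt (c / 2) * Real.sqrt ‖ζ n‖) * (3 * B1 * η') =
          4 / Real.sqrt (c / 2) * (3 * B1 * η') / Real.sqrt ‖ζ n‖ := by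
          field_simp
      _ ≤ _ := div_le_div_of_nonneg_right hη'2 hsp.le
  have hout : K1 / ‖ζ n‖ + K2 / ‖ζ n‖ ≤ ε / 2 / Real.sqrt ‖ζ n‖ := by
    have h2 : ‖ζ n‖ = Real.sqrt ‖ζ n‖ * Real.sqrt ‖ζ n‖ := (Real.mul_self_sqrt hpos.le).symm
    rw [← add_div, div_le_div_iff₀ hpos hsp]
    rw [div_le_iff₀ (by positivity)] at hn3
    have h3 : K1 + K2 ≤ Real.sqrt ‖ζ n‖ * (ε / 2) :=
      (add_le_add (le_abs_self _) (le_abs_self _)).trans hn3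
    calc (K1 + K2) * Real.sqrt ‖ζ n‖ ≤ Real.sqrt ‖ζ n‖ * (ε / 2) * Real.sqrt ‖ζ n‖ :=
          mul_le_mul_of_nonneg_right h3 hsp.le
      _ = ε / 2 * (Real.sqrt ‖ζ n‖ * Real.sqrt ‖ζ n‖) := by ring
      _ = ε / 2 * ‖ζ n‖ := by rw [← h2]
  have hcint : Continuous (fun t => (f t - f s) * ex (-⟪ζ n, γ t⟫)) := by
    have h2 : Continuous f := continuous_iff_continuousAt.2 fun t => (hf t).continuousAt
    have h3 : Continuous (fun t => ex (-⟪ζ n, γ t⟫)) :=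
      continuous_ex.comp (continuous_const.inner hL.contγ).neg
    exact (h2.sub continuous_const).mul h3
  have hsplit : ∫ t in (s - η)..(s + η), (f t - f s) * ex (-⟪ζ n, γ t⟫) =
      (∫ t in (s - η)..(s - η'), (f t - f s) * ex (-⟪ζ n, γ t⟫)) +
      (∫ t in (s - η')..(s + η'), (f t - f s) * ex (-⟪ζ n, γ t⟫)) +
      ∫ t in (s + η')..(s + η), (f t - f s) * ex (-⟪ζ n, γ t⟫) := by
    rw [intervalIntegral.integral_add_adjacent_intervals (hcint.intervalIntegrable _ _)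
      (hcint.intervalIntegrable _ _),
      intervalIntegral.integral_add_adjacent_intervals (hcint.intervalIntegrable _ _)
      (hcint.intervalIntegrable _ _)]
  rw [hsplit]
  have h5 : ε / Real.sqrt ‖ζ n‖ = ε / 2 / Real.sqrt ‖ζ n‖ + ε / 2 / Real.sqrt ‖ζ n‖ := by ring
  rw [h5]
  refine (norm_add₃_le).trans ?_
  linarith

end Pool.Agent.LoopSpec
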