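import Pool.Agent.Lib_MP_e9ccd1_s.Cross

/-!
# MP_e9ccd1_an, space curves: zero torsion (pieces PLANEA, PLANEB)
-/

set_option autoImplicit false

open MeasureTheory Set Filter Topology
open scoped RealInnerProductSpace
open Pool.Agent.CurveSpec (ex BM norm_ex ex_zero ex_add conj_ex continuous_ex)

namespace Pool.Agent.LoopSpec

variable {ι : Type*} {L C : ℝ} {γ γ1 γ2 γ3 : ℝ → E3} {V : Finset ℝ} {lam : ι → E3}

private lemma planeA_cr_comb (x y : E3) (a b : ℝ) : cr x (a • x + b • y) = b • cr x y := by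
  ext i
  fin_cases i <;> simp [cr] <;> ring

/-- (PLANEA) Zero torsion and nonzero curvature: the tangent stays in a plane. Proof: on an interval
`[a, b] ∋ t0` inside `(0, L) \ V` with `γ2 ≠ 0` put `w = cr γ1 γ2` (`‖w‖ = ‖γ2‖ ≠ 0` because `⟪γ1, γ2⟫ = 0`),
`w' = cr γ1 γ3`. `⟪w, γ3⟫ = 0` gives `γ3 = x γ1 + y γ2` (`exists_comb`), so `w' = y w`. The unit vector
`w/‖w‖` has derivative `0`, so it is constant `= ν`, and `⟪ν, γ1 t⟫ = 0`. -/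
theorem exists_normal (hL : Loop L γ γ1 γ2 γ3 V C)
    (h0 : ∀ t ∈ Ioo 0 L, t ∉ V → ⟪cr (γ1 t) (γ2 t), γ3 t⟫ = 0) {t0 : ℝ} (ht0 : t0 ∈ Ioo 0 L)
    (htV : t0 ∉ V) (hk : γ2 t0 ≠ 0) :
    ∃ (a b : ℝ) (ν : E3), a < b ∧ 0 < a ∧ b < L ∧ ‖ν‖ = 1 ∧ ∀ t ∈ Icc a b,
      t ∉ V ∧ γ2 t ≠ 0 ∧ ⟪ν, γ1 t⟫ = 0 := by
  -- the interval
  have n1 : Ioo 0 L ∈ 𝓝 t0 := Ioo_mem_nhds ht0.1 ht0.2
  have n2 : ((V : Set ℝ)ᶜ) ∈ 𝓝 t0 := V.finite_toSet.isClosed.isOpen_compl.mem_nhds htV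
  have n3 : ∀ᶠ t in 𝓝 t0, γ2 t ≠ 0 := (hL.h3 t0 ht0 htV).continuousAt.eventually_ne hk
  obtain ⟨ε, hε, hball⟩ := Metric.nhds_basis_closedBall.mem_iff.1
    (Filter.inter_mem (Filter.inter_mem n1 n2) n3)
  rw [Real.closedBall_eq_Icc] at hball
  have hI : ∀ t ∈ Icc (t0 - ε) (t0 + ε), t ∈ Ioo 0 L ∧ t ∉ V ∧ γ2 t ≠ 0 := by
    intro t ht
    have := hball ht
    exact ⟨this.1.1, this.1.2, this.2⟩
  have hab : t0 - ε < t0 + ε := by linarith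
  -- the binormal
  have horth : ∀ t ∈ Icc (t0 - ε) (t0 + ε), ⟪γ1 t, γ2 t⟫ = 0 := by
    intro t ht
    obtain ⟨h1, h2, -⟩ := hI t ht
    have d1 := (hL.h2 t h1 h2).inner ℝ (hL.h2 t h1 h2)
    have e1 : (fun s => ⟪γ1 s, γ1 s⟫) = fun _ => (1 : ℝ) := by
      funext s
      rw [real_inner_self_eq_norm_sq, hL.unit s, one_pow]
    rw [e1] at d1
    have h3 := d1.unique (hasDerivAt_const t (1 : ℝ))
    rw [real_inner_comm (γ1 t) (γ2 t)] at h3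
    linarith [real_inner_comm (γ1 t) (γ2 t)]
  set w : ℝ → E3 := fun t => cr (γ1 t) (γ2 t) with hw
  have hwn : ∀ t ∈ Icc (t0 - ε) (t0 + ε), 0 < ‖w t‖ ^ 2 := by
    intro t ht
    rw [hw]
    simp only
    rw [norm_cr_sq, horth t ht, hL.unit t, one_pow, one_mul, zero_pow two_ne_zero, sub_zero]
    exact pow_pos (norm_pos_iff.2 (hI t ht).2.2) 2
  have hwd : ∀ t ∈ Icc (t0 - ε) (t0 + ε), ∃ y : ℝ, HasDerivAt w (y • w t) t := by
    intro t ht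
    obtain ⟨h1, h2, -⟩ := hI t ht
    have hne : cr (γ1 t) (γ2 t) ≠ 0 := by
      intro h
      have := hwn t ht
      rw [hw] at this
      simp only [h] at this
      simp at this
    obtain ⟨x, y, hxy⟩ := exists_comb hne (h0 t h1 h2)
    refine ⟨y, ?_⟩
    have d := hasDerivAt_cr (hL.h2 t h1 h2) (hL.h3 t h1 h2)
    rw [cr_self, zero_add, hxy, planeA_cr_comb] at d
    exact d
  set g : ℝ → E3 := fun t => (√(‖w t‖ ^ 2))⁻¹ • w t with hg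
  have hgd : ∀ t ∈ Icc (t0 - ε) (t0 + ε), HasDerivAt g 0 t := by
    intro t ht
    obtain ⟨y, hy⟩ := hwd t ht
    have hp := hwn t ht
    have hr : 0 < √(‖w t‖ ^ 2) := Real.sqrt_pos.2 hp
    have d1 := (hy.norm_sq.sqrt hp.ne').inv hr.ne'
    have d2 : HasDerivAt g ((√(‖w t‖ ^ 2))⁻¹ • y • w t +
        (-(2 * ⟪w t, y • w t⟫ / (2 * √(‖w t‖ ^ 2))) / √(‖w t‖ ^ 2) ^ 2) • w t) t := d1.smul hy
    have hs : √(‖w t‖ ^ 2) ^ 2 = ‖w t‖ ^ 2 := Real.sq_sqrt hp.le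
    have e : (√(‖w t‖ ^ 2))⁻¹ • y • w t +
        (-(2 * ⟪w t, y • w t⟫ / (2 * √(‖w t‖ ^ 2))) / √(‖w t‖ ^ 2) ^ 2) • w t = 0 := by
      rw [real_inner_smul_right, real_inner_self_eq_norm_sq, smul_smul, ← add_smul]
      have h5 : (√(‖w t‖ ^ 2))⁻¹ * y + -(2 * (y * ‖w t‖ ^ 2) / (2 * √(‖w t‖ ^ 2))) /
          √(‖w t‖ ^ 2) ^ 2 = 0 := by
        rw [hs]
        generalize √(‖w t‖ ^ 2) = r at hr
        generalize ‖w t‖ ^ 2 = q at hp
        field_simp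
        ring
      rw [h5, zero_smul]
    rw [e] at d2
    exact d2
  have hconst := constant_of_has_deriv_right_zero (f := g) (a := t0 - ε) (b := t0 + ε)
    (fun t ht => (hgd t ht).continuousAt.continuousWithinAt)
    (fun t ht => (hgd t ⟨ht.1, ht.2.le⟩).hasDerivWithinAt)
  have ha : t0 - ε ∈ Icc (t0 - ε) (t0 + ε) := ⟨le_rfl, hab.le⟩
  refine ⟨t0 - ε, t0 + ε, g (t0 - ε), hab, (hI _ ha).1.1, (hI _ ⟨hab.le, le_rfl⟩).1.2, ?_, ?_⟩
  · rw [hg]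
    simp only
    have hp := hwn _ ha
    rw [norm_smul, norm_inv, Real.norm_of_nonneg (Real.sqrt_nonneg _), Real.sqrt_sq (norm_nonneg _)]
    have : ‖w (t0 - ε)‖ ≠ 0 := by
      intro h
      rw [h] at hp
      simp at hp
    exact inv_mul_cancel₀ this
  · intro t ht
    refine ⟨(hI t ht).2.1, (hI t ht).2.2, ?_⟩
    rw [← hconst t ht, hg]
    simp only
    rw [real_inner_smul_left, hw]
    simp only
    rw [inner_cr_left, mul_zero]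

end Pool.Agent.LoopSpec
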