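import Pool.Agent.Lib_MP_e9ccd1_s.Arc

/-!
# MP_e9ccd1_an, space curves: almost every parameter is good (piece TYP)
-/

set_option autoImplicit false

open MeasureTheory Set Filter Topology
open scoped RealInnerProductSpace

namespace Pool.Agent.LoopSpec

variable {L C : ℝ} {γ γ1 γ2 γ3 : ℝ → E3} {V : Finset ℝ}

private lemma countable_of_iso {S : Set ℝ} (h : ∀ t ∈ S, ∀ᶠ s in 𝓝[≠] t, s ∉ S) :
    S.Countable := by
  have hd : DiscreteTopology S := by
    rw [discreteTopology_subtype_iff]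
    intro t ht
    exact Filter.inf_principal_eq_bot.2 (h t ht)
  have : Countable S := countable_of_Lindelof_of_discrete
  exact Set.countable_coe_iff.1 this

/-- (TYP) Proof: `g t = ⟪w t, x⟫`, `g' t = ⟪cr (γ1 t) (γ3 t), x⟫`. The zeros with `g' ≠ 0` are isolated, hence
countable. If `g t = 0 = g' t` then `x` is parallel to `γ1 t` (`x = a γ1 t + b γ2 t`, `exists_comb`, and
`0 = g' t = -b ⟪w t, γ3 t⟫`, so `b = 0`), i.e. `x / ‖x‖ = ± γ1 t`; such `t` are isolated too, because the derivative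
`γ2 t` of `γ1` is not zero. -/
theorem typ_avoid (hL : Loop L γ γ1 γ2 γ3 V C) {α β : ℝ} (hA : Arc L γ1 γ2 γ3 V α β) {x : E3}
    (hx : x ≠ 0) : volume {t | t ∈ Ioo α β ∧ ⟪cr (γ1 t) (γ2 t), x⟫ = 0} = 0 := by
  have hw : ∀ t ∈ Ioo α β, cr (γ1 t) (γ2 t) ≠ 0 := by
    intro t ht h0
    exact hA.det t ht (by rw [h0, inner_zero_left])
  have hγ2 : ∀ t ∈ Ioo α β, γ2 t ≠ 0 := by
    intro t ht h0
    apply hA.det t ht
    rw [h0, inner_cr]
    simp
  have hg : ∀ t ∈ Ioo α β, HasDerivAt (fun s => ⟪cr (γ1 s) (γ2 s), x⟫)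
      ⟪cr (γ1 t) (γ3 t), x⟫ t := by
    intro t ht
    have h1 := hasDerivAt_cr (hL.h2 t (hA.sub t ht) (hA.notV t ht))
      (hL.h3 t (hA.sub t ht) (hA.notV t ht))
    have h2 := h1.inner ℝ (hasDerivAt_const t x)
    simpa [cr_self] using h2
  set A : Set ℝ := {t | t ∈ Ioo α β ∧ ⟪cr (γ1 t) (γ2 t), x⟫ = 0 ∧ ⟪cr (γ1 t) (γ3 t), x⟫ ≠ 0}
    with hAdef
  set B : Set ℝ := {t | t ∈ Ioo α β ∧ ∃ a : ℝ, x = a • γ1 t} with hBdef
  have hsub : {t | t ∈ Ioo α β ∧ ⟪cr (γ1 t) (γ2 t), x⟫ = 0} ⊆ A ∪ B := by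
    rintro t ⟨ht, h0⟩
    by_cases h1 : ⟪cr (γ1 t) (γ3 t), x⟫ = 0
    · right
      refine ⟨ht, ?_⟩
      obtain ⟨a, b, hab⟩ := exists_comb (hw t ht) h0
      have hb : b = 0 := by
        rw [hab, inner_add_right, inner_smul_right, inner_smul_right, inner_cr_left,
          inner_cr_swap] at h1
        have h2 : b * ⟪cr (γ1 t) (γ2 t), γ3 t⟫ = 0 := by linarith
        exact (mul_eq_zero.1 h2).resolve_right (hA.det t ht)
      exact ⟨a, by rw [hab, hb]; simp⟩
    · left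
      exact ⟨ht, h0, h1⟩
  have cA : A.Countable := by
    apply countable_of_iso
    rintro t ⟨ht, h0, h1⟩
    filter_upwards [(hg t ht).eventually_ne (c := 0) h1] with s hs hsA
    exact hs hsA.2.1
  have cB : B.Countable := by
    apply countable_of_iso
    rintro t ⟨ht, a, hta⟩
    have hd := hL.h2 t (hA.sub t ht) (hA.notV t ht)
    filter_upwards [hd.eventually_ne (c := γ1 t) (hγ2 t ht),
      hd.eventually_ne (c := -γ1 t) (hγ2 t ht)] with s h1 h2 hsB
    obtain ⟨_, b, hsb⟩ := hsB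
    have hn1 : ‖x‖ = |a| := by rw [hta, norm_smul, hL.unit]; simp
    have hn2 : ‖x‖ = |b| := by rw [hsb, norm_smul, hL.unit]; simp
    have hb : b ≠ 0 := by
      rintro rfl
      exact hx (by rw [hsb]; simp)
    rcases abs_eq_abs.1 (hn1.symm.trans hn2) with h | h
    · apply h1
      rw [h] at hta
      have : b • γ1 s = b • γ1 t := by rw [← hsb, ← hta]
      exact smul_right_injective _ hb this
    · apply h2
      rw [h] at hta
      have : b • γ1 s = b • (-γ1 t) := by rw [← hsb, hta]; simp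
      exact smul_right_injective _ hb this
  exact measure_mono_null hsub ((cA.union cB).measure_zero _)

end Pool.Agent.LoopSpec
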