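import Pool.Agent.Lib_MP_e9ccd1_s.ZerosA

/-!
# MP_e9ccd1_an, space curves: zeros of `⟪θ, γ1⟫` (piece ZEROS)
-/

set_option autoImplicit false
set_option linter.unusedVariables false

open MeasureTheory Set Filter Topology
open scoped RealInnerProductSpace

namespace Pool.Agent.LoopSpec

variable {E : Type*} [NormedAddCommGroup E] [InnerProductSpace ℝ E]
variable {L C : ℝ} {γ γ1 γ2 γ3 : ℝ → E} {V : Finset ℝ}

/-- a property which holds near `s` holds on small closed intervals around `s` -/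
private lemma eventually_Icc {R : ℝ → Prop} {s : ℝ} (h : ∀ᶠ t in 𝓝 s, R t) :
    ∀ᶠ ε in 𝓝[>] (0:ℝ), ∀ t ∈ Icc (s - ε) (s + ε), R t := by
  obtain ⟨δ, hδ, h1⟩ := Metric.eventually_nhds_iff.1 h
  filter_upwards [Ioo_mem_nhdsGT hδ] with ε hε t ht
  apply h1
  rw [Real.dist_eq, abs_lt]
  constructor
  · linarith [ht.1, hε.2]
  · linarith [ht.2, hε.2]

/-- (ZEROS) All data about the zeros. Proof: the zero set in `[0, L]` is compact and discrete (`isolated`; `0, L ∈ V` and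
the other points of `V` are not zeros), hence finite. `⟪θ, γ⟫` takes equal values at `0, L` and is not constant (finitely
many zeros of the derivative), so it has an interior extremum: `order_one`. Then choose `c` and `η` by continuity of
`⟪θ, γ2⟫`, `⟪θ, γ3⟫` (`c3`) at the finitely many zeros. -/
theorem zeros_data (hL : Loop L γ γ1 γ2 γ3 V C) {θ : E} (hθ : ‖θ‖ = 1)
    (hV : ∀ v ∈ V, v ∈ Icc 0 L → ⟪θ, γ1 v⟫ ≠ 0)
    (hz : ∀ s ∈ Ioo 0 L, s ∉ V → ⟪θ, γ1 s⟫ = 0 → ⟪θ, γ2 s⟫ ≠ 0 ∨ ⟪θ, γ3 s⟫ ≠ 0) :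
    ∃ (Z : Finset ℝ) (η c : ℝ), 0 < η ∧ 0 < c ∧ (∀ t ∈ Icc 0 L, ⟪θ, γ1 t⟫ = 0 → t ∈ Z) ∧
      (∀ s ∈ Z, 0 < s - η ∧ s + η < L ∧ ⟪θ, γ1 s⟫ = 0 ∧ (∀ t ∈ Icc (s - η) (s + η), t ∉ V) ∧
        ((⟪θ, γ2 s⟫ ≠ 0 ∧ ∀ t ∈ Icc (s - η) (s + η), c ≤ |⟪θ, γ2 t⟫|) ∨
          (⟪θ, γ2 s⟫ = 0 ∧ ∀ t ∈ Icc (s - η) (s + η), c ≤ |⟪θ, γ3 t⟫|))) ∧
      (∀ s ∈ Z, ∀ s' ∈ Z, s ≠ s' → 2 * η < |s - s'|) ∧ (∃ s ∈ Z, ⟪θ, γ2 s⟫ ≠ 0) := by
  classical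
  have hgc : Continuous (fun t => ⟪θ, γ1 t⟫) := continuous_const.inner hL.contγ1
  -- zeros lie in the open interval and outside `V`
  have hin : ∀ t ∈ Icc 0 L, ⟪θ, γ1 t⟫ = 0 → t ∈ Ioo 0 L ∧ t ∉ V := by
    intro t ht h0
    have h1 : t ∉ V := fun h => hV t h ht h0
    refine ⟨⟨lt_of_le_of_ne ht.1 ?_, lt_of_le_of_ne ht.2 ?_⟩, h1⟩
    · rintro rfl; exact h1 hL.mem0
    · rintro rfl; exact h1 hL.memL
  set S : Set ℝ := {t | t ∈ Icc 0 L ∧ ⟪θ, γ1 t⟫ = 0} with hS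
  have hSfin : S.Finite := by
    by_contra hinf
    obtain ⟨x, hx, hacc⟩ := Set.Infinite.exists_accPt_of_subset_isCompact hinf isCompact_Icc
      (fun t ht => ht.1)
    have hclosed : IsClosed S := isClosed_Icc.inter (isClosed_eq hgc continuous_const)
    have hxS : x ∈ S := by
      have : x ∈ closure S := mem_closure_iff_clusterPt.2 hacc.clusterPt
      rwa [hclosed.closure_eq] at this
    obtain ⟨h1, h2⟩ := hin x hxS.1 hxS.2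
    obtain ⟨δ, hδ, h3⟩ := isolated hL h1 h2 hxS.2 (hz x h1 h2 hxS.2)
    rw [accPt_iff_frequently] at hacc
    have h4 : ∀ᶠ y in 𝓝 x, |y - x| < δ := by
      have := Metric.ball_mem_nhds x hδ
      filter_upwards [this] with y hy
      rwa [Metric.mem_ball, Real.dist_eq] at hy
    obtain ⟨y, ⟨hy1, hy2⟩, hy3⟩ := (hacc.and_eventually h4).exists
    exact h3 y hy3 hy1 hy2.2
  set Z := hSfin.toFinset with hZ
  have hmem : ∀ t, t ∈ Z ↔ t ∈ Icc 0 L ∧ ⟪θ, γ1 t⟫ = 0 := fun t => by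
    rw [hZ, Set.Finite.mem_toFinset]; rfl
  have hZin : ∀ s ∈ Z, s ∈ Ioo 0 L ∧ s ∉ V ∧ ⟪θ, γ1 s⟫ = 0 := by
    intro s hs
    have h1 := (hmem s).1 hs
    obtain ⟨h2, h3⟩ := hin s h1.1 h1.2
    exact ⟨h2, h3, h1.2⟩
  -- an interior extremum
  obtain ⟨s0, hs0, hext⟩ := exists_isLocalExtr_Ioo hL.Lpos
    ((continuous_const.inner hL.contγ).continuousOn : ContinuousOn (fun t => ⟪θ, γ t⟫) (Icc 0 L))
    (by simp only [hL.closed])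
  have hs00 : ⟪θ, γ1 s0⟫ = 0 := hext.hasDerivAt_eq_zero (hL.hasDerivAt_inner θ s0)
  have hs0Z : s0 ∈ Z := (hmem s0).2 ⟨⟨hs0.1.le, hs0.2.le⟩, hs00⟩
  obtain ⟨-, hs0V, -⟩ := hZin s0 hs0Z
  have hs02 := order_one hL hs0 hs0V hs00 (hz s0 hs0 hs0V hs00) hext
  -- the local condition
  have hopen : IsOpen (Ioo 0 L \ (V : Set ℝ)) := isOpen_Ioo.sdiff V.finite_toSet.isClosed
  have hloc : ∀ s ∈ Z, ∀ᶠ ε in 𝓝[>] (0:ℝ), 0 < s - ε ∧ s + ε < L ∧ ⟪θ, γ1 s⟫ = 0 ∧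
      (∀ t ∈ Icc (s - ε) (s + ε), t ∉ V) ∧
        ((⟪θ, γ2 s⟫ ≠ 0 ∧ ∀ t ∈ Icc (s - ε) (s + ε), ε ≤ |⟪θ, γ2 t⟫|) ∨
          (⟪θ, γ2 s⟫ = 0 ∧ ∀ t ∈ Icc (s - ε) (s + ε), ε ≤ |⟪θ, γ3 t⟫|)) := by
    intro s hs
    obtain ⟨hsI, hsV, hs0'⟩ := hZin s hs
    have hnb : ∀ᶠ t in 𝓝 s, t ∈ Ioo 0 L \ (V : Set ℝ) := hopen.mem_nhds ⟨hsI, hsV⟩
    have h1 := eventually_Icc hnb
    have hpos : ∀ᶠ ε in 𝓝[>] (0:ℝ), 0 < ε := eventually_mem_nhdsWithin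
    have h3c : ContinuousAt γ3 s := hL.c3.continuousAt (hopen.mem_nhds ⟨hsI, hsV⟩)
    have h2c : ContinuousAt γ2 s := (hL.h3 s hsI hsV).continuousAt
    have key : ∀ G : ℝ → E, ContinuousAt G s → ⟪θ, G s⟫ ≠ 0 →
        ∀ᶠ ε in 𝓝[>] (0:ℝ), ∀ t ∈ Icc (s - ε) (s + ε), ε ≤ |⟪θ, G t⟫| := by
      intro G hG hne
      have hGc : ContinuousAt (fun t => |⟪θ, G t⟫|) s := (continuousAt_const.inner hG).abs
      have hpos' : 0 < |⟪θ, G s⟫| := abs_pos.2 hne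
      have h5 : ∀ᶠ t in 𝓝 s, |⟪θ, G s⟫| / 2 < |⟪θ, G t⟫| :=
        hGc.eventually (lt_mem_nhds (by linarith))
      have h6 := eventually_Icc h5
      filter_upwards [h6, Ioo_mem_nhdsGT (half_pos hpos')] with ε h7 h8 t ht
      linarith [h7 t ht, h8.2]
    have h4 : ∀ᶠ ε in 𝓝[>] (0:ℝ),
        ((⟪θ, γ2 s⟫ ≠ 0 ∧ ∀ t ∈ Icc (s - ε) (s + ε), ε ≤ |⟪θ, γ2 t⟫|) ∨
          (⟪θ, γ2 s⟫ = 0 ∧ ∀ t ∈ Icc (s - ε) (s + ε), ε ≤ |⟪θ, γ3 t⟫|)) := by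
      by_cases h2 : ⟪θ, γ2 s⟫ = 0
      · have h3 : ⟪θ, γ3 s⟫ ≠ 0 := (hz s hsI hsV hs0').resolve_left (by simpa using h2)
        filter_upwards [key γ3 h3c h3] with ε h5
        exact Or.inr ⟨h2, h5⟩
      · filter_upwards [key γ2 h2c h2] with ε h5
        exact Or.inl ⟨h2, h5⟩
    filter_upwards [h1, hpos, h4] with ε h5 h6 h7
    have h8 := h5 (s - ε) ⟨le_rfl, by linarith⟩
    have h9 := h5 (s + ε) ⟨by linarith, le_rfl⟩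
    exact ⟨h8.1.1, h9.1.2, hs0', fun t ht => (h5 t ht).2, h7⟩
  have hsep : ∀ s ∈ Z, ∀ᶠ ε in 𝓝[>] (0:ℝ), ∀ s' ∈ Z, s ≠ s' → 2 * ε < |s - s'| := by
    intro s _
    rw [Filter.eventually_all_finset]
    intro s' _
    by_cases h : s = s'
    · filter_upwards with ε h1
      exact absurd h h1
    · have h1 : 0 < |s - s'| := abs_pos.2 (sub_ne_zero.2 h)
      filter_upwards [Ioo_mem_nhdsGT (half_pos h1)] with ε h2 _
      linarith [h2.2]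
  have hall1 := (Filter.eventually_all_finset Z).2 hloc
  have hall2 := (Filter.eventually_all_finset Z).2 hsep
  have hpos : ∀ᶠ ε in 𝓝[>] (0:ℝ), 0 < ε := eventually_mem_nhdsWithin
  obtain ⟨ε, ⟨h1, h2⟩, h3⟩ := ((hall1.and hall2).and hpos).exists
  exact ⟨Z, ε, ε, h3, h3, fun t ht h0 => (hmem t).2 ⟨ht, h0⟩, h1, h2, s0, hs0Z, hs02⟩

end Pool.Agent.LoopSpec
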