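import Pool.Agent.Lib_MP_e9ccd1_s.Base

/-!
# MP_e9ccd1_an, space curves: zeros of `⟪θ, γ1⟫` (piece ZEROS)
-/

set_option autoImplicit false

open MeasureTheory Set Filter Topology
open scoped RealInnerProductSpace

namespace Pool.Agent.LoopSpec

variable {E : Type*} [NormedAddCommGroup E] [InnerProductSpace ℝ E]
variable {L C : ℝ} {γ γ1 γ2 γ3 : ℝ → E} {V : Finset ℝ}

private lemma two_sided {g g1 : ℝ → ℝ} {s g2 : ℝ} (hg : ∀ᶠ t in 𝓝 s, HasDerivAt g (g1 t) t)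
    (hg1 : HasDerivAt g1 g2 s) (h0 : g s = 0) (h1 : g1 s = 0) (h2 : 0 < g2) :
    ∀ᶠ t in 𝓝[≠] s, 0 < g t := by
  have hslope : ∀ᶠ t in 𝓝[≠] s, 0 < slope g1 s t :=
    (hasDerivAt_iff_tendsto_slope.1 hg1).eventually (lt_mem_nhds h2)
  obtain ⟨δ, hδ, hball⟩ := Metric.eventually_nhds_iff.1
    (hg.and (eventually_nhdsWithin_iff.1 hslope))
  rw [eventually_nhdsWithin_iff, Metric.eventually_nhds_iff]
  refine ⟨δ, hδ, fun t ht hts => ?_⟩
  rw [mem_compl_iff, mem_singleton_iff] at hts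
  rw [Real.dist_eq] at ht
  rcases lt_or_gt_of_ne hts with h | h
  · -- t < s
    have hd : ∀ x ∈ Icc t s, HasDerivAt g (g1 x) x := by
      intro x hx
      refine (hball (y := x) ?_).1
      rw [Real.dist_eq]
      rw [abs_of_nonpos (by linarith)] at ht
      rw [abs_of_nonpos (by linarith [hx.2])]
      linarith [hx.1]
    obtain ⟨c, hc, hc2⟩ := exists_hasDerivAt_eq_slope g g1 h
      (fun x hx => (hd x hx).continuousAt.continuousWithinAt) (fun x hx => hd x ⟨hx.1.le, hx.2.le⟩)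
    have hcs : 0 < slope g1 s c := by
      refine (hball (y := c) ?_).2 ?_
      · rw [Real.dist_eq]
        rw [abs_of_nonpos (by linarith)] at ht
        rw [abs_of_nonpos (by linarith [hc.2])]
        linarith [hc.1]
      · exact hc.2.ne
    rw [slope_def_field, h1, sub_zero, hc2, h0, zero_sub] at hcs
    have hst : 0 < s - t := by linarith
    have hcs' : c - s < 0 := by linarith [hc.2]
    by_contra hneg
    push Not at hneg
    have h3 : 0 ≤ -g t / (s - t) := div_nonneg (by linarith) hst.le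
    have h4 : -g t / (s - t) / (c - s) ≤ 0 := div_nonpos_of_nonneg_of_nonpos h3 hcs'.le
    linarith
  · have hd : ∀ x ∈ Icc s t, HasDerivAt g (g1 x) x := by
      intro x hx
      refine (hball (y := x) ?_).1
      rw [Real.dist_eq]
      rw [abs_of_nonneg (by linarith)] at ht
      rw [abs_of_nonneg (by linarith [hx.1])]
      linarith [hx.2]
    obtain ⟨c, hc, hc2⟩ := exists_hasDerivAt_eq_slope g g1 h
      (fun x hx => (hd x hx).continuousAt.continuousWithinAt) (fun x hx => hd x ⟨hx.1.le, hx.2.le⟩)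
    have hcs : 0 < slope g1 s c := by
      refine (hball (y := c) ?_).2 ?_
      · rw [Real.dist_eq]
        rw [abs_of_nonneg (by linarith)] at ht
        rw [abs_of_nonneg (by linarith [hc.1])]
        linarith [hc.2]
      · exact hc.1.ne'
    rw [slope_def_field, h1, sub_zero, hc2, h0, sub_zero] at hcs
    have hst : 0 < t - s := by linarith
    have hcs' : 0 < c - s := by linarith [hc.1]
    by_contra hneg
    push Not at hneg
    have h3 : g t / (t - s) ≤ 0 := div_nonpos_of_nonpos_of_nonneg hneg hst.le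
    have h4 : g t / (t - s) / (c - s) ≤ 0 := div_nonpos_of_nonpos_of_nonneg h3 hcs'.le
    linarith

private lemma two_sided' {g g1 : ℝ → ℝ} {s g2 : ℝ} (hg : ∀ᶠ t in 𝓝 s, HasDerivAt g (g1 t) t)
    (hg1 : HasDerivAt g1 g2 s) (h0 : g s = 0) (h1 : g1 s = 0) (h2 : g2 ≠ 0) :
    ∀ᶠ t in 𝓝[≠] s, 0 < g2 * g t := by
  apply two_sided (g := fun t => g2 * g t) (g1 := fun t => g2 * g1 t) (g2 := g2 * g2)
  · filter_upwards [hg] with t ht
    exact ht.const_mul g2
  · exact hg1.const_mul g2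
  · simp only [h0, mul_zero]
  · simp only [h1, mul_zero]
  · exact mul_self_pos.2 h2

private lemma ev_deriv (hL : Loop L γ γ1 γ2 γ3 V C) (θ : E) {s : ℝ} (hs : s ∈ Ioo 0 L)
    (hsV : s ∉ V) : ∀ᶠ t in 𝓝 s, HasDerivAt (fun t => ⟪θ, γ1 t⟫) ⟪θ, γ2 t⟫ t := by
  have h1 : ∀ᶠ t in 𝓝 s, t ∈ Ioo 0 L := isOpen_Ioo.mem_nhds hs
  have h2 : ∀ᶠ t in 𝓝 s, t ∈ ((V : Set ℝ))ᶜ :=
    (V.finite_toSet.isClosed.isOpen_compl).mem_nhds (by simpa using hsV)
  filter_upwards [h1, h2] with t ht1 ht2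
  exact hL.hasDerivAt_inner1 θ ht1 (by simpa using ht2)

/-- (ZEROS) Zeros of order at most two are isolated. Proof: `g = ⟪θ, γ1⟫`, `g' = ⟪θ, γ2⟫`, `g'' = ⟪θ, γ3⟫` near `s`.
If `g' s ≠ 0`: clear. If `g' s = 0`, `g'' s ≠ 0`: `g'` has constant sign on each side of `s`, so `g` is strictly
monotone on each side. In the second case `g` has the same strict sign on both sides (order two). -/
theorem isolated (hL : Loop L γ γ1 γ2 γ3 V C) {θ : E} {s : ℝ} (hs : s ∈ Ioo 0 L) (hsV : s ∉ V)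
    (h0 : ⟪θ, γ1 s⟫ = 0) (hz : ⟪θ, γ2 s⟫ ≠ 0 ∨ ⟪θ, γ3 s⟫ ≠ 0) :
    ∃ δ > 0, ∀ t, |t - s| < δ → t ≠ s → ⟪θ, γ1 t⟫ ≠ 0 := by
  have key : ∀ᶠ t in 𝓝[≠] s, ⟪θ, γ1 t⟫ ≠ 0 := by
    by_cases h : ⟪θ, γ2 s⟫ = 0
    · have h3 : ⟪θ, γ3 s⟫ ≠ 0 := hz.resolve_left (by simpa using h)
      have := two_sided' (ev_deriv hL θ hs hsV) (hL.hasDerivAt_inner2 θ hs hsV) h0 h h3
      filter_upwards [this] with t ht h4
      rw [h4, mul_zero] at ht
      exact lt_irrefl _ ht
    · exact (hL.hasDerivAt_inner1 θ hs hsV).eventually_ne h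
  rw [eventually_nhdsWithin_iff, Metric.eventually_nhds_iff] at key
  obtain ⟨δ, hδ, h⟩ := key
  exact ⟨δ, hδ, fun t ht hts => h (by rwa [Real.dist_eq]) hts⟩

/-- (ZEROS) An interior extremum of `⟪θ, γ⟫` is a zero of order one. Proof: if `g' s = 0`, `g'' s ≠ 0` then `g`
has the same strict sign on both sides of `s` (see `isolated`), so `⟪θ, γ⟫` is strictly monotone near `s`. -/
theorem order_one (hL : Loop L γ γ1 γ2 γ3 V C) {θ : E} {s : ℝ} (hs : s ∈ Ioo 0 L) (hsV : s ∉ V)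
    (h0 : ⟪θ, γ1 s⟫ = 0) (hz : ⟪θ, γ2 s⟫ ≠ 0 ∨ ⟪θ, γ3 s⟫ ≠ 0)
    (hext : IsLocalExtr (fun t => ⟪θ, γ t⟫) s) : ⟪θ, γ2 s⟫ ≠ 0 := by
  intro h
  have h3 : ⟪θ, γ3 s⟫ ≠ 0 := hz.resolve_left (by simpa using h)
  set c := ⟪θ, γ3 s⟫ with hc
  have hpos := two_sided' (ev_deriv hL θ hs hsV) (hL.hasDerivAt_inner2 θ hs hsV) h0 h h3
  rw [eventually_nhdsWithin_iff, Metric.eventually_nhds_iff] at hpos
  obtain ⟨δ, hδ, hpos⟩ := hpos
  -- the function `G = c * ⟪θ, γ⟫` is strictly monotone near `s`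
  have hG : ∀ t, HasDerivAt (fun t => c * ⟪θ, γ t⟫) (c * ⟪θ, γ1 t⟫) t := fun t =>
    (hL.hasDerivAt_inner θ t).const_mul c
  have hright : ∀ t, s < t → t < s + δ → c * ⟪θ, γ s⟫ < c * ⟪θ, γ t⟫ := by
    intro t h1 h2
    obtain ⟨x, hx, hx2⟩ := exists_hasDerivAt_eq_slope (fun t => c * ⟪θ, γ t⟫)
      (fun t => c * ⟪θ, γ1 t⟫) h1 (fun y _ => (hG y).continuousAt.continuousWithinAt)
      (fun y _ => hG y)
    have h4 : 0 < c * ⟪θ, γ1 x⟫ := by
      refine hpos (y := x) ?_ hx.1.ne'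
      rw [Real.dist_eq, abs_of_pos (by linarith [hx.1])]
      linarith [hx.2]
    rw [hx2] at h4
    have h5 : 0 < t - s := by linarith
    have := (div_pos_iff_of_pos_right h5).1 h4
    linarith
  have hleft : ∀ t, t < s → s - δ < t → c * ⟪θ, γ t⟫ < c * ⟪θ, γ s⟫ := by
    intro t h1 h2
    obtain ⟨x, hx, hx2⟩ := exists_hasDerivAt_eq_slope (fun t => c * ⟪θ, γ t⟫)
      (fun t => c * ⟪θ, γ1 t⟫) h1 (fun y _ => (hG y).continuousAt.continuousWithinAt)
      (fun y _ => hG y)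
    have h4 : 0 < c * ⟪θ, γ1 x⟫ := by
      refine hpos (y := x) ?_ hx.2.ne
      rw [Real.dist_eq, abs_of_neg (by linarith [hx.2])]
      linarith [hx.1]
    rw [hx2] at h4
    have h5 : 0 < s - t := by linarith
    have := (div_pos_iff_of_pos_right h5).1 h4
    linarith
  -- contradiction with the local extremum
  have hcontra : ∀ {P : ℝ → ℝ → Prop}, (∀ᶠ t in 𝓝 s, P ⟪θ, γ t⟫ ⟪θ, γ s⟫) →
      ∃ t₁ t₂ : ℝ, s < t₁ ∧ t₁ < s + δ ∧ t₂ < s ∧ s - δ < t₂ ∧ P ⟪θ, γ t₁⟫ ⟪θ, γ s⟫ ∧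
        P ⟪θ, γ t₂⟫ ⟪θ, γ s⟫ := by
    intro P hP
    obtain ⟨η, hη, h'⟩ := Metric.eventually_nhds_iff.1 hP
    refine ⟨s + min η δ / 2, s - min η δ / 2, ?_, ?_, ?_, ?_, h' ?_, h' ?_⟩
    · have := lt_min hη hδ; linarith
    · have := lt_min hη hδ; have := min_le_right η δ; linarith
    · have := lt_min hη hδ; linarith
    · have := lt_min hη hδ; have := min_le_right η δ; linarith
    · have := lt_min hη hδ; have := min_le_left η δ
      rw [Real.dist_eq, add_sub_cancel_left, abs_of_pos (by linarith)]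
      linarith
    · have := lt_min hη hδ; have := min_le_left η δ
      rw [Real.dist_eq, sub_sub_cancel_left, abs_neg, abs_of_pos (by linarith)]
      linarith
  rcases hext with hmin | hmax
  · obtain ⟨t₁, t₂, a1, a2, a3, a4, a5, a6⟩ := hcontra (P := fun x y => y ≤ x) hmin
    have b1 := hright t₁ a1 a2
    have b2 := hleft t₂ a3 a4
    rcases lt_or_gt_of_ne h3 with hc0 | hc0
    · nlinarith
    · nlinarith
  · obtain ⟨t₁, t₂, a1, a2, a3, a4, a5, a6⟩ := hcontra (P := fun x y => x ≤ y) hmax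
    have b1 := hright t₁ a1 a2
    have b2 := hleft t₂ a3 a4
    rcases lt_or_gt_of_ne h3 with hc0 | hc0
    · nlinarith
    · nlinarith

end Pool.Agent.LoopSpec
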